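import Pool.Agent.UQC.SpAct

/-!
MODULE Disc (problem MP_7936f4_al).  An element of Sp(n,1) moving all points of Sg n E very little is near 1 or -1.
COMPLETE PAPER PROOF.  Uses SpDef and (statements of) SpAct.

Let g = (A b; c d) (A_ji = g j.castSucc i.castSucc, b_j = g j.castSucc last, c_i = g last i.castSucc, d = g last last).
Suppose |actF g p - p| < δ for all p in Sg n E, δ <= 1/64.
(1) p = (0,v), |v| = 1 (E is nontrivial): zv g 0 = (b,d), so |b_j d^{-1}| < δ and |1/|d| - 1| < δ.  Entry (last,last) of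
    g* J g = J: sum |b_j|^2 - |d|^2 = -1, so |d| >= 1, and |d| < 1/(1-δ) <= 1 + 2δ <= 2, |b_j| <= 2δ.
(2) p = (±e_i, 0) (X = ± the i-th unit vector): coordinate j of zv is ±A_ji + b_j, lam = ±c_i + d.
    |(±A_ji + b_j)(±c_i + d)^{-1} ∓ δ_ji| < δ.  For j = i: |A_ii + b_i - c_i - d| <= δ(|c_i|+|d|) and
    |-A_ii + b_i - c_i + d| <= δ(|c_i|+|d|); add: 2|b_i - c_i| <= 2δ(|c_i|+|d|); so |c_i|(1-δ) <= 2δ + 2δ, |c_i| <= 8δ.
(3) p = (e_i l, 0), l a unit quaternion: |A_ji l + b_j - δ_ji l (c_i l + d)| <= δ(|c_i|+|d|) <= 3δ, hence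
    |A_ji l - δ_ji l d| <= 3δ + 2δ + 8δ <= 16 δ.  l = 1: |A_ji - δ_ji d| <= 16δ.  l = i, j (imaginary units):
    |d l - l d| <= 32δ.  With d = d0 + d1 i + d2 j + d3 k: |d i - i d| = 2 sqrt(d2^2+d3^2), |d j - j d| =
    2 sqrt(d1^2+d3^2), so |d1|,|d2|,|d3| <= 16δ.
(4) |d| in [1, 1+2δ]: d0^2 = |d|^2 - (d1^2+d2^2+d3^2) >= 1 - 768 δ^2, d0^2 <= (1+2δ)^2; so ||d0| - 1| <= |d0^2 - 1|
    <= 768δ^2 + 8δ <= 32 δ.  If d0 >= 0: |d - 1| <= |d0-1| + |d1|+|d2|+|d3| <= 80δ, |A_ji - δ_ji| <= 96δ, |b_j| <= 2δ,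
    |c_i| <= 8δ, so all entries of g - 1 are <= 96δ.  If d0 < 0 the same for g + 1.  Take δ = min(1/64, ε/100).
(n >= 1 is used to have an index i.)
-/

open scoped Quaternion Matrix RealInnerProductSpace

namespace Pool.UQC

variable {n : ℕ} {E : Type} [NormedAddCommGroup E] [InnerProductSpace ℝ E]

private theorem qnorm_sq (q : ℍ[ℝ]) : ‖q‖ ^ 2 = q.re ^ 2 + q.imI ^ 2 + q.imJ ^ 2 + q.imK ^ 2 := by
  rw [pow_two, ← Quaternion.normSq_eq_norm_mul_self, Quaternion.normSq_def']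

private theorem zv_eq (g : Matrix (Fin (n + 1)) (Fin (n + 1)) ℍ[ℝ]) (X : Fin n → ℍ[ℝ])
    (k : Fin (n + 1)) :
    zv g X k = ∑ j : Fin n, g k j.castSucc * X j + g k (Fin.last n) := by
  unfold zv hat
  rw [Fin.sum_univ_castSucc]
  simp

private theorem zv_single (g : Matrix (Fin (n + 1)) (Fin (n + 1)) ℍ[ℝ]) (i : Fin n) (l : ℍ[ℝ])
    (k : Fin (n + 1)) :
    zv g (Pi.single i l) k = g k i.castSucc * l + g k (Fin.last n) := by
  rw [zv_eq, Finset.sum_eq_single i]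
  · simp
  · intro b _ hb
    rw [Pi.single_eq_of_ne hb, mul_zero]
  · intro h
    exact absurd (Finset.mem_univ i) h

private theorem single_mem (i : Fin n) (l : ℍ[ℝ]) (hl : ‖l‖ = 1) :
    ((Pi.single i l, 0) : (Fin n → ℍ[ℝ]) × E) ∈ Sg n E := by
  show ∑ k, ‖(Pi.single i l : Fin n → ℍ[ℝ]) k‖ ^ 2 + ‖(0 : E)‖ ^ 2 = 1
  rw [Finset.sum_eq_single i]
  · simp [hl]
  · intro b _ hb
    rw [Pi.single_eq_of_ne hb]
    simp
  · intro h
    exact absurd (Finset.mem_univ i) h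

private theorem form_last (g : (Matrix (Fin (n + 1)) (Fin (n + 1)) ℍ[ℝ])ˣ) (hg : g ∈ Spn n) :
    ∑ j : Fin n, ‖g.1 j.castSucc (Fin.last n)‖ ^ 2 - ‖g.1 (Fin.last n) (Fin.last n)‖ ^ 2 = -1 := by
  have h : (g : Matrix (Fin (n + 1)) (Fin (n + 1)) ℍ[ℝ])ᴴ * Jm n *
    (g : Matrix (Fin (n + 1)) (Fin (n + 1)) ℍ[ℝ]) = Jm n := hg
  have h2 := congrFun (congrFun h (Fin.last n)) (Fin.last n)
  rw [Matrix.mul_apply] at h2
  have h3 : ∀ j, ((g : Matrix (Fin (n + 1)) (Fin (n + 1)) ℍ[ℝ])ᴴ * Jm n) (Fin.last n) j =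
      star (g.1 j (Fin.last n)) * (if j = Fin.last n then -1 else 1) := by
    intro j
    unfold Jm
    rw [Matrix.mul_diagonal, Matrix.conjTranspose_apply]
  simp_rw [h3] at h2
  rw [Fin.sum_univ_castSucc] at h2
  have h4 : Jm n (Fin.last n) (Fin.last n) = -1 := by
    unfold Jm
    rw [Matrix.diagonal_apply_eq, if_pos rfl]
  rw [h4, if_pos rfl] at h2
  have h5 : ∀ j : Fin n, (if j.castSucc = Fin.last n then (-1 : ℍ[ℝ]) else 1) = 1 := by
    intro j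
    rw [if_neg (Fin.castSucc_lt_last j).ne]
  simp_rw [h5] at h2
  have h6 : ∀ q : ℍ[ℝ], star q * q = algebraMap ℝ ℍ[ℝ] (‖q‖ ^ 2) := by
    intro q
    rw [Quaternion.star_mul_self, Quaternion.normSq_eq_norm_mul_self, pow_two]
    rfl
  simp only [mul_one, mul_neg, neg_mul, h6] at h2
  have h8 : (-1 : ℍ[ℝ]) = algebraMap ℝ ℍ[ℝ] (-1) := by
    rw [map_neg, map_one]
  rw [h8, ← map_sum, ← map_neg, ← map_add] at h2
  have h7 := (algebraMap ℝ ℍ[ℝ]).injective h2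
  rw [sub_eq_add_neg]
  exact h7

private noncomputable def qI : ℍ[ℝ] := ⟨0, 1, 0, 0⟩
private noncomputable def qJ : ℍ[ℝ] := ⟨0, 0, 1, 0⟩
private theorem qI_re : qI.re = 0 := rfl
private theorem qI_imI : qI.imI = 1 := rfl
private theorem qI_imJ : qI.imJ = 0 := rfl
private theorem qI_imK : qI.imK = 0 := rfl
private theorem qJ_re : qJ.re = 0 := rfl
private theorem qJ_imI : qJ.imI = 0 := rfl
private theorem qJ_imJ : qJ.imJ = 1 := rfl
private theorem qJ_imK : qJ.imK = 0 := rfl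

private theorem comm_bounds (d : ℍ[ℝ]) (a : ℝ) (ha : 0 ≤ a)
    (h1 : ‖d * qI - qI * d‖ ≤ 2 * a)
    (h2 : ‖d * qJ - qJ * d‖ ≤ 2 * a) :
    d.imI ^ 2 ≤ a ^ 2 ∧ d.imJ ^ 2 ≤ a ^ 2 ∧ d.imK ^ 2 ≤ a ^ 2 := by
  have e1 := qnorm_sq (d * qI - qI * d)
  have e2 := qnorm_sq (d * qJ - qJ * d)
  simp [qI_re, qI_imI, qI_imJ, qI_imK] at e1
  simp [qJ_re, qJ_imI, qJ_imJ, qJ_imK] at e2
  have f1 := pow_le_pow_left₀ (norm_nonneg _) h1 2
  have f2 := pow_le_pow_left₀ (norm_nonneg _) h2 2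
  rw [e1] at f1
  rw [e2] at f2
  refine ⟨?_, ?_, ?_⟩ <;> nlinarith [sq_nonneg d.imI, sq_nonneg d.imJ, sq_nonneg d.imK]

theorem near_one (hn : 1 ≤ n) [Nontrivial E] (ε : ℝ) (hε : 0 < ε) :
    ∃ δ > 0, ∀ g : (Matrix (Fin (n + 1)) (Fin (n + 1)) ℍ[ℝ])ˣ, g ∈ Spn n →
      (∀ p ∈ Sg n E, ‖actF g.1 p - p‖ < δ) →
      (∀ i j, ‖g.1 i j - (1 : Matrix (Fin (n + 1)) (Fin (n + 1)) ℍ[ℝ]) i j‖ < ε) ∨
      (∀ i j, ‖g.1 i j + (1 : Matrix (Fin (n + 1)) (Fin (n + 1)) ℍ[ℝ]) i j‖ < ε) := by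
  obtain ⟨δ, hδ⟩ : ∃ δ, δ = min (1 / 64 : ℝ) (ε / 100) := ⟨_, rfl⟩
  have hδ0 : 0 < δ := by rw [hδ]; positivity
  have hδ1 : δ ≤ 1 / 64 := by rw [hδ]; exact min_le_left _ _
  have hδ2 : δ ≤ ε / 100 := by rw [hδ]; exact min_le_right _ _
  refine ⟨δ, hδ0, ?_⟩
  intro g hg hs
  -- coordinatewise consequences
  have key : ∀ p ∈ Sg n E, ∀ j : Fin n,
      ‖zv g.1 p.1 j.castSucc - p.1 j * lam g.1 p.1‖ ≤ δ * ‖lam g.1 p.1‖ := by
    intro p hp j
    have hl := lam_ne_zero g hg p hp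
    have h1 : ‖(actF g.1 p - p).1 j‖ < δ :=
      lt_of_le_of_lt ((norm_le_pi_norm _ j).trans (norm_fst_le _)) (hs p hp)
    have h2 : (actF g.1 p - p).1 j = zv g.1 p.1 j.castSucc * (lam g.1 p.1)⁻¹ - p.1 j := rfl
    rw [h2] at h1
    have h3 : zv g.1 p.1 j.castSucc - p.1 j * lam g.1 p.1 =
        (zv g.1 p.1 j.castSucc * (lam g.1 p.1)⁻¹ - p.1 j) * lam g.1 p.1 := by
      rw [sub_mul, mul_assoc, inv_mul_cancel₀ hl, mul_one]
    rw [h3, norm_mul]
    exact mul_le_mul_of_nonneg_right h1.le (norm_nonneg _)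
  obtain ⟨d, hd⟩ : ∃ d, d = g.1 (Fin.last n) (Fin.last n) := ⟨_, rfl⟩
  obtain ⟨b, hb⟩ : ∃ b : Fin n → ℍ[ℝ], b = fun j => g.1 j.castSucc (Fin.last n) := ⟨_, rfl⟩
  obtain ⟨c, hc⟩ : ∃ c : Fin n → ℍ[ℝ], c = fun i => g.1 (Fin.last n) i.castSucc := ⟨_, rfl⟩
  obtain ⟨A, hA⟩ : ∃ A : Fin n → Fin n → ℍ[ℝ], A = fun j i => g.1 j.castSucc i.castSucc :=
    ⟨_, rfl⟩
  -- step 1
  have hd1 : 1 ≤ ‖d‖ := by
    have h := form_last g hg
    rw [← hd] at h
    have h2 : 0 ≤ ∑ j : Fin n, ‖g.1 j.castSucc (Fin.last n)‖ ^ 2 :=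
      Finset.sum_nonneg (fun _ _ => by positivity)
    have h3 : 1 ≤ ‖d‖ ^ 2 := by linarith
    by_contra hcon
    push Not at hcon
    nlinarith [norm_nonneg d]
  obtain ⟨v, hv⟩ : ∃ v : E, ‖v‖ = 1 := exists_norm_eq E zero_le_one
  have hp0 : ((0, v) : (Fin n → ℍ[ℝ]) × E) ∈ Sg n E := by
    show ∑ k, ‖(0 : Fin n → ℍ[ℝ]) k‖ ^ 2 + ‖v‖ ^ 2 = 1
    simp [hv]
  have hlam0 : lam g.1 (0 : Fin n → ℍ[ℝ]) = d := by
    unfold lam
    rw [zv_eq, hd]
    simp
  have hd2 : ‖d‖ ≤ 1 + 2 * δ := by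
    have h1 : ‖(actF g.1 ((0, v) : (Fin n → ℍ[ℝ]) × E) - (0, v)).2‖ < δ :=
      lt_of_le_of_lt (norm_snd_le _) (hs _ hp0)
    have h2 : (actF g.1 ((0, v) : (Fin n → ℍ[ℝ]) × E) - (0, v)).2 = ‖d‖⁻¹ • v - v := by
      show ‖lam g.1 (0 : Fin n → ℍ[ℝ])‖⁻¹ • v - v = _
      rw [hlam0]
    rw [h2] at h1
    have h3 : ‖d‖⁻¹ • v - v = (‖d‖⁻¹ - 1) • v := by rw [sub_smul, one_smul]
    rw [h3, norm_smul, hv, mul_one, Real.norm_eq_abs] at h1
    have h4 := (abs_lt.mp h1).1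
    have h5 : ‖d‖ * ‖d‖⁻¹ = 1 := mul_inv_cancel₀ (by linarith)
    have h6 : ‖d‖ * (1 - δ) ≤ 1 := by
      have : ‖d‖ * (1 - δ) ≤ ‖d‖ * ‖d‖⁻¹ := mul_le_mul_of_nonneg_left (by linarith) (norm_nonneg _)
      linarith
    nlinarith [norm_nonneg d]
  have hd3 : ‖d‖ ≤ 2 := by linarith
  have hbj : ∀ j, ‖b j‖ ≤ 2 * δ := by
    intro j
    have h := key _ hp0 j
    rw [show ((0, v) : (Fin n → ℍ[ℝ]) × E).1 = 0 from rfl, hlam0, zv_eq] at h
    simp only [Pi.zero_apply, mul_zero, Finset.sum_const_zero, zero_add, zero_mul, sub_zero] at h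
    rw [hb]
    show ‖g.1 j.castSucc (Fin.last n)‖ ≤ 2 * δ
    calc _ ≤ δ * ‖d‖ := h
      _ ≤ δ * 2 := mul_le_mul_of_nonneg_left hd3 hδ0.le
      _ = 2 * δ := by ring
  -- the general estimate
  have gen : ∀ (i j : Fin n) (l : ℍ[ℝ]), ‖l‖ = 1 →
      ‖A j i * l + b j - (Pi.single i l : Fin n → ℍ[ℝ]) j * (c i * l + d)‖ ≤
        δ * (‖c i‖ + ‖d‖) := by
    intro i j l hl
    have h := key _ (single_mem (E := E) i l hl) j
    have h1 : lam g.1 (Pi.single i l) = c i * l + d := by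
      unfold lam
      rw [zv_single, hc, hd]
    rw [show ((Pi.single i l, 0) : (Fin n → ℍ[ℝ]) × E).1 = Pi.single i l from rfl, h1,
      zv_single] at h
    rw [hA, hb]
    refine h.trans (mul_le_mul_of_nonneg_left ?_ hδ0.le)
    refine (norm_add_le _ _).trans ?_
    rw [norm_mul, hl, mul_one]
  -- step 2
  have hci : ∀ i, ‖c i‖ ≤ 8 * δ := by
    intro i
    have h1 := gen i i 1 norm_one
    have h2 := gen i i (-1) (by rw [norm_neg, norm_one])
    rw [Pi.single_eq_same] at h1 h2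
    have h3 : (2 : ℝ) • (b i - c i) = (A i i * 1 + b i - 1 * (c i * 1 + d)) +
        (A i i * (-1) + b i - (-1) * (c i * (-1) + d)) := by
      rw [two_smul]
      noncomm_ring
    have h4 : ‖(2 : ℝ) • (b i - c i)‖ ≤ 2 * (δ * (‖c i‖ + ‖d‖)) := by
      rw [h3]
      refine (norm_add_le _ _).trans ?_
      linarith
    rw [norm_smul, Real.norm_eq_abs, abs_of_pos (by norm_num : (0 : ℝ) < 2)] at h4
    have h5 : ‖c i‖ ≤ ‖b i‖ + ‖b i - c i‖ := by
      have : c i = b i - (b i - c i) := by abel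
      calc ‖c i‖ = ‖b i - (b i - c i)‖ := by rw [← this]
        _ ≤ _ := norm_sub_le _ _
    have h6 := hbj i
    nlinarith [norm_nonneg (c i), norm_nonneg d]
  -- step 3
  have gen2 : ∀ (i j : Fin n) (l : ℍ[ℝ]), ‖l‖ = 1 →
      ‖A j i * l - (Pi.single i l : Fin n → ℍ[ℝ]) j * d‖ ≤ 16 * δ := by
    intro i j l hl
    have h1 := gen i j l hl
    have h2 : A j i * l - (Pi.single i l : Fin n → ℍ[ℝ]) j * d =
        (A j i * l + b j - (Pi.single i l : Fin n → ℍ[ℝ]) j * (c i * l + d)) - b j +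
        (Pi.single i l : Fin n → ℍ[ℝ]) j * (c i * l) := by
      rw [mul_add]
      abel
    have h3 : ‖(Pi.single i l : Fin n → ℍ[ℝ]) j‖ ≤ 1 := by
      by_cases hij : j = i
      · rw [hij, Pi.single_eq_same, hl]
      · rw [Pi.single_eq_of_ne hij, norm_zero]
        exact zero_le_one
    have h4 : ‖(Pi.single i l : Fin n → ℍ[ℝ]) j * (c i * l)‖ ≤ 8 * δ := by
      rw [norm_mul, norm_mul, hl, mul_one]
      calc _ ≤ 1 * ‖c i‖ := mul_le_mul_of_nonneg_right h3 (norm_nonneg _)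
        _ ≤ 8 * δ := by rw [one_mul]; exact hci i
    rw [h2]
    refine (norm_add_le _ _).trans ?_
    have h5 := norm_sub_le (A j i * l + b j - (Pi.single i l : Fin n → ℍ[ℝ]) j * (c i * l + d)) (b j)
    have h6 := hbj j
    have h7 : δ * (‖c i‖ + ‖d‖) ≤ 3 * δ := by
      have := hci i
      nlinarith
    linarith
  have i0 : Fin n := ⟨0, hn⟩
  have hcomm : ∀ l : ℍ[ℝ], ‖l‖ = 1 → ‖d * l - l * d‖ ≤ 2 * (16 * δ) := by
    intro l hl
    have h1 := gen2 i0 i0 l hl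
    have h2 := gen2 i0 i0 1 norm_one
    rw [Pi.single_eq_same] at h1 h2
    have h3 : d * l - l * d = (A i0 i0 * l - l * d) - (A i0 i0 * 1 - 1 * d) * l := by
      noncomm_ring
    rw [h3]
    refine (norm_sub_le _ _).trans ?_
    rw [norm_mul, hl, mul_one]
    linarith
  have hI : ‖qI‖ = 1 := by
    have h := qnorm_sq qI
    simp [qI_re, qI_imI, qI_imJ, qI_imK] at h
    rcases h with h | h
    · exact h
    · exfalso
      have := norm_nonneg qI
      linarith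
  have hJ : ‖qJ‖ = 1 := by
    have h := qnorm_sq qJ
    simp [qJ_re, qJ_imI, qJ_imJ, qJ_imK] at h
    rcases h with h | h
    · exact h
    · exfalso
      have := norm_nonneg qJ
      linarith
  obtain ⟨c1, c2, c3⟩ := comm_bounds d (16 * δ) (by linarith) (hcomm _ hI) (hcomm _ hJ)
  have hdn := qnorm_sq d
  -- step 4
  have main : ∀ s : ℝ, (s = 1 ∨ s = -1) → 0 ≤ s * d.re → ∀ i j,
      ‖g.1 i j - (s : ℍ[ℝ]) * (1 : Matrix (Fin (n + 1)) (Fin (n + 1)) ℍ[ℝ]) i j‖ < ε := by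
    intro s hs1 hs2
    have hss : s * s = 1 := by rcases hs1 with h | h <;> rw [h] <;> norm_num
    obtain ⟨u, hu⟩ : ∃ u, u = s * d.re := ⟨_, rfl⟩
    have hu2 : u ^ 2 = d.re ^ 2 := by
      rw [hu]
      have : (s * d.re) ^ 2 = (s * s) * d.re ^ 2 := by ring
      rw [this, hss, one_mul]
    have hu0 : 0 ≤ u := by rw [hu]; exact hs2
    have hu3 : (u - 1) ^ 2 ≤ (32 * δ) ^ 2 := by
      have hA1 : u ^ 2 ≤ (1 + 2 * δ) ^ 2 := by
        have : ‖d‖ ^ 2 ≤ (1 + 2 * δ) ^ 2 := pow_le_pow_left₀ (norm_nonneg _) hd2 2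
        nlinarith [sq_nonneg d.imI, sq_nonneg d.imJ, sq_nonneg d.imK]
      have hA2 : 1 - 768 * δ ^ 2 ≤ u ^ 2 := by
        have : 1 ≤ ‖d‖ ^ 2 := by nlinarith
        nlinarith
      have hA3 : u - 1 ≤ 32 * δ := by nlinarith
      have hA4 : -(32 * δ) ≤ u - 1 := by nlinarith
      exact sq_le_sq' hA4 hA3
    have hds : ‖d - (s : ℍ[ℝ])‖ ≤ 80 * δ := by
      have h := qnorm_sq (d - (s : ℍ[ℝ]))
      simp only [Quaternion.re_sub, Quaternion.imI_sub, Quaternion.imJ_sub, Quaternion.imK_sub,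
        Quaternion.re_coe, Quaternion.imI_coe, Quaternion.imJ_coe, Quaternion.imK_coe,
        sub_zero] at h
      have h2 : (d.re - s) ^ 2 = (u - 1) ^ 2 := by
        rw [hu]
        have e1 : (s * d.re - 1) ^ 2 = (s * s) * d.re ^ 2 - 2 * (s * d.re) + 1 := by ring
        have e2 : (d.re - s) ^ 2 = d.re ^ 2 - 2 * (s * d.re) + s * s := by ring
        rw [e1, e2, hss, one_mul]
      rw [h2] at h
      refine le_of_sq_le_sq ?_ (by linarith)
      nlinarith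
    have hsn : ‖(s : ℍ[ℝ])‖ = 1 := by
      rw [Quaternion.norm_coe]
      rcases hs1 with h | h <;> rw [h] <;> norm_num
    intro i j
    have h96 : 96 * δ < ε := by linarith
    refine lt_of_le_of_lt ?_ h96
    refine Fin.lastCases ?_ (fun j => ?_) j
    · refine Fin.lastCases ?_ (fun i => ?_) i
      · rw [Matrix.one_apply_eq, mul_one, ← hd]
        linarith
      · rw [Matrix.one_apply_ne (Fin.castSucc_lt_last i).ne, mul_zero, sub_zero]
        have := hbj i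
        rw [hb] at this
        exact this.trans (by linarith)
    · refine Fin.lastCases ?_ (fun i => ?_) i
      · rw [Matrix.one_apply_ne (Fin.castSucc_lt_last j).ne', mul_zero, sub_zero]
        have := hci j
        rw [hc] at this
        exact this.trans (by linarith)
      · have h1 := gen2 j i 1 norm_one
        rw [mul_one] at h1
        by_cases hij : i = j
        · rw [hij, Matrix.one_apply_eq, mul_one]
          rw [hij, Pi.single_eq_same, one_mul] at h1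
          have h2 : g.1 j.castSucc j.castSucc - (s : ℍ[ℝ]) = (A j j - d) + (d - (s : ℍ[ℝ])) := by
            rw [hA]
            abel
          rw [h2]
          refine (norm_add_le _ _).trans ?_
          linarith
        · rw [Matrix.one_apply_ne (fun h => hij (Fin.castSucc_injective n h)), mul_zero, sub_zero]
          rw [Pi.single_eq_of_ne hij, zero_mul, sub_zero, hA] at h1
          exact h1.trans (by linarith)
  rcases le_total 0 d.re with h | h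
  · left
    intro i j
    have := main 1 (Or.inl rfl) (by linarith) i j
    rw [Quaternion.coe_one, one_mul] at this
    exact this
  · right
    intro i j
    have := main (-1) (Or.inr rfl) (by linarith) i j
    rw [Quaternion.coe_neg, Quaternion.coe_one, neg_mul, one_mul, sub_neg_eq_add] at this
    exact this

end Pool.UQC
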