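import Pool.Agent.UQC.SpDef

/-!
MODULE DiscG (problem MP_7936f4_al).  Discrete subgroups of Sp(n,1) and the elements near 1 or -1.
COMPLETE PAPER PROOF.  Only SpDef is used.

Statement: a subgroup G of Spn n with the discrete topology admits ε > 0 such that every g in G all of whose entries are
ε-close to those of 1, or all ε-close to those of -1, is 1 or -1 (as an element of Spn n).
(1) Discreteness: there is an open U in the matrix units, 1 in U, with U ∩ G = {1}.  The topology of the units is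
    embedded in M x M^op by (g, g^{-1}); for g in Spn, g^{-1} = J g* J (from g* J g = J, J J = 1: (J g* J) g = 1 and g is
    a unit), so if all entries of g are ε-close to those of 1 so are those of g^{-1} (entries ± star g_ji).  Hence there
    is ε1 > 0: for g in G, |g_ij - 1_ij| < ε1 for all i,j implies g = 1.   (A neighbourhood of 1 in the product contains a
    box; Matrix has the Pi topology.)
(2) Let N = n+1, ε = min (ε1/(4N)) (1/(8 N)) (and <= 1).  Suppose |g_ij + 1_ij| < ε.  Put h = -g, h = 1 + m, |m_ij| < ε.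
    g^2 = h^2 = 1 + 2 m + m^2, with |2 m_ij + (m^2)_ij| < 2ε + N ε^2 <= 3 N ε < ε1, and g^2 is in G, so g^2 = 1, so
    2 m + m^2 = 0, i.e. 2 m = - m^2.  Let a = max |m_ij|: 2a <= N a^2 <= N ε a <= a/8, so a = 0, h = 1, g = -1.
-/

open scoped Quaternion Matrix RealInnerProductSpace

namespace Pool.UQC

theorem Jm_mul_Jm (n : ℕ) : Jm n * Jm n = 1 := by
  rw [Jm, Matrix.diagonal_mul_diagonal, ← Matrix.diagonal_one]
  congr 1
  funext i
  split_ifs <;> simp

theorem spn_inv_val (n : ℕ) (g : Spn n) :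
    ((g.1⁻¹ : (Matrix (Fin (n + 1)) (Fin (n + 1)) ℍ[ℝ])ˣ) : Matrix (Fin (n + 1)) (Fin (n + 1)) ℍ[ℝ]) =
      Jm n * (g.1.1)ᴴ * Jm n := by
  have h : (g.1.1)ᴴ * Jm n * g.1.1 = Jm n := g.2
  have h1 : Jm n * (g.1.1)ᴴ * Jm n * g.1.1 = 1 := by
    calc Jm n * (g.1.1)ᴴ * Jm n * g.1.1 = Jm n * ((g.1.1)ᴴ * Jm n * g.1.1) := by
          simp only [mul_assoc]
      _ = 1 := by rw [h, Jm_mul_Jm]
  exact (Units.eq_inv_of_mul_eq_one_right h1).symm

theorem disc_near_one (n : ℕ) (G : Subgroup (Spn n)) [DiscreteTopology G] :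
    ∃ ε > 0, ∀ g ∈ G,
      (∀ i j, ‖g.1.1 i j - (1 : Matrix (Fin (n + 1)) (Fin (n + 1)) ℍ[ℝ]) i j‖ < ε) → g = 1 := by
  let ψ : Matrix (Fin (n + 1)) (Fin (n + 1)) ℍ[ℝ] →
      Matrix (Fin (n + 1)) (Fin (n + 1)) ℍ[ℝ] × (Matrix (Fin (n + 1)) (Fin (n + 1)) ℍ[ℝ])ᵐᵒᵖ :=
    fun A => (A, MulOpposite.op (Jm n * Aᴴ * Jm n))
  have hψ : Continuous ψ := by
    refine Continuous.prodMk continuous_id (MulOpposite.continuous_op.comp ?_)
    exact ((continuous_const.matrix_mul continuous_id.matrix_conjTranspose).matrix_mul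
      continuous_const)
  have hψ1 : ψ 1 = (1, MulOpposite.op 1) := by
    simp only [ψ, Matrix.conjTranspose_one, mul_one, Jm_mul_Jm]
  have hemb : ∀ g : Spn n, Units.embedProduct _ g.1 = ψ g.1.1 := by
    intro g
    simp only [ψ, Units.embedProduct_apply, Prod.mk.injEq, MulOpposite.op_inj, true_and]
    exact spn_inv_val n g
  have hind : Topology.IsInducing
      (fun g : G => Units.embedProduct (Matrix (Fin (n + 1)) (Fin (n + 1)) ℍ[ℝ]) g.1.1) := by
    exact Units.isEmbedding_embedProduct.isInducing.comp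
      (Topology.IsInducing.subtypeVal.comp Topology.IsInducing.subtypeVal)
  have hnh : ({1} : Set G) ∈ nhds (1 : G) := by
    rw [nhds_discrete]
    exact Set.mem_singleton 1
  rw [hind.nhds_eq_comap, Filter.mem_comap] at hnh
  obtain ⟨U, hU, hUs⟩ := hnh
  have hU' : U ∈ nhds (ψ 1) := by
    rw [hψ1]
    simpa using hU
  have hV : ψ ⁻¹' U ∈ nhds (1 : Matrix (Fin (n + 1)) (Fin (n + 1)) ℍ[ℝ]) :=
    hψ.continuousAt.preimage_mem_nhds hU'
  obtain ⟨ε, hε, hball⟩ := (Metric.mem_nhds_iff (α := Fin (n + 1) → Fin (n + 1) → ℍ[ℝ])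
    (s := ψ ⁻¹' U) (x := fun i j => (1 : Matrix (Fin (n + 1)) (Fin (n + 1)) ℍ[ℝ]) i j)).mp hV
  refine ⟨ε, hε, fun g hg hgε => ?_⟩
  have hmem : g.1.1 ∈ ψ ⁻¹' U := by
    apply hball
    refine Metric.mem_ball.mpr ((dist_pi_lt_iff hε).mpr ?_)
    intro i
    refine (dist_pi_lt_iff hε).mpr fun j => ?_
    rw [dist_eq_norm]
    exact hgε i j
  have : (⟨g, hg⟩ : G) ∈ ({1} : Set G) := by
    apply hUs
    change Units.embedProduct _ g.1 ∈ U
    rw [hemb]
    exact hmem
  rw [Set.mem_singleton_iff] at this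
  exact congrArg Subtype.val this

theorem disc_near (n : ℕ) (G : Subgroup (Spn n)) [DiscreteTopology G] :
    ∃ ε > 0, ∀ g ∈ G,
      ((∀ i j, ‖g.1.1 i j - (1 : Matrix (Fin (n + 1)) (Fin (n + 1)) ℍ[ℝ]) i j‖ < ε) ∨
      (∀ i j, ‖g.1.1 i j + (1 : Matrix (Fin (n + 1)) (Fin (n + 1)) ℍ[ℝ]) i j‖ < ε)) →
      g = 1 ∨ g.1.1 = -1 := by
  obtain ⟨ε₁, hε₁, h1⟩ := disc_near_one n G
  set N : ℝ := ((n + 1 : ℕ) : ℝ) with hN
  have hN1 : 1 ≤ N := by
    rw [hN]; exact_mod_cast Nat.succ_le_succ (Nat.zero_le n)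
  have hNpos : 0 < N := by linarith
  set ε : ℝ := min (ε₁ / (4 * N)) (1 / (8 * N)) with hεdef
  have hεpos : 0 < ε := by
    apply lt_min
    · positivity
    · positivity
  have hεa : ε * (4 * N) ≤ ε₁ := by
    have := min_le_left (ε₁ / (4 * N)) (1 / (8 * N))
    rw [← hεdef, le_div_iff₀ (by positivity)] at this
    exact this
  have hεb : ε * (8 * N) ≤ 1 := by
    have := min_le_right (ε₁ / (4 * N)) (1 / (8 * N))
    rw [← hεdef, le_div_iff₀ (by positivity)] at this
    exact this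
  refine ⟨ε, hεpos, fun g hg hor => ?_⟩
  rcases hor with h | h
  · left
    apply h1 g hg
    intro i j
    refine lt_of_lt_of_le (h i j) ?_
    nlinarith
  · right
    set m : Matrix (Fin (n + 1)) (Fin (n + 1)) ℍ[ℝ] := -g.1.1 - 1 with hm
    have hmij : ∀ i j, ‖m i j‖ < ε := by
      intro i j
      have : m i j = -(g.1.1 i j + (1 : Matrix (Fin (n + 1)) (Fin (n + 1)) ℍ[ℝ]) i j) := by
        rw [hm]; simp only [Matrix.sub_apply, Matrix.neg_apply]; abel
      rw [this, norm_neg]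
      exact h i j
    have hg1 : g.1.1 = -(1 + m) := by rw [hm]; abel
    have hgg : (g * g).1.1 = 1 + (m + m + m * m) := by
      have : (g * g).1.1 = g.1.1 * g.1.1 := rfl
      rw [this, hg1]
      noncomm_ring
    -- bound for the entries of m * m
    have hmm : ∀ (a : ℝ), 0 ≤ a → (∀ i j, ‖m i j‖ ≤ a) → ∀ i j, ‖(m * m) i j‖ ≤ N * (ε * a) := by
      intro a ha hma i j
      rw [Matrix.mul_apply]
      calc ‖∑ k, m i k * m k j‖ ≤ ∑ k, ‖m i k * m k j‖ := norm_sum_le _ _
        _ ≤ ∑ _k : Fin (n + 1), ε * a := by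
          apply Finset.sum_le_sum
          intro k _
          rw [norm_mul]
          exact mul_le_mul (hmij i k).le (hma k j) (norm_nonneg _) hεpos.le
        _ = N * (ε * a) := by
          rw [Finset.sum_const, Finset.card_univ, Fintype.card_fin, nsmul_eq_mul]
    have hgg1 : g * g = 1 := by
      apply h1 (g * g) (G.mul_mem hg hg)
      intro i j
      have e1 : (g * g).1.1 i j - (1 : Matrix (Fin (n + 1)) (Fin (n + 1)) ℍ[ℝ]) i j =
          m i j + m i j + (m * m) i j := by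
        rw [hgg]
        simp only [Matrix.add_apply]
        abel
      rw [e1]
      calc ‖m i j + m i j + (m * m) i j‖ ≤ ‖m i j‖ + ‖m i j‖ + ‖(m * m) i j‖ :=
            (norm_add_le _ _).trans (add_le_add_left (norm_add_le _ _) _)
        _ < ε + ε + N * (ε * ε) := by
          have := hmm ε hεpos.le (fun i j => (hmij i j).le) i j
          have := hmij i j
          linarith
        _ ≤ ε₁ := by nlinarith
    have hzero : m + m + m * m = 0 := by
      have e2 : (g * g).1.1 = 1 := by rw [hgg1]; rfl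
      rw [hgg] at e2
      exact add_eq_left.mp e2
    -- the maximum of the entries
    obtain ⟨p, hp⟩ := Finite.exists_max (fun p : Fin (n + 1) × Fin (n + 1) => ‖m p.1 p.2‖)
    set a : ℝ := ‖m p.1 p.2‖ with ha
    have hma : ∀ i j, ‖m i j‖ ≤ a := fun i j => hp (i, j)
    have ha0 : 0 ≤ a := norm_nonneg _
    have hb := hmm a ha0 hma p.1 p.2
    have e3 : (m * m) p.1 p.2 = -((2 : ℝ) • m p.1 p.2) := by
      have := congrFun (congrFun hzero p.1) p.2
      simp only [Matrix.add_apply, Matrix.zero_apply] at this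
      rw [two_smul]
      exact eq_neg_of_add_eq_zero_right this
    rw [e3, norm_neg, norm_smul, ← ha] at hb
    have ha' : a = 0 := by
      have h2 : ‖(2 : ℝ)‖ = 2 := by norm_num
      rw [h2] at hb
      nlinarith
    have hm0 : m = 0 := by
      ext1 i j
      have := hma i j
      rw [ha'] at this
      exact norm_le_zero_iff.mp this
    rw [hg1, hm0, add_zero]

end Pool.UQC
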