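import Pool.Agent.UQC.SpDef

/-!
MODULE QC (problem MP_7936f4_al).  Conformality of the kernel implies metric quasiconformality.  COMPLETE PAPER PROOF.

Let z = Θ p, e = ex p in [0,1/2] (ex (f p) = e too), L = lam p.  Choose a neighbourhood U of p such that for q in U:
the estimates at p hold for q, the estimates at f p hold for f q, and lam q in [L/2, 2L] (all are eventually true near p, by
continuity of f and lam).  Since Θ is a homeomorphism there is δ with dist y z < δ -> Θ.symm y in U.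
Let y = Θ q, y' = Θ q', dist y z <= dist y' z.  Then
 k(p,q)^e <= C dist y z / s p <= C dist y' z/s p <= C^2 k(p,q')^e.
 k(f p, f q) = k(p,q)/(L lam q) <= 2 k(p,q)/L^2 and k(f p, f q') >= k(p,q')/(2 L^2).
 dist (Θ f q)(Θ f p) <= C s(f p) (2 k(p,q)/L^2)^e = C s(f p) 2^e (L^2)^(-e) k(p,q)^e
   <= C s(f p) 2^e (L^2)^(-e) C^2 k(p,q')^e = C^3 s(f p) 4^e (k(p,q')/(2 L^2))^e <= C^3 4^e s(f p) k(f p, f q')^e
   <= C^4 4^e dist (Θ f q')(Θ f p), and 4^e <= 2.
-/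

namespace Pool.UQC

theorem qc_of_chart {X Y : Type} [TopologicalSpace X] [MetricSpace Y] (Θ : X ≃ₜ Y)
    (k : X → X → ℝ) (ex s : X → ℝ) (C : ℝ) (hC : 1 ≤ C) (hs : ∀ p, 0 < s p)
    (hk : ∀ p q, 0 ≤ k p q) (hex : ∀ p, 0 ≤ ex p ∧ ex p ≤ 1 / 2)
    (hloc : ∀ p, ∀ᶠ q in nhds p, s p * (k p q) ^ (ex p) ≤ C * dist (Θ q) (Θ p) ∧
      dist (Θ q) (Θ p) ≤ C * (s p * (k p q) ^ (ex p)))
    (f : X ≃ₜ X) (lam : X → ℝ) (hlam : ∀ p, 0 < lam p) (hlamc : Continuous lam)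
    (hf : ∀ p q, k (f p) (f q) = k p q / (lam p * lam q)) (hexf : ∀ p, ex (f p) = ex p) :
    MetricQC (2 * C ^ 4) (fun y => Θ (f (Θ.symm y))) := by
  intro z
  set p : X := Θ.symm z with hp
  have hzp : Θ p = z := Θ.apply_symm_apply z
  have hL := hlam p
  set L : ℝ := lam p with hLdef
  have hC0 : 0 < C := by linarith
  -- the good neighbourhood
  have ev1 := hloc p
  have ev2 : ∀ᶠ q in nhds p, s (f p) * (k (f p) (f q)) ^ (ex (f p)) ≤
      C * dist (Θ (f q)) (Θ (f p)) ∧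
      dist (Θ (f q)) (Θ (f p)) ≤ C * (s (f p) * (k (f p) (f q)) ^ (ex (f p))) :=
    (f.continuous.tendsto p).eventually (hloc (f p))
  have ev3 : ∀ᶠ q in nhds p, L / 2 < lam q :=
    (hlamc.tendsto p).eventually (lt_mem_nhds (by rw [← hLdef]; linarith))
  have ev4 : ∀ᶠ q in nhds p, lam q < 2 * L :=
    (hlamc.tendsto p).eventually (gt_mem_nhds (by rw [← hLdef]; linarith))
  have ev := (Θ.symm.continuous.tendsto z).eventually ((ev1.and ev2).and (ev3.and ev4))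
  obtain ⟨δ, hδ, hball⟩ := Metric.eventually_nhds_iff.1 ev
  refine ⟨δ, hδ, fun y y' hy hy' hle => ?_⟩
  obtain ⟨⟨h1, h2⟩, h3, -⟩ := hball hy
  obtain ⟨⟨h1', h2'⟩, -, h4'⟩ := hball hy'
  set q : X := Θ.symm y with hq
  set q' : X := Θ.symm y' with hq'
  have hyq : Θ q = y := Θ.apply_symm_apply y
  have hyq' : Θ q' = y' := Θ.apply_symm_apply y'
  rw [hyq, hzp] at h1
  rw [hyq', hzp] at h1'
  rw [hexf] at h2 h2'
  set e : ℝ := ex p with he
  obtain ⟨he0, he1⟩ := hex p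
  rw [← he] at he0 he1
  have hsp := hs p
  have hsf := hs (f p)
  change dist (Θ (f q)) (Θ (f p)) ≤ 2 * C ^ 4 * dist (Θ (f q')) (Θ (f p))
  -- comparison of the kernels at `p`
  have hkk : (k p q) ^ e ≤ C ^ 2 * (k p q') ^ e := by
    have h5 : s p * (k p q) ^ e ≤ s p * (C ^ 2 * (k p q') ^ e) := by
      calc s p * (k p q) ^ e ≤ C * dist y z := h1.1
        _ ≤ C * dist y' z := mul_le_mul_of_nonneg_left hle hC0.le
        _ ≤ C * (C * (s p * (k p q') ^ e)) := mul_le_mul_of_nonneg_left h1'.2 hC0.le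
        _ = s p * (C ^ 2 * (k p q') ^ e) := by ring
    exact le_of_mul_le_mul_left h5 hsp
  have hL2 : 0 < L ^ 2 := by positivity
  have hk1 : k (f p) (f q) ≤ 2 / L ^ 2 * k p q := by
    rw [hf, ← hLdef, div_mul_eq_mul_div]
    apply (div_le_div_iff₀ (mul_pos hL (hlam q)) hL2).2
    have h6 : L ^ 2 ≤ 2 * (L * lam q) := by nlinarith
    calc k p q * L ^ 2 ≤ k p q * (2 * (L * lam q)) := mul_le_mul_of_nonneg_left h6 (hk p q)
      _ = 2 * k p q * (L * lam q) := by ring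
  have hk2 : k p q' ≤ 2 * L ^ 2 * k (f p) (f q') := by
    rw [hf, ← hLdef, mul_div_assoc', le_div_iff₀ (mul_pos hL (hlam q'))]
    have h6 : L * lam q' ≤ 2 * L ^ 2 := by nlinarith
    calc k p q' * (L * lam q') ≤ k p q' * (2 * L ^ 2) := mul_le_mul_of_nonneg_left h6 (hk p q')
      _ = 2 * L ^ 2 * k p q' := by ring
  have hr1 : (k (f p) (f q)) ^ e ≤ (2 / L ^ 2) ^ e * (k p q) ^ e := by
    rw [← Real.mul_rpow (by positivity) (hk _ _)]
    exact Real.rpow_le_rpow (hk _ _) hk1 he0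
  have hr2 : (k p q') ^ e ≤ (2 * L ^ 2) ^ e * (k (f p) (f q')) ^ e := by
    rw [← Real.mul_rpow (by positivity) (hk _ _)]
    exact Real.rpow_le_rpow (hk _ _) hk2 he0
  have h4e : (2 / L ^ 2) ^ e * (2 * L ^ 2) ^ e ≤ 2 := by
    rw [← Real.mul_rpow (by positivity) (by positivity)]
    have e1 : 2 / L ^ 2 * (2 * L ^ 2) = 4 := by
      field_simp
      norm_num
    rw [e1]
    calc (4 : ℝ) ^ e ≤ (4 : ℝ) ^ (1 / 2 : ℝ) := Real.rpow_le_rpow_of_exponent_le (by norm_num) he1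
      _ = 2 := by
        rw [← Real.sqrt_eq_rpow, show (4 : ℝ) = 2 ^ 2 by norm_num]
        exact Real.sqrt_sq (by norm_num)
  set K : ℝ := (k (f p) (f q')) ^ e with hK
  have hK0 : 0 ≤ K := Real.rpow_nonneg (hk _ _) _
  have ha0 : 0 ≤ (2 / L ^ 2) ^ e := Real.rpow_nonneg (by positivity) _
  have hmain : (k (f p) (f q)) ^ e ≤ 2 * C ^ 2 * K := by
    calc (k (f p) (f q)) ^ e ≤ (2 / L ^ 2) ^ e * (k p q) ^ e := hr1
      _ ≤ (2 / L ^ 2) ^ e * (C ^ 2 * (k p q') ^ e) := mul_le_mul_of_nonneg_left hkk ha0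
      _ ≤ (2 / L ^ 2) ^ e * (C ^ 2 * ((2 * L ^ 2) ^ e * K)) := by
        apply mul_le_mul_of_nonneg_left _ ha0
        exact mul_le_mul_of_nonneg_left hr2 (by positivity)
      _ = ((2 / L ^ 2) ^ e * (2 * L ^ 2) ^ e) * (C ^ 2 * K) := by ring
      _ ≤ 2 * (C ^ 2 * K) := mul_le_mul_of_nonneg_right h4e (by positivity)
      _ = _ := by ring
  calc dist (Θ (f q)) (Θ (f p)) ≤ C * (s (f p) * (k (f p) (f q)) ^ e) := h2.2
    _ ≤ C * (s (f p) * (2 * C ^ 2 * K)) := by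
      apply mul_le_mul_of_nonneg_left _ hC0.le
      exact mul_le_mul_of_nonneg_left hmain hsf.le
    _ = 2 * C ^ 3 * (s (f p) * K) := by ring
    _ ≤ 2 * C ^ 3 * (C * dist (Θ (f q')) (Θ (f p))) := by
      apply mul_le_mul_of_nonneg_left h2'.1
      positivity
    _ = _ := by ring

end Pool.UQC
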