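import Pool.Agent.UQC.Chart
import Pool.Agent.UQC.QC
import Pool.Agent.UQC.Disc
import Pool.Agent.UQC.DiscG

/-!
Assembly: the main theorem of UQC in terms of Spn (see Results/MP_7936f4_al/QuaternionicHyperbolic.lean
for the final form).
-/

open scoped Quaternion Matrix RealInnerProductSpace

namespace Pool.UQC

/-- The unit sphere of R^(N+1). -/
abbrev Sph0 (N : ℕ) := Metric.sphere (0 : EuclideanSpace ℝ (Fin (N + 1))) 1

theorem main_result (n : ℕ) (hn : 1 ≤ n) :
    ∃ (N : ℕ) (H : ℝ) (ρ : Spn n →* (Sph0 N ≃ₜ Sph0 N)),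
      2 ≤ N ∧
      (Continuous fun a : Spn n × Sph0 N => ρ a.1 a.2) ∧
      (∀ g, MetricQC H (ρ g)) ∧
      (∀ g, ρ g = 1 ↔ (g.1.1 = 1 ∨ g.1.1 = -1)) ∧
      ∀ G : Subgroup (Spn n), DiscreteTopology G →
        ∃ ε > 0, ∀ g ∈ G, (∀ x, dist (ρ g x) x < ε) → (g.1.1 = 1 ∨ g.1.1 = -1) := by
  obtain ⟨m, rfl⟩ : ∃ m, n = m + 1 := ⟨n - 1, by omega⟩
  obtain ⟨J, hJ, hJn, N, Θ, C, s, hN, hC, hs, hloc⟩ := exists_chart m
  obtain ⟨ρ0, hρ0⟩ := exists_hom (m + 1) (EuclideanSpace ℝ J)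
  -- conjugation by Θ
  let cj : (Sg (m + 1) (EuclideanSpace ℝ J) ≃ₜ Sg (m + 1) (EuclideanSpace ℝ J)) →*
      (Sph0 N ≃ₜ Sph0 N) :=
    { toFun := fun f => (Θ.symm.trans f).trans Θ
      map_one' := by ext x; simp
      map_mul' := by intro f g; ext x; simp }
  have hcj : ∀ f x, cj f x = Θ (f (Θ.symm x)) := fun f x => rfl
  have hcont0 : Continuous fun a : Spn (m + 1) × Sg (m + 1) (EuclideanSpace ℝ J) => ρ0 a.1 a.2 := by
    rw [continuous_induced_rng]
    have : (Subtype.val ∘ fun a : Spn (m + 1) × Sg (m + 1) (EuclideanSpace ℝ J) => ρ0 a.1 a.2) =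
        fun a => actF a.1.1.1 a.2.1 := by
      funext a; exact hρ0 a.1 a.2
    rw [this]
    exact act_continuous
  have hnt : Nontrivial (EuclideanSpace ℝ J) := by
    classical
    obtain ⟨j⟩ := hJn
    refine ⟨⟨0, EuclideanSpace.single j 1, ?_⟩⟩
    intro h
    have := congrArg (fun v : EuclideanSpace ℝ J => v j) h
    simp at this
  -- elements moving points little
  have hnear : ∀ ε > 0, ∃ ε' > 0, ∀ g : Spn (m + 1), (∀ x, dist (cj (ρ0 g) x) x < ε') →
      (∀ i j, ‖g.1.1 i j - (1 : Matrix (Fin (m + 1 + 1)) (Fin (m + 1 + 1)) ℍ[ℝ]) i j‖ < ε) ∨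
      (∀ i j, ‖g.1.1 i j + (1 : Matrix (Fin (m + 1 + 1)) (Fin (m + 1 + 1)) ℍ[ℝ]) i j‖ < ε) := by
    intro ε hε
    obtain ⟨δ, hδ, hδ'⟩ := near_one (n := m + 1) (E := EuclideanSpace ℝ J) (by omega) ε hε
    have huc : UniformContinuous Θ.symm :=
      CompactSpace.uniformContinuous_of_continuous Θ.symm.continuous
    rw [Metric.uniformContinuous_iff] at huc
    obtain ⟨ε', hε', h'⟩ := huc δ hδ
    refine ⟨ε', hε', fun g hg => hδ' g.1 g.2 ?_⟩
    intro p hp
    have h1 := hg (Θ ⟨p, hp⟩)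
    rw [hcj, Θ.symm_apply_apply] at h1
    have h2 := h' h1
    rw [Θ.symm_apply_apply, Θ.symm_apply_apply] at h2
    rw [Subtype.dist_eq, hρ0, dist_eq_norm] at h2
    exact h2
  refine ⟨N, 2 * C ^ 4, cj.comp ρ0, hN, ?_, ?_, ?_, ?_⟩
  · -- continuity
    have : (fun a : Spn (m + 1) × Sph0 N => (cj.comp ρ0) a.1 a.2) =
        fun a => Θ (ρ0 a.1 (Θ.symm a.2)) := rfl
    rw [this]
    exact Θ.continuous.comp (hcont0.comp (continuous_fst.prodMk (Θ.symm.continuous.comp continuous_snd)))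
  · -- quasiconformality
    intro g
    have hq := qc_of_chart Θ (fun p q => kf p.1 q.1) (fun p => exv p.1) s C hC hs
      (fun p q => kf_nonneg p.1 q.1 p.2 q.2)
      (fun p => by unfold exv; split_ifs <;> constructor <;> norm_num)
      hloc (ρ0 g) (fun p => ‖lam g.1.1 p.1.1‖)
      (fun p => norm_pos_iff.mpr (lam_ne_zero g.1 g.2 p.1 p.2))
      (lam_continuous g.1)
      (fun p q => by rw [hρ0, hρ0]; exact kf_act g.1 g.2 p.1 q.1 p.2 q.2)
      (fun p => by
        rw [hρ0]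
        have hl : ‖lam g.1.1 p.1.1‖ ≠ 0 := norm_ne_zero_iff.mpr (lam_ne_zero g.1 g.2 p.1 p.2)
        have h2 : (actF g.1.1 p.1).2 = 0 ↔ p.1.2 = 0 := by
          unfold actF
          simp only [smul_eq_zero, inv_eq_zero, hl, false_or]
        unfold exv
        by_cases h3 : p.1.2 = 0
        · rw [if_pos h3, if_pos (h2.mpr h3)]
        · rw [if_neg h3, if_neg (fun h => h3 (h2.mp h))])
    exact hq
  · -- kernel
    intro g
    constructor
    · intro hg
      by_contra hcon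
      push Not at hcon
      obtain ⟨h1, h2⟩ := hcon
      have e1 : ∃ i j, g.1.1 i j - (1 : Matrix (Fin (m + 1 + 1)) (Fin (m + 1 + 1)) ℍ[ℝ]) i j ≠ 0 := by
        by_contra hcon
        push Not at hcon
        exact h1 (by ext1 i j; exact sub_eq_zero.mp (hcon i j))
      have e2 : ∃ i j, g.1.1 i j + (1 : Matrix (Fin (m + 1 + 1)) (Fin (m + 1 + 1)) ℍ[ℝ]) i j ≠ 0 := by
        by_contra hcon
        push Not at hcon
        apply h2
        ext1 i j
        rw [Matrix.neg_apply]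
        exact eq_neg_of_add_eq_zero_left (hcon i j)
      obtain ⟨i, j, hij⟩ := e1
      obtain ⟨k, l, hkl⟩ := e2
      obtain ⟨ε', hε', h'⟩ := hnear (min
        ‖g.1.1 i j - (1 : Matrix (Fin (m + 1 + 1)) (Fin (m + 1 + 1)) ℍ[ℝ]) i j‖
        ‖g.1.1 k l + (1 : Matrix (Fin (m + 1 + 1)) (Fin (m + 1 + 1)) ℍ[ℝ]) k l‖)
        (lt_min (norm_pos_iff.mpr hij) (norm_pos_iff.mpr hkl))
      have hg' : ∀ x, dist (cj (ρ0 g) x) x < ε' := by
        intro x
        have : cj (ρ0 g) = 1 := hg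
        rw [this]
        simpa using hε'
      rcases h' g hg' with h | h
      · exact lt_irrefl _ ((h i j).trans_le (min_le_left _ _))
      · exact lt_irrefl _ ((h k l).trans_le (min_le_right _ _))
    · intro hg
      have : ρ0 g = 1 := by
        ext1 p
        apply Subtype.ext
        rw [hρ0]
        rcases hg with h | h
        · rw [h, act_one]; rfl
        · rw [h, act_neg, act_one]; rfl
      rw [MonoidHom.comp_apply, this, map_one]
  · intro G hG
    obtain ⟨ε, hε, h⟩ := disc_near (m + 1) G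
    obtain ⟨ε', hε', h'⟩ := hnear ε hε
    refine ⟨ε', hε', fun g hg hx => ?_⟩
    rcases h g hg (h' g hx) with h3 | h3
    · left; rw [h3]; rfl
    · right; exact h3

end Pool.UQC
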