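import Pool.Agent.UQC.Defs

/-!
Basic algebra of the group: bilinearity, group identities, the gauge.
-/

namespace Pool.UQC

variable {ι κ : Type} [Fintype ι] [Fintype κ] (S : Str ι κ)

namespace Str

theorem om_add_left (x x' y : ι → ℝ) : S.om (x + x') y = S.om x y + S.om x' y := by
  funext k
  simp only [om, Pi.add_apply, ← Finset.sum_add_distrib]
  refine Finset.sum_congr rfl fun i _ => Finset.sum_congr rfl fun j _ => ?_
  ring

theorem om_add_right (x y y' : ι → ℝ) : S.om x (y + y') = S.om x y + S.om x y' := by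
  funext k
  simp only [om, Pi.add_apply, ← Finset.sum_add_distrib]
  refine Finset.sum_congr rfl fun i _ => Finset.sum_congr rfl fun j _ => ?_
  ring

theorem om_smul_left (r : ℝ) (x y : ι → ℝ) : S.om (r • x) y = r • S.om x y := by
  funext k
  simp only [om, Pi.smul_apply, smul_eq_mul, Finset.mul_sum]
  refine Finset.sum_congr rfl fun i _ => Finset.sum_congr rfl fun j _ => ?_
  ring

theorem om_smul_right (r : ℝ) (x y : ι → ℝ) : S.om x (r • y) = r • S.om x y := by
  funext k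
  simp only [om, Pi.smul_apply, smul_eq_mul, Finset.mul_sum]
  refine Finset.sum_congr rfl fun i _ => Finset.sum_congr rfl fun j _ => ?_
  ring

theorem om_neg_left (x y : ι → ℝ) : S.om (-x) y = - S.om x y := by
  have := S.om_smul_left (-1) x y
  simpa using this

theorem om_neg_right (x y : ι → ℝ) : S.om x (-y) = - S.om x y := by
  have := S.om_smul_right (-1) x y
  simpa using this

theorem om_sub_left (x x' y : ι → ℝ) : S.om (x - x') y = S.om x y - S.om x' y := by
  rw [sub_eq_add_neg, om_add_left, om_neg_left, ← sub_eq_add_neg]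

theorem om_sub_right (x y y' : ι → ℝ) : S.om x (y - y') = S.om x y - S.om x y' := by
  rw [sub_eq_add_neg, om_add_right, om_neg_right, ← sub_eq_add_neg]

theorem om_anti (x y : ι → ℝ) : S.om y x = - S.om x y := by
  funext k
  simp only [om, Pi.neg_apply]
  rw [Finset.sum_comm, ← Finset.sum_neg_distrib]
  refine Finset.sum_congr rfl fun i _ => ?_
  rw [← Finset.sum_neg_distrib]
  refine Finset.sum_congr rfl fun j _ => ?_
  rw [S.anti k i j]
  push_cast
  ring

theorem om_self (x : ι → ℝ) : S.om x x = 0 := by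
  have h := S.om_anti x x
  funext k
  have := congrFun h k
  simp only [Pi.neg_apply, Pi.zero_apply] at this ⊢
  linarith

theorem om_zero_left (y : ι → ℝ) : S.om 0 y = 0 := by
  have := S.om_smul_left 0 0 y
  simpa using this

theorem om_zero_right (y : ι → ℝ) : S.om y 0 = 0 := by
  have := S.om_smul_right 0 y 0
  simpa using this

theorem one_le_K : 1 ≤ S.K := by
  unfold K
  have : 0 ≤ ∑ k, ∑ i, ∑ j, |(S.c k i j : ℝ)| := by positivity
  linarith

theorem K_pos : 0 < S.K := lt_of_lt_of_le one_pos S.one_le_K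

theorem norm_om_le (x y : ι → ℝ) : ‖S.om x y‖ ≤ S.K * ‖x‖ * ‖y‖ := by
  have hK := S.K_pos
  rw [pi_norm_le_iff_of_nonneg (by positivity)]
  intro k
  have h1 : ‖S.om x y k‖ ≤ ∑ i, ∑ j, |(S.c k i j : ℝ)| * (‖x‖ * ‖y‖) := by
    unfold om
    refine (norm_sum_le _ _).trans (Finset.sum_le_sum fun i _ => ?_)
    refine (norm_sum_le _ _).trans (Finset.sum_le_sum fun j _ => ?_)
    rw [norm_mul, norm_mul, Real.norm_eq_abs]
    gcongr
    · exact norm_le_pi_norm x i
    · exact norm_le_pi_norm y j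
  have h2 : ∑ i, ∑ j, |(S.c k i j : ℝ)| ≤ S.K := by
    unfold K
    have : ∑ i, ∑ j, |(S.c k i j : ℝ)| ≤ ∑ k, ∑ i, ∑ j, |(S.c k i j : ℝ)| :=
      Finset.single_le_sum (f := fun k => ∑ i, ∑ j, |(S.c k i j : ℝ)|)
        (fun k _ => by positivity) (Finset.mem_univ k)
    linarith
  calc ‖S.om x y k‖ ≤ ∑ i, ∑ j, |(S.c k i j : ℝ)| * (‖x‖ * ‖y‖) := h1
    _ = (∑ i, ∑ j, |(S.c k i j : ℝ)|) * (‖x‖ * ‖y‖) := by
        rw [Finset.sum_mul]
        refine Finset.sum_congr rfl fun i _ => ?_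
        rw [Finset.sum_mul]
    _ ≤ S.K * (‖x‖ * ‖y‖) := by gcongr
    _ = S.K * ‖x‖ * ‖y‖ := by ring

/-! group identities -/

theorem rel_self (p : Hs ι κ) : S.rel p p = 0 := by
  simp [rel, om_self]

theorem rel_anti (p q : Hs ι κ) : S.rel q p = - S.rel p q := by
  simp only [rel, Prod.neg_mk, Prod.mk.injEq]
  refine ⟨by abel, ?_⟩
  rw [S.om_anti p.1 q.1]; abel

theorem rel_mul (p q r : Hs ι κ) : S.rel p r = S.mul (S.rel p q) (S.rel q r) := by
  simp only [rel, mul, Prod.mk.injEq]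
  refine ⟨by abel, ?_⟩
  simp only [om_sub_left, om_sub_right, om_self]
  abel

theorem rel_mul_self (p z : Hs ι κ) : S.rel p (S.mul p z) = z := by
  ext i
  · simp [rel, mul]
  · simp [rel, mul, om_add_right, om_self]; ring

theorem mul_rel_self (p q : Hs ι κ) : S.mul p (S.rel p q) = q := by
  ext i
  · simp [rel, mul]
  · simp [rel, mul, om_sub_right, om_self]; ring

theorem mul_assoc' (a b d : Hs ι κ) : S.mul (S.mul a b) d = S.mul a (S.mul b d) := by
  simp only [mul, om_add_left, om_add_right, Prod.mk.injEq]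
  constructor <;> abel

theorem mul_zero' (a : Hs ι κ) : S.mul a 0 = a := by
  ext i <;> simp [mul, om_zero_right]

theorem zero_mul' (a : Hs ι κ) : S.mul 0 a = a := by
  ext i <;> simp [mul, om_zero_left]

theorem mul_neg' (a : Hs ι κ) : S.mul a (-a) = 0 := by
  ext i <;> simp [mul, om_neg_right, om_self]

theorem neg_mul' (a : Hs ι κ) : S.mul (-a) a = 0 := by
  ext i <;> simp [mul, om_neg_left, om_self]

theorem rel_zero_left (a : Hs ι κ) : S.rel 0 a = a := by
  ext i <;> simp [rel, om_zero_left]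

theorem rel_eq_zero_iff (p q : Hs ι κ) : S.rel p q = 0 ↔ p = q := by
  constructor
  · intro h
    have := S.mul_rel_self p q
    rw [h, mul_zero'] at this
    exact this
  · rintro rfl
    exact S.rel_self p

/-- x^{-1} x2 = (z^{-1} k z)(z^{-1} w) if x = p z, x2 = q w, k = p^{-1} q. -/
theorem rel_mul_mul (p q z w : Hs ι κ) :
    S.rel (S.mul p z) (S.mul q w) = S.mul (S.cj z (S.rel p q)) (S.rel z w) := by
  have h0 : S.om q.1 z.1 = - S.om z.1 q.1 := S.om_anti z.1 q.1
  have h1 : S.om p.1 z.1 = - S.om z.1 p.1 := S.om_anti z.1 p.1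
  simp only [rel, mul, cj, om_add_left, om_add_right, om_sub_left, om_sub_right, om_self,
    Prod.mk.injEq, h0, h1, two_smul]
  constructor <;> abel

theorem cj_neg (z k : Hs ι κ) : S.cj z (-k) = - S.cj z k := by
  ext i
  · simp [cj]
  · simp [cj, om_neg_left]; ring

/-- the inverse form of rel_mul_mul. -/
theorem rel_of_rel_mul_mul (p q z w : Hs ι κ) :
    S.rel z w = S.mul (S.cj z (- S.rel p q)) (S.rel (S.mul p z) (S.mul q w)) := by
  rw [rel_mul_mul, cj_neg, ← mul_assoc', neg_mul', zero_mul']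

theorem rel_dl (r : ℝ) (p q : Hs ι κ) : S.rel (dl r p) (dl r q) = dl r (S.rel p q) := by
  simp only [rel, dl, om_smul_left, om_smul_right, Prod.mk.injEq, smul_sub, smul_smul, pow_two,
    true_and]

end Str

/-! the gauge -/

theorem norm_fst_le_gau (a : Hs ι κ) : ‖a.1‖ ≤ gau a := le_max_left _ _

theorem sqrt_norm_snd_le_gau (a : Hs ι κ) : √‖a.2‖ ≤ gau a := le_max_right _ _

theorem gau_nonneg (a : Hs ι κ) : 0 ≤ gau a := (norm_nonneg _).trans (norm_fst_le_gau a)

theorem norm_snd_le_gau_sq (a : Hs ι κ) : ‖a.2‖ ≤ gau a ^ 2 := by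
  have h := sqrt_norm_snd_le_gau a
  calc ‖a.2‖ = (√‖a.2‖) ^ 2 := (Real.sq_sqrt (norm_nonneg _)).symm
    _ ≤ gau a ^ 2 := by gcongr

theorem gau_le_iff {a : Hs ι κ} {r : ℝ} (hr : 0 ≤ r) :
    gau a ≤ r ↔ ‖a.1‖ ≤ r ∧ ‖a.2‖ ≤ r ^ 2 := by
  unfold gau
  rw [max_le_iff, Real.sqrt_le_left hr]

theorem gau_neg (a : Hs ι κ) : gau (-a) = gau a := by simp [gau]

theorem gau_zero : gau (0 : Hs ι κ) = 0 := by simp [gau]

theorem gau_eq_zero_iff (a : Hs ι κ) : gau a = 0 ↔ a = 0 := by
  constructor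
  · intro h
    have h1 := norm_fst_le_gau a
    have h2 := norm_snd_le_gau_sq a
    rw [h] at h1 h2
    have e1 : a.1 = 0 := norm_le_zero_iff.mp h1
    have e2 : a.2 = 0 := norm_le_zero_iff.mp (by simpa using h2)
    exact Prod.ext e1 e2
  · rintro rfl
    exact gau_zero

theorem gau_mul_le (a b : Hs ι κ) : gau (S.mul a b) ≤ (1 + S.K) * (gau a + gau b) := by
  have hK := S.one_le_K
  have ha := gau_nonneg a
  have hb := gau_nonneg b
  have hab : 0 ≤ (1 + S.K) * (gau a + gau b) := by positivity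
  rw [gau_le_iff hab]
  have a1 := norm_fst_le_gau a
  have b1 := norm_fst_le_gau b
  have a2 := norm_snd_le_gau_sq a
  have b2 := norm_snd_le_gau_sq b
  constructor
  · have : ‖a.1 + b.1‖ ≤ ‖a.1‖ + ‖b.1‖ := norm_add_le _ _
    have h2 : gau a + gau b ≤ (1 + S.K) * (gau a + gau b) := by nlinarith
    calc ‖(S.mul a b).1‖ = ‖a.1 + b.1‖ := rfl
      _ ≤ gau a + gau b := by linarith
      _ ≤ _ := h2
  · have h3 : ‖a.2 + b.2 + S.om a.1 b.1‖ ≤ ‖a.2‖ + ‖b.2‖ + ‖S.om a.1 b.1‖ :=
      (norm_add_le _ _).trans (by gcongr; exact norm_add_le _ _)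
    have h4 : ‖S.om a.1 b.1‖ ≤ S.K * gau a * gau b :=
      (S.norm_om_le _ _).trans (by gcongr)
    have h5 : S.K * gau a * gau b = S.K * (gau a * gau b) := by ring
    have h6 : 0 ≤ gau a * gau b := by positivity
    calc ‖(S.mul a b).2‖ = ‖a.2 + b.2 + S.om a.1 b.1‖ := rfl
      _ ≤ gau a ^ 2 + gau b ^ 2 + S.K * (gau a * gau b) := by linarith
      _ ≤ (1 + S.K) ^ 2 * (gau a + gau b) ^ 2 := by
          have h7 : S.K ≤ (1 + S.K) ^ 2 := by nlinarith
          have h8 : 1 ≤ (1 + S.K) ^ 2 := by nlinarith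
          have h9 : 0 ≤ gau a ^ 2 := by positivity
          have h10 : 0 ≤ gau b ^ 2 := by positivity
          nlinarith
      _ = ((1 + S.K) * (gau a + gau b)) ^ 2 := by ring

theorem gau_dl {r : ℝ} (hr : 0 ≤ r) (a : Hs ι κ) : gau (dl r a) = r * gau a := by
  unfold gau dl
  simp only [norm_smul, Real.norm_eq_abs, abs_of_nonneg hr, abs_of_nonneg (pow_nonneg hr 2)]
  rw [Real.sqrt_mul (pow_nonneg hr 2), Real.sqrt_sq hr, mul_max_of_nonneg _ _ hr]

end Pool.UQC
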