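import Pool.Agent.UQC.Basic

/-!
MODULE Bump (problem MP_7936f4_al).  The family of lattice bump functions.  COMPLETE PAPER PROOF.

Write x, t for the two coordinates of a point, |a|_m := max |a.1| |a.2| = the sup norm ‖a‖ of the product (Prod norm),
K = S.K >= 1.  Let Z = {a : all coordinates of a.1 and a.2 are integers}.  Because om has integer coefficients,
om a.1 b.1 is integral for integral a, b, so rel a b, mul a b are in Z for a, b in Z.
Better: parametrise Z by A = (ι → ℤ) × (κ → ℤ) with the obvious cast A -> Hs.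

phi(a) := max 0 (min 1 (2 - 2‖a‖)).  So 0 <= phi <= 1, phi = 1 if ‖a‖ <= 1/2, phi = 0 if ‖a‖ >= 1, and
|phi a - phi b| <= 2 ‖a - b‖.
(1) |phi(mul a b) - phi(a)| <= 2(1+K)‖b‖ for all a, b: mul a b - a = (b.1, b.2 + om a.1 b.1), of norm
    <= (1+K|a.1|)‖b‖; if ‖a‖ <= 1 this is <= (1+K)‖b‖, done.  If ‖mul a b‖ <= 1 then om a.1 b.1 = om (a.1+b.1) b.1
    and |(mul a b).1| <= 1 so again ‖mul a b - a‖ <= (1+K)‖b‖.  If both norms are > 1 both values are 0.
Given Q : ℕ, Q > 0, J := (ι → ZMod Q) × (κ → ZMod Q)  (finite, nonempty), and for j in J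
    B y j := sup { phi (rel a y) : a in A with a = j mod Q }    (iSup over the subtype; nonempty: the cast
    A -> J is surjective; bounded by 1).
(2) 0 <= B <= 1 clear.
(3) |B y j - B y' j| <= 2(1+K)‖rel y y'‖: rel a y' = mul (rel a y) (rel y y') (Str.rel_mul), so by (1) each member of
    the family changes by at most that; a sup of functions changes by at most the sup of the changes.
(4) Covering: for every y there is a in A with phi (rel a y) = 1: a.1 i = round (y.1 i) so |(rel a y).1| <= 1/2; then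
    a.2 k = round (y.2 k - om a.1 y.1 k), (rel a y).2 = y.2 - a.2 - om a.1 y.1, sup norm <= 1/2.
(5) Separation.  Suppose 2(1+K) <= gau (rel y y') <= R.  Let a be as in (4) for y, j its class: B y j = 1.
    Claim: B y' j = 0 if Q > ((1+K) + (1+K)^2 (R+1))^2 (choose such a natural number Q).  Let a' = j mod Q.
    If a' = a:  gau (rel y y') <= (1+K)(gau (rel y a) + gau (rel a y')) <= (1+K)(1 + gau (rel a y'))
    (gau(rel y a) = gau (rel a y) <= 1 since ‖rel a y‖ <= 1/2), so gau (rel a y') >= 1, hence ‖rel a y'‖ >= 1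
    (gau b >= 1 iff |b.1| >= 1 or |b.2| >= 1) and phi (rel a y') = 0.
    If a' ≠ a: suppose phi (rel a' y') > 0; then ‖rel a' y'‖ < 1, so gau (rel y' a') <= 1, and
    gau (rel a a') <= (1+K)(gau (rel a y) + gau (rel y a')) <= (1+K)(1 + (1+K)(gau (rel y y') + gau (rel y' a')))
    <= (1+K) + (1+K)^2 (R+1).
    But rel a a' = (a'.1 - a.1, a'.2 - a.2 - om a.1 a'.1): if a'.1 ≠ a.1 some coordinate of a'.1 - a.1 is a nonzero
    multiple of Q so |.| >= Q >= sqrt Q; if a'.1 = a.1 then om a.1 a'.1 = 0 and a'.2 - a.2 has a coordinate that is a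
    nonzero multiple of Q, so gau >= sqrt Q.  Contradiction with the choice of Q.
    So all members of the family are 0 (phi >= 0 and not > 0) and B y' j = 0.
-/

namespace Pool.UQC

variable {ι κ : Type} [Fintype ι] [Fintype κ]

/-- the bump function -/
noncomputable def phi (a : Hs ι κ) : ℝ := max 0 (min 1 (2 - 2 * ‖a‖))

theorem phi_nonneg (a : Hs ι κ) : 0 ≤ phi a := le_max_left _ _

theorem phi_le_one (a : Hs ι κ) : phi a ≤ 1 := max_le zero_le_one (min_le_left _ _)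

theorem phi_eq_one {a : Hs ι κ} (h : ‖a‖ ≤ 1 / 2) : phi a = 1 := by
  unfold phi
  rw [min_eq_left (by linarith), max_eq_right zero_le_one]

theorem phi_eq_zero {a : Hs ι κ} (h : 1 ≤ ‖a‖) : phi a = 0 := by
  unfold phi
  rw [max_eq_left]
  exact (min_le_right _ _).trans (by linarith)

theorem phi_lip (a b : Hs ι κ) : |phi a - phi b| ≤ 2 * ‖a - b‖ := by
  unfold phi
  have h1 := abs_max_sub_max_le_max 0 (min 1 (2 - 2 * ‖a‖)) 0 (min 1 (2 - 2 * ‖b‖))
  have h2 := abs_min_sub_min_le_max 1 (2 - 2 * ‖a‖) 1 (2 - 2 * ‖b‖)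
  have h3 : |(2 - 2 * ‖a‖) - (2 - 2 * ‖b‖)| ≤ 2 * ‖a - b‖ := by
    have e : (2 - 2 * ‖a‖) - (2 - 2 * ‖b‖) = 2 * (‖b‖ - ‖a‖) := by ring
    rw [e, abs_mul, abs_two]
    have := abs_norm_sub_norm_le b a
    rw [norm_sub_rev b a] at this
    linarith
  have h0 : (0 : ℝ) ≤ 2 * ‖a - b‖ := by positivity
  refine h1.trans (max_le ?_ (h2.trans (max_le ?_ h3)))
  · simpa using h0
  · simpa using h0

theorem norm_mul_sub_le (S : Str ι κ) (a b : Hs ι κ) {r : ℝ} (hr : 0 ≤ r)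
    (h : ‖S.om a.1 b.1‖ ≤ r * ‖b.1‖) : ‖S.mul a b - a‖ ≤ (1 + r) * ‖b‖ := by
  have hb1 : ‖b.1‖ ≤ ‖b‖ := norm_fst_le b
  have hb2 : ‖b.2‖ ≤ ‖b‖ := norm_snd_le b
  have e : S.mul a b - a = (b.1, b.2 + S.om a.1 b.1) := by
    unfold Str.mul
    ext i
    · simp
    · simp [add_assoc]
  rw [e, Prod.norm_def]
  have hb := norm_nonneg b
  refine max_le ?_ ?_
  · show ‖b.1‖ ≤ _
    nlinarith
  · show ‖b.2 + S.om a.1 b.1‖ ≤ _
    refine (norm_add_le _ _).trans ?_
    nlinarith [mul_le_mul_of_nonneg_left hb1 hr]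

theorem phi_mul (S : Str ι κ) (a b : Hs ι κ) :
    |phi (S.mul a b) - phi a| ≤ 2 * (1 + S.K) * ‖b‖ := by
  have hK := S.K_pos
  have hb := norm_nonneg b.1
  by_cases h1 : ‖a‖ ≤ 1
  · have h2 : ‖S.om a.1 b.1‖ ≤ S.K * ‖b.1‖ := by
      refine (S.norm_om_le _ _).trans ?_
      have h3 : ‖a.1‖ ≤ 1 := (norm_fst_le a).trans h1
      have h4 : S.K * ‖a.1‖ ≤ S.K := by nlinarith
      exact mul_le_mul_of_nonneg_right h4 hb
    have h3 := norm_mul_sub_le S a b hK.le h2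
    have h4 := phi_lip (S.mul a b) a
    linarith
  · by_cases h5 : ‖S.mul a b‖ ≤ 1
    · have h2 : ‖S.om a.1 b.1‖ ≤ S.K * ‖b.1‖ := by
        have e : S.om a.1 b.1 = S.om (a.1 + b.1) b.1 := by
          rw [S.om_add_left, S.om_self, add_zero]
        rw [e]
        refine (S.norm_om_le _ _).trans ?_
        have h3 : ‖a.1 + b.1‖ ≤ 1 := (norm_fst_le (S.mul a b)).trans h5
        have h4 : S.K * ‖a.1 + b.1‖ ≤ S.K := by nlinarith
        exact mul_le_mul_of_nonneg_right h4 hb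
      have h3 := norm_mul_sub_le S a b hK.le h2
      have h4 := phi_lip (S.mul a b) a
      linarith
    · rw [phi_eq_zero (le_of_not_ge h1), phi_eq_zero (le_of_not_ge h5), sub_zero, abs_zero]
      have := norm_nonneg b
      positivity

/-- integral points -/
def cA (a : (ι → ℤ) × (κ → ℤ)) : Hs ι κ := (fun i => (a.1 i : ℝ), fun k => (a.2 k : ℝ))

/-- classes of integral points -/
def cls (Q : ℕ) (a : (ι → ℤ) × (κ → ℤ)) : (ι → ZMod Q) × (κ → ZMod Q) :=
  (fun i => (a.1 i : ZMod Q), fun k => (a.2 k : ZMod Q))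

omit [Fintype ι] [Fintype κ] in
theorem cls_surj (Q : ℕ) : Function.Surjective (cls (ι := ι) (κ := κ) Q) := by
  intro j
  refine ⟨(fun i => (ZMod.intCast_surjective (j.1 i)).choose,
    fun k => (ZMod.intCast_surjective (j.2 k)).choose), ?_⟩
  unfold cls
  ext i
  · exact (ZMod.intCast_surjective (j.1 i)).choose_spec
  · exact (ZMod.intCast_surjective (j.2 i)).choose_spec

/-- the family of bump functions -/
noncomputable def BB (S : Str ι κ) (Q : ℕ) (y : Hs ι κ) (j : (ι → ZMod Q) × (κ → ZMod Q)) : ℝ :=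
  ⨆ a : {a : (ι → ℤ) × (κ → ℤ) // cls Q a = j}, phi (S.rel (cA a.1) y)

theorem BB_bdd (S : Str ι κ) (Q : ℕ) (y : Hs ι κ) (j : (ι → ZMod Q) × (κ → ZMod Q)) :
    BddAbove (Set.range fun a : {a : (ι → ℤ) × (κ → ℤ) // cls Q a = j} =>
      phi (S.rel (cA a.1) y)) := by
  refine ⟨1, ?_⟩
  rintro x ⟨a, rfl⟩
  exact phi_le_one _

theorem cls_nonempty (Q : ℕ) (j : (ι → ZMod Q) × (κ → ZMod Q)) :
    Nonempty {a : (ι → ℤ) × (κ → ℤ) // cls Q a = j} := by
  obtain ⟨a, ha⟩ := cls_surj Q j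
  exact ⟨⟨a, ha⟩⟩

theorem le_BB (S : Str ι κ) (Q : ℕ) (y : Hs ι κ) (a : (ι → ℤ) × (κ → ℤ)) :
    phi (S.rel (cA a) y) ≤ BB S Q y (cls Q a) :=
  le_ciSup (BB_bdd S Q y (cls Q a)) ⟨a, rfl⟩

theorem BB_le (S : Str ι κ) (Q : ℕ) (y : Hs ι κ) (j : (ι → ZMod Q) × (κ → ZMod Q)) {r : ℝ}
    (h : ∀ a, cls Q a = j → phi (S.rel (cA a) y) ≤ r) : BB S Q y j ≤ r := by
  have := cls_nonempty Q j
  exact ciSup_le fun a => h a.1 a.2

theorem BB_nonneg (S : Str ι κ) (Q : ℕ) (y : Hs ι κ) (j : (ι → ZMod Q) × (κ → ZMod Q)) :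
    0 ≤ BB S Q y j := by
  obtain ⟨a, rfl⟩ := cls_surj Q j
  exact (phi_nonneg _).trans (le_BB S Q y a)

theorem BB_le_add (S : Str ι κ) (Q : ℕ) (y y' : Hs ι κ) (j : (ι → ZMod Q) × (κ → ZMod Q)) :
    BB S Q y' j ≤ BB S Q y j + 2 * (1 + S.K) * ‖S.rel y y'‖ := by
  refine BB_le S Q y' j ?_
  rintro a rfl
  have h1 := phi_mul S (S.rel (cA a) y) (S.rel y y')
  rw [← S.rel_mul] at h1
  have h2 := le_BB S Q y a
  have h3 := (abs_le.1 h1).2
  linarith

theorem BB_lip (S : Str ι κ) (Q : ℕ) (y y' : Hs ι κ) (j : (ι → ZMod Q) × (κ → ZMod Q)) :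
    |BB S Q y j - BB S Q y' j| ≤ 2 * (1 + S.K) * ‖S.rel y y'‖ := by
  have h1 := BB_le_add S Q y y' j
  have h2 := BB_le_add S Q y' y j
  rw [S.rel_anti, norm_neg] at h2
  rw [abs_le]
  constructor <;> linarith

theorem cover (S : Str ι κ) (y : Hs ι κ) :
    ∃ a : (ι → ℤ) × (κ → ℤ), ‖S.rel (cA a) y‖ ≤ 1 / 2 := by
  refine ⟨(fun i => round (y.1 i), fun k =>
    round (y.2 k - S.om (fun i => (round (y.1 i) : ℝ)) y.1 k)), ?_⟩
  rw [Prod.norm_def]
  refine max_le ?_ ?_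
  · rw [pi_norm_le_iff_of_nonneg (by norm_num)]
    intro i
    exact abs_sub_round (y.1 i)
  · rw [pi_norm_le_iff_of_nonneg (by norm_num)]
    intro k
    have h := abs_sub_round (y.2 k - S.om (fun i => (round (y.1 i) : ℝ)) y.1 k)
    have e : (S.rel (cA (fun i => round (y.1 i), fun k =>
        round (y.2 k - S.om (fun i => (round (y.1 i) : ℝ)) y.1 k))) y).2 k =
        (y.2 k - S.om (fun i => (round (y.1 i) : ℝ)) y.1 k) -
          round (y.2 k - S.om (fun i => (round (y.1 i) : ℝ)) y.1 k) := by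
      simp only [Str.rel, cA, Pi.sub_apply]
      ring
    rw [e]
    exact h

theorem gau_le_one {a : Hs ι κ} (h : ‖a‖ ≤ 1) : gau a ≤ 1 := by
  rw [gau_le_iff zero_le_one]
  exact ⟨(norm_fst_le a).trans h, by simpa using (norm_snd_le a).trans h⟩

theorem one_le_norm {a : Hs ι κ} (h : 1 ≤ gau a) : 1 ≤ ‖a‖ := by
  by_contra hc
  rw [not_le] at hc
  have h1 : ‖a.1‖ < 1 := (norm_fst_le a).trans_lt hc
  have h2 : ‖a.2‖ < 1 := (norm_snd_le a).trans_lt hc
  have h3 : √‖a.2‖ < 1 := by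
    rw [Real.sqrt_lt' one_pos]
    simpa using h2
  have h4 : gau a < 1 := max_lt h1 h3
  linarith

theorem cast_sub_ge {Q : ℕ} {m n : ℤ} (h : (m : ZMod Q) = (n : ZMod Q)) (hne : m ≠ n) :
    (Q : ℝ) ≤ |(m : ℝ) - (n : ℝ)| := by
  have h1 : (Q : ℤ) ∣ m - n := by
    rw [← ZMod.intCast_zmod_eq_zero_iff_dvd]
    push_cast
    rw [h, sub_self]
  have h2 : (Q : ℤ) ≤ |m - n| := by
    have h3 : (Q : ℤ) ∣ |m - n| := (dvd_abs _ _).2 h1
    exact Int.le_of_dvd (abs_pos.2 (sub_ne_zero.2 hne)) h3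
  have h4 : ((Q : ℤ) : ℝ) ≤ ((|m - n| : ℤ) : ℝ) := Int.cast_le.2 h2
  push_cast at h4
  exact h4

theorem gau_lattice (S : Str ι κ) {Q : ℕ} (hQ : 0 < Q) {a a' : (ι → ℤ) × (κ → ℤ)}
    (h : cls Q a' = cls Q a) (hne : a' ≠ a) : (Q : ℝ) ≤ gau (S.rel (cA a) (cA a')) ^ 2 := by
  have h1 : ∀ i, (a'.1 i : ZMod Q) = (a.1 i : ZMod Q) := fun i => congrFun (congrArg Prod.fst h) i
  have h2 : ∀ k, (a'.2 k : ZMod Q) = (a.2 k : ZMod Q) := fun k => congrFun (congrArg Prod.snd h) k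
  have hQ1 : (1 : ℝ) ≤ Q := by exact_mod_cast hQ
  by_cases h3 : a'.1 = a.1
  · have h4 : a'.2 ≠ a.2 := fun h4 => hne (Prod.ext h3 h4)
    obtain ⟨k, hk⟩ := Function.ne_iff.1 h4
    have h5 := cast_sub_ge (h2 k) hk
    have h6 : (S.rel (cA a) (cA a')).2 k = (a'.2 k : ℝ) - (a.2 k : ℝ) := by
      have e : (cA a').1 = (cA a).1 := by
        unfold cA
        simp only
        rw [h3]
      show (cA a').2 k - (cA a).2 k - S.om (cA a).1 (cA a').1 k = _
      rw [e, S.om_self]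
      simp [cA]
    have h7 := norm_le_pi_norm (S.rel (cA a) (cA a')).2 k
    rw [h6, Real.norm_eq_abs] at h7
    exact (h5.trans h7).trans (norm_snd_le_gau_sq _)
  · obtain ⟨i, hi⟩ := Function.ne_iff.1 h3
    have h5 := cast_sub_ge (h1 i) hi
    have h6 : (S.rel (cA a) (cA a')).1 i = (a'.1 i : ℝ) - (a.1 i : ℝ) := rfl
    have h7 := norm_le_pi_norm (S.rel (cA a) (cA a')).1 i
    rw [h6, Real.norm_eq_abs] at h7
    have h8 : (Q : ℝ) ≤ gau (S.rel (cA a) (cA a')) := (h5.trans h7).trans (norm_fst_le_gau _)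
    nlinarith

theorem gau_rel_comm (S : Str ι κ) (p q : Hs ι κ) : gau (S.rel q p) = gau (S.rel p q) := by
  rw [S.rel_anti, gau_neg]

theorem gau_rel_le (S : Str ι κ) (p q r : Hs ι κ) :
    gau (S.rel p r) ≤ (1 + S.K) * (gau (S.rel p q) + gau (S.rel q r)) := by
  rw [S.rel_mul p q r]
  exact gau_mul_le S _ _

theorem separation (S : Str ι κ) {R : ℝ} {Q : ℕ}
    (hQ : ((1 + S.K) + (1 + S.K) ^ 2 * (R + 1)) ^ 2 < (Q : ℝ)) (y y' : Hs ι κ)
    (h1 : 2 * (1 + S.K) ≤ gau (S.rel y y')) (h2 : gau (S.rel y y') ≤ R) :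
    ∃ j, 1 ≤ |BB S Q y j - BB S Q y' j| := by
  have hK := S.K_pos
  obtain ⟨a, ha⟩ := cover S y
  have hQ0 : 0 < Q := by
    have : (0 : ℝ) < Q := lt_of_le_of_lt (by positivity) hQ
    exact_mod_cast this
  have e1 : BB S Q y (cls Q a) = 1 := by
    refine le_antisymm (BB_le S Q y _ fun a _ => phi_le_one _) ?_
    rw [← phi_eq_one ha]
    exact le_BB S Q y a
  have ha1 : gau (S.rel (cA a) y) ≤ 1 := gau_le_one (by linarith)
  have e2 : BB S Q y' (cls Q a) = 0 := by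
    refine le_antisymm (BB_le S Q y' _ fun a' ha' => ?_) (BB_nonneg S Q y' _)
    by_cases hne : a' = a
    · subst hne
      have h3 := gau_rel_le S y (cA a') y'
      rw [gau_rel_comm S (cA a') y] at h3
      have h4 : 1 ≤ gau (S.rel (cA a') y') := by
        by_contra hc
        rw [not_le] at hc
        nlinarith
      exact (phi_eq_zero (one_le_norm h4)).le
    · by_contra hc
      rw [not_le] at hc
      have h3 : ‖S.rel (cA a') y'‖ ≤ 1 := by
        by_contra h4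
        rw [phi_eq_zero (le_of_not_ge h4)] at hc
        exact lt_irrefl _ hc
      have h4 : gau (S.rel y' (cA a')) ≤ 1 := by
        rw [gau_rel_comm]
        exact gau_le_one h3
      have h5 := gau_rel_le S (cA a) y (cA a')
      have h6 := gau_rel_le S y y' (cA a')
      have h7 := gau_lattice S hQ0 ha' hne
      have h8 := gau_nonneg (S.rel (cA a) (cA a'))
      have h9 : gau (S.rel (cA a) (cA a')) ≤ (1 + S.K) + (1 + S.K) ^ 2 * (R + 1) := by
        have h10 : gau (S.rel y (cA a')) ≤ (1 + S.K) * (R + 1) := by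
          refine h6.trans (mul_le_mul_of_nonneg_left (by linarith) (by linarith))
        calc gau (S.rel (cA a) (cA a')) ≤
            (1 + S.K) * (gau (S.rel (cA a) y) + gau (S.rel y (cA a'))) := h5
          _ ≤ (1 + S.K) * (1 + (1 + S.K) * (R + 1)) :=
            mul_le_mul_of_nonneg_left (by linarith) (by linarith)
          _ = _ := by ring
      have h10 := pow_le_pow_left₀ h8 h9 2
      linarith
  refine ⟨cls Q a, ?_⟩
  rw [e1, e2]
  simp

theorem exists_bump (S : Str ι κ) (R : ℝ) :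
    ∃ (J : Type) (_ : Fintype J) (_ : Nonempty J) (B : Hs ι κ → J → ℝ),
      (∀ y j, 0 ≤ B y j ∧ B y j ≤ 1) ∧
      (∀ y y' j, |B y j - B y' j| ≤ 2 * (1 + S.K) * ‖S.rel y y'‖) ∧
      (∀ y y', 2 * (1 + S.K) ≤ gau (S.rel y y') → gau (S.rel y y') ≤ R →
        ∃ j, 1 ≤ |B y j - B y' j|) := by
  classical
  obtain ⟨Q, hQ⟩ := exists_nat_gt (((1 + S.K) + (1 + S.K) ^ 2 * (R + 1)) ^ 2)
  have hQ0 : 0 < Q := by
    have : (0 : ℝ) < Q := lt_of_le_of_lt (by positivity) hQ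
    exact_mod_cast this
  have : NeZero Q := ⟨hQ0.ne'⟩
  refine ⟨(ι → ZMod Q) × (κ → ZMod Q), inferInstance, inferInstance, BB S Q, ?_, ?_, ?_⟩
  · intro y j
    exact ⟨BB_nonneg S Q y j, BB_le S Q y j fun a _ => phi_le_one _⟩
  · exact BB_lip S Q
  · exact separation S hQ

end Pool.UQC
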