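import Pool.Agent.UQC.CayDef

/-!
MODULE CayA (problem MP_7936f4_al).  Kernel formula for the Cayley transform.  COMPLETE PAPER PROOF.

a = ((x,t),V), b = ((x2,t2),V2); z_i = zq x i, w_i = zq x2 i; q+1 = qv a, mu = 2 (q+1)^{-1} (qv a ≠ 0: real part >= 1).
(1) re_sum / im_sum: sum_i star z_i * w_i has real part sum_(i,p) x(i,p) x2(i,p) and imaginary components (1/2)(om x x2)_k
    (om of Sq m).  (star z * w componentwise: i: a0b1-a1b0-a2b3+a3b2, j: a0b2-a2b0-a3b1+a1b3, k: a0b3-a3b0-a1b2+a2b1;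
    sum over Fin m × Fin 4 by Fintype.sum_prod_type and Fin.sum_univ_four.)
(2) Put A := (star (q_a) + q_b)/2 - sum_i star z_i * w_i.  Its real part is (nsq x + |V|^2 + nsq x2 + |V2|^2)/2 -
    sum x x2 = (nsq (x2-x) + |V|^2+|V2|^2)/2 and imaginary part (1/2)(t2 - t - om x x2) = (1/2) (rel a.1 b.1).2.
    Hence |A| = (1/2) sqrt((nsq xi + |V|^2+|V2|^2)^2 + nsq tau), (xi,tau) = rel a.1 b.1.
(3) 1 - sum_{i<m+1} star (cay a).1_i * (cay b).1_i = star (mu a) * A * mu b:  the first m terms give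
    star(mu a) (sum star z_i w_i) mu b, the last one 1 - star(1 - mu a)(1 - mu b) = star(mu a) + mu b - star(mu a) mu b and
    with q_a = 2 mu_a^{-1} - 1, q_b = 2 mu_b^{-1} - 1:  star(mu a)(star q_a + q_b) mu b = 2 mu b + 2 star(mu a) -
    2 star(mu a) mu b.
    So kf (cay a) (cay b) = |mu a||mu b| (|A| - <V,V2>) = |mu a||mu b|/2 * rh (Sq m) a b.
(4) |mu a| = 2/|qv a| = 2/sqrt((1+nsq x+|V|^2)^2 + nsq t).
(5) cay a in Sg: (3) with b = a: 1 - sum |X_i|^2 = star(mu) (Re q - nsq x) mu = |mu|^2 |V|^2 (A = |V|^2 real since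
    t, om x x cancel).  So sum|X_i|^2 + | |mu| V |^2 = 1.
(6) kf poi (cay a) = |1 - (1 - mu a)| - 0 = |mu a|.
-/

open scoped Quaternion Matrix RealInnerProductSpace

namespace Pool.UQC

variable {m : ℕ} {E : Type} [NormedAddCommGroup E] [InnerProductSpace ℝ E]

theorem nsq_nonneg' {ι : Type} [Fintype ι] (x : ι → ℝ) : 0 ≤ nsq x :=
  Finset.sum_nonneg fun _ _ => sq_nonneg _

theorem qv_ne_zero (a : Hs (Fin m × Fin 4) (Fin 3) × E) : qv a ≠ 0 := by
  intro h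
  have h1 := congrArg (fun q : ℍ[ℝ] => q.re) h
  simp only [qv, Quaternion.re_zero] at h1
  have := nsq_nonneg' a.1.1
  have := sq_nonneg ‖a.2‖
  linarith

theorem two_ne_q : (2 : ℍ[ℝ]) ≠ 0 := by
  intro h
  have h2 : (2 : ℍ[ℝ]) = ((2 : ℝ) : ℍ[ℝ]) := by norm_cast
  rw [h2] at h
  have h1 := congrArg (fun q : ℍ[ℝ] => q.re) h
  simp at h1

theorem mu_ne_zero (a : Hs (Fin m × Fin 4) (Fin 3) × E) : mu a ≠ 0 := by
  unfold mu
  exact mul_ne_zero two_ne_q (inv_ne_zero (qv_ne_zero a))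

theorem norm_mk_sqrt (q : ℍ[ℝ]) : ‖q‖ = √(q.re ^ 2 + q.imI ^ 2 + q.imJ ^ 2 + q.imK ^ 2) := by
  rw [← Quaternion.normSq_def', Quaternion.normSq_eq_norm_mul_self, Real.sqrt_mul_self (norm_nonneg _)]

theorem norm_mu (a : Hs (Fin m × Fin 4) (Fin 3) × E) :
    ‖mu a‖ = 2 / √((1 + nsq a.1.1 + ‖a.2‖ ^ 2) ^ 2 + nsq a.1.2) := by
  unfold mu
  rw [norm_mul, norm_inv, norm_mk_sqrt (qv a)]
  have h2 : ‖(2 : ℍ[ℝ])‖ = 2 := by
    rw [norm_mk_sqrt]
    have : (2 : ℍ[ℝ]) = ((2 : ℝ) : ℍ[ℝ]) := by norm_cast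
    rw [this]
    simp
  rw [h2, div_eq_mul_inv]
  congr 3
  simp only [qv, nsq, Fin.sum_univ_three]
  ring

theorem sum_quat {ι : Type} (s : Finset ι) (f : ι → ℍ[ℝ]) :
    ∑ i ∈ s, f i = ⟨∑ i ∈ s, (f i).re, ∑ i ∈ s, (f i).imI, ∑ i ∈ s, (f i).imJ,
      ∑ i ∈ s, (f i).imK⟩ := by
  classical
  induction s using Finset.induction_on with
  | empty => ext <;> simp
  | insert a s ha ih =>
    rw [Finset.sum_insert ha, ih]
    ext <;> simp [Finset.sum_insert ha]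

theorem om_Sq (x y : Fin m × Fin 4 → ℝ) (k : Fin 3) :
    (Sq m).om x y k = 2 * ∑ i : Fin m, ∑ p : Fin 4, ∑ q : Fin 4,
      ((cc k p q : ℤ) : ℝ) * (x (i, p) * y (i, q)) := by
  unfold Str.om
  rw [Fintype.sum_prod_type, Finset.mul_sum]
  refine Finset.sum_congr rfl fun i _ => ?_
  rw [Finset.mul_sum]
  refine Finset.sum_congr rfl fun p _ => ?_
  rw [Fintype.sum_prod_type, Finset.sum_eq_single i, Finset.mul_sum]
  · refine Finset.sum_congr rfl fun q _ => ?_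
    simp only [Sq, if_true]
    push_cast
    ring
  · intro j _ hj
    refine Finset.sum_eq_zero fun q _ => ?_
    simp only [Sq]
    rw [if_neg (fun h => hj h.symm)]
    simp
  · intro h
    exact absurd (Finset.mem_univ _) h

theorem sum_star_mul (x y : Fin m × Fin 4 → ℝ) :
    ∑ i, star (zq x i) * zq y i = (⟨∑ a, x a * y a, (Sq m).om x y 0 / 2, (Sq m).om x y 1 / 2,
      (Sq m).om x y 2 / 2⟩ : ℍ[ℝ]) := by
  rw [sum_quat]
  ext
  · simp only [Fintype.sum_prod_type, Fin.sum_univ_four]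
    refine Finset.sum_congr rfl fun i _ => ?_
    simp [zq]
  · simp only [om_Sq]
    rw [mul_div_cancel_left₀ _ (two_ne_zero)]
    refine Finset.sum_congr rfl fun i _ => ?_
    simp [zq, cc, Fin.sum_univ_four]
    try ring
  · simp only [om_Sq]
    rw [mul_div_cancel_left₀ _ (two_ne_zero)]
    refine Finset.sum_congr rfl fun i _ => ?_
    simp [zq, cc, Fin.sum_univ_four]
    try ring
  · simp only [om_Sq]
    rw [mul_div_cancel_left₀ _ (two_ne_zero)]
    refine Finset.sum_congr rfl fun i _ => ?_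
    simp [zq, cc, Fin.sum_univ_four]
    try ring

/-- The quaternion A of the paper proof. -/
noncomputable def AA (a b : Hs (Fin m × Fin 4) (Fin 3) × E) : ℍ[ℝ] :=
  ⟨(nsq ((Sq m).rel a.1 b.1).1 + ‖a.2‖ ^ 2 + ‖b.2‖ ^ 2) / 2, ((Sq m).rel a.1 b.1).2 0 / 2,
    ((Sq m).rel a.1 b.1).2 1 / 2, ((Sq m).rel a.1 b.1).2 2 / 2⟩

theorem two_AA (a b : Hs (Fin m × Fin 4) (Fin 3) × E) :
    2 * AA a b = star (qv a) + qv b - 2 - 2 * ∑ i, star (zq a.1.1 i) * zq b.1.1 i := by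
  rw [sum_star_mul]
  have h2 : (2 : ℍ[ℝ]) = ((2 : ℝ) : ℍ[ℝ]) := by norm_cast
  have hn : nsq (b.1.1 - a.1.1) = nsq a.1.1 + nsq b.1.1 - 2 * ∑ i, a.1.1 i * b.1.1 i := by
    simp only [nsq, Pi.sub_apply, sub_sq, Finset.sum_add_distrib, Finset.sum_sub_distrib,
      Finset.mul_sum]
    have : ∑ i, 2 * b.1.1 i * a.1.1 i = ∑ i, 2 * (a.1.1 i * b.1.1 i) :=
      Finset.sum_congr rfl fun i _ => by ring
    rw [this]; ring
  rw [h2]
  ext
  · simp only [AA, qv, Str.rel, hn]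
    simp
    ring
  · simp only [AA, qv, Str.rel]
    simp
    ring
  · simp only [AA, qv, Str.rel]
    simp
    ring
  · simp only [AA, qv, Str.rel]
    simp
    ring

theorem norm_AA (a b : Hs (Fin m × Fin 4) (Fin 3) × E) :
    ‖AA a b‖ = √((nsq ((Sq m).rel a.1 b.1).1 + ‖a.2‖ ^ 2 + ‖b.2‖ ^ 2) ^ 2
      + nsq ((Sq m).rel a.1 b.1).2) / 2 := by
  rw [norm_mk_sqrt]
  have h : (2 : ℝ) = √4 := by
    rw [show (4 : ℝ) = 2 ^ 2 by norm_num, Real.sqrt_sq (by norm_num)]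
  conv_rhs => rw [h, ← Real.sqrt_div' _ (by norm_num : (0 : ℝ) ≤ 4)]
  congr 1
  simp only [AA, nsq, Fin.sum_univ_three]
  ring

theorem key (a b : Hs (Fin m × Fin 4) (Fin 3) × E) :
    1 - ∑ i, star ((cay a).1 i) * (cay b).1 i = star (mu a) * AA a b * mu b := by
  have ha : qv a * mu a = 2 := by
    unfold mu
    have := mul_inv_cancel₀ (qv_ne_zero a)
    have h2 : (2 : ℍ[ℝ]) = ((2 : ℝ) : ℍ[ℝ]) := by norm_cast
    rw [h2, ← mul_assoc, ← Quaternion.coe_commutes, mul_assoc, this, mul_one]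
  have hb : qv b * mu b = 2 := by
    unfold mu
    have := mul_inv_cancel₀ (qv_ne_zero b)
    have h2 : (2 : ℍ[ℝ]) = ((2 : ℝ) : ℍ[ℝ]) := by norm_cast
    rw [h2, ← mul_assoc, ← Quaternion.coe_commutes, mul_assoc, this, mul_one]
  have hsa : star (mu a) * star (qv a) = 2 := by
    rw [← star_mul, ha]
    simp
  have hAA := two_AA a b
  have h4 : 2 * (star (mu a) * AA a b * mu b) =
      2 * (1 - ∑ i, star ((cay a).1 i) * (cay b).1 i) := by
    have e1 : 2 * (star (mu a) * AA a b * mu b) = star (mu a) * (2 * AA a b) * mu b := by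
      noncomm_ring
    have e2 : ∑ i, star ((cay a).1 i) * (cay b).1 i =
        star (mu a) * (∑ i, star (zq a.1.1 i) * zq b.1.1 i) * mu b +
          star (1 - mu a) * (1 - mu b) := by
      rw [Fin.sum_univ_castSucc]
      simp only [cay, Fin.snoc_castSucc, Fin.snoc_last, star_mul, Finset.mul_sum, Finset.sum_mul,
        mul_assoc]
    rw [e1, hAA, e2]
    set S := ∑ i, star (zq a.1.1 i) * zq b.1.1 i
    have e3 : star (mu a) * (star (qv a) + qv b - 2 - 2 * S) * mu b =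
        (star (mu a) * star (qv a)) * mu b + star (mu a) * (qv b * mu b) - 2 * (star (mu a) * mu b)
          - 2 * (star (mu a) * S * mu b) := by
      noncomm_ring
    rw [e3, hsa, hb, star_sub, star_one]
    noncomm_ring
  exact (mul_left_cancel₀ two_ne_q h4).symm

theorem kf_cay (a b : Hs (Fin m × Fin 4) (Fin 3) × E) :
    kf (cay a) (cay b) = ‖mu a‖ * ‖mu b‖ / 2 * rh (Sq m) a b := by
  unfold kf
  rw [key, norm_mul, norm_mul, norm_star, norm_AA]
  simp only [cay, rh, real_inner_smul_left, real_inner_smul_right]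
  ring

theorem AA_self (a : Hs (Fin m × Fin 4) (Fin 3) × E) : AA a a = ((‖a.2‖ ^ 2 : ℝ) : ℍ[ℝ]) := by
  have h : (Sq m).om a.1.1 a.1.1 = 0 := (Sq m).om_self _
  ext
  · rw [Quaternion.re_coe]; simp [AA, Str.rel, nsq]
  · rw [Quaternion.imI_coe]; simp [AA, Str.rel, h]
  · rw [Quaternion.imJ_coe]; simp [AA, Str.rel, h]
  · rw [Quaternion.imK_coe]; simp [AA, Str.rel, h]

theorem cay_mem (a : Hs (Fin m × Fin 4) (Fin 3) × E) : cay a ∈ Sg (m + 1) E := by
  have h := congrArg (fun q : ℍ[ℝ] => q.re) (key a a)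
  have h1 : (∑ i, star ((cay a).1 i) * (cay a).1 i).re = ∑ i, ‖(cay a).1 i‖ ^ 2 := by
    rw [sum_quat]
    change ∑ i, (star ((cay a).1 i) * (cay a).1 i).re = _
    refine Finset.sum_congr rfl fun i _ => ?_
    rw [Quaternion.star_mul_self, Quaternion.normSq_eq_norm_mul_self, Quaternion.re_coe, pow_two]
  have h2 : (star (mu a) * AA a a * mu a).re = ‖mu a‖ ^ 2 * ‖a.2‖ ^ 2 := by
    rw [AA_self, ← Quaternion.coe_commutes, mul_assoc, Quaternion.star_mul_self,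
      Quaternion.normSq_eq_norm_mul_self, ← Quaternion.coe_mul, Quaternion.re_coe]
    ring
  rw [h2, Quaternion.re_sub, h1, Quaternion.re_one] at h
  have h3 : ‖(cay a).2‖ ^ 2 = ‖mu a‖ ^ 2 * ‖a.2‖ ^ 2 := by
    simp only [cay, norm_smul, norm_norm, mul_pow]
  change ∑ i, ‖(cay a).1 i‖ ^ 2 + ‖(cay a).2‖ ^ 2 = 1
  rw [h3]
  linarith

theorem poi_mem : (poi : (Fin (m + 1) → ℍ[ℝ]) × E) ∈ Sg (m + 1) E := by
  simp [Sg, poi, Fin.sum_univ_castSucc]

theorem kf_poi_cay (a : Hs (Fin m × Fin 4) (Fin 3) × E) :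
    kf (poi : (Fin (m + 1) → ℍ[ℝ]) × E) (cay a) = ‖mu a‖ := by
  simp [kf, poi, cay, Fin.sum_univ_castSucc]

theorem mu_continuous :
    Continuous fun a : Hs (Fin m × Fin 4) (Fin 3) × E => ‖mu a‖ := by
  simp only [norm_mu]
  refine Continuous.div continuous_const ?_ ?_
  · unfold nsq
    fun_prop
  · intro a
    have := nsq_nonneg' a.1.1
    have := nsq_nonneg' a.1.2
    have := sq_nonneg ‖a.2‖
    refine (Real.sqrt_pos.mpr ?_).ne'
    nlinarith

end Pool.UQC
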