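import Pool.Agent.UQC.CayA

/-!
MODULE CayB (problem MP_7936f4_al).  The Cayley transform is a bijection onto Sg minus the point at infinity, with
continuous inverse.  COMPLETE PAPER PROOF.  Uses CayDef and statements of CayA.

Inverse: for (X,v) in the space with mu := 1 - X_last ≠ 0 put  inv (X,v) := ((x,t),V), V = |mu|^{-1} v, zq x = (X_i mu^{-1})_i,
i.e. x(i,p) = the p-th component (re, imI, imJ, imK) of X_i * mu^{-1}, t = imaginary part of 2 mu^{-1}.
(1) inv (cay a) = a: mu = mu a, X_i mu^{-1} = zq x i, 2 mu^{-1} = qv a, whose imaginary part is t.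
(2) If p = (X,v) in Sg and X_last ≠ 1 then cay (inv p) = p: must check qv (inv p) = 2 mu^{-1}, i.e. that the real part of
    2 mu^{-1} is 1 + nsq x + |V|^2:  Re(2 mu^{-1}) = 2 Re(mu)/|mu|^2, nsq x + |V|^2 = (sum_{i<m}|X_i|^2 + |v|^2)/|mu|^2
    = (1 - |X_last|^2)/|mu|^2 and |mu|^2 + 1 - |X_last|^2 = 1 - 2 Re X_last + |X_last|^2 + 1 - |X_last|^2 = 2 Re mu.
    Then mu (inv p) = mu and all coordinates agree (|mu| V = v).
(3) If p in Sg and X_last = 1 then |X_last|^2 = 1 forces the other X_i = 0 and v = 0, p = poi.  cay a ≠ poi since the last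
    coordinate of cay a is 1 - mu a ≠ 1.
(4) e : none ↦ poi, some a ↦ cay a; injective by (1), (3); surjective by (2), (3).  Equiv.ofBijective.
(5) Continuity: near q = e (some a) the last coordinate is ≠ 1, so q' = e (some (inv q')) there, and inv is continuous at q
    (composition of continuous maps, mu ≠ 0), inv (cay a) = a.
-/

set_option linter.all false

open scoped Quaternion Matrix RealInnerProductSpace

namespace Pool.UQC

namespace CayBAux

/-- the four components -/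
def cp (q : ℍ[ℝ]) : Fin 4 → ℝ := ![q.re, q.imI, q.imJ, q.imK]

/-- the imaginary components -/
def ci (q : ℍ[ℝ]) : Fin 3 → ℝ := ![q.imI, q.imJ, q.imK]

variable {m : ℕ} {E : Type} [NormedAddCommGroup E] [InnerProductSpace ℝ E]

/-- 1 minus the last coordinate -/
noncomputable def mv (p : (Fin (m + 1) → ℍ[ℝ]) × E) : ℍ[ℝ] := 1 - p.1 (Fin.last m)

/-- the inverse of the Cayley transform -/
noncomputable def iv (p : (Fin (m + 1) → ℍ[ℝ]) × E) : Hs (Fin m × Fin 4) (Fin 3) × E :=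
  ((fun ip => cp (p.1 ip.1.castSucc * (mv p)⁻¹) ip.2, fun k => ci (2 * (mv p)⁻¹) k), ‖mv p‖⁻¹ • p.2)

theorem norm_sq_q (q : ℍ[ℝ]) : ‖q‖ ^ 2 = q.re ^ 2 + q.imI ^ 2 + q.imJ ^ 2 + q.imK ^ 2 := by
  rw [pow_two, ← Quaternion.normSq_eq_norm_mul_self, Quaternion.normSq_def']

theorem two_inv (q : ℍ[ℝ]) : 2 * (2 * q⁻¹)⁻¹ = q := by
  have h2 : (2 : ℍ[ℝ]) ≠ 0 := by
    intro h
    have h1 : (2 : ℍ[ℝ]) = ((2 : ℝ) : ℍ[ℝ]) := by norm_cast
    rw [h1, ← Quaternion.coe_zero, Quaternion.coe_inj] at h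
    norm_num at h
  rw [mul_inv_rev, inv_inv]
  have h3 : (2 : ℍ[ℝ]) * (q * 2⁻¹) = (2 * q) * 2⁻¹ := (mul_assoc _ _ _).symm
  rw [h3, (Commute.ofNat_left 2 q).eq, mul_assoc, mul_inv_cancel₀ h2, mul_one]

theorem mv_cay (a : Hs (Fin m × Fin 4) (Fin 3) × E) : mv (cay a) = mu a := by
  unfold mv cay
  simp only [Fin.snoc_last]
  exact sub_sub_cancel _ _

theorem iv_cay (a : Hs (Fin m × Fin 4) (Fin 3) × E) : iv (cay a) = a := by
  have hmu := mu_ne_zero a
  unfold iv
  rw [mv_cay]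
  have h1 : (fun ip : Fin m × Fin 4 => cp ((cay a).1 ip.1.castSucc * (mu a)⁻¹) ip.2) = a.1.1 := by
    funext ip
    obtain ⟨i, p⟩ := ip
    have h : (cay a).1 i.castSucc = zq a.1.1 i * mu a := by
      unfold cay
      simp only [Fin.snoc_castSucc]
    simp only [h]
    rw [mul_assoc, mul_inv_cancel₀ hmu, mul_one]
    fin_cases p <;> rfl
  have h2 : (fun k : Fin 3 => ci (2 * (mu a)⁻¹) k) = a.1.2 := by
    have h : 2 * (mu a)⁻¹ = qv a := by
      unfold mu
      exact two_inv _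
    rw [h]
    funext k
    fin_cases k <;> rfl
  have h3 : ‖mu a‖⁻¹ • (cay a).2 = a.2 := by
    have h : (cay a).2 = ‖mu a‖ • a.2 := rfl
    rw [h, smul_smul, inv_mul_cancel₀ (norm_ne_zero_iff.mpr hmu), one_smul]
  rw [h1, h2, h3]

theorem re_two_inv (q : ℍ[ℝ]) : (2 * q⁻¹).re = 2 * q.re / ‖q‖ ^ 2 := by
  have h : (2 : ℍ[ℝ]) * q⁻¹ = (2 : ℝ) • q⁻¹ := by
    rw [two_mul, two_smul]
  rw [h, Quaternion.re_smul, Quaternion.inv_def, Quaternion.re_smul, Quaternion.re_star,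
    Quaternion.normSq_eq_norm_mul_self, smul_eq_mul, smul_eq_mul, pow_two]
  ring

theorem sum_eq {p : (Fin (m + 1) → ℍ[ℝ]) × E} (hp : p ∈ Sg (m + 1) E) :
    ∑ i : Fin m, ‖p.1 i.castSucc‖ ^ 2 + ‖p.2‖ ^ 2 = 1 - ‖p.1 (Fin.last m)‖ ^ 2 := by
  have h : ∑ i, ‖p.1 i‖ ^ 2 + ‖p.2‖ ^ 2 = 1 := hp
  rw [Fin.sum_univ_castSucc] at h
  linarith

theorem mv_ne {p : (Fin (m + 1) → ℍ[ℝ]) × E} (h : p.1 (Fin.last m) ≠ 1) : mv p ≠ 0 := by
  unfold mv
  exact sub_ne_zero.mpr (Ne.symm h)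

theorem qv_iv {p : (Fin (m + 1) → ℍ[ℝ]) × E} (hp : p ∈ Sg (m + 1) E) (h : p.1 (Fin.last m) ≠ 1) :
    qv (iv p) = 2 * (mv p)⁻¹ := by
  have hm := mv_ne h
  have hn : ‖mv p‖ ≠ 0 := norm_ne_zero_iff.mpr hm
  have h1 : nsq (iv p).1.1 = (∑ i : Fin m, ‖p.1 i.castSucc‖ ^ 2) / ‖mv p‖ ^ 2 := by
    unfold nsq
    rw [Fintype.sum_prod_type, Finset.sum_div]
    apply Finset.sum_congr rfl
    intro i _
    have e : ‖p.1 i.castSucc * (mv p)⁻¹‖ ^ 2 = ‖p.1 i.castSucc‖ ^ 2 / ‖mv p‖ ^ 2 := by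
      rw [norm_mul, norm_inv, mul_pow, inv_pow]
      rfl
    rw [← e, norm_sq_q, Fin.sum_univ_four]
    rfl
  have h2 : ‖(iv p).2‖ ^ 2 = ‖p.2‖ ^ 2 / ‖mv p‖ ^ 2 := by
    have e : (iv p).2 = ‖mv p‖⁻¹ • p.2 := rfl
    rw [e, norm_smul, norm_inv, norm_norm, mul_pow, inv_pow]
    ring
  have h3 : ‖mv p‖ ^ 2 = 1 - 2 * (p.1 (Fin.last m)).re + ‖p.1 (Fin.last m)‖ ^ 2 := by
    rw [norm_sq_q, norm_sq_q]
    unfold mv
    simp only [Quaternion.re_sub, Quaternion.imI_sub, Quaternion.imJ_sub, Quaternion.imK_sub,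
      Quaternion.re_one, Quaternion.imI_one, Quaternion.imJ_one, Quaternion.imK_one]
    ring
  have h4 : (mv p).re = 1 - (p.1 (Fin.last m)).re := by
    unfold mv
    rw [Quaternion.re_sub, Quaternion.re_one]
  have hs := sum_eq hp
  have h5 : 1 + nsq (iv p).1.1 + ‖(iv p).2‖ ^ 2 = (2 * (mv p)⁻¹).re := by
    rw [re_two_inv, h1, h2, h4]
    have e : 1 + (∑ i : Fin m, ‖p.1 i.castSucc‖ ^ 2) / ‖mv p‖ ^ 2 + ‖p.2‖ ^ 2 / ‖mv p‖ ^ 2 =
        (‖mv p‖ ^ 2 + (∑ i : Fin m, ‖p.1 i.castSucc‖ ^ 2 + ‖p.2‖ ^ 2)) / ‖mv p‖ ^ 2 := by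
      field_simp
      ring
    rw [e, hs]
    congr 1
    rw [h3]
    ring
  unfold qv
  rw [h5]
  ext <;> rfl

theorem cay_iv {p : (Fin (m + 1) → ℍ[ℝ]) × E} (hp : p ∈ Sg (m + 1) E) (h : p.1 (Fin.last m) ≠ 1) :
    cay (iv p) = p := by
  have hm := mv_ne h
  have hn : ‖mv p‖ ≠ 0 := norm_ne_zero_iff.mpr hm
  have hmu : mu (iv p) = mv p := by
    unfold mu
    rw [qv_iv hp h]
    exact two_inv _
  unfold cay
  rw [hmu]
  apply Prod.ext
  · funext i
    refine Fin.lastCases ?_ (fun i => ?_) i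
    · simp only [Fin.snoc_last]
      unfold mv
      exact sub_sub_cancel _ _
    · simp only [Fin.snoc_castSucc]
      have e : zq (iv p).1.1 i = p.1 i.castSucc * (mv p)⁻¹ := by
        ext <;> rfl
      rw [e, mul_assoc, inv_mul_cancel₀ hm, mul_one]
  · have e : (iv p).2 = ‖mv p‖⁻¹ • p.2 := rfl
    show ‖mv p‖ • (iv p).2 = p.2
    rw [e, smul_smul, mul_inv_cancel₀ hn, one_smul]

theorem eq_poi {p : (Fin (m + 1) → ℍ[ℝ]) × E} (hp : p ∈ Sg (m + 1) E) (h : p.1 (Fin.last m) = 1) :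
    p = poi := by
  have hs := sum_eq hp
  rw [h, norm_one, one_pow, sub_self] at hs
  have h0 : 0 ≤ ∑ i : Fin m, ‖p.1 i.castSucc‖ ^ 2 := Finset.sum_nonneg fun i _ => sq_nonneg _
  have h1 : 0 ≤ ‖p.2‖ ^ 2 := sq_nonneg _
  have h2 : ∑ i : Fin m, ‖p.1 i.castSucc‖ ^ 2 = 0 := by linarith
  have h3 : ‖p.2‖ ^ 2 = 0 := by linarith
  rw [Finset.sum_eq_zero_iff_of_nonneg (fun i _ => sq_nonneg _)] at h2
  apply Prod.ext
  · funext i
    refine Fin.lastCases ?_ (fun i => ?_) i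
    · unfold poi
      simp only [Fin.snoc_last]
      exact h
    · unfold poi
      simp only [Fin.snoc_castSucc]
      have := h2 i (Finset.mem_univ i)
      exact norm_eq_zero.mp (pow_eq_zero_iff (two_ne_zero) |>.mp this)
  · exact norm_eq_zero.mp (pow_eq_zero_iff (two_ne_zero) |>.mp h3)

theorem poi_last : (poi : (Fin (m + 1) → ℍ[ℝ]) × E).1 (Fin.last m) = 1 := by
  unfold poi
  simp only [Fin.snoc_last]

theorem cay_last (a : Hs (Fin m × Fin 4) (Fin 3) × E) : (cay a).1 (Fin.last m) ≠ 1 := by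
  unfold cay
  simp only [Fin.snoc_last]
  intro h
  apply mu_ne_zero a
  have := congrArg (fun z => 1 - z) h
  simpa using this

theorem cont_cp (p : Fin 4) : Continuous fun q : ℍ[ℝ] => cp q p := by
  fin_cases p
  · exact Quaternion.continuous_re
  · exact Quaternion.continuous_imI
  · exact Quaternion.continuous_imJ
  · exact Quaternion.continuous_imK

theorem cont_ci (p : Fin 3) : Continuous fun q : ℍ[ℝ] => ci q p := by
  fin_cases p
  · exact Quaternion.continuous_imI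
  · exact Quaternion.continuous_imJ
  · exact Quaternion.continuous_imK

theorem cont_iv {p : (Fin (m + 1) → ℍ[ℝ]) × E} (h : p.1 (Fin.last m) ≠ 1) :
    ContinuousAt (iv : (Fin (m + 1) → ℍ[ℝ]) × E → _) p := by
  have hm := mv_ne h
  have hc : Continuous (mv : (Fin (m + 1) → ℍ[ℝ]) × E → ℍ[ℝ]) := by
    unfold mv
    exact continuous_const.sub ((continuous_apply _).comp continuous_fst)
  have hi : ContinuousAt (fun p : (Fin (m + 1) → ℍ[ℝ]) × E => (mv p)⁻¹) p :=
    hc.continuousAt.inv₀ hm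
  unfold iv
  refine ContinuousAt.prodMk (ContinuousAt.prodMk ?_ ?_) ?_
  · rw [continuousAt_pi]
    intro ip
    refine ContinuousAt.comp (g := fun q => cp q ip.2) (cont_cp ip.2).continuousAt ?_
    exact ((continuous_apply _).comp continuous_fst).continuousAt.mul hi
  · rw [continuousAt_pi]
    intro k
    refine ContinuousAt.comp (g := fun q => ci q k) (cont_ci k).continuousAt ?_
    exact continuousAt_const.mul hi
  · exact (hc.norm.continuousAt.inv₀ (norm_ne_zero_iff.mpr hm)).smul continuous_snd.continuousAt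

end CayBAux

open CayBAux

theorem exists_cay_equiv (m : ℕ) (E : Type) [NormedAddCommGroup E] [InnerProductSpace ℝ E] :
    ∃ e : Option (Hs (Fin m × Fin 4) (Fin 3) × E) ≃ Sg (m + 1) E,
      (e none).1 = poi ∧ (∀ a, (e (some a)).1 = cay a) ∧
      ∀ a, ∀ ε > 0, ∀ᶠ q in nhds (e (some a)), ∃ b, q = e (some b) ∧ ‖b - a‖ < ε := by
  obtain ⟨f, hf⟩ : ∃ f : Option (Hs (Fin m × Fin 4) (Fin 3) × E) → Sg (m + 1) E,
      (f none).1 = poi ∧ ∀ a, (f (some a)).1 = cay a :=
    ⟨fun o => match o with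
      | none => ⟨poi, poi_mem⟩
      | some a => ⟨cay a, cay_mem a⟩, rfl, fun a => rfl⟩
  have hsurj : ∀ q : Sg (m + 1) E, q.1.1 (Fin.last m) ≠ 1 → q = f (some (iv q.1)) := by
    intro q hq
    apply Subtype.ext
    rw [hf.2, cay_iv q.2 hq]
  have hbij : Function.Bijective f := by
    constructor
    · intro x y hxy
      have hxy' : (f x).1 = (f y).1 := congrArg Subtype.val hxy
      cases x with
      | none =>
        cases y with
        | none => rfl
        | some b =>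
          rw [hf.1, hf.2] at hxy'
          exfalso
          apply cay_last b
          rw [← hxy', poi_last]
      | some a =>
        cases y with
        | none =>
          rw [hf.1, hf.2] at hxy'
          exfalso
          apply cay_last a
          rw [hxy', poi_last]
        | some b =>
          rw [hf.2, hf.2] at hxy'
          have := congrArg iv hxy'
          rw [iv_cay, iv_cay] at this
          rw [this]
    · intro q
      by_cases hq : q.1.1 (Fin.last m) = 1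
      · refine ⟨none, ?_⟩
        apply Subtype.ext
        rw [hf.1, eq_poi q.2 hq]
      · exact ⟨_, (hsurj q hq).symm⟩
  refine ⟨Equiv.ofBijective f hbij, hf.1, hf.2, ?_⟩
  intro a ε hε
  show ∀ᶠ q in nhds (f (some a)), ∃ b, q = f (some b) ∧ ‖b - a‖ < ε
  have hlast : (f (some a)).1.1 (Fin.last m) ≠ 1 := by
    rw [hf.2]
    exact cay_last a
  have h1 : ∀ᶠ q in nhds (f (some a)), q.1.1 (Fin.last m) ≠ 1 := by
    have hc : Continuous fun q : Sg (m + 1) E => q.1.1 (Fin.last m) :=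
      ((continuous_apply _).comp continuous_fst).comp continuous_subtype_val
    exact hc.continuousAt.eventually_ne hlast
  have h2 : ContinuousAt (fun q : Sg (m + 1) E => iv q.1) (f (some a)) :=
    ContinuousAt.comp (g := iv) (cont_iv hlast) continuous_subtype_val.continuousAt
  have h3 : ∀ᶠ q in nhds (f (some a)), ‖iv q.1 - iv (f (some a)).1‖ < ε := by
    have := Metric.continuousAt_iff'.mp h2 ε hε
    filter_upwards [this] with q hq
    rw [dist_eq_norm] at hq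
    exact hq
  filter_upwards [h1, h3] with q hq1 hq3
  refine ⟨iv q.1, hsurj q hq1, ?_⟩
  rw [hf.2, iv_cay] at hq3
  exact hq3

end Pool.UQC
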