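import Mathlib

/-!
Definitions: the group Sp(n,1), the sphere Sg n E, the action, the kernel kf.
-/

open scoped Quaternion Matrix RealInnerProductSpace

namespace Pool.UQC

/-- The matrix diag(1,...,1,-1) of size n+1. -/
noncomputable def Jm (n : ℕ) : Matrix (Fin (n + 1)) (Fin (n + 1)) ℍ[ℝ] :=
  Matrix.diagonal (fun i => if i = Fin.last n then -1 else 1)

/-- The group Sp(n,1) of invertible quaternionic matrices g with g* J g = J. -/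
noncomputable def Spn (n : ℕ) : Subgroup (Matrix (Fin (n + 1)) (Fin (n + 1)) ℍ[ℝ])ˣ where
  carrier := {g | (g : Matrix (Fin (n + 1)) (Fin (n + 1)) ℍ[ℝ])ᴴ * Jm n *
    (g : Matrix (Fin (n + 1)) (Fin (n + 1)) ℍ[ℝ]) = Jm n}
  mul_mem' := by
    intro a b ha hb
    simp only [Set.mem_ofPred_eq] at ha hb ⊢
    rw [Units.val_mul, Matrix.conjTranspose_mul]
    calc (b : Matrix (Fin (n + 1)) (Fin (n + 1)) ℍ[ℝ])ᴴ * (a : Matrix _ _ ℍ[ℝ])ᴴ * Jm n *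
          ((a : Matrix _ _ ℍ[ℝ]) * (b : Matrix _ _ ℍ[ℝ]))
        = (b : Matrix _ _ ℍ[ℝ])ᴴ * ((a : Matrix _ _ ℍ[ℝ])ᴴ * Jm n * (a : Matrix _ _ ℍ[ℝ])) *
          (b : Matrix _ _ ℍ[ℝ]) := by simp only [mul_assoc]
      _ = Jm n := by rw [ha, hb]
  one_mem' := by simp
  inv_mem' := by
    intro a ha
    simp only [Set.mem_ofPred_eq] at ha ⊢
    have h1 : (a : Matrix (Fin (n + 1)) (Fin (n + 1)) ℍ[ℝ]) *
        ((a⁻¹ : (Matrix (Fin (n + 1)) (Fin (n + 1)) ℍ[ℝ])ˣ) : Matrix _ _ ℍ[ℝ]) = 1 :=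
      Units.mul_inv a
    have h2 : ((a⁻¹ : (Matrix (Fin (n + 1)) (Fin (n + 1)) ℍ[ℝ])ˣ) : Matrix _ _ ℍ[ℝ])ᴴ *
        (a : Matrix (Fin (n + 1)) (Fin (n + 1)) ℍ[ℝ])ᴴ = 1 := by
      rw [← Matrix.conjTranspose_mul, h1, Matrix.conjTranspose_one]
    calc ((a⁻¹ : (Matrix (Fin (n + 1)) (Fin (n + 1)) ℍ[ℝ])ˣ) : Matrix _ _ ℍ[ℝ])ᴴ * Jm n *
          ((a⁻¹ : (Matrix (Fin (n + 1)) (Fin (n + 1)) ℍ[ℝ])ˣ) : Matrix _ _ ℍ[ℝ])
        = (((a⁻¹ : (Matrix (Fin (n + 1)) (Fin (n + 1)) ℍ[ℝ])ˣ) : Matrix _ _ ℍ[ℝ])ᴴ *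
          (a : Matrix (Fin (n + 1)) (Fin (n + 1)) ℍ[ℝ])ᴴ) * Jm n *
          ((a : Matrix (Fin (n + 1)) (Fin (n + 1)) ℍ[ℝ]) *
          ((a⁻¹ : (Matrix (Fin (n + 1)) (Fin (n + 1)) ℍ[ℝ])ˣ) : Matrix _ _ ℍ[ℝ])) := by
          conv_lhs => rw [← ha]
          simp only [mul_assoc]
      _ = Jm n := by rw [h1, h2, one_mul, mul_one]

/-- The sphere of all (X,v) in H^n x E with |X|^2+|v|^2 = 1. -/
def Sg (n : ℕ) (E : Type) [NormedAddCommGroup E] : Set ((Fin n → ℍ[ℝ]) × E) :=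
  {p | ∑ i, ‖p.1 i‖ ^ 2 + ‖p.2‖ ^ 2 = 1}

/-- The vector (X,1). -/
noncomputable def hat {n : ℕ} (X : Fin n → ℍ[ℝ]) : Fin (n + 1) → ℍ[ℝ] :=
  Fin.snoc (α := fun _ => ℍ[ℝ]) X 1

/-- The vector g (X,1). -/
noncomputable def zv {n : ℕ} (g : Matrix (Fin (n + 1)) (Fin (n + 1)) ℍ[ℝ]) (X : Fin n → ℍ[ℝ]) :
    Fin (n + 1) → ℍ[ℝ] := fun i => ∑ j, g i j * hat X j

/-- Its last coordinate c X + d. -/
noncomputable def lam {n : ℕ} (g : Matrix (Fin (n + 1)) (Fin (n + 1)) ℍ[ℝ]) (X : Fin n → ℍ[ℝ]) : ℍ[ℝ] :=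
  zv g X (Fin.last n)

/-- The action (X,v) -> ((AX+b)(cX+d)^{-1}, v/|cX+d|). -/
noncomputable def actF {n : ℕ} {E : Type} [NormedAddCommGroup E] [NormedSpace ℝ E]
    (g : Matrix (Fin (n + 1)) (Fin (n + 1)) ℍ[ℝ]) (p : (Fin n → ℍ[ℝ]) × E) :
    (Fin n → ℍ[ℝ]) × E :=
  (fun i => zv g p.1 i.castSucc * (lam g p.1)⁻¹, ‖lam g p.1‖⁻¹ • p.2)

/-- The kernel |1 - X* Y| - <v,w>. -/
noncomputable def kf {n : ℕ} {E : Type} [NormedAddCommGroup E] [InnerProductSpace ℝ E]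
    (p q : (Fin n → ℍ[ℝ]) × E) : ℝ :=
  ‖1 - ∑ i, star (p.1 i) * q.1 i‖ - ⟪p.2, q.2⟫

/-- f is H-quasiconformal in the metric sense: at every point z, for all y, y' close enough to z,
|y - z| <= |y' - z| implies |f y - f z| <= H |f y' - f z|. -/
def MetricQC {Y : Type} [MetricSpace Y] (H : ℝ) (f : Y → Y) : Prop :=
  ∀ z, ∃ δ > 0, ∀ y y', dist y z < δ → dist y' z < δ → dist y z ≤ dist y' z →
    dist (f y) (f z) ≤ H * dist (f y') (f z)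

end Pool.UQC
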