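import Pool.Agent.UQC.RDef
import Pool.Agent.UQC.SpDef

/-!
Definitions for the Cayley transform.  Model of the boundary of quaternionic hyperbolic space minus a point:
coordinates x in R^(m x 4) (m quaternions), t in R^3 (imaginary quaternion).
-/

open scoped Quaternion Matrix RealInnerProductSpace

namespace Pool.UQC

/-- Table: coefficients of the i, j, k components of star a * b. -/
def cc : Fin 3 → Fin 4 → Fin 4 → ℤ :=
  ![![![0, 1, 0, 0], ![-1, 0, 0, 0], ![0, 0, 0, -1], ![0, 0, 1, 0]],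
    ![![0, 0, 1, 0], ![0, 0, 0, 1], ![-1, 0, 0, 0], ![0, -1, 0, 0]],
    ![![0, 0, 0, 1], ![0, 0, -1, 0], ![0, 1, 0, 0], ![-1, 0, 0, 0]]]

theorem cc_anti : ∀ k p q, cc k q p = - cc k p q := by decide

/-- The quaternionic Heisenberg group: om x y = 2 Im (sum star x_i y_i). -/
def Sq (m : ℕ) : Str (Fin m × Fin 4) (Fin 3) where
  c := fun k a b => if a.1 = b.1 then 2 * cc k a.2 b.2 else 0
  anti := by
    intro k i j
    by_cases h : i.1 = j.1
    · rw [if_pos h, if_pos h.symm, cc_anti k i.2 j.2]; ring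
    · rw [if_neg h, if_neg (fun h' => h h'.symm)]; simp

/-- The quaternions with given coordinates. -/
def zq {m : ℕ} (x : Fin m × Fin 4 → ℝ) : Fin m → ℍ[ℝ] :=
  fun i => ⟨x (i, 0), x (i, 1), x (i, 2), x (i, 3)⟩

/-- The imaginary quaternion with given coordinates. -/
def tq (t : Fin 3 → ℝ) : ℍ[ℝ] := ⟨0, t 0, t 1, t 2⟩

variable {m : ℕ} {E : Type} [NormedAddCommGroup E] [InnerProductSpace ℝ E]

/-- q + 1 where q = |x|^2 + |V|^2 + t. -/
noncomputable def qv (a : Hs (Fin m × Fin 4) (Fin 3) × E) : ℍ[ℝ] :=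
  ⟨1 + nsq a.1.1 + ‖a.2‖ ^ 2, a.1.2 0, a.1.2 1, a.1.2 2⟩

/-- mu = 2 (q+1)^{-1}. -/
noncomputable def mu (a : Hs (Fin m × Fin 4) (Fin 3) × E) : ℍ[ℝ] := 2 * (qv a)⁻¹

/-- The Cayley transform. -/
noncomputable def cay (a : Hs (Fin m × Fin 4) (Fin 3) × E) : (Fin (m + 1) → ℍ[ℝ]) × E :=
  (Fin.snoc (α := fun _ => ℍ[ℝ]) (fun i => zq a.1.1 i * mu a) (1 - mu a), ‖mu a‖ • a.2)

/-- The point at infinity. -/
noncomputable def poi : (Fin (m + 1) → ℍ[ℝ]) × E :=
  (Fin.snoc (α := fun _ => ℍ[ℝ]) (fun _ => 0) 1, 0)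

end Pool.UQC
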