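import Pool.Agent.UQC.SpDef

/-!
MODULE SpAct (problem MP_7936f4_al).  The action of Sp(n,1) on Sg n E.  COMPLETE PAPER PROOF.

Right scalar multiplication: write z*l for the vector i -> z i * l.
(0) Form: for z, w : Fin (n+1) -> H put hf z w = sum_i star (z i) * J_i * w i (J_i = 1 or -1 real).  g* J g = J gives
    hf (g z) (g w) = hf z w.  hf (hat X) (hat Y) = (sum_i star (X i) * Y i) - 1.   So |hf (hat X)(hat Y)| = |1 - sum|.
    For p = (X,v) in Sg: hf (hat X)(hat X) = |X|^2 - 1 = -|v|^2.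
(1) lam_ne_zero: with z = zv g X: sum_{i<n} |z_i|^2 - |lam|^2 = hf z z = -|v|^2.  If lam = 0 then all z_i = 0 so
    g (hat X) = 0 and, g being invertible (multiply by g^{-1}: sum_j (g^{-1})_{ij} z_j = hat X i), hat X = 0, but its last
    coordinate is 1.
(2) act_mem: sum |z_i lam^{-1}|^2 + |v|^2/|lam|^2 = (|lam|^2 - |v|^2 + |v|^2)/|lam|^2 = 1.
(3) zv g X = (hat (actF g p).1) * lam g X (coordinatewise: (z_i lam^{-1}) lam = z_i, last one 1 * lam).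
    zv (g h) X = g (h hat X) = g (hat (actF h p).1 * lam h X) = (zv g (actF h p).1) * lam h X, so
    lam_mul: lam (g h) X = lam g (actF h p).1 * lam h X, and
    act_mul: first coordinates z_i(gh) lam(gh)^{-1} = z_i' l l^{-1} lam'^{-1}; second |lam(gh)| = |lam'||l|.
    act_one: zv 1 X = hat X, lam = 1.
(4) kf_act: hf (hat X1) (hat Y1) = star(lam_p)^{-1} hf (g hat X) (g hat Y) lam_q^{-1} = star(lam_p)^{-1} hf (hat X)(hat Y)
    lam_q^{-1}, norm = |1 - X*Y|/(|lam_p||lam_q|); and the inner product is <v,w>/(|lam_p||lam_q|).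
(5) Continuity: all the formulas are continuous where lam ≠ 0 (Continuous.inv₀; the coercion from the units of the
    matrix ring to matrices is continuous: Units.continuous_val).
(6) kernel of the action: act_neg: actF (-g) p = actF g p (z and lam change sign).
(7) toHomeo: Homeomorph with inverse the action of g^{-1} (act_mul, act_one); a monoid hom by act_mul (the group
    structure on Homeomorph: (f * g) x = f (g x)).
(8) Kernel facts: |1 - X*Y| >= Re(1 - X*Y) = 1 - Re X*Y; and 1 - Re X*Y - <v,w> = (1/2)(sum |X_i-Y_i|^2 + |v-w|^2) for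
    p, q in Sg (|X|^2+|v|^2 = |Y|^2+|w|^2 = 1, |X_i-Y_i|^2 = |X_i|^2+|Y_i|^2 - 2 Re(star X_i Y_i)).
    kf p p = |1 - |X|^2| - |v|^2 = 0 for p in Sg.
-/

open scoped Quaternion Matrix RealInnerProductSpace

namespace Pool.UQC

variable {n : ℕ} {E : Type} [NormedAddCommGroup E] [InnerProductSpace ℝ E]

namespace SpActAux

/-- The form sum star (z i) J_i (w i). -/
noncomputable def hf {n : ℕ} (z w : Fin (n + 1) → ℍ[ℝ]) : ℍ[ℝ] :=
  star z ⬝ᵥ (Jm n *ᵥ w)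

theorem zv_eq (g : Matrix (Fin (n + 1)) (Fin (n + 1)) ℍ[ℝ]) (X : Fin n → ℍ[ℝ]) :
    zv g X = g *ᵥ hat X := by
  funext i
  rfl

theorem hf_mulVec (g : Matrix (Fin (n + 1)) (Fin (n + 1)) ℍ[ℝ]) (hg : gᴴ * Jm n * g = Jm n)
    (z w : Fin (n + 1) → ℍ[ℝ]) : hf (g *ᵥ z) (g *ᵥ w) = hf z w := by
  unfold hf
  rw [Matrix.star_mulVec, ← Matrix.dotProduct_mulVec, Matrix.mulVec_mulVec, Matrix.mulVec_mulVec,
    hg]

theorem hf_eq (z w : Fin (n + 1) → ℍ[ℝ]) :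
    hf z w = ∑ i : Fin n, star (z i.castSucc) * w i.castSucc
      - star (z (Fin.last n)) * w (Fin.last n) := by
  unfold hf Jm
  rw [dotProduct, Fin.sum_univ_castSucc]
  simp only [Matrix.mulVec_diagonal, Pi.star_apply]
  have h1 : ∀ i : Fin n, (if i.castSucc = Fin.last n then (-1 : ℍ[ℝ]) else 1) = 1 := by
    intro i
    rw [if_neg (Fin.castSucc_lt_last i).ne]
  simp only [h1, one_mul, if_true, neg_mul, mul_neg]
  rw [sub_eq_add_neg]

theorem hat_castSucc (X : Fin n → ℍ[ℝ]) (i : Fin n) : hat X i.castSucc = X i := by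
  simp [hat]

theorem hat_last (X : Fin n → ℍ[ℝ]) : hat X (Fin.last n) = 1 := by
  simp [hat]

theorem hf_hat (X Y : Fin n → ℍ[ℝ]) : hf (hat X) (hat Y) = (∑ i, star (X i) * Y i) - 1 := by
  rw [hf_eq]
  simp [hat_castSucc, hat_last]

theorem star_mul_self' (x : ℍ[ℝ]) : star x * x = ((‖x‖ ^ 2 : ℝ) : ℍ[ℝ]) := by
  rw [Quaternion.star_mul_self, Quaternion.normSq_eq_norm_mul_self, sq]

theorem hf_self (z : Fin (n + 1) → ℍ[ℝ]) :
    hf z z = ((∑ i : Fin n, ‖z i.castSucc‖ ^ 2 - ‖z (Fin.last n)‖ ^ 2 : ℝ) : ℍ[ℝ]) := by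
  rw [hf_eq]
  simp only [star_mul_self']
  rw [Quaternion.coe_sub]
  congr 1
  exact (map_sum (algebraMap ℝ ℍ[ℝ]) _ _).symm

theorem norm_rel (g : Matrix (Fin (n + 1)) (Fin (n + 1)) ℍ[ℝ]) (hg : gᴴ * Jm n * g = Jm n)
    (p : (Fin n → ℍ[ℝ]) × E) (hp : p ∈ Sg n E) :
    ∑ i : Fin n, ‖zv g p.1 i.castSucc‖ ^ 2 + ‖p.2‖ ^ 2 = ‖lam g p.1‖ ^ 2 := by
  have h1 := hf_mulVec g hg (hat p.1) (hat p.1)
  rw [← zv_eq, hf_self, hf_self] at h1
  have h2 := Quaternion.coe_injective h1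
  simp only [hat_castSucc, hat_last, norm_one] at h2
  have h3 : ∑ i, ‖p.1 i‖ ^ 2 + ‖p.2‖ ^ 2 = 1 := hp
  unfold lam
  linarith

end SpActAux

open SpActAux

theorem lam_ne_zero (g : (Matrix (Fin (n + 1)) (Fin (n + 1)) ℍ[ℝ])ˣ) (hg : g ∈ Spn n)
    (p : (Fin n → ℍ[ℝ]) × E) (hp : p ∈ Sg n E) : lam g.1 p.1 ≠ 0 := by
  intro h0
  have h1 := norm_rel g.1 hg p hp
  rw [h0, norm_zero] at h1
  have h2 : ∀ i : Fin n, 0 ≤ ‖zv g.1 p.1 i.castSucc‖ ^ 2 := fun i => sq_nonneg _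
  have h3 : ∑ i : Fin n, ‖zv g.1 p.1 i.castSucc‖ ^ 2 = 0 := by
    have h4 := Finset.sum_nonneg fun i (_ : i ∈ Finset.univ) => h2 i
    have h5 := sq_nonneg ‖p.2‖
    nlinarith
  have h4 : ∀ i : Fin n, zv g.1 p.1 i.castSucc = 0 := by
    intro i
    have h5 := (Finset.sum_eq_zero_iff_of_nonneg fun i (_ : i ∈ Finset.univ) => h2 i).1 h3 i
      (Finset.mem_univ i)
    exact norm_eq_zero.1 (pow_eq_zero_iff (two_ne_zero)|>.1 h5)
  have h5 : zv g.1 p.1 = 0 := by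
    funext i
    refine Fin.lastCases ?_ (fun j => ?_) i
    · exact h0
    · exact h4 j
  rw [zv_eq] at h5
  have h6 : (g⁻¹).1 *ᵥ (g.1 *ᵥ hat p.1) = 0 := by
    rw [h5, Matrix.mulVec_zero]
  rw [Matrix.mulVec_mulVec, Units.inv_mul, Matrix.one_mulVec] at h6
  have h7 := congrFun h6 (Fin.last n)
  rw [hat_last] at h7
  exact one_ne_zero h7

theorem act_mem (g : (Matrix (Fin (n + 1)) (Fin (n + 1)) ℍ[ℝ])ˣ) (hg : g ∈ Spn n)
    (p : (Fin n → ℍ[ℝ]) × E) (hp : p ∈ Sg n E) : actF g.1 p ∈ Sg n E := by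
  have h0 := lam_ne_zero g hg p hp
  have h1 := norm_rel g.1 hg p hp
  have h2 : ‖lam g.1 p.1‖ ≠ 0 := norm_ne_zero_iff.2 h0
  change ∑ i : Fin n, ‖zv g.1 p.1 i.castSucc * (lam g.1 p.1)⁻¹‖ ^ 2 +
    ‖‖lam g.1 p.1‖⁻¹ • p.2‖ ^ 2 = 1
  have h3 : ∀ i : Fin n, ‖zv g.1 p.1 i.castSucc * (lam g.1 p.1)⁻¹‖ ^ 2 =
      ‖zv g.1 p.1 i.castSucc‖ ^ 2 * (‖lam g.1 p.1‖ ^ 2)⁻¹ := by
    intro i
    rw [norm_mul, norm_inv, mul_pow, inv_pow]
  rw [Finset.sum_congr rfl fun i _ => h3 i, ← Finset.sum_mul, norm_smul, norm_inv, norm_norm,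
    mul_pow, inv_pow, mul_comm ((‖lam g.1 p.1‖ ^ 2)⁻¹) (‖p.2‖ ^ 2), ← add_mul, h1]
  exact mul_inv_cancel₀ (pow_ne_zero 2 h2)

theorem act_one (p : (Fin n → ℍ[ℝ]) × E) : actF 1 p = p := by
  have h1 : zv 1 p.1 = hat p.1 := by rw [zv_eq, Matrix.one_mulVec]
  have h2 : lam 1 p.1 = 1 := by unfold lam; rw [h1, hat_last]
  unfold actF
  rw [h2, h1]
  ext1
  · funext i
    simp [hat_castSucc]
  · simp

namespace SpActAux

theorem hat_act (g : (Matrix (Fin (n + 1)) (Fin (n + 1)) ℍ[ℝ])ˣ) (hg : g ∈ Spn n)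
    (p : (Fin n → ℍ[ℝ]) × E) (hp : p ∈ Sg n E) (i : Fin (n + 1)) :
    hat (actF g.1 p).1 i = zv g.1 p.1 i * (lam g.1 p.1)⁻¹ := by
  have h0 := lam_ne_zero g hg p hp
  refine Fin.lastCases ?_ (fun j => ?_) i
  · rw [hat_last]
    exact (mul_inv_cancel₀ h0).symm
  · rw [hat_castSucc]
    rfl

theorem zv_act (g : (Matrix (Fin (n + 1)) (Fin (n + 1)) ℍ[ℝ])ˣ) (hg : g ∈ Spn n)
    (p : (Fin n → ℍ[ℝ]) × E) (hp : p ∈ Sg n E) (i : Fin (n + 1)) :
    zv g.1 p.1 i = hat (actF g.1 p).1 i * lam g.1 p.1 := by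
  rw [hat_act g hg p hp, mul_assoc, inv_mul_cancel₀ (lam_ne_zero g hg p hp), mul_one]

theorem zv_mul (g h : (Matrix (Fin (n + 1)) (Fin (n + 1)) ℍ[ℝ])ˣ)
    (hh : h ∈ Spn n) (p : (Fin n → ℍ[ℝ]) × E) (hp : p ∈ Sg n E) (i : Fin (n + 1)) :
    zv (g.1 * h.1) p.1 i = zv g.1 (actF h.1 p).1 i * lam h.1 p.1 := by
  rw [zv_eq, ← Matrix.mulVec_mulVec, ← zv_eq]
  have h1 : zv h.1 p.1 = fun j => hat (actF h.1 p).1 j * lam h.1 p.1 := by
    funext j
    exact zv_act h hh p hp j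
  rw [h1]
  change ∑ j, g.1 i j * (hat (actF h.1 p).1 j * lam h.1 p.1) =
    (∑ j, g.1 i j * hat (actF h.1 p).1 j) * lam h.1 p.1
  rw [Finset.sum_mul]
  exact Finset.sum_congr rfl fun j _ => (mul_assoc _ _ _).symm

end SpActAux

theorem lam_mul (g h : (Matrix (Fin (n + 1)) (Fin (n + 1)) ℍ[ℝ])ˣ) (hg : g ∈ Spn n)
    (hh : h ∈ Spn n) (p : (Fin n → ℍ[ℝ]) × E) (hp : p ∈ Sg n E) :
    lam (g.1 * h.1) p.1 = lam g.1 (actF h.1 p).1 * lam h.1 p.1 :=
  zv_mul g h hh p hp (Fin.last n)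

theorem act_mul (g h : (Matrix (Fin (n + 1)) (Fin (n + 1)) ℍ[ℝ])ˣ) (hg : g ∈ Spn n)
    (hh : h ∈ Spn n) (p : (Fin n → ℍ[ℝ]) × E) (hp : p ∈ Sg n E) :
    actF (g.1 * h.1) p = actF g.1 (actF h.1 p) := by
  have h1 := lam_mul g h hg hh p hp
  have h2 := lam_ne_zero h hh p hp
  have h3 := lam_ne_zero g hg (actF h.1 p) (act_mem h hh p hp)
  refine Prod.ext ?_ ?_
  · funext i
    change zv (g.1 * h.1) p.1 i.castSucc * (lam (g.1 * h.1) p.1)⁻¹ =
      zv g.1 (actF h.1 p).1 i.castSucc * (lam g.1 (actF h.1 p).1)⁻¹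
    rw [h1, zv_mul g h hh p hp, mul_inv_rev, mul_assoc, ← mul_assoc (lam h.1 p.1),
      mul_inv_cancel₀ h2, one_mul]
  · change ‖lam (g.1 * h.1) p.1‖⁻¹ • p.2 =
      ‖lam g.1 (actF h.1 p).1‖⁻¹ • (‖lam h.1 p.1‖⁻¹ • p.2)
    rw [h1, norm_mul, mul_inv, smul_smul]

theorem act_neg (g : Matrix (Fin (n + 1)) (Fin (n + 1)) ℍ[ℝ])
    (p : (Fin n → ℍ[ℝ]) × E) : actF (-g) p = actF g p := by
  have h1 : zv (-g) p.1 = -zv g p.1 := by
    rw [zv_eq, zv_eq, Matrix.neg_mulVec]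
  have h2 : lam (-g) p.1 = -lam g p.1 := by
    unfold lam
    rw [h1]
    rfl
  unfold actF
  rw [h1, h2]
  refine Prod.ext ?_ ?_
  · funext i
    change -zv g p.1 i.castSucc * (-lam g p.1)⁻¹ = zv g p.1 i.castSucc * (lam g p.1)⁻¹
    rw [inv_neg, neg_mul_neg]
  · change ‖-lam g p.1‖⁻¹ • p.2 = ‖lam g p.1‖⁻¹ • p.2
    rw [norm_neg]

namespace SpActAux

theorem hf_smul (z w : Fin (n + 1) → ℍ[ℝ]) (a b : ℍ[ℝ]) :
    hf (fun i => z i * a) (fun i => w i * b) = star a * hf z w * b := by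
  rw [hf_eq, hf_eq, mul_sub, sub_mul, Finset.mul_sum, Finset.sum_mul]
  simp only [star_mul, mul_assoc]

theorem kf_eq (p q : (Fin n → ℍ[ℝ]) × E) :
    kf p q = ‖hf (hat p.1) (hat q.1)‖ - ⟪p.2, q.2⟫ := by
  rw [hf_hat, norm_sub_rev]
  rfl

end SpActAux

theorem kf_act (g : (Matrix (Fin (n + 1)) (Fin (n + 1)) ℍ[ℝ])ˣ) (hg : g ∈ Spn n)
    (p q : (Fin n → ℍ[ℝ]) × E) (hp : p ∈ Sg n E) (hq : q ∈ Sg n E) :
    kf (actF g.1 p) (actF g.1 q) = kf p q / (‖lam g.1 p.1‖ * ‖lam g.1 q.1‖) := by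
  have hp0 : ‖lam g.1 p.1‖ ≠ 0 := norm_ne_zero_iff.2 (lam_ne_zero g hg p hp)
  have hq0 : ‖lam g.1 q.1‖ ≠ 0 := norm_ne_zero_iff.2 (lam_ne_zero g hg q hq)
  have h1 : hat (actF g.1 p).1 = fun i => zv g.1 p.1 i * (lam g.1 p.1)⁻¹ := by
    funext i
    exact hat_act g hg p hp i
  have h2 : hat (actF g.1 q).1 = fun i => zv g.1 q.1 i * (lam g.1 q.1)⁻¹ := by
    funext i
    exact hat_act g hg q hq i
  have h3 : hf (hat (actF g.1 p).1) (hat (actF g.1 q).1) =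
      star (lam g.1 p.1)⁻¹ * hf (hat p.1) (hat q.1) * (lam g.1 q.1)⁻¹ := by
    rw [h1, h2, hf_smul, zv_eq, zv_eq, hf_mulVec g.1 hg]
  have h4 : ⟪(actF g.1 p).2, (actF g.1 q).2⟫ =
      ‖lam g.1 p.1‖⁻¹ * (‖lam g.1 q.1‖⁻¹ * ⟪p.2, q.2⟫) := by
    change ⟪‖lam g.1 p.1‖⁻¹ • p.2, ‖lam g.1 q.1‖⁻¹ • q.2⟫ = _
    rw [real_inner_smul_left, real_inner_smul_right]
  rw [kf_eq, kf_eq, h3, h4, norm_mul, norm_mul, norm_star, norm_inv, norm_inv]
  field_simp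

namespace SpActAux

theorem zv_sum (g : Matrix (Fin (n + 1)) (Fin (n + 1)) ℍ[ℝ]) (X : Fin n → ℍ[ℝ])
    (i : Fin (n + 1)) :
    zv g X i = ∑ j : Fin n, g i j.castSucc * X j + g i (Fin.last n) := by
  unfold zv
  rw [Fin.sum_univ_castSucc]
  simp [hat_castSucc, hat_last]

theorem zv_cont (i : Fin (n + 1)) :
    Continuous fun a : Spn n × Sg n E => zv a.1.1.1 a.2.1.1 i := by
  simp only [zv_sum]
  have h1 : ∀ i j, Continuous fun a : Spn n × Sg n E =>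
      (a.1.1 : Matrix (Fin (n + 1)) (Fin (n + 1)) ℍ[ℝ]) i j := by
    intro i j
    have h2 : Continuous fun a : Spn n × Sg n E =>
        (a.1.1 : Matrix (Fin (n + 1)) (Fin (n + 1)) ℍ[ℝ]) :=
      Units.continuous_val.comp (continuous_subtype_val.comp continuous_fst)
    exact h2.matrix_elem i j
  have h3 : ∀ j : Fin n, Continuous fun a : Spn n × Sg n E => a.2.1.1 j := by
    intro j
    exact (continuous_apply j).comp (continuous_fst.comp (continuous_subtype_val.comp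
      continuous_snd))
  exact (continuous_finsetSum _ fun j _ => (h1 _ _).mul (h3 j)).add (h1 _ _)

end SpActAux

theorem lam_continuous (g : (Matrix (Fin (n + 1)) (Fin (n + 1)) ℍ[ℝ])ˣ) :
    Continuous fun p : Sg n E => ‖lam g.1 p.1.1‖ := by
  unfold lam
  simp only [zv_sum]
  have h3 : ∀ j : Fin n, Continuous fun a : Sg n E => a.1.1 j := by
    intro j
    exact (continuous_apply j).comp (continuous_fst.comp continuous_subtype_val)
  exact ((continuous_finsetSum _ fun j _ => continuous_const.mul (h3 j)).add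
    continuous_const).norm

theorem act_continuous :
    Continuous fun a : Spn n × Sg n E => actF a.1.1.1 a.2.1 := by
  have hne : ∀ a : Spn n × Sg n E, lam a.1.1.1 a.2.1.1 ≠ 0 :=
    fun a => lam_ne_zero a.1.1 a.1.2 a.2.1 a.2.2
  have hl : Continuous fun a : Spn n × Sg n E => lam a.1.1.1 a.2.1.1 := zv_cont (Fin.last n)
  unfold actF
  refine Continuous.prodMk ?_ ?_
  · refine continuous_pi fun i => ?_
    exact (zv_cont i.castSucc).mul (hl.inv₀ hne)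
  · exact (hl.norm.inv₀ fun a => norm_ne_zero_iff.2 (hne a)).smul
      (continuous_snd.comp (continuous_subtype_val.comp continuous_snd))

namespace SpActAux

theorem act_cancel (g h : (Matrix (Fin (n + 1)) (Fin (n + 1)) ℍ[ℝ])ˣ) (hg : g ∈ Spn n)
    (hh : h ∈ Spn n) (hgh : h * g = 1) (p : (Fin n → ℍ[ℝ]) × E) (hp : p ∈ Sg n E) :
    actF h.1 (actF g.1 p) = p := by
  rw [← act_mul h g hh hg p hp, ← Units.val_mul, hgh, Units.val_one, act_one]

theorem zv_cont_fixed (g : Matrix (Fin (n + 1)) (Fin (n + 1)) ℍ[ℝ]) (i : Fin (n + 1)) :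
    Continuous fun p : Sg n E => zv g p.1.1 i := by
  simp only [zv_sum]
  have h3 : ∀ j : Fin n, Continuous fun a : Sg n E => a.1.1 j := by
    intro j
    exact (continuous_apply j).comp (continuous_fst.comp continuous_subtype_val)
  exact (continuous_finsetSum _ fun j _ => continuous_const.mul (h3 j)).add continuous_const

theorem act_cont_fixed (g : (Matrix (Fin (n + 1)) (Fin (n + 1)) ℍ[ℝ])ˣ) (hg : g ∈ Spn n) :
    Continuous fun p : Sg n E => actF g.1 p.1 := by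
  have hne : ∀ p : Sg n E, lam g.1 p.1.1 ≠ 0 := fun p => lam_ne_zero g hg p.1 p.2
  have hl : Continuous fun p : Sg n E => lam g.1 p.1.1 := zv_cont_fixed g.1 (Fin.last n)
  unfold actF
  refine Continuous.prodMk ?_ ?_
  · refine continuous_pi fun i => ?_
    exact (zv_cont_fixed g.1 i.castSucc).mul (hl.inv₀ hne)
  · exact (hl.norm.inv₀ fun a => norm_ne_zero_iff.2 (hne a)).smul
      (continuous_snd.comp continuous_subtype_val)

/-- The homeomorphism of the sphere given by an element of Sp(n,1). -/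
noncomputable def FH (n : ℕ) (E : Type) [NormedAddCommGroup E] [InnerProductSpace ℝ E]
    (g : (Matrix (Fin (n + 1)) (Fin (n + 1)) ℍ[ℝ])ˣ) (hg : g ∈ Spn n) : Sg n E ≃ₜ Sg n E where
  toFun := fun p => ⟨actF g.1 p.1, act_mem g hg p.1 p.2⟩
  invFun := fun p => ⟨actF (g⁻¹).1 p.1, act_mem g⁻¹ ((Spn n).inv_mem hg) p.1 p.2⟩
  left_inv := fun p => Subtype.ext
    (act_cancel g g⁻¹ hg ((Spn n).inv_mem hg) (inv_mul_cancel g) p.1 p.2)
  right_inv := fun p => Subtype.ext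
    (act_cancel g⁻¹ g ((Spn n).inv_mem hg) hg (mul_inv_cancel g) p.1 p.2)
  continuous_toFun := Continuous.subtype_mk (act_cont_fixed g hg) _
  continuous_invFun := Continuous.subtype_mk (act_cont_fixed g⁻¹ ((Spn n).inv_mem hg)) _

theorem FH_apply (g : (Matrix (Fin (n + 1)) (Fin (n + 1)) ℍ[ℝ])ˣ) (hg : g ∈ Spn n)
    (p : Sg n E) : (FH n E g hg p).1 = actF g.1 p.1 := rfl

theorem FH_mul (g h : (Matrix (Fin (n + 1)) (Fin (n + 1)) ℍ[ℝ])ˣ) (hg : g ∈ Spn n)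
    (hh : h ∈ Spn n) (hgh : g * h ∈ Spn n) :
    FH n E (g * h) hgh = FH n E g hg * FH n E h hh := by
  refine Homeomorph.ext fun p => Subtype.ext ?_
  rw [FH_apply]
  have h1 : (FH n E g hg * FH n E h hh) p = FH n E g hg (FH n E h hh p) := rfl
  rw [h1, FH_apply, FH_apply, ← act_mul g h hg hh p.1 p.2, Units.val_mul]

end SpActAux

/-- The action as a homomorphism to the homeomorphism group. -/
theorem exists_hom (n : ℕ) (E : Type) [NormedAddCommGroup E] [InnerProductSpace ℝ E] :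
    ∃ ρ : Spn n →* (Sg n E ≃ₜ Sg n E), ∀ g p, ((ρ g) p).1 = actF g.1.1 p.1 := by
  refine ⟨MonoidHom.mk' (fun g => FH n E g.1 g.2) ?_, fun g p => FH_apply g.1 g.2 p⟩
  intro g h
  exact FH_mul g.1 h.1 g.2 h.2 _

namespace SpActAux

theorem re_star_mul (x y : ℍ[ℝ]) : (star x * y).re = ⟪x, y⟫ := by
  rw [real_inner_comm, Quaternion.inner_def]
  simp only [Quaternion.re_mul, Quaternion.re_star, Quaternion.imI_star, Quaternion.imJ_star,
    Quaternion.imK_star]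
  ring

theorem re_sum {ι : Type*} (s : Finset ι) (f : ι → ℍ[ℝ]) :
    (∑ i ∈ s, f i).re = ∑ i ∈ s, (f i).re := by
  classical
  induction s using Finset.induction_on with
  | empty => simp
  | insert a s ha ih => rw [Finset.sum_insert ha, Finset.sum_insert ha, Quaternion.re_add, ih]

theorem re_le_norm (x : ℍ[ℝ]) : x.re ≤ ‖x‖ := by
  have h1 : x.re = ⟪x, 1⟫ := by
    rw [Quaternion.inner_def, star_one, mul_one]
  rw [h1]
  have h2 := real_inner_le_norm x 1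
  rwa [norm_one, mul_one] at h2

end SpActAux

theorem kf_ge (p q : (Fin n → ℍ[ℝ]) × E) (hp : p ∈ Sg n E) (hq : q ∈ Sg n E) :
    (∑ i, ‖p.1 i - q.1 i‖ ^ 2 + ‖p.2 - q.2‖ ^ 2) / 2 ≤ kf p q := by
  have hp' : ∑ i, ‖p.1 i‖ ^ 2 + ‖p.2‖ ^ 2 = 1 := hp
  have hq' : ∑ i, ‖q.1 i‖ ^ 2 + ‖q.2‖ ^ 2 = 1 := hq
  have h1 : ∑ i, ‖p.1 i - q.1 i‖ ^ 2 =
      ∑ i, ‖p.1 i‖ ^ 2 - 2 * ∑ i, ⟪p.1 i, q.1 i⟫ + ∑ i, ‖q.1 i‖ ^ 2 := by
    rw [Finset.mul_sum, ← Finset.sum_sub_distrib, ← Finset.sum_add_distrib]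
    exact Finset.sum_congr rfl fun i _ => norm_sub_sq_real _ _
  have h2 : ‖p.2 - q.2‖ ^ 2 = ‖p.2‖ ^ 2 - 2 * ⟪p.2, q.2⟫ + ‖q.2‖ ^ 2 := norm_sub_sq_real _ _
  have h3 : (1 - ∑ i, star (p.1 i) * q.1 i : ℍ[ℝ]).re = 1 - ∑ i, ⟪p.1 i, q.1 i⟫ := by
    have h4 : (∑ i, star (p.1 i) * q.1 i : ℍ[ℝ]).re = ∑ i, (star (p.1 i) * q.1 i).re := by
      exact re_sum _ _
    rw [Quaternion.re_sub, h4, Quaternion.re_one]
    congr 1
    exact Finset.sum_congr rfl fun i _ => re_star_mul _ _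
  have h4 := re_le_norm (1 - ∑ i, star (p.1 i) * q.1 i : ℍ[ℝ])
  rw [h3] at h4
  unfold kf
  rw [h1, h2]
  linarith

theorem kf_nonneg (p q : (Fin n → ℍ[ℝ]) × E) (hp : p ∈ Sg n E) (hq : q ∈ Sg n E) :
    0 ≤ kf p q := by
  refine le_trans ?_ (kf_ge p q hp hq)
  have h1 := Finset.sum_nonneg fun i (_ : i ∈ Finset.univ) => sq_nonneg ‖p.1 i - q.1 i‖
  have h2 := sq_nonneg ‖p.2 - q.2‖
  linarith

theorem kf_self (p : (Fin n → ℍ[ℝ]) × E) (hp : p ∈ Sg n E) : kf p p = 0 := by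
  have hp' : ∑ i, ‖p.1 i‖ ^ 2 + ‖p.2‖ ^ 2 = 1 := hp
  rw [kf_eq, hf_self]
  simp only [hat_castSucc, hat_last, norm_one, Quaternion.norm_coe]
  have h1 : ∑ i, ‖p.1 i‖ ^ 2 - 1 ^ 2 = -‖p.2‖ ^ 2 := by linarith
  rw [h1, Real.norm_eq_abs, abs_neg, abs_of_nonneg (sq_nonneg _), real_inner_self_eq_norm_sq]
  ring

theorem kf_continuous :
    Continuous fun a : ((Fin n → ℍ[ℝ]) × E) × ((Fin n → ℍ[ℝ]) × E) => kf a.1 a.2 := by
  unfold kf
  refine Continuous.sub ?_ ?_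
  · refine Continuous.norm (continuous_const.sub ?_)
    refine continuous_finsetSum _ fun i _ => ?_
    have h1 : Continuous fun a : ((Fin n → ℍ[ℝ]) × E) × ((Fin n → ℍ[ℝ]) × E) => a.1.1 i :=
      (continuous_apply i).comp (continuous_fst.comp continuous_fst)
    have h2 : Continuous fun a : ((Fin n → ℍ[ℝ]) × E) × ((Fin n → ℍ[ℝ]) × E) => a.2.1 i :=
      (continuous_apply i).comp (continuous_fst.comp continuous_snd)
    exact h1.star.mul h2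
  · exact (continuous_snd.comp continuous_fst).inner (continuous_snd.comp continuous_snd)

end Pool.UQC
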