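import Mathlib

/-!
MODULE Stereo (problem MP_7936f4_al).  Stereographic projection with its metric formulas.  COMPLETE PAPER PROOF.

e (some y) = (2 y/(1+|y|^2), (|y|^2-1)/(|y|^2+1)) in R^N x R = R^(N+1) (last coordinate by Fin.snoc), e none = (0,...,0,1).
* |e(some y)|^2 = (4|y|^2 + (|y|^2-1)^2)/(1+|y|^2)^2 = 1.
* <e y, e y'> = (4 y.y' + (|y|^2-1)(|y'|^2-1))/((1+|y|^2)(1+|y'|^2)), so |e y - e y'|^2 = 2 - 2<e y, e y'> =
  (4|y|^2 + 4|y'|^2 - 8 y.y')/((1+|y|^2)(1+|y'|^2)) = 4|y-y'|^2/(...).   Take square roots.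
* |e y - e none|^2 = 2 - 2 (|y|^2-1)/(|y|^2+1) = 4/(1+|y|^2).
* Bijective: injective by the distance formulas (distance 0 forces y = y'; distance to e none is positive).  Surjective:
  a point (w,h) with |w|^2+h^2 = 1: if h = 1 then w = 0 and it is e none; if h ≠ 1 then y = w/(1-h) has
  |y|^2 = (1-h^2)/(1-h)^2 = (1+h)/(1-h), 1+|y|^2 = 2/(1-h), 2y/(1+|y|^2) = w, (|y|^2-1)/(|y|^2+1) = h.
Hint: work with sums: Fin.sum_univ_castSucc, EuclideanSpace.norm_eq or EuclideanSpace.real_norm_sq_eq,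
Fin.snoc_castSucc, Fin.snoc_last.
-/

namespace Pool.UQC

namespace StereoAux

variable {N : ℕ}

/-- the parametrisation -/
noncomputable def sp : Option (EuclideanSpace ℝ (Fin N)) → EuclideanSpace ℝ (Fin (N + 1))
  | none => WithLp.toLp 2 (Fin.snoc (α := fun _ => ℝ) (fun _ : Fin N => (0 : ℝ)) 1)
  | some y => WithLp.toLp 2 (Fin.snoc (α := fun _ => ℝ)
      (fun i : Fin N => 2 / (1 + ‖y‖ ^ 2) * y i) ((‖y‖ ^ 2 - 1) / (‖y‖ ^ 2 + 1)))

lemma normSq_eq (v : EuclideanSpace ℝ (Fin (N + 1))) :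
    ‖v‖ ^ 2 = ∑ i : Fin N, v i.castSucc ^ 2 + v (Fin.last N) ^ 2 := by
  rw [EuclideanSpace.real_norm_sq_eq, Fin.sum_univ_castSucc]

lemma sp_none_castSucc (i : Fin N) :
    (sp none : EuclideanSpace ℝ (Fin (N + 1))) i.castSucc = 0 := by
  simp [sp]

lemma sp_none_last : (sp none : EuclideanSpace ℝ (Fin (N + 1))) (Fin.last N) = 1 := by
  simp [sp]

lemma sp_some_castSucc (y : EuclideanSpace ℝ (Fin N)) (i : Fin N) :
    sp (some y) i.castSucc = 2 / (1 + ‖y‖ ^ 2) * y i := by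
  simp [sp]

lemma sp_some_last (y : EuclideanSpace ℝ (Fin N)) :
    sp (some y) (Fin.last N) = (‖y‖ ^ 2 - 1) / (‖y‖ ^ 2 + 1) := by
  simp [sp]

lemma sum_sq (y y' : EuclideanSpace ℝ (Fin N)) (p q : ℝ) :
    ∑ i : Fin N, (p * y i - q * y' i) ^ 2 =
      p ^ 2 * ‖y‖ ^ 2 + q ^ 2 * ‖y'‖ ^ 2 - 2 * (p * q) * ∑ i : Fin N, y i * y' i := by
  rw [EuclideanSpace.real_norm_sq_eq, EuclideanSpace.real_norm_sq_eq, Finset.mul_sum,
    Finset.mul_sum, Finset.mul_sum, ← Finset.sum_add_distrib, ← Finset.sum_sub_distrib]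
  refine Finset.sum_congr rfl fun i _ => by ring

lemma norm_sub_sq' (y y' : EuclideanSpace ℝ (Fin N)) :
    ‖y - y'‖ ^ 2 = ‖y‖ ^ 2 + ‖y'‖ ^ 2 - 2 * ∑ i : Fin N, y i * y' i := by
  have h := sum_sq y y' 1 1
  have h1 : ‖y - y'‖ ^ 2 = ∑ i : Fin N, (1 * y i - 1 * y' i) ^ 2 := by
    rw [EuclideanSpace.real_norm_sq_eq]
    refine Finset.sum_congr rfl fun i _ => ?_
    rw [one_mul, one_mul]
    rfl
  rw [h1, h]
  ring

lemma normSq_some (y : EuclideanSpace ℝ (Fin N)) : ‖sp (some y)‖ ^ 2 = 1 := by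
  have h0 : (0 : ℝ) < 1 + ‖y‖ ^ 2 := by positivity
  have h0' : (0 : ℝ) < ‖y‖ ^ 2 + 1 := by positivity
  rw [normSq_eq]
  simp only [sp_some_castSucc, sp_some_last]
  have h1 : ∑ i : Fin N, (2 / (1 + ‖y‖ ^ 2) * y i) ^ 2 = (2 / (1 + ‖y‖ ^ 2)) ^ 2 * ‖y‖ ^ 2 := by
    rw [EuclideanSpace.real_norm_sq_eq, Finset.mul_sum]
    refine Finset.sum_congr rfl fun i _ => by ring
  rw [h1]
  field_simp
  ring

lemma normSq_none : ‖(sp none : EuclideanSpace ℝ (Fin (N + 1)))‖ ^ 2 = 1 := by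
  rw [normSq_eq]
  simp only [sp_none_castSucc, sp_none_last]
  simp

lemma mem_sphere (o : Option (EuclideanSpace ℝ (Fin N))) :
    sp o ∈ Metric.sphere (0 : EuclideanSpace ℝ (Fin (N + 1))) 1 := by
  rw [mem_sphere_zero_iff_norm]
  have h : ‖sp o‖ ^ 2 = 1 := by
    cases o with
    | none => exact normSq_none
    | some y => exact normSq_some y
  have h0 := norm_nonneg (sp o)
  nlinarith

lemma distSq_some (y y' : EuclideanSpace ℝ (Fin N)) :
    ‖sp (some y) - sp (some y')‖ ^ 2 =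
      4 * ‖y - y'‖ ^ 2 / ((1 + ‖y‖ ^ 2) * (1 + ‖y'‖ ^ 2)) := by
  have h0 : (0 : ℝ) < 1 + ‖y‖ ^ 2 := by positivity
  have h0' : (0 : ℝ) < ‖y‖ ^ 2 + 1 := by positivity
  have h1 : (0 : ℝ) < 1 + ‖y'‖ ^ 2 := by positivity
  have h1' : (0 : ℝ) < ‖y'‖ ^ 2 + 1 := by positivity
  rw [normSq_eq, norm_sub_sq']
  simp only [PiLp.sub_apply, sp_some_castSucc, sp_some_last]
  rw [sum_sq]
  field_simp
  ring

lemma distSq_none (y : EuclideanSpace ℝ (Fin N)) :
    ‖sp (some y) - sp none‖ ^ 2 = 4 / (1 + ‖y‖ ^ 2) := by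
  have h0 : (0 : ℝ) < 1 + ‖y‖ ^ 2 := by positivity
  have h0' : (0 : ℝ) < ‖y‖ ^ 2 + 1 := by positivity
  rw [normSq_eq]
  simp only [PiLp.sub_apply, sp_some_castSucc, sp_some_last, sp_none_castSucc, sp_none_last]
  have h1 : ∑ i : Fin N, (2 / (1 + ‖y‖ ^ 2) * y i - 0) ^ 2 =
      (2 / (1 + ‖y‖ ^ 2)) ^ 2 * ‖y‖ ^ 2 := by
    rw [EuclideanSpace.real_norm_sq_eq, Finset.mul_sum]
    refine Finset.sum_congr rfl fun i _ => by ring
  rw [h1]
  field_simp
  ring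

lemma dist_some (y y' : EuclideanSpace ℝ (Fin N)) :
    ‖sp (some y) - sp (some y')‖ = 2 * ‖y - y'‖ / (√(1 + ‖y‖ ^ 2) * √(1 + ‖y'‖ ^ 2)) := by
  have h0 : (0 : ℝ) < 1 + ‖y‖ ^ 2 := by positivity
  have h1 : (0 : ℝ) < 1 + ‖y'‖ ^ 2 := by positivity
  have hr : 0 ≤ 2 * ‖y - y'‖ / (√(1 + ‖y‖ ^ 2) * √(1 + ‖y'‖ ^ 2)) := by positivity
  rw [← Real.sqrt_sq (norm_nonneg (sp (some y) - sp (some y'))), ← Real.sqrt_sq hr, distSq_some,
    div_pow, mul_pow, mul_pow, Real.sq_sqrt h0.le, Real.sq_sqrt h1.le]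
  norm_num

lemma dist_none (y : EuclideanSpace ℝ (Fin N)) :
    ‖sp (some y) - sp none‖ = 2 / √(1 + ‖y‖ ^ 2) := by
  have h0 : (0 : ℝ) < 1 + ‖y‖ ^ 2 := by positivity
  have hr : 0 ≤ 2 / √(1 + ‖y‖ ^ 2) := by positivity
  rw [← Real.sqrt_sq (norm_nonneg (sp (some y) - sp none)), ← Real.sqrt_sq hr, distSq_none,
    div_pow, Real.sq_sqrt h0.le]
  norm_num

lemma sp_injective : Function.Injective (sp (N := N)) := by
  intro o o' h
  match o, o', h with
  | none, none, _ => rfl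
  | none, some y, h =>
    exfalso
    have h1 := dist_none y
    rw [h, sub_self, norm_zero] at h1
    have h2 : 0 < 2 / √(1 + ‖y‖ ^ 2) := by positivity
    exact h2.ne h1
  | some y, none, h =>
    exfalso
    have h1 := dist_none y
    rw [← h, sub_self, norm_zero] at h1
    have h2 : 0 < 2 / √(1 + ‖y‖ ^ 2) := by positivity
    exact h2.ne h1
  | some y, some y', h =>
    have h1 := dist_some y y'
    rw [h, sub_self, norm_zero] at h1
    have h2 : 0 < √(1 + ‖y‖ ^ 2) * √(1 + ‖y'‖ ^ 2) := by positivity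
    have h3 : 2 * ‖y - y'‖ = 0 := by
      have h4 := h1.symm
      rw [div_eq_zero_iff] at h4
      rcases h4 with h4 | h4
      · exact h4
      · exact absurd h4 h2.ne'
    have h5 : ‖y - y'‖ = 0 := by linarith
    rw [norm_eq_zero, sub_eq_zero] at h5
    rw [h5]

lemma sp_surj (v : EuclideanSpace ℝ (Fin (N + 1))) (hv : ‖v‖ ^ 2 = 1) : ∃ o, sp o = v := by
  rw [normSq_eq] at hv
  by_cases h : v (Fin.last N) = 1
  · refine ⟨none, ?_⟩
    have h1 : ∑ i : Fin N, v i.castSucc ^ 2 = 0 := by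
      rw [h] at hv
      linarith
    rw [Finset.sum_eq_zero_iff_of_nonneg (fun i _ => sq_nonneg _)] at h1
    ext j
    refine Fin.lastCases ?_ (fun i => ?_) j
    · rw [sp_none_last, h]
    · rw [sp_none_castSucc]
      exact (pow_eq_zero_iff two_ne_zero).1 (h1 i (Finset.mem_univ i)) |>.symm
  · set t : ℝ := v (Fin.last N) with ht
    have h1 : (1 - t) ≠ 0 := fun h2 => h (by linarith)
    let y : EuclideanSpace ℝ (Fin N) := WithLp.toLp 2 (fun i => v i.castSucc / (1 - t))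
    have hy : ∀ i, y i = v i.castSucc / (1 - t) := fun i => rfl
    have hn : ‖y‖ ^ 2 = (1 + t) / (1 - t) := by
      rw [EuclideanSpace.real_norm_sq_eq]
      simp only [hy, div_pow]
      rw [← Finset.sum_div]
      have h3 : ∑ i : Fin N, v i.castSucc ^ 2 = (1 - t) * (1 + t) := by linarith
      rw [h3]
      field_simp
    have h4 : 1 + ‖y‖ ^ 2 = 2 / (1 - t) := by
      rw [hn]
      field_simp
      ring
    have h5 : ‖y‖ ^ 2 + 1 = 2 / (1 - t) := by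
      rw [add_comm, h4]
    refine ⟨some y, ?_⟩
    ext j
    refine Fin.lastCases ?_ (fun i => ?_) j
    · rw [sp_some_last, h5, hn, ← ht]
      field_simp
      ring
    · rw [sp_some_castSucc, h4, hy]
      field_simp

end StereoAux

open StereoAux

theorem exists_stereo (N : ℕ) :
    ∃ e : Option (EuclideanSpace ℝ (Fin N)) ≃
        Metric.sphere (0 : EuclideanSpace ℝ (Fin (N + 1))) 1,
      (∀ y y', dist (e (some y)) (e (some y')) =
        2 * ‖y - y'‖ / (√(1 + ‖y‖ ^ 2) * √(1 + ‖y'‖ ^ 2))) ∧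
      (∀ y, dist (e (some y)) (e none) = 2 / √(1 + ‖y‖ ^ 2)) := by
  refine ⟨Equiv.ofBijective (fun o => ⟨sp o, mem_sphere o⟩) ⟨?_, ?_⟩, ?_, ?_⟩
  · intro o o' h
    exact sp_injective (congrArg Subtype.val h)
  · rintro ⟨v, hv⟩
    rw [mem_sphere_zero_iff_norm] at hv
    obtain ⟨o, ho⟩ := sp_surj v (by rw [hv, one_pow])
    exact ⟨o, Subtype.ext ho⟩
  · intro y y'
    rw [Subtype.dist_eq, dist_eq_norm]
    exact dist_some y y'
  · intro y
    rw [Subtype.dist_eq, dist_eq_norm]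
    exact dist_none y

end Pool.UQC
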