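import Pool.Agent.UQC.Phi
import Pool.Agent.UQC.CayB
import Pool.Agent.UQC.Stereo
import Pool.Agent.UQC.SpAct

/-!
MODULE Chart (problem MP_7936f4_al).  The homeomorphism Θ of Sg (m+1) E with a round sphere and its local estimates.
COMPLETE PAPER PROOF.  Uses exists_Phi, exists_cay_equiv, kf_cay, kf_poi_cay, norm_mu, mu_continuous, exists_stereo,
kf_continuous, kf_self, kf_nonneg (statements).

Let e1 : Option (N x E) ≃ Sg (cay), e2 : Option (EuclideanSpace ℝ (Fin N)) ≃ sphere (stereo), Φ from exists_Phi,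
Θ := e1.symm.trans ((optionCongr Φ).trans e2), a bijection.  ex p = 1/4 if v = 0, 1/2 if v ≠ 0 (v = p.2).
Write M a = ‖mu a‖ > 0, R a = sqrt(1 + ‖Φ a‖^2) >= 1.  k(p,q) = kf p q = M a M b rh(a,b)/2 for p = e1 (some a), q = e1 (some b).
(v of e1 (some a) is M a • a.2, so v = 0 iff a.2 = 0; v of e1 none is 0.)

LOCAL ESTIMATES.  C1 = constant of exists_Phi.
(1) p = e1 (some a), a.2 ≠ 0.  For q near p, q = e1 (some b) with ‖b-a‖ as small as we like.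
    dist (Θ q)(Θ p) = 2 ‖Φ a - Φ b‖/(R a R b) and √‖a.2‖ ‖Φ a-Φ b‖ is comparable (C1) with √rh = √(2k/(M a M b)).
    As b -> a: M b -> M a (mu_continuous), so M b in [M a/2, 2 M a]; rh (Sq m) a b -> 0 (it is 2k/(M a M b), k is
    continuous with k(p,p) = 0, along q -> p) so Φ b -> Φ a and R b in [R a/2, 2 R a].  Hence with
    s p := (1/√‖a.2‖) (√2/M a) (2/(R a)^2), dist (Θ q)(Θ p) is between (1/(4 C1)) and 4 C1 times s p k^(1/2).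
(2) p = e1 (some a), a.2 = 0: the same with √√rh = (2k/(M a M b))^(1/4), s p := (2/(M a)^2)^(1/4) (2/(R a)^2), ex = 1/4.
(3) p = e1 none.  q near p, q ≠ p: q = e1 (some b) and kf p q = M b -> 0 (k continuous, k(p,p) = 0; at q = p the estimates
    read 0 <= 0 <= 0 since 0^(1/4) = 0).  dist (Θ q)(Θ p) = 2/R b.  Let o = (0,0).  rh o b = √((nsq x + |V|^2)^2 + nsq t)
    and 2/M b = √((1 + nsq x+|V|^2)^2+nsq t), so rh o b <= 2/M b <= 1 + rh o b.  When M b <= 1: 1/M b <= rh o b <= 2/M b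
    (1 <= 1/M b).  By exists_Phi (o.2 = 0): ‖Φ o - Φ b‖ is comparable (C1) with √√rh, which is between M b^(-1/4) and
    2 M b^(-1/4).  So R b <= 1 + ‖Φ o‖ + 2 C1 M b^(-1/4) <= (1 + ‖Φ o‖ + 2 C1) M b^(-1/4), and R b >= ‖Φ b‖ >=
    M b^(-1/4)/C1 - ‖Φ o‖ >= M b^(-1/4)/(2 C1) when M b is small.  s p := 1; C := max of everything (only one such p,
    the constant depends on Φ o).
CONTINUITY: the upper estimate gives dist (Θ q)(Θ p) <= C s p k(p,q)^(ex p) -> 0 as q -> p.  Sg (m+1) E is compact (closed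
and bounded in a finite dimensional space) and the sphere is Hausdorff: Continuous.homeoOfEquivCompactToT2.
-/

open scoped Quaternion Matrix RealInnerProductSpace

namespace Pool.UQC

/-- The exponent: 1/4 on the limit set, 1/2 outside. -/
noncomputable def exv {n : ℕ} {E : Type} [NormedAddCommGroup E] (p : (Fin n → ℍ[ℝ]) × E) : ℝ :=
  open Classical in if p.2 = 0 then 1 / 4 else 1 / 2

theorem chart_num (al w Ma Mb Ra Rb r D C1 : ℝ) (hal : 0 ≤ al) (hal1 : al ≤ 1) (hw : 0 < w)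
    (hMa : 0 < Ma) (h1 : Ma / 2 ≤ Mb) (h2 : Mb ≤ 2 * Ma) (hRa : 0 < Ra) (h3 : Ra / 2 ≤ Rb)
    (h4 : Rb ≤ 2 * Ra) (hr : 0 ≤ r) (hD : 0 ≤ D) (hC : 0 ≤ C1)
    (h5 : r ^ al ≤ C1 * (w * D)) (h6 : w * D ≤ C1 * r ^ al) :
    w⁻¹ * ((Ma ^ 2) ^ al)⁻¹ * (Ra ^ 2)⁻¹ * (Ma * Mb / 2 * r) ^ al ≤ C1 * (2 * D / (Rb * Ra)) ∧
    2 * D / (Rb * Ra) ≤
      16 * C1 * (w⁻¹ * ((Ma ^ 2) ^ al)⁻¹ * (Ra ^ 2)⁻¹ * (Ma * Mb / 2 * r) ^ al) := by
  have hMb : 0 < Mb := by linarith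
  have hRb : 0 < Rb := by linarith
  have hMa2 : (0 : ℝ) < (Ma ^ 2) ^ al := Real.rpow_pos_of_pos (by positivity) _
  have hrp : 0 ≤ r ^ al := Real.rpow_nonneg hr _
  have e1 : ((Ma ^ 2) ^ al)⁻¹ * (Ma * Mb / 2 * r) ^ al = (Mb / (2 * Ma)) ^ al * r ^ al := by
    rw [← Real.mul_rpow (by positivity) hr]
    have e2 : Ma * Mb / 2 * r = Ma ^ 2 * (Mb / (2 * Ma) * r) := by
      field_simp
    rw [e2, Real.mul_rpow (by positivity) (by positivity)]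
    field_simp
  have l1 : (Mb / (2 * Ma)) ^ al ≤ 1 := by
    apply Real.rpow_le_one (by positivity) _ hal
    rw [div_le_one (by positivity)]
    exact h2
  have l2 : 1 / 4 ≤ (Mb / (2 * Ma)) ^ al := by
    have q0 : (1 / 4 : ℝ) ≤ Mb / (2 * Ma) := by
      rw [div_le_div_iff₀ (by norm_num) (by positivity)]
      linarith
    have q1 : (1 / 4 : ℝ) ^ al ≤ (Mb / (2 * Ma)) ^ al :=
      Real.rpow_le_rpow (by norm_num) q0 hal
    have q2 : (1 / 4 : ℝ) ≤ (1 / 4 : ℝ) ^ al := by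
      have := Real.rpow_le_rpow_of_exponent_ge (x := (1 / 4 : ℝ)) (by norm_num) (by norm_num) hal1
      rwa [Real.rpow_one] at this
    linarith
  have e3 : w⁻¹ * ((Ma ^ 2) ^ al)⁻¹ * (Ra ^ 2)⁻¹ * (Ma * Mb / 2 * r) ^ al =
      w⁻¹ * (Ra ^ 2)⁻¹ * ((Mb / (2 * Ma)) ^ al * r ^ al) := by
    rw [← e1]; ring
  rw [e3]
  have hw' : 0 < w⁻¹ := inv_pos.mpr hw
  have hRa2 : 0 < (Ra ^ 2)⁻¹ := by positivity
  have d1 : D * (Ra ^ 2)⁻¹ ≤ 2 * D / (Rb * Ra) := by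
    rw [← div_eq_mul_inv, div_le_div_iff₀ (by positivity) (by positivity)]
    have : D * Ra * Rb ≤ D * Ra * (2 * Ra) := by gcongr
    nlinarith
  have d2 : 2 * D / (Rb * Ra) ≤ 4 * D * (Ra ^ 2)⁻¹ := by
    rw [← div_eq_mul_inv, div_le_div_iff₀ (by positivity) (by positivity)]
    have : D * Ra * (Ra / 2) ≤ D * Ra * Rb := by gcongr
    nlinarith
  constructor
  · calc w⁻¹ * (Ra ^ 2)⁻¹ * ((Mb / (2 * Ma)) ^ al * r ^ al)
        ≤ w⁻¹ * (Ra ^ 2)⁻¹ * (1 * (C1 * (w * D))) := by gcongr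
      _ = C1 * (D * (Ra ^ 2)⁻¹) := by field_simp
      _ ≤ C1 * (2 * D / (Rb * Ra)) := by gcongr
  · have hD' : D ≤ w⁻¹ * (C1 * r ^ al) := by
      rw [← div_eq_inv_mul, le_div_iff₀ hw]
      linarith
    calc 2 * D / (Rb * Ra) ≤ 4 * D * (Ra ^ 2)⁻¹ := d2
      _ ≤ 4 * (w⁻¹ * (C1 * r ^ al)) * (Ra ^ 2)⁻¹ := by gcongr
      _ = 16 * C1 * (w⁻¹ * (Ra ^ 2)⁻¹ * ((1 / 4) * r ^ al)) := by ring
      _ ≤ 16 * C1 * (w⁻¹ * (Ra ^ 2)⁻¹ * ((Mb / (2 * Ma)) ^ al * r ^ al)) := by gcongr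

/-- Comparison of R b with R a when Φ b is close to Φ a. -/
theorem chart_R {F : Type} [NormedAddCommGroup F] (y y' : F) (h : ‖y - y'‖ ≤ 1 / 2) :
    √(1 + ‖y‖ ^ 2) / 2 ≤ √(1 + ‖y'‖ ^ 2) ∧ √(1 + ‖y'‖ ^ 2) ≤ 2 * √(1 + ‖y‖ ^ 2) := by
  have key : ∀ u v : ℝ, 0 ≤ u → 0 ≤ v → v ≤ u + 1 / 2 → √(1 + v ^ 2) ≤ 2 * √(1 + u ^ 2) := by
    intro u v hu hv huv
    rw [Real.sqrt_le_left (by positivity), mul_pow, Real.sq_sqrt (by positivity)]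
    have hv2 : v ^ 2 ≤ (u + 1 / 2) ^ 2 := by gcongr
    nlinarith [sq_nonneg (u - 1)]
  have n1 : ‖y'‖ ≤ ‖y‖ + 1 / 2 := by
    have := norm_sub_norm_le y' y
    rw [norm_sub_rev] at this
    linarith
  have n2 : ‖y‖ ≤ ‖y'‖ + 1 / 2 := by
    have := norm_sub_norm_le y y'
    linarith
  have k1 := key _ _ (norm_nonneg y) (norm_nonneg y') n1
  have k2 := key _ _ (norm_nonneg y') (norm_nonneg y) n2
  exact ⟨by linarith, k1⟩

/-- The numerical estimates at infinity. -/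
theorem chart_inf (A T Mb C1 P0 Pb D : ℝ) (hA : 0 ≤ A) (hT : 0 ≤ T) (hC : 1 ≤ C1)
    (hP0 : 0 ≤ P0) (hPb : 0 ≤ Pb) (hM : Mb = 2 / √((1 + A) ^ 2 + T))
    (h1 : √(√(√(A ^ 2 + T))) ≤ C1 * D) (h2 : D ≤ C1 * √(√(√(A ^ 2 + T))))
    (h3 : D ≤ P0 + Pb) (h4 : Pb ≤ P0 + D) (hM1 : Mb ≤ 1)
    (hM2 : Mb ^ (1 / 4 : ℝ) ≤ 1 / (2 * C1 * (P0 + 1))) :
    Mb ^ (1 / 4 : ℝ) ≤ (1 + P0 + 2 * C1) * (2 / √(1 + Pb ^ 2)) ∧
    2 / √(1 + Pb ^ 2) ≤ 4 * C1 * Mb ^ (1 / 4 : ℝ) := by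
  have hSp : 0 < √((1 + A) ^ 2 + T) := Real.sqrt_pos.mpr (by positivity)
  have hMp : 0 < Mb := by rw [hM]; positivity
  have hS1 : √((1 + A) ^ 2 + T) ≤ 1 + √(A ^ 2 + T) := by
    rw [Real.sqrt_le_left (by positivity), add_sq 1 (√(A ^ 2 + T)), Real.sq_sqrt (by positivity)]
    have : A ≤ √(A ^ 2 + T) := Real.le_sqrt_of_sq_le (by linarith)
    nlinarith
  have hS2 : √(A ^ 2 + T) ≤ √((1 + A) ^ 2 + T) := Real.sqrt_le_sqrt (by nlinarith)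
  have hu0 : 0 < Mb ^ (1 / 4 : ℝ) := Real.rpow_pos_of_pos hMp _
  have hu1 : Mb ^ (1 / 4 : ℝ) ≤ 1 := Real.rpow_le_one hMp.le hM1 (by norm_num)
  have hu4 : (Mb ^ (1 / 4 : ℝ)) ^ 4 = Mb := by
    rw [← Real.rpow_natCast, ← Real.rpow_mul hMp.le]; norm_num
  generalize hr : √(A ^ 2 + T) = r at *
  have hr0 : 0 ≤ r := by rw [← hr]; positivity
  generalize hS : √((1 + A) ^ 2 + T) = S at *
  generalize hK : √(√r) = K at *
  have hK0 : 0 ≤ K := by rw [← hK]; positivity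
  have hK4 : K ^ 4 = r := by
    rw [← hK, show (4 : ℕ) = 2 * 2 from rfl, pow_mul, Real.sq_sqrt (by positivity),
      Real.sq_sqrt hr0]
  generalize hu : Mb ^ (1 / 4 : ℝ) = u at *
  have hMS : Mb * S = 2 := by rw [hM]; field_simp
  have hKu : (K * u) ^ 4 = r * Mb := by rw [mul_pow, hK4, hu4]
  have hKu2 : K * u ≤ 2 := by
    have h : (K * u) ^ 4 ≤ 2 ^ 4 := by rw [hKu]; nlinarith
    exact le_of_pow_le_pow_left₀ (by norm_num) (by norm_num) h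
  have hKu1 : 1 ≤ K * u := by
    have h : 1 ^ 4 ≤ (K * u) ^ 4 := by rw [hKu]; nlinarith
    exact le_of_pow_le_pow_left₀ (by norm_num) (by positivity) h
  have hR0 : 0 < √(1 + Pb ^ 2) := Real.sqrt_pos.mpr (by positivity)
  have hR1 : √(1 + Pb ^ 2) ≤ 1 + Pb := by
    rw [Real.sqrt_le_left (by positivity)]; nlinarith
  have hR2 : Pb ≤ √(1 + Pb ^ 2) := Real.le_sqrt_of_sq_le (by linarith)
  generalize √(1 + Pb ^ 2) = R at *
  constructor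
  · rw [← mul_div_assoc, le_div_iff₀ hR0]
    have a1 : u * R ≤ u * (1 + P0 + C1 * K) := by gcongr; linarith
    have a2 : u * (1 + P0) ≤ 1 * (1 + P0) := by gcongr
    have a3 : C1 * (K * u) ≤ C1 * 2 := by gcongr
    nlinarith
  · rw [div_le_iff₀ hR0]
    have b1 : C1 * (P0 + 1) * u ≤ 1 / 2 := by
      calc C1 * (P0 + 1) * u ≤ C1 * (P0 + 1) * (1 / (2 * C1 * (P0 + 1))) := by gcongr
        _ = 1 / 2 := by field_simp
    have b2 : 1 ≤ C1 * D * u := by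
      calc 1 ≤ K * u := hKu1
        _ ≤ C1 * D * u := by gcongr
    have b3 : C1 * (D - P0) * u ≤ C1 * R * u := by gcongr; linarith
    have b4 : C1 * P0 * u ≤ C1 * (P0 + 1) * u := by gcongr; linarith
    nlinarith

theorem cay_snd_eq_zero {m : ℕ} {E : Type} [NormedAddCommGroup E] [InnerProductSpace ℝ E]
    (a : Hs (Fin m × Fin 4) (Fin 3) × E) : (cay a).2 = 0 ↔ a.2 = 0 := by
  simp only [cay, smul_eq_zero, norm_eq_zero]
  constructor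
  · rintro (h | h)
    · exact absurd h (mu_ne_zero a)
    · exact h
  · exact Or.inr

theorem exv_zero {n : ℕ} {E : Type} [NormedAddCommGroup E] (p : (Fin n → ℍ[ℝ]) × E)
    (h : p.2 = 0) : exv p = 1 / 4 := by
  unfold exv
  rw [if_pos h]

theorem exv_ne {n : ℕ} {E : Type} [NormedAddCommGroup E] (p : (Fin n → ℍ[ℝ]) × E)
    (h : p.2 ≠ 0) : exv p = 1 / 2 := by
  unfold exv
  rw [if_neg h]

theorem exv_pos {n : ℕ} {E : Type} [NormedAddCommGroup E] (p : (Fin n → ℍ[ℝ]) × E) :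
    0 < exv p := by
  by_cases h : p.2 = 0
  · rw [exv_zero p h]; norm_num
  · rw [exv_ne p h]; norm_num

theorem kf_cont_right {n : ℕ} {E : Type} [NormedAddCommGroup E] [InnerProductSpace ℝ E]
    (p : (Fin n → ℍ[ℝ]) × E) : Continuous fun q : Sg n E => kf p q.1 := by
  have h2 : Continuous fun q : Sg n E => (p, q.1) := continuous_const.prodMk continuous_subtype_val
  have h3 := (kf_continuous (n := n) (E := E)).comp h2
  exact h3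

theorem kf_rpow_cont {n : ℕ} {E : Type} [NormedAddCommGroup E] [InnerProductSpace ℝ E]
    (p : (Fin n → ℍ[ℝ]) × E) (c al : ℝ) (hal : 0 < al) :
    Continuous fun q : Sg n E => (c * kf p q.1) ^ al := by
  have h1 := kf_cont_right (n := n) (E := E) p
  exact (continuous_const.mul h1).rpow_const (fun q => Or.inr hal.le)

theorem kf_rpow_tendsto {n : ℕ} {E : Type} [NormedAddCommGroup E] [InnerProductSpace ℝ E]
    (p : Sg n E) (c al : ℝ) (hal : 0 < al) :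
    Filter.Tendsto (fun q : Sg n E => (c * kf p.1 q.1) ^ al) (nhds p) (nhds 0) := by
  have h1 := (kf_rpow_cont p.1 c al hal).tendsto p
  have h0 : (c * kf p.1 p.1) ^ al = 0 := by
    rw [kf_self p.1 p.2, mul_zero, Real.zero_rpow hal.ne']
  simp only [h0] at h1
  exact h1

theorem kf_tendsto {n : ℕ} {E : Type} [NormedAddCommGroup E] [InnerProductSpace ℝ E]
    (p : Sg n E) (c al : ℝ) (hal : 0 < al) (η : ℝ) (hη : 0 < η) :
    ∀ᶠ q in nhds p, (c * kf p.1 q.1) ^ al < η :=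
  (kf_rpow_tendsto p c al hal).eventually (gt_mem_nhds hη)

theorem Sg_compact (n : ℕ) (E : Type) [NormedAddCommGroup E] [InnerProductSpace ℝ E]
    [FiniteDimensional ℝ E] : CompactSpace (Sg n E) := by
  rw [← isCompact_iff_compactSpace]
  have hprop : ProperSpace ((Fin n → ℍ[ℝ]) × E) := FiniteDimensional.proper_real _
  have hcont : Continuous fun p : (Fin n → ℍ[ℝ]) × E =>
      ∑ i, ‖p.1 i‖ ^ 2 + ‖p.2‖ ^ 2 := by fun_prop
  apply Metric.isCompact_of_isClosed_isBounded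
  · exact isClosed_eq hcont continuous_const
  · rw [isBounded_iff_forall_norm_le]
    refine ⟨1, fun p hp => ?_⟩
    have hp' : ∑ i, ‖p.1 i‖ ^ 2 + ‖p.2‖ ^ 2 = 1 := hp
    have h0 : 0 ≤ ∑ i, ‖p.1 i‖ ^ 2 := by positivity
    rw [Prod.norm_def, max_le_iff, pi_norm_le_iff_of_nonneg zero_le_one]
    refine ⟨fun i => ?_, ?_⟩
    · have h1 : ‖p.1 i‖ ^ 2 ≤ ∑ i, ‖p.1 i‖ ^ 2 :=
        Finset.single_le_sum (f := fun i => ‖p.1 i‖ ^ 2) (fun i _ => by positivity)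
          (Finset.mem_univ i)
      have h2 : ‖p.1 i‖ ^ 2 ≤ 1 := by nlinarith [sq_nonneg ‖p.2‖]
      nlinarith [norm_nonneg (p.1 i)]
    · have h2 : ‖p.2‖ ^ 2 ≤ 1 := by linarith
      nlinarith [norm_nonneg p.2]

theorem chart_uni {m : ℕ} {E : Type} [NormedAddCommGroup E] [InnerProductSpace ℝ E] {N : ℕ}
    (Φ : (Hs (Fin m × Fin 4) (Fin 3) × E) → EuclideanSpace ℝ (Fin N)) (C1 : ℝ)
    (hP0 : ∀ a b, a.2 = 0 → √(√(rh (Sq m) a b)) ≤ C1 * ‖Φ a - Φ b‖ ∧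
        ‖Φ a - Φ b‖ ≤ C1 * √(√(rh (Sq m) a b)))
    (hP1 : ∀ a, a.2 ≠ 0 → ∃ ε > 0, ∀ b, ‖b - a‖ < ε →
        √(rh (Sq m) a b) ≤ C1 * (√‖a.2‖ * ‖Φ a - Φ b‖) ∧
        √‖a.2‖ * ‖Φ a - Φ b‖ ≤ C1 * √(rh (Sq m) a b))
    (a : Hs (Fin m × Fin 4) (Fin 3) × E) :
    ∃ al w : ℝ, 0 < al ∧ al ≤ 1 ∧ 0 < w ∧ exv (cay a) = al ∧
      ∃ ε > 0, ∀ b, ‖b - a‖ < ε →
        (rh (Sq m) a b) ^ al ≤ C1 * (w * ‖Φ a - Φ b‖) ∧
        w * ‖Φ a - Φ b‖ ≤ C1 * (rh (Sq m) a b) ^ al := by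
  by_cases ha : a.2 = 0
  · refine ⟨1 / 4, 1, by norm_num, by norm_num, by norm_num, ?_, 1, by norm_num, ?_⟩
    · exact exv_zero _ ((cay_snd_eq_zero a).mpr ha)
    · intro b _
      have hr : 0 ≤ rh (Sq m) a b := by
        have h1 := kf_nonneg _ _ (cay_mem a) (cay_mem b)
        rw [kf_cay] at h1
        have h2 := norm_pos_iff.mpr (mu_ne_zero a)
        have h3 := norm_pos_iff.mpr (mu_ne_zero b)
        exact nonneg_of_mul_nonneg_right h1 (by positivity)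
      have h := hP0 a b ha
      have e : √(√(rh (Sq m) a b)) = (rh (Sq m) a b) ^ (1 / 4 : ℝ) := by
        rw [Real.sqrt_eq_rpow, Real.sqrt_eq_rpow, ← Real.rpow_mul hr]
        norm_num
      rw [e] at h
      rw [one_mul]
      exact h
  · obtain ⟨ε, hε, h⟩ := hP1 a ha
    refine ⟨1 / 2, √‖a.2‖, by norm_num, by norm_num,
      Real.sqrt_pos.mpr (norm_pos_iff.mpr ha), ?_, ε, hε, ?_⟩
    · exact exv_ne _ (fun h' => ha ((cay_snd_eq_zero a).mp h'))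
    · intro b hb
      have h := h b hb
      rw [← Real.sqrt_eq_rpow]
      exact h

/-- The estimates at a finite point. -/
theorem chart_fin {m : ℕ} {E : Type} [NormedAddCommGroup E] [InnerProductSpace ℝ E] {N : ℕ}
    (Φ : (Hs (Fin m × Fin 4) (Fin 3) × E) → EuclideanSpace ℝ (Fin N)) (C1 al w : ℝ)
    (hC1 : 1 ≤ C1) (hal : 0 < al) (hal1 : al ≤ 1) (hw : 0 < w)
    (a b : Hs (Fin m × Fin 4) (Fin 3) × E)
    (hb1 : (rh (Sq m) a b) ^ al ≤ C1 * (w * ‖Φ a - Φ b‖) ∧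
        w * ‖Φ a - Φ b‖ ≤ C1 * (rh (Sq m) a b) ^ al)
    (hb2 : |‖mu b‖ - ‖mu a‖| < ‖mu a‖ / 2)
    (h2 : (4 / ‖mu a‖ ^ 2 * kf (cay a) (cay b)) ^ al < w / (2 * C1)) :
    w⁻¹ * ((‖mu a‖ ^ 2) ^ al)⁻¹ * (√(1 + ‖Φ a‖ ^ 2) ^ 2)⁻¹ * (kf (cay a) (cay b)) ^ al ≤
      (16 * C1 + ‖Φ 0‖ + 1) * (2 * ‖Φ b - Φ a‖ / (√(1 + ‖Φ b‖ ^ 2) * √(1 + ‖Φ a‖ ^ 2))) ∧
    2 * ‖Φ b - Φ a‖ / (√(1 + ‖Φ b‖ ^ 2) * √(1 + ‖Φ a‖ ^ 2)) ≤
      (16 * C1 + ‖Φ 0‖ + 1) *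
      (w⁻¹ * ((‖mu a‖ ^ 2) ^ al)⁻¹ * (√(1 + ‖Φ a‖ ^ 2) ^ 2)⁻¹ * (kf (cay a) (cay b)) ^ al) := by
  have hC0 : 0 ≤ C1 := by linarith
  have hMa : 0 < ‖mu a‖ := norm_pos_iff.mpr (mu_ne_zero a)
  have hMb : 0 < ‖mu b‖ := norm_pos_iff.mpr (mu_ne_zero b)
  have hRa : 0 < √(1 + ‖Φ a‖ ^ 2) := Real.sqrt_pos.mpr (by positivity)
  have hr : 0 ≤ rh (Sq m) a b := by
    have h1 := kf_nonneg _ _ (cay_mem a) (cay_mem b)
    rw [kf_cay] at h1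
    exact nonneg_of_mul_nonneg_right h1 (by positivity)
  rw [kf_cay] at h2 ⊢
  rw [abs_lt] at hb2
  have m1 : ‖mu a‖ / 2 ≤ ‖mu b‖ := by linarith
  have m2 : ‖mu b‖ ≤ 2 * ‖mu a‖ := by linarith
  have hD : ‖Φ a - Φ b‖ ≤ 1 / 2 := by
    have g1 : rh (Sq m) a b ≤ 4 / ‖mu a‖ ^ 2 * (‖mu a‖ * ‖mu b‖ / 2 * rh (Sq m) a b) := by
      have : 4 / ‖mu a‖ ^ 2 * (‖mu a‖ * ‖mu b‖ / 2 * rh (Sq m) a b) =
          2 * ‖mu b‖ / ‖mu a‖ * rh (Sq m) a b := by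
        field_simp
        ring
      rw [this]
      have g2 : 1 ≤ 2 * ‖mu b‖ / ‖mu a‖ := by
        rw [le_div_iff₀ hMa]; linarith
      nlinarith
    have g3 : (rh (Sq m) a b) ^ al < w / (2 * C1) :=
      lt_of_le_of_lt (Real.rpow_le_rpow hr g1 hal.le) h2
    have g4 : w * ‖Φ a - Φ b‖ ≤ w * (1 / 2) := by
      calc w * ‖Φ a - Φ b‖ ≤ C1 * (rh (Sq m) a b) ^ al := hb1.2
        _ ≤ C1 * (w / (2 * C1)) := by gcongr
        _ = w * (1 / 2) := by field_simp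
    exact le_of_mul_le_mul_left g4 hw
  have hR := chart_R (Φ a) (Φ b) hD
  have fin := chart_num al w ‖mu a‖ ‖mu b‖ (√(1 + ‖Φ a‖ ^ 2)) (√(1 + ‖Φ b‖ ^ 2))
    (rh (Sq m) a b) ‖Φ a - Φ b‖ C1 hal.le hal1 hw hMa m1 m2 hRa hR.1 hR.2 hr
    (norm_nonneg _) hC0 hb1.1 hb1.2
  rw [norm_sub_rev (Φ b) (Φ a)]
  have hp : 0 ≤ ‖Φ 0‖ := norm_nonneg _
  have hpos : 0 ≤ w⁻¹ * ((‖mu a‖ ^ 2) ^ al)⁻¹ * (√(1 + ‖Φ a‖ ^ 2) ^ 2)⁻¹ *
      (‖mu a‖ * ‖mu b‖ / 2 * rh (Sq m) a b) ^ al := by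
    have h1 : 0 < (‖mu a‖ ^ 2) ^ al := Real.rpow_pos_of_pos (by positivity) _
    have h2 := Real.rpow_nonneg (mul_nonneg (by positivity : 0 ≤ ‖mu a‖ * ‖mu b‖ / 2) hr) al
    positivity
  refine ⟨fin.1.trans ?_, fin.2.trans ?_⟩
  · refine mul_le_mul_of_nonneg_right ?_ (by positivity)
    linarith
  · refine mul_le_mul_of_nonneg_right ?_ hpos
    linarith

/-- The estimates at infinity. -/
theorem chart_poi {m : ℕ} {E : Type} [NormedAddCommGroup E] [InnerProductSpace ℝ E] {N : ℕ}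
    (Φ : (Hs (Fin m × Fin 4) (Fin 3) × E) → EuclideanSpace ℝ (Fin N)) (C1 : ℝ) (hC1 : 1 ≤ C1)
    (hP0 : ∀ a b, a.2 = 0 → √(√(rh (Sq m) a b)) ≤ C1 * ‖Φ a - Φ b‖ ∧
        ‖Φ a - Φ b‖ ≤ C1 * √(√(rh (Sq m) a b)))
    (b : Hs (Fin m × Fin 4) (Fin 3) × E) (h1 : ‖mu b‖ ≤ 1)
    (h2 : ‖mu b‖ ^ (1 / 4 : ℝ) ≤ 1 / (2 * C1 * (‖Φ 0‖ + 1))) :
    ‖mu b‖ ^ (1 / 4 : ℝ) ≤ (16 * C1 + ‖Φ 0‖ + 1) * (2 / √(1 + ‖Φ b‖ ^ 2)) ∧
    2 / √(1 + ‖Φ b‖ ^ 2) ≤ (16 * C1 + ‖Φ 0‖ + 1) * ‖mu b‖ ^ (1 / 4 : ℝ) := by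
  have hrh : rh (Sq m) 0 b = √((nsq b.1.1 + ‖b.2‖ ^ 2) ^ 2 + nsq b.1.2) := by
    unfold rh
    rw [show ((0 : Hs (Fin m × Fin 4) (Fin 3) × E).1) = 0 from rfl, Str.rel_zero_left]
    simp
  have h3 := hP0 0 b rfl
  rw [hrh] at h3
  have h4 := chart_inf (nsq b.1.1 + ‖b.2‖ ^ 2) (nsq b.1.2) ‖mu b‖ C1 ‖Φ 0‖ ‖Φ b‖ ‖Φ 0 - Φ b‖
    (by unfold nsq; positivity) (by unfold nsq; positivity) hC1 (norm_nonneg _)
    (norm_nonneg _) (by rw [norm_mu, add_assoc]) h3.1 h3.2 (norm_sub_le _ _)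
    (by
      have := norm_sub_norm_le (Φ b) (Φ 0)
      rw [norm_sub_rev] at this
      linarith) h1 h2
  have hd : 0 ≤ 2 / √(1 + ‖Φ b‖ ^ 2) := by positivity
  have hk : 0 ≤ ‖mu b‖ ^ (1 / 4 : ℝ) := Real.rpow_nonneg (norm_nonneg _) _
  have hp : 0 ≤ ‖Φ 0‖ := norm_nonneg _
  refine ⟨h4.1.trans ?_, h4.2.trans ?_⟩
  · refine mul_le_mul_of_nonneg_right ?_ hd
    linarith
  · refine mul_le_mul_of_nonneg_right ?_ hk
    linarith

theorem mu_close {m : ℕ} {E : Type} [NormedAddCommGroup E] [InnerProductSpace ℝ E]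
    (a : Hs (Fin m × Fin 4) (Fin 3) × E) :
    ∃ ε' > 0, ∀ b, ‖b - a‖ < ε' → |‖mu b‖ - ‖mu a‖| < ‖mu a‖ / 2 := by
  have hMa : 0 < ‖mu a‖ := norm_pos_iff.mpr (mu_ne_zero a)
  have h1 := Metric.continuousAt_iff.mp
    ((mu_continuous (m := m) (E := E)).continuousAt (x := a)) (‖mu a‖ / 2) (by positivity)
  obtain ⟨ε', hε', h⟩ := h1
  refine ⟨ε', hε', fun b hb => ?_⟩
  have := h (by rw [dist_eq_norm]; exact hb)
  rwa [Real.dist_eq] at this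

theorem exists_chart (m : ℕ) :
    ∃ (J : Type) (_ : Fintype J) (_ : Nonempty J) (N : ℕ)
      (Θ : Sg (m + 1) (EuclideanSpace ℝ J) ≃ₜ
        Metric.sphere (0 : EuclideanSpace ℝ (Fin (N + 1))) 1)
      (C : ℝ) (s : Sg (m + 1) (EuclideanSpace ℝ J) → ℝ),
      2 ≤ N ∧ 1 ≤ C ∧ (∀ p, 0 < s p) ∧
      ∀ p, ∀ᶠ q in nhds p,
        s p * (kf p.1 q.1) ^ (exv p.1) ≤ C * dist (Θ q) (Θ p) ∧
        dist (Θ q) (Θ p) ≤ C * (s p * (kf p.1 q.1) ^ (exv p.1)) := by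
  obtain ⟨J, hJ, hJn, N, Φ, C1, hN, hC1, hP0, hP1⟩ := exists_Phi m
  obtain ⟨e1, he1n, he1s, he1c⟩ := exists_cay_equiv m (EuclideanSpace ℝ J)
  obtain ⟨e2, he2, he2n⟩ := exists_stereo N
  let Th : Sg (m + 1) (EuclideanSpace ℝ J) ≃
      Metric.sphere (0 : EuclideanSpace ℝ (Fin (N + 1))) 1 :=
    e1.symm.trans ((Equiv.optionCongr Φ).trans e2)
  have hTs : ∀ a, Th (e1 (some a)) = e2 (some (Φ a)) := by intro a; simp [Th]
  have hTn : Th (e1 none) = e2 none := by simp [Th]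
  have hC0 : 0 ≤ C1 := by linarith
  have key : ∀ p : Sg (m + 1) (EuclideanSpace ℝ J), ∃ s : ℝ, 0 < s ∧ ∀ᶠ q in nhds p,
        s * (kf p.1 q.1) ^ (exv p.1) ≤ (16 * C1 + ‖Φ 0‖ + 1) * dist (Th q) (Th p) ∧
        dist (Th q) (Th p) ≤ (16 * C1 + ‖Φ 0‖ + 1) * (s * (kf p.1 q.1) ^ (exv p.1)) := by
    intro p
    obtain ⟨o, rfl⟩ := e1.surjective p
    rcases o with _ | a
    · -- the point at infinity
      refine ⟨1, one_pos, ?_⟩
      have f1 := kf_tendsto (e1 none) 1 1 one_pos 1 one_pos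
      have f2 := kf_tendsto (e1 none) 1 (1 / 4) (by norm_num) (1 / (2 * C1 * (‖Φ 0‖ + 1)))
        (by positivity)
      have hex : exv (e1 none).1 = 1 / 4 := exv_zero _ (by rw [he1n]; rfl)
      filter_upwards [f1, f2] with q h1 h2
      rw [one_mul, Real.rpow_one] at h1
      rw [one_mul] at h2
      obtain ⟨o, rfl⟩ := e1.surjective q
      rcases o with _ | b
      · rw [kf_self _ (e1 none).2, hex, dist_self, Real.zero_rpow (by norm_num)]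
        simp
      · rw [hex, hTs, hTn, he1n, he1s, kf_poi_cay, he2n, one_mul]
        rw [he1n, he1s, kf_poi_cay] at h1 h2
        exact chart_poi Φ C1 hC1 hP0 b h1.le h2.le
    · obtain ⟨al, w, hal, hal1, hw, hex, ε, hε, hcmp⟩ := chart_uni Φ C1 hP0 hP1 a
      have hMa : 0 < ‖mu a‖ := norm_pos_iff.mpr (mu_ne_zero a)
      obtain ⟨ε', hε', hmu⟩ := mu_close a
      have hRa : 0 < √(1 + ‖Φ a‖ ^ 2) := Real.sqrt_pos.mpr (by positivity)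
      refine ⟨w⁻¹ * ((‖mu a‖ ^ 2) ^ al)⁻¹ * (√(1 + ‖Φ a‖ ^ 2) ^ 2)⁻¹, ?_, ?_⟩
      · have : 0 < (‖mu a‖ ^ 2) ^ al := Real.rpow_pos_of_pos (by positivity) _
        positivity
      · have f1 := he1c a (min ε ε') (lt_min hε hε')
        have f2 := kf_tendsto (e1 (some a)) (4 / ‖mu a‖ ^ 2) al hal (w / (2 * C1))
          (by positivity)
        filter_upwards [f1, f2] with q h1 h2
        obtain ⟨b, rfl, hb⟩ := h1
        have hb1 := hcmp b (lt_of_lt_of_le hb (min_le_left _ _))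
        have hb2 := hmu b (lt_of_lt_of_le hb (min_le_right _ _))
        rw [he1s, he1s] at h2
        rw [hTs, hTs, he1s, he1s, hex, he2]
        exact chart_fin Φ C1 al w hC1 hal hal1 hw a b hb1 hb2 h2
  choose s hs hkey using key
  have hcont : Continuous Th := by
    rw [continuous_iff_continuousAt]
    intro p
    unfold ContinuousAt
    rw [tendsto_iff_dist_tendsto_zero]
    have g1 : Filter.Tendsto (fun q : Sg (m + 1) (EuclideanSpace ℝ J) =>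
        (16 * C1 + ‖Φ 0‖ + 1) * (s p * (1 * kf p.1 q.1) ^ (exv p.1))) (nhds p)
        (nhds ((16 * C1 + ‖Φ 0‖ + 1) * (s p * 0))) :=
      ((kf_rpow_tendsto p 1 (exv p.1) (exv_pos _)).const_mul (s p)).const_mul _
    rw [mul_zero, mul_zero] at g1
    refine squeeze_zero' (Filter.Eventually.of_forall fun q => dist_nonneg) ?_ g1
    filter_upwards [hkey p] with q hq
    rw [one_mul]
    exact hq.2
  have hcomp : CompactSpace (Sg (m + 1) (EuclideanSpace ℝ J)) := Sg_compact _ _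
  refine ⟨J, hJ, hJn, N, Continuous.homeoOfEquivCompactToT2 hcont, 16 * C1 + ‖Φ 0‖ + 1, s, hN, ?_,
    hs, fun p => ?_⟩
  · have : 0 ≤ ‖Φ 0‖ := norm_nonneg _
    linarith
  · exact hkey p

end Pool.UQC
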