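import Pool.Agent.UQC.Theta

/-!
MODULE PMap (problem MP_7936f4_al).  A left inverse P of F with good estimates (inf formulas).
COMPLETE PAPER PROOF.  Uses Basic (and Theta for th_P at the end).

Data: F : N -> E with c sqrt(gau(rel y y')) <= |F y - F y'| <= C sqrt(gau (rel y y')), c > 0.
D u = infDist u (range F) (1-Lipschitz, <= |u - F y| for all y; for every e > 0 there is y with |u - F y| < D u + e).
Write x_y = y.1, t_y = y.2, a_y = |u - F y|, L = 4/c^2.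
KEY (K): gau (rel y z) <= (|F y - F z|/c)^2 <= (2/c^2)(a_y^2 + a_z^2) for all u, y, z.
In particular |x_z - x_y| <= (2/c^2)(a_y^2+a_z^2) and |(rel y z).2| <= ((2/c^2)(a_y^2+a_z^2))^2.

LEMMA near_min.  Y nonempty, f, a : Y -> ℝ, a >= 0, A > 0, p in {2,4}, with f z >= f y - 3A a_y^p + A a_z^p for all
  y, z.  Then f is bounded below, f y - 3A a_y^p <= inf f <= f y for all y, and for all d > 0 there is z with
  f z <= inf f + d and a_z <= 2 (inf a) + d.   Proof: pick d1 <= d small, y with a_y <= inf a + d1, z with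
  f z <= inf f + d1 <= f y + d1; then A a_z^p <= 3 A a_y^p + d1.  Since 3 < 2^p, a_z^p <= 3 (inf a + d1)^p + d1/A
  <= (2 inf a + d)^p for d1 small enough.  (E.g. if inf a + d1 = b: 3 b^p + d1/A <= (2 b + d/2)^p as soon as
  d1/A <= (d/2)^p  [(2b + e)^p >= (2b)^p + e^p], and 2b + d/2 <= 2 inf a + d if 2 d1 <= d/2.  So
  d1 = min (d/4) (A (d/2)^p).)

x-PART.  P_x(u)_i := inf_y f_i(y), f_i(y) = x_y i + L a_y^2.  By (K) f_i(z) >= x_y i - (2/c^2)(a_y^2+a_z^2) + L a_z^2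
  = f_i(y) - (6/c^2) a_y^2 + (2/c^2) a_z^2: near_min with p = 2, A = 2/c^2.  So
  (X1) |P_x(u) - x_y| <= L a_y^2 for every y;  P_x(F y) = x_y.
  (X2) |P_x(u) - P_x(u')| <= 8 L r (D u + r), r = |u-u'|.   Given d > 0 take z from near_min for u (component i):
  P_x(u')_i <= x_z i + L |u' - F z|^2 <= f_i(z) + L r (2 a_z + r) <= P_x(u)_i + d + L r (2 (2 D u + d) + r).
  d -> 0: P_x(u')_i - P_x(u)_i <= 4 L r (D u + r).  Exchange u, u' and D u' <= D u + r.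

t-PART.  Let X = P_x(u).  h(y) = t_y - om X x_y + 2 C1 a_y^4 (component k), C1 := (8 + 16 K)/c^4,
  P_t(u)_k := inf_y h(y)_k.   For y, z:
  h(z) - h(y) = (rel y z).2 - om (X - x_y) (x_z - x_y) + 2 C1 (a_z^4 - a_y^4)     [om x_y x_y = 0]
  |(rel y z).2| <= (4/c^4)(a_y^2+a_z^2)^2 <= (8/c^4)(a_y^4+a_z^4);  |om(..)| <= K L a_y^2 (2/c^2)(a_y^2+a_z^2)
  <= K (8/c^4) (a_y^2+a_z^2)^2 <= (16 K/c^4)(a_y^4+a_z^4).  So h(z) >= h(y) + C1 a_z^4 - 3 C1 a_y^4: near_min with p = 4.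
  P_t(F y) = t_y: a_y = 0, X = x_y, h(y) = t_y - om x_y x_y = t_y, and h(z) >= h(y).    So P (F y) = y.
  (T1) |(rel y (P u)).2| <= 2 C1 a_y^4 for every y: (rel y (P u)).2 = P_t(u) - t_y - om x_y X = P_t(u) - t_y + om X x_y
       = P_t(u) - h(y) + 2 C1 a_y^4 and -3 C1 a_y^4 <= P_t(u) - h(y) <= 0.
  (T2) |(rel (P u) (P u')).2| <= C' r (D u + r)^3.  Let X' = P_x(u').  Given d > 0 take z from near_min for u
       (component k), a_z <= 2 D u + d.  P_t(u') <= t_z - om X' x_z + 2 C1 |u' - F z|^4, P_t(u) >= t_z - om X x_z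
       + 2 C1 a_z^4 - d.  (rel (P u)(P u')).2 = P_t(u') - P_t(u) - om X X' <= om (X - X') (x_z - X') + 2 C1 (|u'-Fz|^4
       - a_z^4) + d      [om X X' = om (X - X') X'],  |u'-Fz|^4 - a_z^4 <= (a_z+r)^4 - a_z^4 <= 4 r (a_z+r)^3,
       |om (X-X')(x_z - X')| <= K * 8 L r (D u + r) * L (a_z + r)^2   by (X2) and (X1) for u'.
       d -> 0 gives <= C'' r (D u + r)^3.  The other sign: rel (P u') (P u) = - rel (P u) (P u'), exchange u and u',
       D u' + r <= 2 (D u + r).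
DISTANCE.  |u - F (P u)| <= a_y + C sqrt(gau (rel y (P u))) and gau (rel y (P u)) <= max (L a_y^2) (sqrt(2 C1) a_y^2)
  by (X1), (T1), so |u - F (P u)| <= C''' a_y for every y; take the infimum over y.

th_P: th (D u) (rel (P u) (P u')) <= C r with r = |u-u'|: let D = D u, a = rel (P u) (P u').
  If r <= D (D > 0 or r = 0; if r = 0 then a = 0): |a.1| <= 2 C' r D and al D x <= x/D give 2 C' r;
  |a.2| <= 8 C' r D^3 and be D x <= x/D^3 give 8 C' r.
  If r > D: |a.1| <= 2 C' r^2, al D x <= sqrt x; |a.2| <= 8 C' r^4, be D x <= x^(1/4).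
-/

namespace Pool.UQC

variable {ι κ : Type} [Fintype ι] [Fintype κ] (S : Str ι κ)

theorem pm_abs_le {α : Type} [Fintype α] (v : α → ℝ) (i : α) : |v i| ≤ ‖v‖ :=
  norm_le_pi_norm v i

/-- near minimisers. -/
theorem pm_near_min {Y : Type} [Nonempty Y] (f a : Y → ℝ) (ha : ∀ y, 0 ≤ a y) (A : ℝ)
    (hA : 0 < A) (p : ℕ) (hp : 2 ≤ p)
    (h : ∀ y z, f y - 3 * A * a y ^ p + A * a z ^ p ≤ f z) :
    (∀ y, f y - 3 * A * a y ^ p ≤ iInf f) ∧ (∀ y, iInf f ≤ f y) ∧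
      ∀ m : ℝ, (∀ e : ℝ, 0 < e → ∃ y, a y < m + e) → 0 ≤ m → ∀ d : ℝ, 0 < d →
        ∃ z, f z ≤ iInf f + d ∧ a z ≤ 2 * m + d := by
  have hb : ∀ y z, f y - 3 * A * a y ^ p ≤ f z := fun y z => by
    have h1 := h y z
    have h2 : 0 ≤ A * a z ^ p := mul_nonneg hA.le (pow_nonneg (ha z) p)
    linarith
  have hbdd : BddBelow (Set.range f) := by
    obtain ⟨y⟩ := (inferInstance : Nonempty Y)
    refine ⟨f y - 3 * A * a y ^ p, ?_⟩
    rintro _ ⟨z, rfl⟩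
    exact hb y z
  refine ⟨fun y => le_ciInf (hb y), fun y => ciInf_le hbdd y, ?_⟩
  intro m hm hm0 d hd
  have hdp : 0 < (d / 2) ^ p := by positivity
  obtain ⟨d1, hd1, hd1a, hd1b⟩ : ∃ d1 : ℝ, 0 < d1 ∧ d1 ≤ d / 4 ∧ d1 ≤ A * (d / 2) ^ p :=
    ⟨min (d / 4) (A * (d / 2) ^ p), lt_min (by positivity) (by positivity), min_le_left _ _,
      min_le_right _ _⟩
  obtain ⟨y, hy⟩ := hm d1 hd1
  obtain ⟨z, hz⟩ := exists_lt_of_ciInf_lt (show iInf f < iInf f + d1 by linarith)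
  refine ⟨z, by linarith, ?_⟩
  have h1 := h y z
  have h2 : iInf f ≤ f y := ciInf_le hbdd y
  have h3 : A * a z ^ p ≤ 3 * A * a y ^ p + d1 := by linarith
  have hb0 : 0 ≤ m + d1 := by linarith
  have h4 : a y ^ p ≤ (m + d1) ^ p := pow_le_pow_left₀ (ha y) hy.le p
  have h5 : A * a z ^ p ≤ A * (3 * (m + d1) ^ p + (d / 2) ^ p) := by
    have : 3 * A * a y ^ p ≤ 3 * A * (m + d1) ^ p := by gcongr
    nlinarith
  have h6 : a z ^ p ≤ 3 * (m + d1) ^ p + (d / 2) ^ p := le_of_mul_le_mul_left h5 hA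
  have h7 : (4 : ℝ) ≤ 2 ^ p := by
    calc (4 : ℝ) = 2 ^ 2 := by norm_num
      _ ≤ 2 ^ p := pow_le_pow_right₀ (by norm_num) hp
  have h8 : 3 * (m + d1) ^ p ≤ (2 * (m + d1)) ^ p := by
    rw [mul_pow]
    have : 0 ≤ (m + d1) ^ p := pow_nonneg hb0 p
    nlinarith
  have h9 : (2 * (m + d1)) ^ p + (d / 2) ^ p ≤ (2 * (m + d1) + d / 2) ^ p :=
    pow_add_pow_le (by positivity) (by positivity) (by omega)
  have h10 : a z ^ p ≤ (2 * (m + d1) + d / 2) ^ p := by linarith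
  have h11 : a z ≤ 2 * (m + d1) + d / 2 :=
    le_of_pow_le_pow_left₀ (by omega) (by positivity) h10
  linarith

omit [Fintype ι] [Fintype κ] in
theorem pm_inf {E : Type} [NormedAddCommGroup E] (F : Hs ι κ → E) (u : E) (e : ℝ) (he : 0 < e) :
    ∃ y, ‖u - F y‖ < Metric.infDist u (Set.range F) + e := by
  obtain ⟨w, ⟨y, rfl⟩, hw⟩ := (Metric.infDist_lt_iff (Set.range_nonempty F) (x := u)).1
    (show Metric.infDist u (Set.range F) < Metric.infDist u (Set.range F) + e by linarith)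
  exact ⟨y, by rwa [dist_eq_norm] at hw⟩

/-- (K). -/
theorem pm_key {E : Type} [NormedAddCommGroup E] (F : Hs ι κ → E) (c : ℝ) (hc : 0 < c)
    (hlow : ∀ y y', c * √(gau (S.rel y y')) ≤ ‖F y - F y'‖) (u : E) (y z : Hs ι κ) :
    gau (S.rel y z) ≤ 2 / c ^ 2 * (‖u - F y‖ ^ 2 + ‖u - F z‖ ^ 2) := by
  have h1 := hlow y z
  have h2 : ‖F y - F z‖ ≤ ‖u - F y‖ + ‖u - F z‖ := by
    have : F y - F z = (u - F z) - (u - F y) := by abel
    rw [this, add_comm]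
    exact norm_sub_le _ _
  have h3 : 0 ≤ gau (S.rel y z) := gau_nonneg _
  have h4 : (c * √(gau (S.rel y z))) ^ 2 ≤ (‖u - F y‖ + ‖u - F z‖) ^ 2 := by
    have h0 : 0 ≤ c * √(gau (S.rel y z)) := by positivity
    gcongr
    linarith
  rw [mul_pow, Real.sq_sqrt h3] at h4
  have h5 : (‖u - F y‖ + ‖u - F z‖) ^ 2 ≤ 2 * (‖u - F y‖ ^ 2 + ‖u - F z‖ ^ 2) := by
    nlinarith [sq_nonneg (‖u - F y‖ - ‖u - F z‖)]
  have h6 : c ^ 2 * gau (S.rel y z) ≤ 2 * (‖u - F y‖ ^ 2 + ‖u - F z‖ ^ 2) := h4.trans h5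
  rw [div_mul_eq_mul_div, le_div_iff₀ (by positivity)]
  linarith

/-- the x-part. -/
noncomputable def pmX {E : Type} [NormedAddCommGroup E] (F : Hs ι κ → E) (A : ℝ) (u : E) :
    ι → ℝ := fun i => ⨅ y : Hs ι κ, (y.1 i + 2 * A * ‖u - F y‖ ^ 2)

/-- the t-part. -/
noncomputable def pmT {E : Type} [NormedAddCommGroup E] (F : Hs ι κ → E) (A C1 : ℝ) (u : E) :
    κ → ℝ := fun k => ⨅ y : Hs ι κ, (y.2 k - S.om (pmX F A u) y.1 k + 2 * C1 * ‖u - F y‖ ^ 4)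

section xpart

variable {E : Type} [NormedAddCommGroup E] (F : Hs ι κ → E) (A : ℝ) (hA : 0 < A)
  (hK : ∀ u y z, gau (S.rel y z) ≤ A * (‖u - F y‖ ^ 2 + ‖u - F z‖ ^ 2))

include hA hK

theorem pm_x_near (u : E) (i : ι) :
    (∀ y : Hs ι κ, (y.1 i + 2 * A * ‖u - F y‖ ^ 2) - 3 * A * ‖u - F y‖ ^ 2 ≤ pmX F A u i) ∧
    (∀ y : Hs ι κ, pmX F A u i ≤ y.1 i + 2 * A * ‖u - F y‖ ^ 2) ∧
      ∀ d : ℝ, 0 < d →
        ∃ z : Hs ι κ, z.1 i + 2 * A * ‖u - F z‖ ^ 2 ≤ pmX F A u i + d ∧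
          ‖u - F z‖ ≤ 2 * Metric.infDist u (Set.range F) + d := by
  have h := pm_near_min (fun y : Hs ι κ => y.1 i + 2 * A * ‖u - F y‖ ^ 2)
    (fun y => ‖u - F y‖) (fun y => norm_nonneg _) A hA 2 le_rfl (by
      intro y z
      have h1 := hK u y z
      have h2 : ‖(S.rel y z).1‖ ≤ gau (S.rel y z) := norm_fst_le_gau _
      have h3 : |(S.rel y z).1 i| ≤ ‖(S.rel y z).1‖ := pm_abs_le _ i
      have h4 : (S.rel y z).1 i = z.1 i - y.1 i := rfl
      rw [h4] at h3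
      have h5 := (abs_le.1 (h3.trans (h2.trans h1))).1
      nlinarith)
  refine ⟨h.1, h.2.1, fun d hd => ?_⟩
  exact h.2.2 _ (fun e he => pm_inf F u e he) Metric.infDist_nonneg d hd

theorem pm_X1 (u : E) (y : Hs ι κ) : ‖pmX F A u - y.1‖ ≤ 2 * A * ‖u - F y‖ ^ 2 := by
  rw [pi_norm_le_iff_of_nonneg (by positivity)]
  intro i
  obtain ⟨h1, h2, -⟩ := pm_x_near S F A hA hK u i
  have h1 := h1 y
  have h2 := h2 y
  have h3 : 0 ≤ A * ‖u - F y‖ ^ 2 := by positivity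
  rw [Pi.sub_apply, Real.norm_eq_abs, abs_le]
  constructor <;> nlinarith

theorem pm_X2_aux (u u' : E) (i : ι) (hr : 0 < ‖u - u'‖) :
    pmX F A u' i - pmX F A u i ≤
      (1 + 14 * A) * ‖u - u'‖ * (Metric.infDist u (Set.range F) + ‖u - u'‖) := by
  set D := Metric.infDist u (Set.range F) with hD
  set r := ‖u - u'‖ with hr'
  have hD0 : 0 ≤ D := Metric.infDist_nonneg
  obtain ⟨-, -, h3⟩ := pm_x_near S F A hA hK u i
  obtain ⟨-, h2, -⟩ := pm_x_near S F A hA hK u' i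
  obtain ⟨d, hd, hd1, hd2⟩ : ∃ d : ℝ, 0 < d ∧ d ≤ D + r ∧ d ≤ r * (D + r) :=
    ⟨min (D + r) (r * (D + r)), lt_min (by positivity) (by positivity), min_le_left _ _,
      min_le_right _ _⟩
  obtain ⟨z, hz1, hz2⟩ := h3 d hd
  have h2 := h2 z
  have hz3 : ‖u - F z‖ ≤ 3 * (D + r) := by linarith
  have hz0 : 0 ≤ ‖u - F z‖ := norm_nonneg _
  have h4 : ‖u' - F z‖ ≤ ‖u - F z‖ + r := by
    have : u' - F z = (u - F z) - (u - u') := by abel
    rw [this]; exact norm_sub_le _ _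
  have h5 : ‖u' - F z‖ ^ 2 ≤ (‖u - F z‖ + r) ^ 2 := by gcongr
  have h6 : ‖u' - F z‖ ^ 2 - ‖u - F z‖ ^ 2 ≤ 7 * r * (D + r) := by nlinarith
  have h7 : 2 * A * (‖u' - F z‖ ^ 2 - ‖u - F z‖ ^ 2) ≤ 2 * A * (7 * r * (D + r)) := by gcongr
  nlinarith

theorem pm_X2 (u u' : E) :
    ‖pmX F A u' - pmX F A u‖ ≤
      2 * (1 + 14 * A) * ‖u - u'‖ * (Metric.infDist u (Set.range F) + ‖u - u'‖) := by
  have hD0 : 0 ≤ Metric.infDist u (Set.range F) := Metric.infDist_nonneg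
  rcases eq_or_lt_of_le (norm_nonneg (u - u')) with h0 | h0
  · have : u = u' := by rw [← sub_eq_zero, ← norm_eq_zero]; exact h0.symm
    subst this
    simp
  rw [pi_norm_le_iff_of_nonneg (by positivity)]
  intro i
  have h1 := pm_X2_aux S F A hA hK u u' i h0
  have h2 := pm_X2_aux S F A hA hK u' u i (by rwa [norm_sub_rev])
  rw [norm_sub_rev u' u] at h2
  have h3 : Metric.infDist u' (Set.range F) ≤ Metric.infDist u (Set.range F) + ‖u - u'‖ := by
    have := Metric.infDist_le_infDist_add_dist (s := Set.range F) (x := u') (y := u)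
    rwa [dist_comm, dist_eq_norm] at this
  set D := Metric.infDist u (Set.range F) with hD
  set r := ‖u - u'‖ with hr'
  set D' := Metric.infDist u' (Set.range F) with hD'
  have h4 : (1 + 14 * A) * r * (D' + r) ≤ (1 + 14 * A) * r * (2 * (D + r)) := by
    gcongr; linarith
  have h5 : (1 + 14 * A) * r * (D + r) ≤ (1 + 14 * A) * r * (2 * (D + r)) := by
    gcongr; linarith
  rw [Pi.sub_apply, Real.norm_eq_abs, abs_le]
  constructor <;> nlinarith

end xpart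

section tpart

variable {E : Type} [NormedAddCommGroup E] (F : Hs ι κ → E) (A : ℝ) (hA : 0 < A)
  (hK : ∀ u y z, gau (S.rel y z) ≤ A * (‖u - F y‖ ^ 2 + ‖u - F z‖ ^ 2))
  (C1 : ℝ) (hC1 : C1 = 2 * A ^ 2 + 4 * S.K * A ^ 2)

include hA hK hC1

theorem pm_t_near (u : E) (k : κ) :
    (∀ y : Hs ι κ, (y.2 k - S.om (pmX F A u) y.1 k + 2 * C1 * ‖u - F y‖ ^ 4) -
        3 * C1 * ‖u - F y‖ ^ 4 ≤ pmT S F A C1 u k) ∧
    (∀ y : Hs ι κ, pmT S F A C1 u k ≤
      y.2 k - S.om (pmX F A u) y.1 k + 2 * C1 * ‖u - F y‖ ^ 4) ∧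
      ∀ d : ℝ, 0 < d →
        ∃ z : Hs ι κ, z.2 k - S.om (pmX F A u) z.1 k + 2 * C1 * ‖u - F z‖ ^ 4
            ≤ pmT S F A C1 u k + d ∧
          ‖u - F z‖ ≤ 2 * Metric.infDist u (Set.range F) + d := by
  have hKp := S.K_pos
  have hC1p : 0 < C1 := by rw [hC1]; positivity
  have h := pm_near_min
    (fun y : Hs ι κ => y.2 k - S.om (pmX F A u) y.1 k + 2 * C1 * ‖u - F y‖ ^ 4)
    (fun y => ‖u - F y‖) (fun y => norm_nonneg _) C1 hC1p 4 (by norm_num) (by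
      intro y z
      have h1 := hK u y z
      set a := ‖u - F y‖ with ha
      set b := ‖u - F z‖ with hb
      have ha0 : 0 ≤ a := norm_nonneg _
      have hb0 : 0 ≤ b := norm_nonneg _
      have hg0 : 0 ≤ gau (S.rel y z) := gau_nonneg _
      have hsq : (a ^ 2 + b ^ 2) ^ 2 ≤ 2 * (a ^ 4 + b ^ 4) := by
        nlinarith [sq_nonneg (a ^ 2 - b ^ 2)]
      -- t part
      have h2 : |(S.rel y z).2 k| ≤ 2 * A ^ 2 * (a ^ 4 + b ^ 4) := by
        have e1 : |(S.rel y z).2 k| ≤ ‖(S.rel y z).2‖ := pm_abs_le _ k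
        have e2 : ‖(S.rel y z).2‖ ≤ gau (S.rel y z) ^ 2 := norm_snd_le_gau_sq _
        have e3 : gau (S.rel y z) ^ 2 ≤ (A * (a ^ 2 + b ^ 2)) ^ 2 := by gcongr
        have e4 : (A * (a ^ 2 + b ^ 2)) ^ 2 ≤ A ^ 2 * (2 * (a ^ 4 + b ^ 4)) := by
          rw [mul_pow]; gcongr
        linarith
      -- the form
      have h3 : |S.om (pmX F A u - y.1) (z.1 - y.1) k| ≤ 4 * S.K * A ^ 2 * (a ^ 4 + b ^ 4) := by
        have e1 : |S.om (pmX F A u - y.1) (z.1 - y.1) k| ≤ ‖S.om (pmX F A u - y.1) (z.1 - y.1)‖ :=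
          pm_abs_le _ k
        have e2 := S.norm_om_le (pmX F A u - y.1) (z.1 - y.1)
        have e3 : ‖pmX F A u - y.1‖ ≤ 2 * A * a ^ 2 := pm_X1 S F A hA hK u y
        have e4 : ‖z.1 - y.1‖ ≤ A * (a ^ 2 + b ^ 2) :=
          (norm_fst_le_gau (S.rel y z)).trans h1
        have e5 : S.K * ‖pmX F A u - y.1‖ * ‖z.1 - y.1‖ ≤
            S.K * (2 * A * a ^ 2) * (A * (a ^ 2 + b ^ 2)) := by gcongr
        have e6 : S.K * (2 * A * a ^ 2) * (A * (a ^ 2 + b ^ 2)) ≤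
            S.K * (2 * A * (a ^ 2 + b ^ 2)) * (A * (a ^ 2 + b ^ 2)) := by
          gcongr
          nlinarith [sq_nonneg b]
        have e7 : S.K * (2 * A * (a ^ 2 + b ^ 2)) * (A * (a ^ 2 + b ^ 2)) =
            2 * S.K * A ^ 2 * (a ^ 2 + b ^ 2) ^ 2 := by ring
        have e8 : 2 * S.K * A ^ 2 * (a ^ 2 + b ^ 2) ^ 2 ≤
            2 * S.K * A ^ 2 * (2 * (a ^ 4 + b ^ 4)) := by gcongr
        linarith
      have h4 : (S.rel y z).2 k = z.2 k - y.2 k - S.om y.1 z.1 k := rfl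
      have h5 : S.om (pmX F A u - y.1) (z.1 - y.1) k =
          S.om (pmX F A u) z.1 k - S.om (pmX F A u) y.1 k - S.om y.1 z.1 k := by
        have h0 := congrFun (S.om_self y.1) k
        simp only [Str.om_sub_left, Str.om_sub_right, Pi.sub_apply, h0, Pi.zero_apply]
        ring
      have h2a := (abs_le.1 h2).1
      have h3a := (abs_le.1 h3).2
      rw [h4] at h2a
      rw [h5] at h3a
      have h6 : C1 * (a ^ 4 + b ^ 4) = 2 * A ^ 2 * (a ^ 4 + b ^ 4) +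
          4 * S.K * A ^ 2 * (a ^ 4 + b ^ 4) := by rw [hC1]; ring
      linarith)
  refine ⟨h.1, h.2.1, fun d hd => ?_⟩
  exact h.2.2 _ (fun e he => pm_inf F u e he) Metric.infDist_nonneg d hd

theorem pm_T1 (u : E) (y : Hs ι κ) :
    ‖(S.rel y (pmX F A u, pmT S F A C1 u)).2‖ ≤ 2 * C1 * ‖u - F y‖ ^ 4 := by
  have hKp := S.K_pos
  have hC1p : 0 < C1 := by rw [hC1]; positivity
  rw [pi_norm_le_iff_of_nonneg (by positivity)]
  intro k
  obtain ⟨h1, h2, -⟩ := pm_t_near S F A hA hK C1 hC1 u k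
  have h1 := h1 y
  have h2 := h2 y
  have h3 : (S.rel y (pmX F A u, pmT S F A C1 u)).2 k =
      pmT S F A C1 u k - y.2 k - S.om y.1 (pmX F A u) k := rfl
  have h4 : S.om y.1 (pmX F A u) k = - S.om (pmX F A u) y.1 k := by
    rw [S.om_anti (pmX F A u) y.1]; rfl
  have h5 : 0 ≤ C1 * ‖u - F y‖ ^ 4 := by positivity
  rw [h3, h4, Real.norm_eq_abs, abs_le]
  constructor <;> linarith

theorem pm_T2_aux (u u' : E) (k : κ) (hr : 0 < ‖u - u'‖) :
    (S.rel (pmX F A u, pmT S F A C1 u) (pmX F A u', pmT S F A C1 u')).2 k ≤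
      (S.K * (2 * (1 + 14 * A)) * (32 * A) + 512 * C1 + 1) * ‖u - u'‖ *
        (Metric.infDist u (Set.range F) + ‖u - u'‖) ^ 3 := by
  have hKp := S.K_pos
  have hC1p : 0 < C1 := by rw [hC1]; positivity
  have hX2 := pm_X2 S F A hA hK u u'
  obtain ⟨-, -, h3⟩ := pm_t_near S F A hA hK C1 hC1 u k
  obtain ⟨-, h2, -⟩ := pm_t_near S F A hA hK C1 hC1 u' k
  set D := Metric.infDist u (Set.range F) with hD
  set r := ‖u - u'‖ with hr'
  have hD0 : 0 ≤ D := Metric.infDist_nonneg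
  obtain ⟨d, hd, hd1, hd2⟩ : ∃ d : ℝ, 0 < d ∧ d ≤ D + r ∧ d ≤ r * (D + r) ^ 3 :=
    ⟨min (D + r) (r * (D + r) ^ 3), lt_min (by positivity) (by positivity), min_le_left _ _,
      min_le_right _ _⟩
  obtain ⟨z, hz1, hz2⟩ := h3 d hd
  have h2 := h2 z
  have hX1 := pm_X1 S F A hA hK u' z
  have hz3 : ‖u - F z‖ ≤ 3 * (D + r) := by linarith
  have hz0 : 0 ≤ ‖u - F z‖ := norm_nonneg _
  have h4 : ‖u' - F z‖ ≤ ‖u - F z‖ + r := by
    have : u' - F z = (u - F z) - (u - u') := by abel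
    rw [this]; exact norm_sub_le _ _
  have h4' : ‖u' - F z‖ ≤ 4 * (D + r) := by linarith
  have h5 : ‖u' - F z‖ ^ 4 ≤ (‖u - F z‖ + r) ^ 4 := by gcongr
  set a := ‖u - F z‖ with ha
  have h6 : (a + r) ^ 4 - a ^ 4 ≤ 4 * r * (a + r) ^ 3 := by
    have e : 4 * r * (a + r) ^ 3 - ((a + r) ^ 4 - a ^ 4) =
      6 * a ^ 2 * r ^ 2 + 8 * a * r ^ 3 + 3 * r ^ 4 := by ring
    have : 0 ≤ 6 * a ^ 2 * r ^ 2 + 8 * a * r ^ 3 + 3 * r ^ 4 := by positivity
    linarith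
  have h7 : 4 * r * (a + r) ^ 3 ≤ 4 * r * (4 * (D + r)) ^ 3 := by
    gcongr; linarith
  have h8 : ‖u' - F z‖ ^ 4 - a ^ 4 ≤ 256 * r * (D + r) ^ 3 := by
    have e : 4 * r * (4 * (D + r)) ^ 3 = 256 * r * (D + r) ^ 3 := by ring
    linarith
  have h9 : 2 * C1 * (‖u' - F z‖ ^ 4 - a ^ 4) ≤ 2 * C1 * (256 * r * (D + r) ^ 3) := by gcongr
  -- the form
  have h10 : |S.om (pmX F A u - pmX F A u') (z.1 - pmX F A u') k| ≤
      S.K * (2 * (1 + 14 * A)) * (32 * A) * r * (D + r) ^ 3 := by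
    have e1 : |S.om (pmX F A u - pmX F A u') (z.1 - pmX F A u') k| ≤
      ‖S.om (pmX F A u - pmX F A u') (z.1 - pmX F A u')‖ := pm_abs_le _ k
    have e2 := S.norm_om_le (pmX F A u - pmX F A u') (z.1 - pmX F A u')
    have e3 : ‖pmX F A u - pmX F A u'‖ ≤ 2 * (1 + 14 * A) * r * (D + r) := by
      rw [norm_sub_rev]; exact hX2
    have e4 : ‖z.1 - pmX F A u'‖ ≤ 2 * A * (4 * (D + r)) ^ 2 := by
      rw [norm_sub_rev]
      refine hX1.trans ?_
      gcongr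
    have e5 : S.K * ‖pmX F A u - pmX F A u'‖ * ‖z.1 - pmX F A u'‖ ≤
        S.K * (2 * (1 + 14 * A) * r * (D + r)) * (2 * A * (4 * (D + r)) ^ 2) := by gcongr
    have e6 : S.K * (2 * (1 + 14 * A) * r * (D + r)) * (2 * A * (4 * (D + r)) ^ 2) =
        S.K * (2 * (1 + 14 * A)) * (32 * A) * r * (D + r) ^ 3 := by ring
    linarith
  have h11 : S.om (pmX F A u - pmX F A u') (z.1 - pmX F A u') k =
      S.om (pmX F A u) z.1 k - S.om (pmX F A u') z.1 k - S.om (pmX F A u) (pmX F A u') k := by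
    have h0 := congrFun (S.om_self (pmX F A u')) k
    simp only [Str.om_sub_left, Str.om_sub_right, Pi.sub_apply, h0, Pi.zero_apply]
    ring
  have h10a := (abs_le.1 h10).2
  rw [h11] at h10a
  have h12 : (S.rel (pmX F A u, pmT S F A C1 u) (pmX F A u', pmT S F A C1 u')).2 k =
      pmT S F A C1 u' k - pmT S F A C1 u k - S.om (pmX F A u) (pmX F A u') k := rfl
  rw [h12]
  have h13 : (S.K * (2 * (1 + 14 * A)) * (32 * A) + 512 * C1 + 1) * r * (D + r) ^ 3 =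
      S.K * (2 * (1 + 14 * A)) * (32 * A) * r * (D + r) ^ 3 +
        2 * C1 * (256 * r * (D + r) ^ 3) + r * (D + r) ^ 3 := by ring
  rw [h13]
  linarith

theorem pm_T2 (u u' : E) :
    ‖(S.rel (pmX F A u, pmT S F A C1 u) (pmX F A u', pmT S F A C1 u')).2‖ ≤
      8 * (S.K * (2 * (1 + 14 * A)) * (32 * A) + 512 * C1 + 1) * ‖u - u'‖ *
        (Metric.infDist u (Set.range F) + ‖u - u'‖) ^ 3 := by
  have hKp := S.K_pos
  have hC1p : 0 < C1 := by rw [hC1]; positivity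
  have hD0 : 0 ≤ Metric.infDist u (Set.range F) := Metric.infDist_nonneg
  rcases eq_or_lt_of_le (norm_nonneg (u - u')) with h0 | h0
  · have : u = u' := by rw [← sub_eq_zero, ← norm_eq_zero]; exact h0.symm
    subst this
    rw [S.rel_self]
    simp
  rw [pi_norm_le_iff_of_nonneg (by positivity)]
  intro k
  have h1 := pm_T2_aux S F A hA hK C1 hC1 u u' k h0
  have h2 := pm_T2_aux S F A hA hK C1 hC1 u' u k (by rwa [norm_sub_rev])
  rw [norm_sub_rev u' u] at h2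
  have h3 : Metric.infDist u' (Set.range F) ≤ Metric.infDist u (Set.range F) + ‖u - u'‖ := by
    have := Metric.infDist_le_infDist_add_dist (s := Set.range F) (x := u') (y := u)
    rwa [dist_comm, dist_eq_norm] at this
  have hD'0 : 0 ≤ Metric.infDist u' (Set.range F) := Metric.infDist_nonneg
  rw [S.rel_anti (pmX F A u, pmT S F A C1 u) (pmX F A u', pmT S F A C1 u')] at h2
  set B := S.K * (2 * (1 + 14 * A)) * (32 * A) + 512 * C1 + 1 with hB
  have hBp : 0 < B := by rw [hB]; positivity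
  set D := Metric.infDist u (Set.range F) with hD
  set r := ‖u - u'‖ with hr'
  set D' := Metric.infDist u' (Set.range F) with hD'
  set w := (S.rel (pmX F A u, pmT S F A C1 u) (pmX F A u', pmT S F A C1 u')) with hw
  have h2' : - w.2 k ≤ B * r * (D' + r) ^ 3 := h2
  have h4 : B * r * (D' + r) ^ 3 ≤ B * r * (2 * (D + r)) ^ 3 := by
    gcongr; linarith
  have h5 : B * r * (D + r) ^ 3 ≤ B * r * (2 * (D + r)) ^ 3 := by
    gcongr; linarith
  have h6 : B * r * (2 * (D + r)) ^ 3 = 8 * B * r * (D + r) ^ 3 := by ring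
  rw [Real.norm_eq_abs, abs_le]
  constructor <;> linarith

end tpart

theorem exists_P {E : Type} [NormedAddCommGroup E] (F : Hs ι κ → E) (c C : ℝ) (hc : 0 < c)
    (hC : 0 < C)
    (hlow : ∀ y y', c * √(gau (S.rel y y')) ≤ ‖F y - F y'‖)
    (hup : ∀ y y', ‖F y - F y'‖ ≤ C * √(gau (S.rel y y'))) :
    ∃ (P : E → Hs ι κ) (C' : ℝ), 0 < C' ∧ (∀ y, P (F y) = y) ∧
      (∀ u u', ‖(S.rel (P u) (P u')).1‖ ≤
        C' * ‖u - u'‖ * (Metric.infDist u (Set.range F) + ‖u - u'‖)) ∧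
      (∀ u u', ‖(S.rel (P u) (P u')).2‖ ≤
        C' * ‖u - u'‖ * (Metric.infDist u (Set.range F) + ‖u - u'‖) ^ 3) ∧
      (∀ u, ‖u - F (P u)‖ ≤ C' * Metric.infDist u (Set.range F)) := by
  have hKp := S.K_pos
  obtain ⟨A, hA, hAdef⟩ : ∃ A : ℝ, 0 < A ∧ A = 2 / c ^ 2 := ⟨2 / c ^ 2, by positivity, rfl⟩
  have hK : ∀ u y z, gau (S.rel y z) ≤ A * (‖u - F y‖ ^ 2 + ‖u - F z‖ ^ 2) := fun u y z => by
    rw [hAdef]; exact pm_key S F c hc hlow u y z
  obtain ⟨C1, hC1⟩ : ∃ C1 : ℝ, C1 = 2 * A ^ 2 + 4 * S.K * A ^ 2 := ⟨_, rfl⟩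
  have hC1p : 0 < C1 := by rw [hC1]; positivity
  obtain ⟨B, hB⟩ : ∃ B : ℝ, B = S.K * (2 * (1 + 14 * A)) * (32 * A) + 512 * C1 + 1 := ⟨_, rfl⟩
  have hBp : 0 < B := by rw [hB]; positivity
  obtain ⟨G, hG⟩ : ∃ G : ℝ, G = 2 * A + 1 + 2 * C1 := ⟨_, rfl⟩
  have hGp : 0 < G := by rw [hG]; positivity
  obtain ⟨M, hM⟩ : ∃ M : ℝ, M = 1 + C * √G := ⟨_, rfl⟩
  have hMp : 0 < M := by rw [hM]; positivity
  have hdist : ∀ u, ‖u - F (pmX F A u, pmT S F A C1 u)‖ ≤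
      M * Metric.infDist u (Set.range F) := by
    intro u
    have h1 : ∀ y, ‖u - F (pmX F A u, pmT S F A C1 u)‖ ≤ M * ‖u - F y‖ := by
      intro y
      have e1 : ‖(S.rel y (pmX F A u, pmT S F A C1 u)).1‖ ≤ 2 * A * ‖u - F y‖ ^ 2 :=
        pm_X1 S F A hA hK u y
      have e2 := pm_T1 S F A hA hK C1 hC1 u y
      have e3 : gau (S.rel y (pmX F A u, pmT S F A C1 u)) ≤ G * ‖u - F y‖ ^ 2 := by
        rw [gau_le_iff (by positivity)]
        constructor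
        · refine e1.trans ?_
          gcongr
          rw [hG]; linarith
        · refine e2.trans ?_
          have : (G * ‖u - F y‖ ^ 2) ^ 2 = G ^ 2 * ‖u - F y‖ ^ 4 := by ring
          rw [this]
          gcongr
          rw [hG]
          nlinarith
      have e4 : √(gau (S.rel y (pmX F A u, pmT S F A C1 u))) ≤ √G * ‖u - F y‖ := by
        calc √(gau (S.rel y (pmX F A u, pmT S F A C1 u))) ≤ √(G * ‖u - F y‖ ^ 2) :=
              Real.sqrt_le_sqrt e3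
          _ = √G * ‖u - F y‖ := by
              rw [Real.sqrt_mul hGp.le, Real.sqrt_sq (norm_nonneg _)]
      have e5 := hup y (pmX F A u, pmT S F A C1 u)
      have e6 : ‖u - F (pmX F A u, pmT S F A C1 u)‖ ≤
          ‖u - F y‖ + ‖F y - F (pmX F A u, pmT S F A C1 u)‖ := by
        have : u - F (pmX F A u, pmT S F A C1 u) =
          (u - F y) + (F y - F (pmX F A u, pmT S F A C1 u)) := by abel
        rw [this]; exact norm_add_le _ _
      have e7 : C * √(gau (S.rel y (pmX F A u, pmT S F A C1 u))) ≤ C * (√G * ‖u - F y‖) := by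
        gcongr
      rw [hM]
      linarith
    have h2 : ‖u - F (pmX F A u, pmT S F A C1 u)‖ / M ≤ Metric.infDist u (Set.range F) := by
      rw [Metric.le_infDist (Set.range_nonempty F)]
      rintro _ ⟨y, rfl⟩
      rw [dist_eq_norm, div_le_iff₀ hMp, mul_comm]
      exact h1 y
    rw [div_le_iff₀ hMp] at h2
    linarith
  refine ⟨fun u => (pmX F A u, pmT S F A C1 u), 2 * (1 + 14 * A) + 8 * B + M, by positivity,
    ?_, ?_, ?_, ?_⟩
  · intro y
    have h1 : ‖(S.rel y (pmX F A (F y), pmT S F A C1 (F y))).1‖ ≤ 2 * A * ‖F y - F y‖ ^ 2 :=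
      pm_X1 S F A hA hK (F y) y
    have h2 := pm_T1 S F A hA hK C1 hC1 (F y) y
    rw [sub_self, norm_zero] at h1 h2
    have e1 : (S.rel y (pmX F A (F y), pmT S F A C1 (F y))).1 = 0 :=
      norm_le_zero_iff.mp (by simpa using h1)
    have e2 : (S.rel y (pmX F A (F y), pmT S F A C1 (F y))).2 = 0 :=
      norm_le_zero_iff.mp (by simpa using h2)
    exact ((S.rel_eq_zero_iff _ _).1 (Prod.ext e1 e2)).symm
  · intro u u'
    have h1 := pm_X2 S F A hA hK u u'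
    have hD0 : 0 ≤ Metric.infDist u (Set.range F) := Metric.infDist_nonneg
    refine (show ‖(S.rel (pmX F A u, pmT S F A C1 u) (pmX F A u', pmT S F A C1 u')).1‖ ≤ _
      from h1).trans ?_
    gcongr
    linarith
  · intro u u'
    have h1 := pm_T2 S F A hA hK C1 hC1 u u'
    have hD0 : 0 ≤ Metric.infDist u (Set.range F) := Metric.infDist_nonneg
    rw [← hB] at h1
    refine h1.trans ?_
    gcongr
    nlinarith
  · intro u
    have hD0 : 0 ≤ Metric.infDist u (Set.range F) := Metric.infDist_nonneg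
    refine (hdist u).trans ?_
    gcongr
    nlinarith

theorem th_P {E : Type} [NormedAddCommGroup E] (D : E → ℝ) (hD : ∀ u, 0 ≤ D u)
    (P : E → Hs ι κ) (C' : ℝ) (hC' : 0 < C')
    (h1 : ∀ u u', ‖(S.rel (P u) (P u')).1‖ ≤ C' * ‖u - u'‖ * (D u + ‖u - u'‖))
    (h2 : ∀ u u', ‖(S.rel (P u) (P u')).2‖ ≤ C' * ‖u - u'‖ * (D u + ‖u - u'‖) ^ 3) :
    ∃ C2 : ℝ, 0 < C2 ∧ ∀ u u', th (D u) (S.rel (P u) (P u')) ≤ C2 * ‖u - u'‖ := by
  refine ⟨1 + 8 * C', by positivity, fun u u' => ?_⟩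
  have h1 := h1 u u'
  have h2 := h2 u u'
  have hD := hD u
  have hr : 0 ≤ ‖u - u'‖ := norm_nonneg _
  set r := ‖u - u'‖ with hr'
  set a := S.rel (P u) (P u') with ha
  have ha1 : 0 ≤ ‖a.1‖ := norm_nonneg _
  have ha2 : 0 ≤ ‖a.2‖ := norm_nonneg _
  unfold th
  rcases le_or_gt (D u) r with h | h
  · have e1 : ‖a.1‖ ≤ 2 * C' * r ^ 2 := by
      refine h1.trans ?_
      have : C' * r * (D u + r) ≤ C' * r * (r + r) := by gcongr
      nlinarith
    have e2 : ‖a.2‖ ≤ 8 * C' * r ^ 4 := by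
      refine h2.trans ?_
      have : C' * r * (D u + r) ^ 3 ≤ C' * r * (r + r) ^ 3 := by gcongr
      nlinarith
    refine max_le ((al_le_sqrt hD ha1).trans ?_) ((be_le_sqrt hD ha2).trans ?_)
    · rw [Real.sqrt_le_left (by positivity)]
      refine e1.trans ?_
      have : ((1 + 8 * C') * r) ^ 2 = (1 + 8 * C') ^ 2 * r ^ 2 := by ring
      rw [this]
      gcongr
      nlinarith
    · rw [Real.sqrt_le_left (by positivity), Real.sqrt_le_left (by positivity)]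
      refine e2.trans ?_
      have : (((1 + 8 * C') * r) ^ 2) ^ 2 = (1 + 8 * C') ^ 4 * r ^ 4 := by ring
      rw [this]
      gcongr
      have e3 : 1 ≤ 1 + 8 * C' := by linarith
      have e4 : 1 + 8 * C' ≤ (1 + 8 * C') ^ 4 := le_self_pow₀ e3 (by norm_num)
      linarith
  · have hDp : 0 < D u := lt_of_le_of_lt hr h
    refine max_le ((al_le_div hDp ha1).trans ?_) ((be_le_div hDp ha2).trans ?_)
    · rw [div_le_iff₀ hDp]
      refine h1.trans ?_
      have e1 : C' * r * (D u + r) ≤ C' * r * (D u + D u) := by gcongr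
      have e2 : 0 ≤ r * D u := by positivity
      have e3 : 0 ≤ C' * (r * D u) := by positivity
      nlinarith
    · rw [div_le_iff₀ (by positivity)]
      refine h2.trans ?_
      have e1 : C' * r * (D u + r) ^ 3 ≤ C' * r * (D u + D u) ^ 3 := by gcongr
      have e2 : 0 ≤ r * D u ^ 3 := by positivity
      have e3 : C' * r * (D u + D u) ^ 3 = 8 * C' * (r * D u ^ 3) := by ring
      nlinarith

end Pool.UQC
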