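import Pool.Agent.UQC.Theta

/-!
MODULE StepA (problem MP_7936f4_al).  First half of the Klee trick: (x,u) -> (x, u + F_{|u|}(x)).
COMPLETE PAPER PROOF.  Uses Theta (statements).

A p := (p.1, p.2 + F ‖p.2‖ p.1).
(1) For fixed x the map u -> u + F ‖u‖ x is a bijection of E: f(u) = F ‖u‖ x satisfies
    |f u - f u2| <= |‖u‖ - ‖u2‖|/2 <= ‖u-u2‖/2 (hF3), so for given v the map u -> v - f u is a contraction of the
    complete space E and has exactly one fixed point (ContractingWith), i.e. exactly one u with u + f u = v.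
    Hence A is bijective (Equiv.ofBijective).
(2) Let p = (x,u), q = (x2,u2), u' = (A p).2, u2' = (A q).2, s = max ‖u‖ ‖u2‖, sg = max ‖u' - F 0 x‖ ‖u2' - F 0 x2‖.
    By hF2, ‖u' - F 0 x - u‖ <= ‖u‖/4, so 3/4 ‖u‖ <= ‖u' - F 0 x‖ <= 5/4 ‖u‖, same for q: sg <= 2 s and s <= 2 sg.
    By th_scale (factor 2): th s a <= 8 th sg a and th sg a <= 8 th s a.   (De1 uses x, x2 = first coordinates of A p, A q.)
(3) Let a = rel x x2.  By symmetry (De0 and De1 are symmetric: norm_sub_rev, max_comm, th_rel_comm) let ‖u2‖ <= ‖u‖ = s.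
    ‖F ‖u‖ x - F ‖u2‖ x2‖ <= ‖F s x - F s x2‖ + ‖F s x2 - F ‖u2‖ x2‖ <= C th s a + ‖u - u2‖/2.
    So ‖u' - u2'‖ <= 3/2 ‖u-u2‖ + C th s a and ‖u-u2‖ <= ‖u'-u2'‖ + C th s a + ‖u-u2‖/2, i.e.
    ‖u-u2‖ <= 2 ‖u'-u2'‖ + 2 C th s a.
    Together with (2): De1 (A p) (A q) <= 3/2 ‖u-u2‖ + (C + 8) th s a and De0 p q <= 2 ‖u'-u2'‖ + (2C+1) 8 th sg a.
-/

namespace Pool.UQC

variable {ι κ : Type} [Fintype ι] [Fintype κ] (S : Str ι κ)

theorem stepA {E : Type} [NormedAddCommGroup E] [NormedSpace ℝ E] [CompleteSpace E]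
    (F : ℝ → Hs ι κ → E) (C : ℝ) (hC : 0 ≤ C)
    (hF2 : ∀ s, 0 ≤ s → ∀ y, ‖F s y - F 0 y‖ ≤ s / 4)
    (hF3 : ∀ s s', 0 ≤ s → 0 ≤ s' → ∀ y, ‖F s y - F s' y‖ ≤ |s - s'| / 2)
    (hF4 : ∀ s, 0 ≤ s → ∀ y y', ‖F s y - F s y'‖ ≤ C * th s (S.rel y y')) :
    ∃ (A : (Hs ι κ × E) ≃ (Hs ι κ × E)) (C' : ℝ), 1 ≤ C' ∧
      ∀ p q, De0 S p q ≤ C' * De1 S (F 0) (A p) (A q) ∧
        De1 S (F 0) (A p) (A q) ≤ C' * De0 S p q := by
  -- the Lipschitz estimate in the fibre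
  have hlip : ∀ x (u u2 : E), ‖F ‖u‖ x - F ‖u2‖ x‖ ≤ ‖u - u2‖ / 2 := by
    intro x u u2
    refine (hF3 _ _ (norm_nonneg _) (norm_nonneg _) x).trans ?_
    have := abs_norm_sub_norm_le u u2
    linarith
  -- bijectivity
  have hbij : Function.Bijective (fun p : Hs ι κ × E => ((p.1, p.2 + F ‖p.2‖ p.1) : Hs ι κ × E)) := by
    constructor
    · rintro ⟨x, u⟩ ⟨x2, u2⟩ h
      simp only [Prod.mk.injEq] at h
      obtain ⟨rfl, h⟩ := h
      have h1 : u - u2 = F ‖u2‖ x - F ‖u‖ x := by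
        rw [sub_eq_sub_iff_add_eq_add, h]
        abel
      have h2 := hlip x u2 u
      rw [← h1, norm_sub_rev u2 u] at h2
      have h3 := norm_nonneg (u - u2)
      have h4 : ‖u - u2‖ = 0 := by linarith
      rw [norm_eq_zero, sub_eq_zero] at h4
      rw [h4]
    · rintro ⟨x, v⟩
      have hc : ContractingWith (1 / 2) (fun u : E => v - F ‖u‖ x) := by
        refine ⟨?_, ?_⟩
        · rw [← NNReal.coe_lt_coe]
          push_cast
          norm_num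
        · refine LipschitzWith.of_dist_le_mul fun u u2 => ?_
          rw [dist_eq_norm, dist_eq_norm]
          have h1 : v - F ‖u‖ x - (v - F ‖u2‖ x) = F ‖u2‖ x - F ‖u‖ x := by abel
          rw [h1]
          refine (hlip x u2 u).trans (le_of_eq ?_)
          rw [norm_sub_rev]
          push_cast
          ring
      refine ⟨(x, hc.fixedPoint), ?_⟩
      have h2 := hc.fixedPoint_isFixedPt
      rw [Function.IsFixedPt] at h2
      simp only [Prod.mk.injEq, true_and]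
      nth_rewrite 1 [← h2]
      abel
  refine ⟨Equiv.ofBijective _ hbij, 16 * C + 8, by linarith, ?_⟩
  rintro ⟨x, u⟩ ⟨x2, u2⟩
  simp only [Equiv.ofBijective_apply, De0, De1]
  set s := max ‖u‖ ‖u2‖ with hs
  set u' := u + F ‖u‖ x with hu'
  set u2' := u2 + F ‖u2‖ x2 with hu2'
  set sg := max ‖u' - F 0 x‖ ‖u2' - F 0 x2‖ with hsg
  set a := S.rel x x2 with ha
  have hs0 : 0 ≤ s := (norm_nonneg u).trans (le_max_left _ _)
  have hsg0 : 0 ≤ sg := (norm_nonneg _).trans (le_max_left _ _)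
  have hdist : ∀ (w : E) (y : Hs ι κ), ‖w + F ‖w‖ y - F 0 y‖ ≤ 5 / 4 * ‖w‖ ∧
      3 / 4 * ‖w‖ ≤ ‖w + F ‖w‖ y - F 0 y‖ := by
    intro w y
    have h1 := hF2 ‖w‖ (norm_nonneg _) y
    have h2 : w + F ‖w‖ y - F 0 y = w + (F ‖w‖ y - F 0 y) := by abel
    rw [h2]
    constructor
    · refine (norm_add_le _ _).trans ?_
      linarith
    · have h3 := norm_sub_le (w + (F ‖w‖ y - F 0 y)) (F ‖w‖ y - F 0 y)
      have h4 : w + (F ‖w‖ y - F 0 y) - (F ‖w‖ y - F 0 y) = w := by abel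
      rw [h4] at h3
      linarith
  have hd1 := hdist u x
  have hd2 := hdist u2 x2
  rw [← hu'] at hd1
  rw [← hu2'] at hd2
  have hus : ‖u‖ ≤ s := le_max_left _ _
  have hu2s : ‖u2‖ ≤ s := le_max_right _ _
  have husg : ‖u' - F 0 x‖ ≤ sg := le_max_left _ _
  have hu2sg : ‖u2' - F 0 x2‖ ≤ sg := le_max_right _ _
  have hsg2 : sg ≤ 2 * s := by
    refine max_le ?_ ?_
    · linarith
    · linarith
  have hs2 : s ≤ 2 * sg := by
    refine max_le ?_ ?_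
    · linarith [norm_nonneg (u' - F 0 x)]
    · linarith [norm_nonneg (u2' - F 0 x2)]
  have hT1 : th s a ≤ 8 * th sg a := by
    have := th_scale hs0 hsg0 (l := 2) (by norm_num) hsg2 a
    norm_num at this
    exact this
  have hT2 : th sg a ≤ 8 * th s a := by
    have := th_scale hsg0 hs0 (l := 2) (by norm_num) hs2 a
    norm_num at this
    exact this
  have hT0 : 0 ≤ th s a := th_nonneg hs0 a
  have hTg0 : 0 ≤ th sg a := th_nonneg hsg0 a
  have hkey : ‖F ‖u‖ x - F ‖u2‖ x2‖ ≤ C * th s a + ‖u - u2‖ / 2 := by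
    rcases le_total ‖u2‖ ‖u‖ with h | h
    · have e : s = ‖u‖ := max_eq_left h
      have h1 : F ‖u‖ x - F ‖u2‖ x2 = (F ‖u‖ x - F ‖u‖ x2) + (F ‖u‖ x2 - F ‖u2‖ x2) := by abel
      rw [h1]
      refine (norm_add_le _ _).trans (add_le_add ?_ (hlip x2 u u2))
      rw [e]
      exact hF4 _ (norm_nonneg _) x x2
    · have e : s = ‖u2‖ := max_eq_right h
      have h1 : F ‖u‖ x - F ‖u2‖ x2 = (F ‖u2‖ x - F ‖u2‖ x2) + (F ‖u‖ x - F ‖u2‖ x) := by abel
      rw [h1]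
      refine (norm_add_le _ _).trans (add_le_add ?_ (hlip x u u2))
      rw [e]
      exact hF4 _ (norm_nonneg _) x x2
  have hup : ‖u' - u2'‖ ≤ ‖u - u2‖ + ‖F ‖u‖ x - F ‖u2‖ x2‖ := by
    have h1 : u' - u2' = (u - u2) + (F ‖u‖ x - F ‖u2‖ x2) := by
      rw [hu', hu2']
      abel
    rw [h1]
    exact norm_add_le _ _
  have hlow : ‖u - u2‖ ≤ ‖u' - u2'‖ + ‖F ‖u‖ x - F ‖u2‖ x2‖ := by
    have h1 : u - u2 = (u' - u2') - (F ‖u‖ x - F ‖u2‖ x2) := by
      rw [hu', hu2']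
      abel
    rw [h1]
    exact norm_sub_le _ _
  have hn1 := norm_nonneg (u - u2)
  have hn2 := norm_nonneg (u' - u2')
  have hCT : 0 ≤ C * th s a := mul_nonneg hC hT0
  have hCTg : 0 ≤ C * th sg a := mul_nonneg hC hTg0
  have hCT1 : C * th s a ≤ 8 * (C * th sg a) := by
    have := mul_le_mul_of_nonneg_left hT1 hC
    linarith
  have hCn1 : 0 ≤ C * ‖u - u2‖ := mul_nonneg hC hn1
  have hCn2 : 0 ≤ C * ‖u' - u2'‖ := mul_nonneg hC hn2
  constructor
  · have h5 : ‖u - u2‖ ≤ 2 * ‖u' - u2'‖ + 2 * (C * th s a) := by linarith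
    have e : (16 * C + 8) * (‖u' - u2'‖ + th sg a) =
        16 * (C * ‖u' - u2'‖) + 8 * ‖u' - u2'‖ + 16 * (C * th sg a) + 8 * th sg a := by ring
    rw [e]
    linarith
  · have e : (16 * C + 8) * (‖u - u2‖ + th s a) =
        16 * (C * ‖u - u2‖) + 8 * ‖u - u2‖ + 16 * (C * th s a) + 8 * th s a := by ring
    rw [e]
    linarith

end Pool.UQC
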