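import Pool.Agent.UQC.Theta

/-!
MODULE StepB (problem MP_7936f4_al).  Second half of the Klee trick: (x,u) -> (P(u)^{-1} x, u).
COMPLETE PAPER PROOF.  Uses Basic, Theta (statements).

B p := (rel (P p.2) p.1, p.2), inverse (z,u) -> (mul (P u) z, u) (Str.rel_mul_self, Str.mul_rel_self).
Let p = (x,u), z = rel (P u) x, so x = mul (P u) z.  (D u = infDist u (range F) satisfies the hypotheses below.)
(1) Scales.  T := Tsc D (z,u) = max (D u) (sqrt (gau z)).
    ‖u - F x‖ <= ‖u - F (P u)‖ + ‖F (P u) - F x‖ <= C1 D u + C sqrt (gau z) <= (C1 + C) T;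
    D u <= ‖u - F x‖ and c sqrt (gau z) <= ‖F (P u) - F x‖ <= ‖u - F(P u)‖ + ‖u - F x‖ <= (C1 + 1) ‖u - F x‖, so
    T <= max 1 ((C1+1)/c) ‖u - F x‖.   Let M >= 1 be larger than both constants.
    For two points: sg = max of the ‖u - F x‖, tau = max of the T: sg <= M tau, tau <= M sg, so by th_scale
    th sg a <= M^3 th tau a and th tau a <= M^3 th sg a.
(2) Let q = (x2,u2), z2 = rel (P u2) x2, k = rel (P u) (P u2), tau as in (1).  gau z <= T^2 <= tau^2 and D u <= tau, so by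
    th_cj_le, th_anti and hP:  th tau (cj z k) <= (1+2K) th tau k <= (1+2K) th (D u) k <= (1+2K) C1 ‖u-u2‖, the same for
    cj z (-k) (cj_neg / th_neg).
    rel x x2 = mul (cj z k) (rel z z2)   (Str.rel_mul_mul)   and   rel z z2 = mul (cj z (-k)) (rel x x2)
    (Str.rel_of_rel_mul_mul), so by th_mul_le
    th tau (rel x x2) <= (1+K)((1+2K) C1 ‖u-u2‖ + th tau (rel z z2)) and the same with the roles exchanged.
    Combine with (1) and add ‖u-u2‖ to both.
-/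

namespace Pool.UQC

variable {ι κ : Type} [Fintype ι] [Fintype κ] (S : Str ι κ)

/-- the straightening map -/
private noncomputable def sbEquiv {E : Type} (P : E → Hs ι κ) : (Hs ι κ × E) ≃ (Hs ι κ × E) where
  toFun p := (S.rel (P p.2) p.1, p.2)
  invFun q := (S.mul (P q.2) q.1, q.2)
  left_inv p := by
    show (S.mul (P p.2) (S.rel (P p.2) p.1), p.2) = p
    rw [S.mul_rel_self]
  right_inv q := by
    show (S.rel (P q.2) (S.mul (P q.2) q.1), q.2) = q
    rw [S.rel_mul_self]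

theorem stepB {E : Type} [NormedAddCommGroup E] (F : Hs ι κ → E) (c C C1 : ℝ)
    (hc : 0 < c) (hC : 0 < C) (hC1 : 0 < C1)
    (hlow : ∀ y y', c * √(gau (S.rel y y')) ≤ ‖F y - F y'‖)
    (hup : ∀ y y', ‖F y - F y'‖ ≤ C * √(gau (S.rel y y')))
    (D : E → ℝ) (hD0 : ∀ u, 0 ≤ D u) (hDF : ∀ u y, D u ≤ ‖u - F y‖)
    (P : E → Hs ι κ) (hPF : ∀ u, ‖u - F (P u)‖ ≤ C1 * D u)
    (hP : ∀ u u', th (D u) (S.rel (P u) (P u')) ≤ C1 * ‖u - u'‖) :
    ∃ (B : (Hs ι κ × E) ≃ (Hs ι κ × E)) (C' : ℝ), 1 ≤ C' ∧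
      ∀ p q, De1 S F p q ≤ C' * De2 S D (B p) (B q) ∧
        De2 S D (B p) (B q) ≤ C' * De1 S F p q := by
  have hK := S.one_le_K
  set M : ℝ := 1 + (C1 + C) + (C1 + 1) / c with hM
  have hd : 0 < (C1 + 1) / c := by positivity
  have hM1 : 1 ≤ M := by
    rw [hM]
    linarith
  have hB : ∀ p : Hs ι κ × E, sbEquiv S P p = (S.rel (P p.2) p.1, p.2) := fun _ => rfl
  -- comparison of the scales
  have hT0 : ∀ p : Hs ι κ × E, 0 ≤ Tsc D (sbEquiv S P p) := fun p =>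
    le_trans (hD0 _) (le_max_left _ _)
  have hs1 : ∀ p : Hs ι κ × E, ‖p.2 - F p.1‖ ≤ M * Tsc D (sbEquiv S P p) := by
    intro p
    have h1 : ‖p.2 - F p.1‖ ≤ ‖p.2 - F (P p.2)‖ + ‖F (P p.2) - F p.1‖ := by
      have := norm_add_le (p.2 - F (P p.2)) (F (P p.2) - F p.1)
      rwa [sub_add_sub_cancel] at this
    have h2 := hPF p.2
    have h3 := hup (P p.2) p.1
    have h4 : D p.2 ≤ Tsc D (sbEquiv S P p) := le_max_left _ _
    have h5 : √(gau (S.rel (P p.2) p.1)) ≤ Tsc D (sbEquiv S P p) := le_max_right _ _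
    have h6 := mul_le_mul_of_nonneg_left h4 hC1.le
    have h7 := mul_le_mul_of_nonneg_left h5 hC.le
    have h8 := hT0 p
    have h9 : M * Tsc D (sbEquiv S P p) = Tsc D (sbEquiv S P p) + C1 * Tsc D (sbEquiv S P p) +
        C * Tsc D (sbEquiv S P p) + (C1 + 1) / c * Tsc D (sbEquiv S P p) := by
      rw [hM]
      ring
    have h10 : 0 ≤ (C1 + 1) / c * Tsc D (sbEquiv S P p) := by positivity
    linarith
  have hs2 : ∀ p : Hs ι κ × E, Tsc D (sbEquiv S P p) ≤ M * ‖p.2 - F p.1‖ := by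
    intro p
    have hn : 0 ≤ ‖p.2 - F p.1‖ := norm_nonneg _
    have hDu := hDF p.2 p.1
    apply max_le
    · show D p.2 ≤ _
      nlinarith
    · show √(gau (S.rel (P p.2) p.1)) ≤ _
      have h1 := hlow (P p.2) p.1
      have h2 : ‖F (P p.2) - F p.1‖ ≤ ‖p.2 - F (P p.2)‖ + ‖p.2 - F p.1‖ := by
        have := norm_sub_le (p.2 - F p.1) (p.2 - F (P p.2))
        rw [sub_sub_sub_cancel_left] at this
        linarith
      have h3 := hPF p.2
      have h4 := mul_le_mul_of_nonneg_left hDu hC1.le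
      have h5 : c * √(gau (S.rel (P p.2) p.1)) ≤ (C1 + 1) * ‖p.2 - F p.1‖ := by linarith
      have h6 : √(gau (S.rel (P p.2) p.1)) ≤ (C1 + 1) / c * ‖p.2 - F p.1‖ := by
        rw [div_mul_eq_mul_div, le_div_iff₀ hc]
        linarith
      have h7 : (C1 + 1) / c * ‖p.2 - F p.1‖ ≤ M * ‖p.2 - F p.1‖ := by
        apply mul_le_mul_of_nonneg_right _ hn
        rw [hM]
        linarith
      linarith
  set A : ℝ := 1 + S.K with hA
  set R : ℝ := (1 + 2 * S.K) * C1 with hR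
  have hA0 : 0 < A := by rw [hA]; linarith
  have hR0 : 0 < R := by
    rw [hR]
    have : 0 < 1 + 2 * S.K := by linarith
    positivity
  have hM3 : 1 ≤ M ^ 3 := one_le_pow₀ hM1
  refine ⟨sbEquiv S P, 1 + M ^ 3 * A * R + M ^ 3 * A, ?_, fun p q => ?_⟩
  · have : 0 ≤ M ^ 3 * A * R + M ^ 3 * A := by positivity
    linarith
  set sg : ℝ := max ‖p.2 - F p.1‖ ‖q.2 - F q.1‖ with hsg
  set tau : ℝ := max (Tsc D (sbEquiv S P p)) (Tsc D (sbEquiv S P q)) with htau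
  have hsg0 : 0 ≤ sg := le_trans (norm_nonneg _) (le_max_left _ _)
  have htau0 : 0 ≤ tau := le_trans (hT0 p) (le_max_left _ _)
  have hM0 : 0 ≤ M := by linarith
  have hst : sg ≤ M * tau := by
    apply max_le
    · exact (hs1 p).trans (mul_le_mul_of_nonneg_left (le_max_left _ _) hM0)
    · exact (hs1 q).trans (mul_le_mul_of_nonneg_left (le_max_right _ _) hM0)
  have hts : tau ≤ M * sg := by
    apply max_le
    · exact (hs2 p).trans (mul_le_mul_of_nonneg_left (le_max_left _ _) hM0)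
    · exact (hs2 q).trans (mul_le_mul_of_nonneg_left (le_max_right _ _) hM0)
  -- names
  set z : Hs ι κ := S.rel (P p.2) p.1 with hz
  set z2 : Hs ι κ := S.rel (P q.2) q.1 with hz2
  set k : Hs ι κ := S.rel (P p.2) (P q.2) with hk
  have hx : S.mul (P p.2) z = p.1 := S.mul_rel_self _ _
  have hx2 : S.mul (P q.2) z2 = q.1 := S.mul_rel_self _ _
  have e1 : S.rel p.1 q.1 = S.mul (S.cj z k) (S.rel z z2) := by
    have := S.rel_mul_mul (P p.2) (P q.2) z z2
    rwa [hx, hx2] at this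
  have e2 : S.rel z z2 = S.mul (S.cj z (-k)) (S.rel p.1 q.1) := by
    have := S.rel_of_rel_mul_mul (P p.2) (P q.2) z z2
    rwa [hx, hx2] at this
  have hgz : gau z ≤ tau ^ 2 := by
    have h1 : √(gau z) ≤ tau := le_trans (le_max_right _ _) (le_max_left _ _)
    calc gau z = √(gau z) ^ 2 := (Real.sq_sqrt (gau_nonneg z)).symm
      _ ≤ tau ^ 2 := pow_le_pow_left₀ (Real.sqrt_nonneg _) h1 2
  have hDt : D p.2 ≤ tau := le_trans (le_max_left _ _) (le_max_left _ _)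
  have hcj : th tau (S.cj z k) ≤ R * ‖p.2 - q.2‖ := by
    have h1 := th_cj_le S htau0 z k hgz
    have h2 := th_anti (hD0 p.2) hDt k
    have h3 := hP p.2 q.2
    have h4 : th tau k ≤ C1 * ‖p.2 - q.2‖ := h2.trans h3
    have h5 : (1 + 2 * S.K) * th tau k ≤ (1 + 2 * S.K) * (C1 * ‖p.2 - q.2‖) :=
      mul_le_mul_of_nonneg_left h4 (by linarith)
    rw [hR, mul_assoc]
    exact h1.trans h5
  have hcj' : th tau (S.cj z (-k)) ≤ R * ‖p.2 - q.2‖ := by
    rw [S.cj_neg, th_neg]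
    exact hcj
  have hn : 0 ≤ ‖p.2 - q.2‖ := norm_nonneg _
  have t1 : 0 ≤ th tau (S.rel z z2) := th_nonneg htau0 _
  have t2 : 0 ≤ th sg (S.rel p.1 q.1) := th_nonneg hsg0 _
  have hAR : 0 ≤ M ^ 3 * A * R := by positivity
  have hMA : 0 ≤ M ^ 3 * A := by positivity
  have g1 : De1 S F p q = ‖p.2 - q.2‖ + th sg (S.rel p.1 q.1) := rfl
  have g2 : De2 S D (sbEquiv S P p) (sbEquiv S P q) = ‖p.2 - q.2‖ + th tau (S.rel z z2) := rfl
  rw [g1, g2]
  constructor
  · have h1 := th_scale hsg0 htau0 hM1 hts (S.rel p.1 q.1)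
    have h2 := th_mul_le S htau0 (S.cj z k) (S.rel z z2)
    rw [← e1] at h2
    have h3 : th tau (S.rel p.1 q.1) ≤ A * (R * ‖p.2 - q.2‖ + th tau (S.rel z z2)) :=
      h2.trans (mul_le_mul_of_nonneg_left (by linarith) hA0.le)
    have h4 := mul_le_mul_of_nonneg_left h3 (by positivity : 0 ≤ M ^ 3)
    have h5 : M ^ 3 * (A * (R * ‖p.2 - q.2‖ + th tau (S.rel z z2))) =
        M ^ 3 * A * R * ‖p.2 - q.2‖ + M ^ 3 * A * th tau (S.rel z z2) := by ring
    have h6 : (1 + M ^ 3 * A * R + M ^ 3 * A) * (‖p.2 - q.2‖ + th tau (S.rel z z2)) =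
        ‖p.2 - q.2‖ + M ^ 3 * A * R * ‖p.2 - q.2‖ + M ^ 3 * A * th tau (S.rel z z2) +
        (M ^ 3 * A * ‖p.2 - q.2‖ + th tau (S.rel z z2) + M ^ 3 * A * R * th tau (S.rel z z2)) := by
      ring
    have h7 : 0 ≤ M ^ 3 * A * ‖p.2 - q.2‖ + th tau (S.rel z z2) +
        M ^ 3 * A * R * th tau (S.rel z z2) := by positivity
    rw [h6]
    linarith
  · have h1 := th_scale htau0 hsg0 hM1 hst (S.rel p.1 q.1)
    have h2 := th_mul_le S htau0 (S.cj z (-k)) (S.rel p.1 q.1)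
    rw [← e2] at h2
    have h3 : th tau (S.rel z z2) ≤ A * (R * ‖p.2 - q.2‖ + M ^ 3 * th sg (S.rel p.1 q.1)) :=
      h2.trans (mul_le_mul_of_nonneg_left (by linarith) hA0.le)
    have h5 : A * (R * ‖p.2 - q.2‖ + M ^ 3 * th sg (S.rel p.1 q.1)) =
        A * R * ‖p.2 - q.2‖ + M ^ 3 * A * th sg (S.rel p.1 q.1) := by ring
    have h8 : A * R * ‖p.2 - q.2‖ ≤ M ^ 3 * A * R * ‖p.2 - q.2‖ := by
      have h9 : 0 ≤ A * R * ‖p.2 - q.2‖ := by positivity
      nlinarith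
    have h6 : (1 + M ^ 3 * A * R + M ^ 3 * A) * (‖p.2 - q.2‖ + th sg (S.rel p.1 q.1)) =
        ‖p.2 - q.2‖ + M ^ 3 * A * R * ‖p.2 - q.2‖ + M ^ 3 * A * th sg (S.rel p.1 q.1) +
        (M ^ 3 * A * ‖p.2 - q.2‖ + th sg (S.rel p.1 q.1) +
          M ^ 3 * A * R * th sg (S.rel p.1 q.1)) := by
      ring
    have h7 : 0 ≤ M ^ 3 * A * ‖p.2 - q.2‖ + th sg (S.rel p.1 q.1) +
        M ^ 3 * A * R * th sg (S.rel p.1 q.1) := by positivity
    rw [h6]
    linarith

end Pool.UQC
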