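import Pool.Agent.UQC.Theta

/-!
MODULE StepC (problem MP_7936f4_al).  Straightening: the third structure is bilipschitz to the normed space
N x E (sup norm).  COMPLETE PAPER PROOF.  Uses Theta (statements).

For a point (y,u) of (R^ι x R^κ) x E (new coordinates) put tau = max (D u) ‖y‖ (‖y‖ = max |y.1| |y.2|) and
  G (y,u) := ((tau y.1, tau^3 y.2), u).
Inverse: H (z,u) := ((z.1/T, z.2/T^3), u), T = Tsc D (z,u) = max (D u) (sqrt (gau z)) (if T = 0 then z = 0 and the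
values are 0, as 0/0 = 0).
(1) Tsc D (G (y,u)) = tau: gau (tau y.1, tau^3 y.2) = max (tau |y.1|) (sqrt (tau^3 |y.2|)) <= tau^2, with equality if
    ‖y‖ = tau (then |y.1| = tau or |y.2| = tau).  If tau = D u: sqrt gau <= tau so Tsc = tau; if tau = ‖y‖: sqrt gau = tau.
    For tau = 0 everything is 0.
(2) max (D u) ‖(z.1/T, z.2/T^3)‖ = T for T = Tsc D (z,u): |z.1| <= gau z <= T^2 so |z.1|/T <= T; |z.2| <= gau^2 <= T^4
    so |z.2|/T^3 <= T; equality in one of them if T = sqrt (gau z) > 0 (gau z = |z.1| or gau z = sqrt |z.2|).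
    Hence H (G p) = p and G (H p) = p.   Cq := the Equiv with toFun H, invFun G.
(3) Estimates.  Let (y,u), (y2,u2) be new coordinates, (z,u), (z2,u2) old ones, tau1, tau2 the scales; by symmetry (De2 is
    symmetric) tau2 <= tau1.  a = rel z z2, th := th tau1 a (max (Tsc) (Tsc) = tau1).  If tau1 = 0 then y = y2 = 0,
    z = z2 = 0, both sides are ‖u-u2‖ (th _ 0 = 0, rel 0 0 = 0).  Let tau1 > 0.
    |z.1| <= tau1^2, |z2.1| <= tau2^2, |z.2| <= tau1^4, |z2.2| <= tau2^4.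
 (3a) De2 <= C' ‖..‖: r := max ‖u-u2‖ ‖y-y2‖ = the norm of the difference.  |tau1 - tau2| <= r (D is 1-Lipschitz).
    |z2.1 - z.1| = |tau2 y2.1 - tau1 y.1| <= tau2 |y2.1-y.1| + |tau1-tau2| |y.1| <= 2 tau1 r.
    |z2.2 - z.2| <= tau2^3 r + (tau1^3 - tau2^3)|y.2| <= tau1^3 r + 3 tau1^2 r tau1 = 4 tau1^3 r.
    |om z.1 z2.1| = |om z.1 (z2.1 - z.1)| <= K tau1^2 2 tau1 r.  So |a.1| <= 2 tau1 r, |a.2| <= (4+2K) tau1^3 r and
    by al_le_div, be_le_div: th <= (4+2K) r.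
 (3b) ‖..‖ <= C' De2.  If th >= tau1: ‖y - y2‖ <= ‖y‖+‖y2‖ <= 2 tau1 <= 2 th.
    If th < tau1: then gau a <= tau1^2 (otherwise th = sqrt (gau a) > tau1 by th_of_large) so by th_of_small
    |a.1| <= tau1 th, |a.2| <= tau1^3 th.  So |z2.1 - z.1| <= tau1 th, |z2.2 - z.2| <= |a.2| + |om z.1 (z2.1-z.1)|
    <= (1+K) tau1^3 th.
    * tau1 - tau2 <= max ‖u-u2‖ ((1+K) th):  if tau1 = D u then tau1 - tau2 <= D u - D u2 <= ‖u-u2‖;
      if tau1 = sqrt |z.1| (gau z = |z.1|): tau2 >= sqrt |z2.1| =: b, tau1 - b = (|z.1| - |z2.1|)/(tau1 + b)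
      <= |z.1 - z2.1|/tau1 <= th (if tau1 >= b; else the difference is negative);
      if tau1 = |z.2|^(1/4): tau2 >= |z2.2|^(1/4) =: b, tau1 - b <= (tau1^4 - b^4)/tau1^3 <= |z.2-z2.2|/tau1^3
      <= (1+K) th.
    * y.1 - y2.1 = z.1/tau1 - z2.1/tau2 = (z.1-z2.1)/tau1 + z2.1 (1/tau1 - 1/tau2); second term <= tau2^2 |tau1-tau2| /
      (tau1 tau2) <= |tau1-tau2|  (if tau2 = 0 then z2 = 0 = y2, fine).
    * y.2 - y2.2 = (z.2-z2.2)/tau1^3 + z2.2 (1/tau1^3 - 1/tau2^3); second term <= tau2^4 (tau1^3-tau2^3)/(tau1^3 tau2^3)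
      <= tau2 3 tau1^2 (tau1-tau2)/tau1^3 <= 3 (tau1-tau2).
    Total: ‖y-y2‖ <= (1+K) th + 3 (‖u-u2‖ + (1+K) th).
-/

namespace Pool.UQC

variable {ι κ : Type} [Fintype ι] [Fintype κ] (S : Str ι κ)

section aux

variable {E : Type} [NormedAddCommGroup E]

/-- the inverse straightening -/
noncomputable def scG (D : E → ℝ) (p : Hs ι κ × E) : Hs ι κ × E :=
  (((max (D p.2) ‖p.1‖) • p.1.1, (max (D p.2) ‖p.1‖) ^ 3 • p.1.2), p.2)

/-- the straightening -/
noncomputable def scH (D : E → ℝ) (p : Hs ι κ × E) : Hs ι κ × E :=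
  (((Tsc D p)⁻¹ • p.1.1, ((Tsc D p) ^ 3)⁻¹ • p.1.2), p.2)

theorem scG_tsc (D : E → ℝ) (p : Hs ι κ × E) : Tsc D (scG D p) = max (D p.2) ‖p.1‖ := by
  set τ : ℝ := max (D p.2) ‖p.1‖ with hτ
  have h0 : 0 ≤ τ := (norm_nonneg _).trans (le_max_right _ _)
  have h1 : ‖p.1.1‖ ≤ τ := (norm_fst_le p.1).trans (le_max_right _ _)
  have h2 : ‖p.1.2‖ ≤ τ := (norm_snd_le p.1).trans (le_max_right _ _)
  have n1 : ‖τ • p.1.1‖ = τ * ‖p.1.1‖ := by rw [norm_smul, Real.norm_eq_abs, abs_of_nonneg h0]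
  have n2 : ‖τ ^ 3 • p.1.2‖ = τ ^ 3 * ‖p.1.2‖ := by
    rw [norm_smul, Real.norm_eq_abs, abs_of_nonneg (pow_nonneg h0 3)]
  have hT : Tsc D (scG D p) =
      max (D p.2) (√(max (τ * ‖p.1.1‖) (√(τ ^ 3 * ‖p.1.2‖)))) := by
    unfold Tsc scG gau
    simp only [← hτ, n1, n2]
  rw [hT]
  apply le_antisymm
  · refine max_le (le_max_left _ _) ?_
    rw [Real.sqrt_le_left h0]
    refine max_le ?_ ?_
    · nlinarith
    · rw [Real.sqrt_le_left (by positivity)]
      calc τ ^ 3 * ‖p.1.2‖ ≤ τ ^ 3 * τ := mul_le_mul_of_nonneg_left h2 (pow_nonneg h0 3)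
        _ = (τ ^ 2) ^ 2 := by ring
  · rcases le_total ‖p.1‖ (D p.2) with h | h
    · have e : τ = D p.2 := by rw [hτ]; exact max_eq_left h
      rw [e]
      exact le_max_left _ _
    · have e : τ = ‖p.1‖ := by rw [hτ]; exact max_eq_right h
      refine le_trans ?_ (le_max_right _ _)
      apply Real.le_sqrt_of_sq_le
      rcases le_total ‖p.1.2‖ ‖p.1.1‖ with h' | h'
      · have e2 : τ = ‖p.1.1‖ := by rw [e, Prod.norm_def]; exact max_eq_left h'
        refine le_trans ?_ (le_max_left _ _)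
        rw [← e2]
        exact le_of_eq (pow_two τ)
      · have e2 : τ = ‖p.1.2‖ := by rw [e, Prod.norm_def]; exact max_eq_right h'
        refine le_trans ?_ (le_max_right _ _)
        rw [← e2]
        apply Real.le_sqrt_of_sq_le
        exact le_of_eq (by ring)

theorem tsc_facts (D : E → ℝ) (p : Hs ι κ × E) : 0 ≤ Tsc D p ∧ D p.2 ≤ Tsc D p ∧
    ‖p.1.1‖ ≤ Tsc D p ^ 2 ∧ ‖p.1.2‖ ≤ Tsc D p ^ 4 := by
  have h0 : 0 ≤ Tsc D p := (Real.sqrt_nonneg _).trans (le_max_right _ _)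
  have h1 : √(gau p.1) ≤ Tsc D p := le_max_right _ _
  have h2 : gau p.1 ≤ Tsc D p ^ 2 := by rwa [Real.sqrt_le_left h0] at h1
  refine ⟨h0, le_max_left _ _, (norm_fst_le_gau _).trans h2, ?_⟩
  calc ‖p.1.2‖ ≤ gau p.1 ^ 2 := norm_snd_le_gau_sq _
    _ ≤ (Tsc D p ^ 2) ^ 2 := pow_le_pow_left₀ (gau_nonneg _) h2 2
    _ = Tsc D p ^ 4 := by ring

theorem scH_max (D : E → ℝ) (p : Hs ι κ × E) :
    max (D (scH D p).2) ‖(scH D p).1‖ = Tsc D p := by
  obtain ⟨h0, hD, h1, h2⟩ := tsc_facts D p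
  set T : ℝ := Tsc D p with hT
  have e2 : (scH D p).2 = p.2 := rfl
  have e1 : ‖(scH D p).1‖ = max (T⁻¹ * ‖p.1.1‖) ((T ^ 3)⁻¹ * ‖p.1.2‖) := by
    unfold scH
    rw [Prod.norm_def]
    simp only [← hT, norm_smul, norm_inv, norm_pow, Real.norm_eq_abs, abs_of_nonneg h0]
  rw [e1, e2]
  rcases eq_or_lt_of_le h0 with hz | hpos
  · rw [← hz] at h1 h2 hD
    have z1 : ‖p.1.1‖ = 0 := le_antisymm (by simpa using h1) (norm_nonneg _)
    have z2 : ‖p.1.2‖ = 0 := le_antisymm (by simpa using h2) (norm_nonneg _)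
    rw [z1, z2, ← hz]
    simpa using hD
  · apply le_antisymm
    · refine max_le hD (max_le ?_ ?_)
      · calc T⁻¹ * ‖p.1.1‖ ≤ T⁻¹ * T ^ 2 := mul_le_mul_of_nonneg_left h1 (by positivity)
          _ = T := by field_simp
      · calc (T ^ 3)⁻¹ * ‖p.1.2‖ ≤ (T ^ 3)⁻¹ * T ^ 4 :=
              mul_le_mul_of_nonneg_left h2 (by positivity)
          _ = T := by field_simp
    · rcases le_total (√(gau p.1)) (D p.2) with h | h
      · have e : T = D p.2 := by rw [hT]; exact max_eq_left h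
        rw [← e]
        exact le_max_left _ _
      · have e : T = √(gau p.1) := by rw [hT]; exact max_eq_right h
        have e' : gau p.1 = T ^ 2 := by rw [e, Real.sq_sqrt (gau_nonneg _)]
        refine le_trans ?_ (le_max_right _ _)
        rcases le_total (√‖p.1.2‖) ‖p.1.1‖ with h' | h'
        · have e3 : ‖p.1.1‖ = T ^ 2 := by
            rw [← e']
            unfold gau
            exact (max_eq_left h').symm
          refine le_trans ?_ (le_max_left _ _)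
          rw [e3]
          exact le_of_eq (by field_simp)
        · have e3 : √‖p.1.2‖ = T ^ 2 := by
            rw [← e']
            unfold gau
            exact (max_eq_right h').symm
          have e4 : ‖p.1.2‖ = T ^ 4 := by
            rw [← Real.sq_sqrt (norm_nonneg p.1.2), e3]
            ring
          refine le_trans ?_ (le_max_right _ _)
          rw [e4]
          exact le_of_eq (by field_simp)

theorem scG_scH (D : E → ℝ) (p : Hs ι κ × E) : scG D (scH D p) = p := by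
  obtain ⟨h0, hD, h1, h2⟩ := tsc_facts D p
  have hm := scH_max D p
  unfold scG
  rw [hm]
  rcases eq_or_lt_of_le h0 with hz | hpos
  · rw [← hz] at h1 h2 ⊢
    have z1 : p.1.1 = 0 := norm_le_zero_iff.1 (by simpa using h1)
    have z2 : p.1.2 = 0 := norm_le_zero_iff.1 (by simpa using h2)
    refine Prod.ext (Prod.ext ?_ ?_) rfl
    · simp [z1]
    · simp [z2]
  · refine Prod.ext (Prod.ext ?_ ?_) rfl
    · show Tsc D p • ((Tsc D p)⁻¹ • p.1.1) = p.1.1
      rw [smul_smul, mul_inv_cancel₀ hpos.ne', one_smul]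
    · show Tsc D p ^ 3 • ((Tsc D p ^ 3)⁻¹ • p.1.2) = p.1.2
      rw [smul_smul, mul_inv_cancel₀ (pow_pos hpos 3).ne', one_smul]

theorem scH_scG (D : E → ℝ) (p : Hs ι κ × E) : scH D (scG D p) = p := by
  have hT := scG_tsc D p
  have h0 : 0 ≤ max (D p.2) ‖p.1‖ := (norm_nonneg _).trans (le_max_right _ _)
  have hn : ‖p.1‖ ≤ max (D p.2) ‖p.1‖ := le_max_right _ _
  unfold scH
  rw [hT]
  rcases eq_or_lt_of_le h0 with hz | hpos
  · rw [← hz] at hn ⊢
    have hp : p.1 = 0 := norm_le_zero_iff.1 hn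
    have z1 : p.1.1 = 0 := by rw [hp]; rfl
    have z2 : p.1.2 = 0 := by rw [hp]; rfl
    refine Prod.ext (Prod.ext ?_ ?_) rfl
    · simp [z1]
    · simp [z2]
  · refine Prod.ext (Prod.ext ?_ ?_) rfl
    · show (max (D p.2) ‖p.1‖)⁻¹ • ((max (D p.2) ‖p.1‖) • p.1.1) = p.1.1
      rw [smul_smul, inv_mul_cancel₀ hpos.ne', one_smul]
    · show ((max (D p.2) ‖p.1‖) ^ 3)⁻¹ • ((max (D p.2) ‖p.1‖) ^ 3 • p.1.2) = p.1.2
      rw [smul_smul, inv_mul_cancel₀ (pow_pos hpos 3).ne', one_smul]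

theorem cube_sub_le {s t : ℝ} (ht : 0 ≤ t) (h : t ≤ s) :
    s ^ 3 - t ^ 3 ≤ 3 * s ^ 2 * (s - t) := by
  have hs : 0 ≤ s := ht.trans h
  have e : s ^ 3 - t ^ 3 = (s ^ 2 + s * t + t ^ 2) * (s - t) := by ring
  rw [e]
  refine mul_le_mul_of_nonneg_right ?_ (by linarith)
  nlinarith

/-- the direct estimate -/
theorem stepC_A (D : E → ℝ) (hD : ∀ u u', |D u - D u'| ≤ ‖u - u'‖) (y y2 : Hs ι κ) (u u2 : E)
    (s t r : ℝ) (hs : s = max (D u) ‖y‖) (ht : t = max (D u2) ‖y2‖) (hts : t ≤ s)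
    (hr1 : ‖u - u2‖ ≤ r) (hr2 : ‖y - y2‖ ≤ r) :
    th s (S.rel (s • y.1, s ^ 3 • y.2) (t • y2.1, t ^ 3 • y2.2)) ≤ (4 + 2 * S.K) * r := by
  have hK := S.one_le_K
  have ht0 : 0 ≤ t := by rw [ht]; exact (norm_nonneg _).trans (le_max_right _ _)
  have hs0 : 0 ≤ s := ht0.trans hts
  have hr0 : 0 ≤ r := (norm_nonneg _).trans hr1
  have hy1 : ‖y.1‖ ≤ s := by rw [hs]; exact (norm_fst_le y).trans (le_max_right _ _)
  have hy2 : ‖y.2‖ ≤ s := by rw [hs]; exact (norm_snd_le y).trans (le_max_right _ _)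
  have hd1 : ‖y2.1 - y.1‖ ≤ r := by
    rw [norm_sub_rev]
    exact (norm_fst_le (y - y2)).trans hr2
  have hd2 : ‖y2.2 - y.2‖ ≤ r := by
    rw [norm_sub_rev]
    exact (norm_snd_le (y - y2)).trans hr2
  have hst : s - t ≤ r := by
    rw [hs, ht]
    have h1 := abs_max_sub_max_le_max (D u) ‖y‖ (D u2) ‖y2‖
    have h2 : max |D u - D u2| |‖y‖ - ‖y2‖| ≤ r :=
      max_le ((hD u u2).trans hr1) ((abs_norm_sub_norm_le y y2).trans hr2)
    exact (le_abs_self _).trans (h1.trans h2)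
  rcases eq_or_lt_of_le hs0 with hz | hpos
  · have htz : t = 0 := le_antisymm (by rw [hz]; exact hts) ht0
    have e : S.rel (s • y.1, s ^ 3 • y.2) (t • y2.1, t ^ 3 • y2.2) = 0 := by
      rw [htz, ← hz]
      have e1 : ((0 : ℝ) • y.1, (0 : ℝ) ^ 3 • y.2) = (0 : Hs ι κ) := by
        refine Prod.ext ?_ ?_ <;> simp
      have e2 : ((0 : ℝ) • y2.1, (0 : ℝ) ^ 3 • y2.2) = (0 : Hs ι κ) := by
        refine Prod.ext ?_ ?_ <;> simp
      rw [e1, e2, S.rel_self]
    rw [e, ← hz, th_zero]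
    positivity
  · have ha1 : ‖t • y2.1 - s • y.1‖ ≤ 2 * s * r := by
      have e : t • y2.1 - s • y.1 = t • (y2.1 - y.1) - (s - t) • y.1 := by
        rw [smul_sub, sub_smul]; abel
      rw [e]
      calc ‖t • (y2.1 - y.1) - (s - t) • y.1‖ ≤ ‖t • (y2.1 - y.1)‖ + ‖(s - t) • y.1‖ :=
            norm_sub_le _ _
        _ = t * ‖y2.1 - y.1‖ + (s - t) * ‖y.1‖ := by
            rw [norm_smul, norm_smul, Real.norm_eq_abs, Real.norm_eq_abs, abs_of_nonneg ht0,
              abs_of_nonneg (by linarith)]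
        _ ≤ s * r + r * s := by
            refine add_le_add ?_ ?_
            · exact mul_le_mul hts hd1 (norm_nonneg _) hs0
            · exact mul_le_mul hst hy1 (norm_nonneg _) hr0
        _ = 2 * s * r := by ring
    have ha2 : ‖t ^ 3 • y2.2 - s ^ 3 • y.2‖ ≤ 4 * s ^ 3 * r := by
      have e : t ^ 3 • y2.2 - s ^ 3 • y.2 = t ^ 3 • (y2.2 - y.2) - (s ^ 3 - t ^ 3) • y.2 := by
        rw [smul_sub, sub_smul]; abel
      have h3 : t ^ 3 ≤ s ^ 3 := pow_le_pow_left₀ ht0 hts 3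
      have h4 : s ^ 3 - t ^ 3 ≤ 3 * s ^ 2 * r :=
        (cube_sub_le ht0 hts).trans (mul_le_mul_of_nonneg_left hst (by positivity))
      rw [e]
      calc ‖t ^ 3 • (y2.2 - y.2) - (s ^ 3 - t ^ 3) • y.2‖
          ≤ ‖t ^ 3 • (y2.2 - y.2)‖ + ‖(s ^ 3 - t ^ 3) • y.2‖ := norm_sub_le _ _
        _ = t ^ 3 * ‖y2.2 - y.2‖ + (s ^ 3 - t ^ 3) * ‖y.2‖ := by
            rw [norm_smul, norm_smul, Real.norm_eq_abs, Real.norm_eq_abs,
              abs_of_nonneg (pow_nonneg ht0 3), abs_of_nonneg (by linarith)]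
        _ ≤ s ^ 3 * r + 3 * s ^ 2 * r * s := by
            refine add_le_add ?_ ?_
            · exact mul_le_mul h3 hd2 (norm_nonneg _) (pow_nonneg hs0 3)
            · exact mul_le_mul h4 hy2 (norm_nonneg _) (by positivity)
        _ = 4 * s ^ 3 * r := by ring
    have hz1 : ‖s • y.1‖ ≤ s ^ 2 := by
      rw [norm_smul, Real.norm_eq_abs, abs_of_nonneg hs0]
      nlinarith
    have hom : ‖S.om (s • y.1) (t • y2.1)‖ ≤ 2 * S.K * s ^ 3 * r := by
      have e : S.om (s • y.1) (t • y2.1) = S.om (s • y.1) (t • y2.1 - s • y.1) := by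
        rw [S.om_sub_right, S.om_self, sub_zero]
      rw [e]
      calc ‖S.om (s • y.1) (t • y2.1 - s • y.1)‖
          ≤ S.K * ‖s • y.1‖ * ‖t • y2.1 - s • y.1‖ := S.norm_om_le _ _
        _ ≤ S.K * s ^ 2 * (2 * s * r) := by
            refine mul_le_mul ?_ ha1 (norm_nonneg _) (by positivity)
            exact mul_le_mul_of_nonneg_left hz1 (by linarith)
        _ = 2 * S.K * s ^ 3 * r := by ring
    have hb2 : ‖t ^ 3 • y2.2 - s ^ 3 • y.2 - S.om (s • y.1) (t • y2.1)‖ ≤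
        (4 + 2 * S.K) * s ^ 3 * r := by
      refine (norm_sub_le _ _).trans ?_
      calc ‖t ^ 3 • y2.2 - s ^ 3 • y.2‖ + ‖S.om (s • y.1) (t • y2.1)‖
          ≤ 4 * s ^ 3 * r + 2 * S.K * s ^ 3 * r := add_le_add ha2 hom
        _ = _ := by ring
    show max (al s ‖t • y2.1 - s • y.1‖)
      (be s ‖t ^ 3 • y2.2 - s ^ 3 • y.2 - S.om (s • y.1) (t • y2.1)‖) ≤ _
    refine max_le ?_ ?_
    · refine (al_le_div hpos (norm_nonneg _)).trans ?_
      rw [div_le_iff₀ hpos]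
      refine ha1.trans ?_
      have : 0 ≤ s * r := mul_nonneg hs0 hr0
      nlinarith
    · refine (be_le_div hpos (norm_nonneg _)).trans ?_
      rw [div_le_iff₀ (pow_pos hpos 3)]
      refine hb2.trans (le_of_eq (by ring))

/-- the converse estimate -/
theorem stepC_B (D : E → ℝ) (hD : ∀ u u', |D u - D u'| ≤ ‖u - u'‖) (y y2 : Hs ι κ) (u u2 : E)
    (s t : ℝ) (hs : s = max (D u) ‖y‖) (ht : t = max (D u2) ‖y2‖) (hts : t ≤ s) :
    ‖y - y2‖ ≤ 4 * (1 + S.K) *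
      (‖u - u2‖ + th s (S.rel (s • y.1, s ^ 3 • y.2) (t • y2.1, t ^ 3 • y2.2))) := by
  have hK := S.one_le_K
  have ht0 : 0 ≤ t := by rw [ht]; exact (norm_nonneg _).trans (le_max_right _ _)
  have hs0 : 0 ≤ s := ht0.trans hts
  have hy : ‖y‖ ≤ s := by rw [hs]; exact le_max_right _ _
  have hyt : ‖y2‖ ≤ t := by rw [ht]; exact le_max_right _ _
  have hy1 : ‖y.1‖ ≤ s := (norm_fst_le y).trans hy
  have hy2 : ‖y.2‖ ≤ s := (norm_snd_le y).trans hy
  have hyt1 : ‖y2.1‖ ≤ t := (norm_fst_le y2).trans hyt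
  have hyt2 : ‖y2.2‖ ≤ t := (norm_snd_le y2).trans hyt
  set a : Hs ι κ := S.rel (s • y.1, s ^ 3 • y.2) (t • y2.1, t ^ 3 • y2.2) with ha
  set θ : ℝ := th s a with hθ
  have hθ0 : 0 ≤ θ := th_nonneg hs0 a
  have hu0 : 0 ≤ ‖u - u2‖ := norm_nonneg _
  by_cases hcase : s ≤ θ
  · calc ‖y - y2‖ ≤ ‖y‖ + ‖y2‖ := norm_sub_le _ _
      _ ≤ 2 * θ := by linarith
      _ ≤ 4 * (1 + S.K) * (‖u - u2‖ + θ) := by
          have k1 : 0 ≤ S.K * θ := mul_nonneg (by linarith) hθ0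
          have k2 : 0 ≤ S.K * ‖u - u2‖ := mul_nonneg (by linarith) hu0
          nlinarith
  · have hlt : θ < s := not_le.1 hcase
    have hpos : 0 < s := lt_of_le_of_lt hθ0 hlt
    have hga : gau a ≤ s ^ 2 := by
      by_contra hcon
      have h1 : s ^ 2 < gau a := not_le.1 hcon
      have h2 : θ = √(gau a) := th_of_large hs0 a h1.le
      have h3 : s < √(gau a) := Real.lt_sqrt_of_sq_lt h1
      linarith
    have hsm : θ = max (‖a.1‖ / s) (‖a.2‖ / s ^ 3) := th_of_small hpos a hga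
    have hs3 : 0 < s ^ 3 := pow_pos hpos 3
    have ha1 : ‖a.1‖ ≤ s * θ := by
      have h1 : ‖a.1‖ / s ≤ θ := by rw [hsm]; exact le_max_left _ _
      rw [div_le_iff₀ hpos] at h1
      linarith
    have ha2 : ‖a.2‖ ≤ s ^ 3 * θ := by
      have h1 : ‖a.2‖ / s ^ 3 ≤ θ := by rw [hsm]; exact le_max_right _ _
      rw [div_le_iff₀ hs3] at h1
      linarith
    have ea1 : t • y2.1 - s • y.1 = a.1 := rfl
    have ea2 : t ^ 3 • y2.2 - s ^ 3 • y.2 - S.om (s • y.1) (t • y2.1) = a.2 := rfl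
    have hb1 : ‖t • y2.1 - s • y.1‖ ≤ s * θ := by rw [ea1]; exact ha1
    have hz1 : ‖s • y.1‖ ≤ s ^ 2 := by
      rw [norm_smul, Real.norm_eq_abs, abs_of_nonneg hs0]
      nlinarith
    have hom : ‖S.om (s • y.1) (t • y2.1)‖ ≤ S.K * s ^ 3 * θ := by
      have e : S.om (s • y.1) (t • y2.1) = S.om (s • y.1) (t • y2.1 - s • y.1) := by
        rw [S.om_sub_right, S.om_self, sub_zero]
      rw [e]
      calc ‖S.om (s • y.1) (t • y2.1 - s • y.1)‖
          ≤ S.K * ‖s • y.1‖ * ‖t • y2.1 - s • y.1‖ := S.norm_om_le _ _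
        _ ≤ S.K * s ^ 2 * (s * θ) := by
            refine mul_le_mul ?_ hb1 (norm_nonneg _) (by positivity)
            exact mul_le_mul_of_nonneg_left hz1 (by linarith)
        _ = S.K * s ^ 3 * θ := by ring
    have hb2 : ‖t ^ 3 • y2.2 - s ^ 3 • y.2‖ ≤ (1 + S.K) * s ^ 3 * θ := by
      have e : t ^ 3 • y2.2 - s ^ 3 • y.2 = a.2 + S.om (s • y.1) (t • y2.1) := by
        rw [← ea2]; abel
      rw [e]
      refine (norm_add_le _ _).trans ?_
      calc ‖a.2‖ + ‖S.om (s • y.1) (t • y2.1)‖ ≤ s ^ 3 * θ + S.K * s ^ 3 * θ :=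
            add_le_add ha2 hom
        _ = _ := by ring
    have hδ0 : 0 ≤ s - t := by linarith
    have hKθ : 0 ≤ S.K * θ := mul_nonneg (by linarith) hθ0
    have hδ : s - t ≤ ‖u - u2‖ + (1 + S.K) * θ := by
      rcases le_total ‖y‖ (D u) with h | h
      · have e : s = D u := by rw [hs]; exact max_eq_left h
        have e2 : D u2 ≤ t := by rw [ht]; exact le_max_left _ _
        have h3 := (le_abs_self _).trans (hD u u2)
        nlinarith
      · have e : s = ‖y‖ := by rw [hs]; exact max_eq_right h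
        rcases le_total ‖y.2‖ ‖y.1‖ with h' | h'
        · have e2 : s = ‖y.1‖ := by rw [e, Prod.norm_def]; exact max_eq_left h'
          have n1 : ‖s • y.1‖ = s ^ 2 := by
            rw [norm_smul, Real.norm_eq_abs, abs_of_nonneg hs0, ← e2]; ring
          have n2 : ‖t • y2.1‖ ≤ t ^ 2 := by
            rw [norm_smul, Real.norm_eq_abs, abs_of_nonneg ht0]; nlinarith
          have n3 : ‖s • y.1‖ - ‖t • y2.1‖ ≤ s * θ := by
            have := norm_sub_norm_le (s • y.1) (t • y2.1)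
            rw [norm_sub_rev] at this
            exact this.trans hb1
          have n4 : s * (s - t) ≤ s * θ := by nlinarith
          have n5 : s - t ≤ θ := le_of_mul_le_mul_left n4 hpos
          nlinarith
        · have e2 : s = ‖y.2‖ := by rw [e, Prod.norm_def]; exact max_eq_right h'
          have n1 : ‖s ^ 3 • y.2‖ = s ^ 4 := by
            rw [norm_smul, Real.norm_eq_abs, abs_of_nonneg (pow_nonneg hs0 3), ← e2]; ring
          have n2 : ‖t ^ 3 • y2.2‖ ≤ t ^ 4 := by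
            rw [norm_smul, Real.norm_eq_abs, abs_of_nonneg (pow_nonneg ht0 3)]
            calc t ^ 3 * ‖y2.2‖ ≤ t ^ 3 * t := mul_le_mul_of_nonneg_left hyt2 (pow_nonneg ht0 3)
              _ = t ^ 4 := by ring
          have n3 : ‖s ^ 3 • y.2‖ - ‖t ^ 3 • y2.2‖ ≤ (1 + S.K) * s ^ 3 * θ := by
            have := norm_sub_norm_le (s ^ 3 • y.2) (t ^ 3 • y2.2)
            rw [norm_sub_rev] at this
            exact this.trans hb2
          have n4 : s ^ 3 * (s - t) ≤ s ^ 4 - t ^ 4 := by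
            have e5 : s ^ 4 - t ^ 4 - s ^ 3 * (s - t) = (s ^ 3 - t ^ 3) * t := by ring
            have h3 : t ^ 3 ≤ s ^ 3 := pow_le_pow_left₀ ht0 hts 3
            nlinarith [mul_nonneg (sub_nonneg.2 h3) ht0]
          have n5 : s ^ 3 * (s - t) ≤ s ^ 3 * ((1 + S.K) * θ) := by
            calc s ^ 3 * (s - t) ≤ s ^ 4 - t ^ 4 := n4
              _ ≤ ‖s ^ 3 • y.2‖ - ‖t ^ 3 • y2.2‖ := by rw [n1]; linarith
              _ ≤ (1 + S.K) * s ^ 3 * θ := n3
              _ = _ := by ring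
          have n6 : s - t ≤ (1 + S.K) * θ := le_of_mul_le_mul_left n5 hs3
          linarith
    have c1 : ‖y.1 - y2.1‖ ≤ θ + (s - t) := by
      have e : s • (y.1 - y2.1) = -(t • y2.1 - s • y.1) - (s - t) • y2.1 := by
        rw [smul_sub, sub_smul]; abel
      have h1 : s * ‖y.1 - y2.1‖ ≤ s * (θ + (s - t)) := by
        calc s * ‖y.1 - y2.1‖ = ‖s • (y.1 - y2.1)‖ := by
              rw [norm_smul, Real.norm_eq_abs, abs_of_nonneg hs0]
          _ ≤ ‖-(t • y2.1 - s • y.1)‖ + ‖(s - t) • y2.1‖ := by rw [e]; exact norm_sub_le _ _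
          _ = ‖t • y2.1 - s • y.1‖ + (s - t) * ‖y2.1‖ := by
              rw [norm_neg, norm_smul, Real.norm_eq_abs, abs_of_nonneg hδ0]
          _ ≤ s * θ + (s - t) * s := by
              refine add_le_add hb1 ?_
              exact mul_le_mul_of_nonneg_left (hyt1.trans hts) hδ0
          _ = _ := by ring
      exact le_of_mul_le_mul_left h1 hpos
    have c2 : ‖y.2 - y2.2‖ ≤ (1 + S.K) * θ + 3 * (s - t) := by
      have e : s ^ 3 • (y.2 - y2.2) =
          -(t ^ 3 • y2.2 - s ^ 3 • y.2) - (s ^ 3 - t ^ 3) • y2.2 := by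
        rw [smul_sub, sub_smul]; abel
      have h3 : t ^ 3 ≤ s ^ 3 := pow_le_pow_left₀ ht0 hts 3
      have h1 : s ^ 3 * ‖y.2 - y2.2‖ ≤ s ^ 3 * ((1 + S.K) * θ + 3 * (s - t)) := by
        calc s ^ 3 * ‖y.2 - y2.2‖ = ‖s ^ 3 • (y.2 - y2.2)‖ := by
              rw [norm_smul, Real.norm_eq_abs, abs_of_nonneg (pow_nonneg hs0 3)]
          _ ≤ ‖-(t ^ 3 • y2.2 - s ^ 3 • y.2)‖ + ‖(s ^ 3 - t ^ 3) • y2.2‖ := by
              rw [e]; exact norm_sub_le _ _
          _ = ‖t ^ 3 • y2.2 - s ^ 3 • y.2‖ + (s ^ 3 - t ^ 3) * ‖y2.2‖ := by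
              rw [norm_neg, norm_smul, Real.norm_eq_abs, abs_of_nonneg (by linarith)]
          _ ≤ (1 + S.K) * s ^ 3 * θ + 3 * s ^ 2 * (s - t) * s := by
              refine add_le_add hb2 ?_
              exact mul_le_mul (cube_sub_le ht0 hts) (hyt2.trans hts) (norm_nonneg _)
                (by positivity)
          _ = _ := by ring
      exact le_of_mul_le_mul_left h1 hs3
    have c3 : ‖y - y2‖ ≤ (1 + S.K) * θ + 3 * (s - t) := by
      rw [Prod.norm_def]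
      refine max_le ?_ c2
      refine c1.trans ?_
      nlinarith
    refine c3.trans ?_
    nlinarith [mul_nonneg (by linarith : 0 ≤ S.K) hu0]

end aux

theorem stepC {E : Type} [NormedAddCommGroup E] (D : E → ℝ) (hD0 : ∀ u, 0 ≤ D u)
    (hD : ∀ u u', |D u - D u'| ≤ ‖u - u'‖) :
    ∃ (Cq : (Hs ι κ × E) ≃ (Hs ι κ × E)) (C' : ℝ), 1 ≤ C' ∧
      ∀ p q, De2 S D p q ≤ C' * ‖Cq p - Cq q‖ ∧ ‖Cq p - Cq q‖ ≤ C' * De2 S D p q := by
  have _ := hD0
  have hK := S.one_le_K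
  refine ⟨⟨scH D, scG D, scG_scH D, scH_scG D⟩, 5 + 4 * S.K, by linarith, ?_⟩
  have key : ∀ p q : Hs ι κ × E, Tsc D q ≤ Tsc D p →
      De2 S D p q ≤ (5 + 4 * S.K) * ‖scH D p - scH D q‖ ∧
        ‖scH D p - scH D q‖ ≤ (5 + 4 * S.K) * De2 S D p q := by
    intro p q hpq
    have e2 : De2 S D p q = ‖p.2 - q.2‖ + th (Tsc D p) (S.rel p.1 q.1) := by
      unfold De2
      rw [max_eq_left hpq]
    have ep : p.1 = (Tsc D p • (scH D p).1.1, Tsc D p ^ 3 • (scH D p).1.2) := by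
      have h := congrArg Prod.fst (scG_scH D p)
      unfold scG at h
      rw [scH_max D p] at h
      exact h.symm
    have eq : q.1 = (Tsc D q • (scH D q).1.1, Tsc D q ^ 3 • (scH D q).1.2) := by
      have h := congrArg Prod.fst (scG_scH D q)
      unfold scG at h
      rw [scH_max D q] at h
      exact h.symm
    have hs : Tsc D p = max (D p.2) ‖(scH D p).1‖ := (scH_max D p).symm
    have ht : Tsc D q = max (D q.2) ‖(scH D q).1‖ := (scH_max D q).symm
    have hr2 : ‖(scH D p).1 - (scH D q).1‖ ≤ ‖scH D p - scH D q‖ :=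
      norm_fst_le (scH D p - scH D q)
    have hr1 : ‖p.2 - q.2‖ ≤ ‖scH D p - scH D q‖ := norm_snd_le (scH D p - scH D q)
    have A := stepC_A S D hD (scH D p).1 (scH D q).1 p.2 q.2 (Tsc D p) (Tsc D q)
      ‖scH D p - scH D q‖ hs ht hpq hr1 hr2
    have B := stepC_B S D hD (scH D p).1 (scH D q).1 p.2 q.2 (Tsc D p) (Tsc D q) hs ht hpq
    rw [← ep, ← eq] at A B
    have hn0 : 0 ≤ ‖scH D p - scH D q‖ := norm_nonneg _
    have hT0 : 0 ≤ Tsc D p := (tsc_facts D p).1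
    have hth0 : 0 ≤ th (Tsc D p) (S.rel p.1 q.1) := th_nonneg hT0 _
    have hu0 : 0 ≤ ‖p.2 - q.2‖ := norm_nonneg _
    rw [e2]
    constructor
    · nlinarith [mul_nonneg (by linarith : 0 ≤ S.K) hn0]
    · have hmax : ‖scH D p - scH D q‖ = max ‖(scH D p).1 - (scH D q).1‖ ‖p.2 - q.2‖ := rfl
      rw [hmax]
      have hsum : 0 ≤ ‖p.2 - q.2‖ + th (Tsc D p) (S.rel p.1 q.1) := by linarith
      refine max_le ?_ ?_
      · refine B.trans ?_
        refine mul_le_mul_of_nonneg_right (by linarith) hsum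
      · nlinarith [mul_nonneg (by linarith : 0 ≤ S.K) hsum]
  intro p q
  rcases le_total (Tsc D q) (Tsc D p) with h | h
  · exact key p q h
  · have h1 := key q p h
    have es : De2 S D q p = De2 S D p q := by
      unfold De2
      rw [norm_sub_rev, max_comm, th_rel_comm]
    rw [es, norm_sub_rev] at h1
    exact h1

end Pool.UQC
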