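import Pool.Agent.UQC.FLow
import Pool.Agent.UQC.PMap
import Pool.Agent.UQC.StepA
import Pool.Agent.UQC.StepB
import Pool.Agent.UQC.StepC

/-!
Core: N x E with the structure De0 is bilipschitz to a normed space.
-/

namespace Pool.UQC

variable {ι κ : Type} [Fintype ι] [Fintype κ]

theorem core (S : Str ι κ) :
    ∃ (J : Type) (_ : Fintype J) (_ : Nonempty J)
      (Ψ : (Hs ι κ × EuclideanSpace ℝ J) ≃ (Hs ι κ × EuclideanSpace ℝ J)) (C : ℝ), 1 ≤ C ∧
      ∀ p q, De0 S p q ≤ C * ‖Ψ p - Ψ q‖ ∧ ‖Ψ p - Ψ q‖ ≤ C * De0 S p q := by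
  obtain ⟨J, hJ, hJn, F, c, C, hc, hC, hlow, hup, hF2, hF3, hF4⟩ := exists_F S
  obtain ⟨A, CA, hCA, hA⟩ := stepA S F C hC.le hF2 hF3 hF4
  obtain ⟨P, CP, hCP, hPF, hP1, hP2, hP3⟩ := exists_P S (F 0) c C hc hC hlow hup
  set D : EuclideanSpace ℝ J → ℝ := fun u => Metric.infDist u (Set.range (F 0)) with hDdef
  have hD0 : ∀ u, 0 ≤ D u := fun u => Metric.infDist_nonneg
  have hDF : ∀ u y, D u ≤ ‖u - F 0 y‖ := by
    intro u y
    rw [← dist_eq_norm]
    exact Metric.infDist_le_dist_of_mem (Set.mem_range_self y)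
  have hDL : ∀ u u', |D u - D u'| ≤ ‖u - u'‖ := by
    intro u u'
    rw [← dist_eq_norm, abs_sub_le_iff]
    constructor
    · have := Metric.infDist_le_infDist_add_dist (s := Set.range (F 0)) (x := u) (y := u')
      simp only [hDdef]; linarith
    · have := Metric.infDist_le_infDist_add_dist (s := Set.range (F 0)) (x := u') (y := u)
      rw [dist_comm u' u] at this
      simp only [hDdef]; linarith
  obtain ⟨C2, hC2, hth⟩ := th_P S D hD0 P CP hCP hP1 hP2
  have hC1 : 0 < max CP C2 := lt_of_lt_of_le hCP (le_max_left _ _)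
  obtain ⟨B, CB, hCB, hB⟩ := stepB S (F 0) c C (max CP C2) hc hC hC1 hlow hup D hD0 hDF P
    (fun u => (hP3 u).trans (mul_le_mul_of_nonneg_right (le_max_left _ _) (hD0 u)))
    (fun u u' => (hth u u').trans (mul_le_mul_of_nonneg_right (le_max_right _ _) (norm_nonneg _)))
  obtain ⟨Cq, CC, hCC, hC'⟩ := stepC S D hD0 hDL
  have hCA0 : 0 ≤ CA := by linarith
  have hCB0 : 0 ≤ CB := by linarith
  have hCC0 : 0 ≤ CC := by linarith
  refine ⟨J, hJ, hJn, (A.trans B).trans Cq, CA * CB * CC, ?_, ?_⟩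
  · have : 1 ≤ CA * CB := one_le_mul_of_one_le_of_one_le hCA hCB
    exact one_le_mul_of_one_le_of_one_le this hCC
  · intro p q
    constructor
    · calc De0 S p q ≤ CA * De1 S (F 0) (A p) (A q) := (hA p q).1
        _ ≤ CA * (CB * De2 S D (B (A p)) (B (A q))) := by
            gcongr; exact (hB _ _).1
        _ ≤ CA * (CB * (CC * ‖Cq (B (A p)) - Cq (B (A q))‖)) := by
            gcongr; exact (hC' _ _).1
        _ = CA * CB * CC * ‖((A.trans B).trans Cq) p - ((A.trans B).trans Cq) q‖ := by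
            simp only [Equiv.trans_apply]; ring
    · calc ‖((A.trans B).trans Cq) p - ((A.trans B).trans Cq) q‖
          = ‖Cq (B (A p)) - Cq (B (A q))‖ := by simp only [Equiv.trans_apply]
        _ ≤ CC * De2 S D (B (A p)) (B (A q)) := (hC' _ _).2
        _ ≤ CC * (CB * De1 S (F 0) (A p) (A q)) := by
            gcongr; exact (hB _ _).2
        _ ≤ CC * (CB * (CA * De0 S p q)) := by
            gcongr; exact (hA _ _).2
        _ = CA * CB * CC * De0 S p q := by ring

end Pool.UQC
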