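import Mathlib

/-!
UQC: uniformly quasiconformal actions of Sp(n,1) on spheres (problem MP_7936f4_al).

Setting.  N = R^ι x R^κ is the two step nilpotent group with product
  (x,t)(x',t') = (x+x', t+t'+om x x'),  om bilinear, alternating, with integer coefficients
(structure Str).  rel p q = p^{-1} q, mul p q = p q, cj z k = z^{-1} k z, dl r = dilation,
gau = homogeneous gauge max(|x|, sqrt|t|) (sup norms everywhere on R^ι and R^κ).
al, be, th: the gauge th s a measures the size of a group element a seen at scale s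
(th s a = max(|x|/s, |t|/s^3) if gau a <= s^2 and th s a = sqrt(gau a) if gau a >= s^2).
-/

namespace Pool.UQC

/-- Integral alternating structure constants of a two step nilpotent group on R^ι x R^κ. -/
structure Str (ι κ : Type) [Fintype ι] [Fintype κ] where
  c : κ → ι → ι → ℤ
  anti : ∀ k i j, c k j i = - c k i j

/-- The underlying space of the group. -/
abbrev Hs (ι κ : Type) := (ι → ℝ) × (κ → ℝ)

variable {ι κ : Type} [Fintype ι] [Fintype κ]

/-- The alternating form. -/
def Str.om (S : Str ι κ) (x y : ι → ℝ) : κ → ℝ :=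
  fun k => ∑ i, ∑ j, (S.c k i j : ℝ) * (x i * y j)

/-- A bound for the form: |om x y| <= K |x| |y| and K >= 1. -/
def Str.K (S : Str ι κ) : ℝ := 1 + ∑ k, ∑ i, ∑ j, |(S.c k i j : ℝ)|

/-- rel p q = p^{-1} q. -/
def Str.rel (S : Str ι κ) (p q : Hs ι κ) : Hs ι κ :=
  (q.1 - p.1, q.2 - p.2 - S.om p.1 q.1)

/-- group product. -/
def Str.mul (S : Str ι κ) (p q : Hs ι κ) : Hs ι κ :=
  (p.1 + q.1, p.2 + q.2 + S.om p.1 q.1)

/-- conjugation z^{-1} k z. -/
def Str.cj (S : Str ι κ) (z k : Hs ι κ) : Hs ι κ :=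
  (k.1, k.2 + (2 : ℝ) • S.om k.1 z.1)

/-- homogeneous gauge. -/
noncomputable def gau (a : Hs ι κ) : ℝ := max ‖a.1‖ (√‖a.2‖)

/-- al s r = min (r/s) (sqrt r). -/
noncomputable def al (s r : ℝ) : ℝ := r / max s (√r)

/-- be s r = min (r/s^3) (r^(1/4)). -/
noncomputable def be (s r : ℝ) : ℝ := r / (max s (√(√r))) ^ 3

/-- size of a group element at scale s. -/
noncomputable def th (s : ℝ) (a : Hs ι κ) : ℝ := max (al s ‖a.1‖) (be s ‖a.2‖)

/-- dilations. -/
def dl (r : ℝ) (a : Hs ι κ) : Hs ι κ := (r • a.1, r ^ 2 • a.2)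

section deltas

variable {E : Type} [NormedAddCommGroup E]

/-- The local structure of N x E with scale the norm of the second coordinate. -/
noncomputable def De0 (S : Str ι κ) (p q : Hs ι κ × E) : ℝ :=
  ‖p.2 - q.2‖ + th (max ‖p.2‖ ‖q.2‖) (S.rel p.1 q.1)

/-- The local structure of N x E with scale the vertical distance to the graph of F. -/
noncomputable def De1 (S : Str ι κ) (F : Hs ι κ → E) (p q : Hs ι κ × E) : ℝ :=
  ‖p.2 - q.2‖ + th (max ‖p.2 - F p.1‖ ‖q.2 - F q.1‖) (S.rel p.1 q.1)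

/-- The scale of the third structure. -/
noncomputable def Tsc (D : E → ℝ) (p : Hs ι κ × E) : ℝ := max (D p.2) (√(gau p.1))

/-- The third local structure. -/
noncomputable def De2 (S : Str ι κ) (D : E → ℝ) (p q : Hs ι κ × E) : ℝ :=
  ‖p.2 - q.2‖ + th (max (Tsc D p) (Tsc D q)) (S.rel p.1 q.1)

end deltas

end Pool.UQC
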