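import Pool.Agent.UQC.Basic

/-!
Definition of the embedding F (coordinates).  B = the family of bumps of module Bump.
-/

namespace Pool.UQC

variable {ι κ : Type} [Fintype ι] [Fintype κ]

/-- truncated weight of the scale m at resolution s. -/
noncomputable def wt (η s : ℝ) (m : ℤ) : ℝ := max 0 ((2 : ℝ) ^ (-m) - (2 : ℝ) ^ m * (η * s) ^ 2)

/-- one term of the sum over scales. -/
noncomputable def Ft {J : Type} (B : Hs ι κ → J → ℝ) (L : ℕ) (η s : ℝ) (y : Hs ι κ)
    (lj : ZMod L × J) (m : ℤ) : ℝ :=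
  if (m : ZMod L) = lj.1 then wt η s m * (B (dl ((4 : ℝ) ^ m) y) lj.2 - B 0 lj.2) else 0

/-- coordinates of the embedding smoothed at scale s. -/
noncomputable def Fc {J : Type} (B : Hs ι κ → J → ℝ) (L : ℕ) (η s : ℝ) (y : Hs ι κ)
    (lj : ZMod L × J) : ℝ := ∑' m : ℤ, Ft B L η s y lj m

end Pool.UQC
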