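import Pool.Agent.UQC.FUp
import Pool.Agent.UQC.Bump

/-!
MODULE FLow (problem MP_7936f4_al).  Lower estimate for F and the final embedding theorem.  COMPLETE PAPER PROOF.
Uses: FUp, Bump, Geo (statements).

(1) Fc_lower.  Let C1 = 2(1+K) (>= 4), R = 4 C1, g = gau (rel y y') > 0.  Choose an integer m0 with
    C1 <= 4^m0 g <= 4 C1 (exists_mem_Ico_zpow or Ioc for base 4).  By the separation hypothesis applied to
    dl (4^m0) y, dl (4^m0) y' (gau (rel (dl r y) (dl r y')) = r g by Str.rel_dl and gau_dl) there is j with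
    |B (dl (4^m0) y) j - B (dl (4^m0) y') j| >= 1.  Take lj = (m0 mod L, j).  Then
    Fc y - Fc y' = sum over m = m0 mod L of 2^(-m) (B (dl (4^m) y) j - B (dl (4^m) y') j); the term m = m0 has absolute
    value >= 2^(-m0), the others are <= min (2^(-m)) (2^m C1 g) (B_diff) and by Geo.sum_sep sum to at most
    2 * (1/2)^L (2^(-m0) + 2^m0 C1 g) <= 2 (1/2)^L 2^(-m0) (1 + 4 C1^2)      (2^m0 C1 g = 2^(-m0) C1 4^m0 g).
    If 2^L >= 4 (1 + 4 C1^2) this is <= 2^(-m0)/2.  So |difference| >= 2^(-m0)/2, and 2^(-m0) = sqrt(4^(-m0)) and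
    g <= 4 C1 4^(-m0) give sqrt g <= 2 sqrt C1 2^(-m0); so the difference is >= sqrt g / (4 sqrt C1).
    For g = 0 any lj works (the left side is 0; J is nonempty).
(2) exists_F: B, J from exists_bump with R = 4 C1; L from (1); M = card (ZMod L × J); η = 1/(16 sqrt M);
    F s y = WithLp.toLp 2 (Fc B L η s y) in EuclideanSpace ℝ (ZMod L × J).  Euclidean norm: each |coordinate| <= norm
    <= sqrt M * max |coordinate|.
    (F1) lower c = 1/(4 sqrt C1), upper C = sqrt M 4 sqrt C1;  (F2) sqrt M 4 η s = s/4;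
    (F3) sqrt M 8 η |s-s'| = |s-s'|/2;  (F4) sqrt M C1 (4 + 2/η + 2/η^3).
-/

namespace Pool.UQC

variable {ι κ : Type} [Fintype ι] [Fintype κ] (S : Str ι κ)

theorem Fc_lower {J : Type} [Nonempty J] (B : Hs ι κ → J → ℝ)
    (h01 : ∀ y j, 0 ≤ B y j ∧ B y j ≤ 1)
    (hB : ∀ y y' j, |B y j - B y' j| ≤ 2 * (1 + S.K) * ‖S.rel y y'‖)
    (hsep : ∀ y y', 2 * (1 + S.K) ≤ gau (S.rel y y') → gau (S.rel y y') ≤ 8 * (1 + S.K) →
        ∃ j, 1 ≤ |B y j - B y' j|)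
    (L : ℕ) (hL : 1 ≤ L) (hL2 : 4 * (1 + 4 * (2 * (1 + S.K)) ^ 2) ≤ (2 : ℝ) ^ L)
    (η : ℝ) (y y' : Hs ι κ) :
    ∃ lj : ZMod L × J, √(gau (S.rel y y')) / (4 * √(2 * (1 + S.K))) ≤
      |Fc B L η 0 y lj - Fc B L η 0 y' lj| := by
  have hK := S.one_le_K
  set C1 : ℝ := 2 * (1 + S.K) with hC1def
  have hC1 : 1 ≤ C1 := by rw [hC1def]; linarith
  have hC1p : 0 < C1 := by linarith
  set g : ℝ := gau (S.rel y y') with hg
  have hg0 : 0 ≤ g := gau_nonneg _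
  rcases hg0.eq_or_lt with h0 | hgp
  · refine ⟨((0 : ZMod L), Classical.arbitrary J), ?_⟩
    rw [← h0]
    simp
  obtain ⟨n, hn1, hn2⟩ := exists_mem_Ioc_zpow (x := C1 / g) (y := (4 : ℝ)) (div_pos hC1p hgp)
    (by norm_num)
  set m0 : ℤ := n + 1 with hm0
  have h4 : (4 : ℝ) ^ m0 = 4 * (4 : ℝ) ^ n := by
    rw [hm0, zpow_add₀ (by norm_num), zpow_one]; ring
  have h4pos : ∀ m : ℤ, (0 : ℝ) < 4 ^ m := fun m => zpow_pos (by norm_num) m
  have h2pos : ∀ m : ℤ, (0 : ℝ) < 2 ^ m := fun m => zpow_pos (by norm_num) m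
  have hlo : C1 ≤ 4 ^ m0 * g := by
    rw [div_le_iff₀ hgp] at hn2
    exact hn2
  have hhi : 4 ^ m0 * g ≤ 4 * C1 := by
    rw [lt_div_iff₀ hgp] at hn1
    rw [h4]
    nlinarith [hn1]
  have h42 : ∀ m : ℤ, (4 : ℝ) ^ m = 2 ^ m * 2 ^ m := by
    intro m
    rw [← mul_zpow]; norm_num
  have hinv : ∀ m : ℤ, (2 : ℝ) ^ (-m) * 2 ^ m = 1 := by
    intro m
    rw [← zpow_add₀ (by norm_num)]; simp
  obtain ⟨j, hj⟩ := hsep (dl (4 ^ m0) y) (dl (4 ^ m0) y') (by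
    rw [S.rel_dl, gau_dl (h4pos m0).le]; exact hlo) (by
    rw [S.rel_dl, gau_dl (h4pos m0).le]
    calc (4 : ℝ) ^ m0 * gau (S.rel y y') ≤ 4 * C1 := hhi
      _ = 8 * (1 + S.K) := by rw [hC1def]; ring)
  refine ⟨((m0 : ZMod L), j), ?_⟩
  set lj : ZMod L × J := ((m0 : ZMod L), j) with hlj
  have hs1 : Summable (Ft B L η 0 y lj) := Ft_summable S B C1 hC1 h01 hB L η 0 y lj
  have hs2 : Summable (Ft B L η 0 y' lj) := Ft_summable S B C1 hC1 h01 hB L η 0 y' lj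
  set D : ℤ → ℝ := fun m => Ft B L η 0 y lj m - Ft B L η 0 y' lj m with hD
  have hDs : Summable D := hs1.sub hs2
  have hFD : Fc B L η 0 y lj - Fc B L η 0 y' lj = ∑' m, D m := by
    unfold Fc
    rw [hD, hs1.tsum_sub hs2]
  have hDe : ∀ m : ℤ, D m = if (m : ZMod L) = (m0 : ZMod L) then
      (2 : ℝ) ^ (-m) * (B (dl (4 ^ m) y) j - B (dl (4 ^ m) y') j) else 0 := by
    intro m
    simp only [hD, Ft, hlj]
    split_ifs with h
    · rw [wt_zero]; ring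
    · simp
  have hbd : ∀ m : ℤ, |(2 : ℝ) ^ (-m) * (B (dl (4 ^ m) y) j - B (dl (4 ^ m) y') j)| ≤
      min ((2 : ℝ) ^ (-m)) ((2 : ℝ) ^ m * (C1 * g)) := by
    intro m
    have h1 := B_diff S B C1 hC1 h01 hB (4 ^ m) (h4pos m).le y y' j
    rw [abs_mul, abs_of_pos (h2pos (-m))]
    refine (mul_le_mul_of_nonneg_left h1 (h2pos (-m)).le).trans ?_
    rw [mul_min_of_nonneg _ _ (h2pos (-m)).le, mul_one]
    refine le_of_eq ?_
    congr 1
    rw [h42 m]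
    have := hinv m
    calc (2 : ℝ) ^ (-m) * (C1 * (2 ^ m * 2 ^ m * gau (S.rel y y')))
        = (2 ^ (-m) * 2 ^ m) * (2 ^ m * (C1 * gau (S.rel y y'))) := by ring
      _ = 2 ^ m * (C1 * gau (S.rel y y')) := by rw [this, one_mul]
  obtain ⟨hsepS, hsepT⟩ := sum_sep (C1 * g) (by positivity) L hL m0
  have hsplit := hDs.tsum_eq_add_tsum_ite m0
  have hrest : |∑' m, ite (m = m0) 0 (D m)| ≤
      2 * (1 / 2 : ℝ) ^ L * ((2 : ℝ) ^ (-m0) + (2 : ℝ) ^ m0 * (C1 * g)) := by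
    refine le_trans ?_ hsepT
    rw [← Real.norm_eq_abs]
    refine tsum_of_norm_bounded hsepS.hasSum ?_
    intro m
    rw [Real.norm_eq_abs]
    by_cases hm : m = m0
    · simp [hm]
    · rw [if_neg hm, hDe m]
      by_cases hmm : (m : ZMod L) = (m0 : ZMod L)
      · rw [if_pos hmm, if_pos ⟨hmm, hm⟩]
        exact hbd m
      · rw [if_neg hmm, if_neg (fun h => hmm h.1)]
        simp
  have hmain : (2 : ℝ) ^ (-m0) ≤ |D m0| := by
    rw [hDe m0, if_pos rfl, abs_mul, abs_of_pos (h2pos (-m0))]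
    have := mul_le_mul_of_nonneg_left hj (h2pos (-m0)).le
    rw [mul_one] at this
    exact this
  have hrest2 : 2 * (1 / 2 : ℝ) ^ L * ((2 : ℝ) ^ (-m0) + (2 : ℝ) ^ m0 * (C1 * g)) ≤
      (2 : ℝ) ^ (-m0) / 2 := by
    have e1 : (2 : ℝ) ^ m0 * (C1 * g) ≤ 2 ^ (-m0) * (4 * C1 ^ 2) := by
      have e2 : (2 : ℝ) ^ m0 * (C1 * g) = 2 ^ (-m0) * C1 * (4 ^ m0 * g) := by
        rw [h42 m0]
        have := hinv m0
        calc (2 : ℝ) ^ m0 * (C1 * g) = (2 ^ (-m0) * 2 ^ m0) * (2 ^ m0 * (C1 * g)) := by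
              rw [this, one_mul]
          _ = 2 ^ (-m0) * C1 * (2 ^ m0 * 2 ^ m0 * g) := by ring
      rw [e2]
      calc (2 : ℝ) ^ (-m0) * C1 * (4 ^ m0 * g) ≤ 2 ^ (-m0) * C1 * (4 * C1) := by
            have := h2pos (-m0)
            gcongr
        _ = 2 ^ (-m0) * (4 * C1 ^ 2) := by ring
    have e3 : (1 / 2 : ℝ) ^ L * (4 * (1 + 4 * C1 ^ 2)) ≤ 1 := by
      have hp : (0 : ℝ) < 2 ^ L := by positivity
      calc (1 / 2 : ℝ) ^ L * (4 * (1 + 4 * C1 ^ 2)) ≤ (1 / 2 : ℝ) ^ L * 2 ^ L := by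
            gcongr
        _ = 1 := by rw [← mul_pow]; norm_num
    have hp2 := h2pos (-m0)
    calc 2 * (1 / 2 : ℝ) ^ L * ((2 : ℝ) ^ (-m0) + (2 : ℝ) ^ m0 * (C1 * g))
        ≤ 2 * (1 / 2 : ℝ) ^ L * ((2 : ℝ) ^ (-m0) + 2 ^ (-m0) * (4 * C1 ^ 2)) := by gcongr
      _ = ((1 / 2 : ℝ) ^ L * (4 * (1 + 4 * C1 ^ 2))) * (2 ^ (-m0) / 2) := by ring
      _ ≤ 1 * (2 ^ (-m0) / 2) := by gcongr
      _ = (2 : ℝ) ^ (-m0) / 2 := one_mul _
  have hdiff : (2 : ℝ) ^ (-m0) / 2 ≤ |Fc B L η 0 y lj - Fc B L η 0 y' lj| := by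
    rw [hFD, hsplit]
    have := abs_sub_abs_le_abs_sub (D m0) (-(∑' m, ite (m = m0) 0 (D m)))
    rw [abs_neg, sub_neg_eq_add] at this
    linarith [hrest.trans hrest2]
  refine le_trans ?_ hdiff
  rw [div_le_iff₀ (by positivity)]
  have e4 : √g ≤ 2 * √C1 * 2 ^ (-m0) := by
    rw [Real.sqrt_le_left (by have := h2pos (-m0); positivity)]
    have e5 : (2 * √C1 * 2 ^ (-m0)) ^ 2 = 4 * C1 * (2 ^ (-m0) * 2 ^ (-m0)) := by
      rw [mul_pow, mul_pow, Real.sq_sqrt hC1p.le]; ring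
    rw [e5, ← h42 (-m0)]
    have e6 : (4 : ℝ) ^ (-m0) * 4 ^ m0 = 1 := by
      rw [← zpow_add₀ (by norm_num)]; simp
    calc g = (4 : ℝ) ^ (-m0) * 4 ^ m0 * g := by rw [e6, one_mul]
      _ = 4 ^ (-m0) * (4 ^ m0 * g) := by ring
      _ ≤ 4 ^ (-m0) * (4 * C1) := by have := h4pos (-m0); gcongr
      _ = 4 * C1 * 4 ^ (-m0) := by ring
  calc √g ≤ 2 * √C1 * 2 ^ (-m0) := e4
    _ = 2 ^ (-m0) / 2 * (4 * √C1) := by ring

/-- bound of the Euclidean norm by the coordinates. -/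
theorem FLow_norm_le {J : Type} [Fintype J] (x : J → ℝ) (b : ℝ) (hb : 0 ≤ b)
    (h : ∀ j, |x j| ≤ b) :
    ‖(WithLp.toLp 2 x : EuclideanSpace ℝ J)‖ ≤ √(Fintype.card J) * b := by
  rw [EuclideanSpace.norm_eq, Real.sqrt_le_left (by positivity), mul_pow,
    Real.sq_sqrt (by positivity)]
  calc ∑ i, ‖(WithLp.toLp 2 x : EuclideanSpace ℝ J) i‖ ^ 2 ≤ ∑ _i : J, b ^ 2 := by
        refine Finset.sum_le_sum fun i _ => ?_
        have := h i
        simp only [Real.norm_eq_abs]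
        gcongr
    _ = Fintype.card J * b ^ 2 := by simp

theorem FLow_le_norm {J : Type} [Fintype J] (x : J → ℝ) (j : J) :
    |x j| ≤ ‖(WithLp.toLp 2 x : EuclideanSpace ℝ J)‖ := by
  have := PiLp.norm_apply_le (WithLp.toLp 2 x : EuclideanSpace ℝ J) j
  simpa using this

theorem exists_F (S : Str ι κ) :
    ∃ (J : Type) (_ : Fintype J) (_ : Nonempty J) (F : ℝ → Hs ι κ → EuclideanSpace ℝ J) (c C : ℝ),
      0 < c ∧ 0 < C ∧
      (∀ y y', c * √(gau (S.rel y y')) ≤ ‖F 0 y - F 0 y'‖) ∧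
      (∀ y y', ‖F 0 y - F 0 y'‖ ≤ C * √(gau (S.rel y y'))) ∧
      (∀ s, 0 ≤ s → ∀ y, ‖F s y - F 0 y‖ ≤ s / 4) ∧
      (∀ s s', 0 ≤ s → 0 ≤ s' → ∀ y, ‖F s y - F s' y‖ ≤ |s - s'| / 2) ∧
      (∀ s, 0 ≤ s → ∀ y y', ‖F s y - F s y'‖ ≤ C * th s (S.rel y y')) := by
  have hK := S.one_le_K
  obtain ⟨J, hJ, hJn, B, h01, hB, hsep⟩ := exists_bump S (8 * (1 + S.K))
  obtain ⟨L0, hL0⟩ := pow_unbounded_of_one_lt (4 * (1 + 4 * (2 * (1 + S.K)) ^ 2))
    (one_lt_two : (1 : ℝ) < 2)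
  set L : ℕ := L0 + 1 with hLdef
  have hL : 1 ≤ L := by omega
  have hL2 : 4 * (1 + 4 * (2 * (1 + S.K)) ^ 2) ≤ (2 : ℝ) ^ L :=
    hL0.le.trans (pow_le_pow_right₀ (by norm_num) (by omega))
  have : NeZero L := ⟨by omega⟩
  set C1 : ℝ := 2 * (1 + S.K) with hC1def
  have hC1 : 1 ≤ C1 := by rw [hC1def]; linarith
  have hC1p : 0 < C1 := by linarith
  set M : ℝ := (Fintype.card (ZMod L × J) : ℝ) with hM
  have hM1 : 1 ≤ M := by
    rw [hM]
    exact_mod_cast Fintype.card_pos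
  have hMs : 1 ≤ √M := by rw [Real.one_le_sqrt]; exact hM1
  set η : ℝ := 1 / (16 * √M) with hη
  have hηp : 0 < η := by rw [hη]; positivity
  have hηM : √M * η = 1 / 16 := by
    rw [hη]; field_simp
  have key : ∀ (s s' : ℝ) (y y' : Hs ι κ),
      (WithLp.toLp 2 (Fc B L η s y) : EuclideanSpace ℝ (ZMod L × J)) -
        WithLp.toLp 2 (Fc B L η s' y') =
      WithLp.toLp 2 (fun lj => Fc B L η s y lj - Fc B L η s' y' lj) := by
    intro s s' y y'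
    rfl
  refine ⟨ZMod L × J, inferInstance, inferInstance,
    fun s y => WithLp.toLp 2 (Fc B L η s y), 1 / (4 * √C1),
    √M * (4 * √C1) + √M * (C1 * (4 + 2 / η + 2 / η ^ 3)), by positivity, by positivity,
    ?_, ?_, ?_, ?_, ?_⟩
  · intro y y'
    obtain ⟨lj, hlj⟩ := Fc_lower S B h01 hB hsep L hL hL2 η y y'
    rw [key]
    refine le_trans ?_ (FLow_le_norm (fun lj => Fc B L η 0 y lj - Fc B L η 0 y' lj) lj)
    refine le_trans (le_of_eq ?_) hlj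
    ring
  · intro y y'
    rw [key]
    refine (FLow_norm_le _ _ (by positivity)
      (fun lj => Fc_upper S B C1 hC1 h01 hB L η y y' lj)).trans ?_
    have : 0 ≤ √M * (C1 * (4 + 2 / η + 2 / η ^ 3)) * √(gau (S.rel y y')) := by positivity
    calc √M * (4 * √C1 * √(gau (S.rel y y')))
        = √M * (4 * √C1) * √(gau (S.rel y y')) := by ring
      _ ≤ _ := by rw [add_mul]; linarith
  · intro s hs y
    rw [key]
    refine (FLow_norm_le _ (4 * η * s) (by positivity)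
      (fun lj => Fc_s0 S B C1 hC1 h01 hB L η hηp s hs y lj)).trans ?_
    refine le_of_eq ?_
    calc √M * (4 * η * s) = 4 * (√M * η) * s := by ring
      _ = s / 4 := by rw [hηM]; ring
  · intro s s' hs hs' y
    rw [key]
    refine (FLow_norm_le _ (8 * η * |s - s'|) (by positivity)
      (fun lj => Fc_ss S B C1 hC1 h01 hB L η hηp s s' hs hs' y lj)).trans ?_
    refine le_of_eq ?_
    calc √M * (8 * η * |s - s'|) = 8 * (√M * η) * |s - s'| := by ring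
      _ = |s - s'| / 2 := by rw [hηM]; ring
  · intro s hs y y'
    rw [key]
    have hth := th_nonneg hs (S.rel y y')
    refine (FLow_norm_le _ (C1 * (4 + 2 / η + 2 / η ^ 3) * th s (S.rel y y')) (by positivity)
      (fun lj => Fc_th S B C1 hC1 h01 hB L η hηp s hs y y' lj)).trans ?_
    have : 0 ≤ √M * (4 * √C1) * th s (S.rel y y') := by positivity
    calc √M * (C1 * (4 + 2 / η + 2 / η ^ 3) * th s (S.rel y y'))
        = √M * (C1 * (4 + 2 / η + 2 / η ^ 3)) * th s (S.rel y y') := by ring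
      _ ≤ _ := by rw [add_mul]; linarith

end Pool.UQC
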