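import Mathlib

/-!
MODULE Geo (problem MP_7936f4_al).  Sums over all integer scales.  COMPLETE PAPER PROOF.

(1) sum_min: sum over m in Z of min (2^(-m)) (2^m c) is finite and <= 4 sqrt c (c >= 0).
  c = 0: all terms are min (2^(-m)) 0 = 0.  c > 0: let m0 be the least integer with 2^m0 >= 1/sqrt c
  (exists_zpow_near-type lemmas: exists_mem_Ioc_zpow / exists_mem_Ico_zpow).  Terms with m >= m0 are <= 2^(-m), their
  sum is 2 * 2^(-m0) <= 2 sqrt c; terms with m < m0 are <= 2^m c, sum = 2 * 2^(m0-1) c <= 2 (1/sqrt c) c = 2 sqrt c.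
  (Split Z at m0: m = m0 + i, i : ℕ, and m = m0 - 1 - i, i : ℕ; use tsum over ℕ of geometric series;
  e.g. Summable.of_nat_of_neg_add_one / tsum_of_nat_of_neg_add_one after translating by m0, or bound every finite
  subsum over a Finset of Z.)
(2) sum_lt: sum over the m with 2^m < T of 2^m is <= 2T, of (2^m)^3 is <= 2 T^3 (T >= 0; for T = 0 no term).
  If T > 0 let m1 be the largest integer with 2^m1 < T: terms m = m1 - i, sum = 2 * 2^m1 <= 2T, resp.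
  (2^m1)^3 * 8/7 <= 2 T^3.
(3) sum_sep: L >= 1, sum over m ≠ m0 with L | m - m0 of min (2^(-m)) (2^m c) is <=
  2 * 2^(-L) * (2^(-m0) + 2^m0 c): the m > m0 are m0 + L(i+1), terms <= 2^(-m0) (2^(-L))^(i+1), sum <=
  2^(-m0) 2^(-L)/(1-2^(-L)) <= 2^(-m0) * 2 * 2^(-L); the m < m0 are m0 - L(i+1), terms <= 2^m0 c (2^(-L))^(i+1).
  (Summability of all of these follows from (1) by comparison.)
-/

namespace Pool.UQC

namespace Geo

lemma hs {e : ℕ → ℤ} (he : Function.Injective e) {f : ℤ → ℝ} {a r : ℝ} (h0 : 0 ≤ r) (h1 : r < 1)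
    (hf : ∀ i, f (e i) = a * r ^ i) (hsupp : ∀ m, m ∉ Set.range e → f m = 0) :
    HasSum f (a * (1 - r)⁻¹) := by
  rw [← he.hasSum_iff hsupp]
  have : f ∘ e = fun i => a * r ^ i := funext hf
  rw [this]
  exact (hasSum_geometric_of_lt_one h0 h1).mul_left a

/-- comparison with a sum of two geometric series -/
lemma comp {f g : ℤ → ℝ} {s : ℝ} (h0 : ∀ m, 0 ≤ f m) (hfg : ∀ m, f m ≤ g m) (hg : HasSum g s) :
    Summable f ∧ ∑' m, f m ≤ s := by
  have hf : Summable f := Summable.of_nonneg_of_le h0 hfg hg.summable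
  exact ⟨hf, hf.hasSum.tsum_eq ▸ hasSum_le hfg hf.hasSum hg⟩

lemma hs_up (n : ℤ) : HasSum (fun m : ℤ => if n ≤ m then (2 : ℝ) ^ (-m) else 0)
    ((2 : ℝ) ^ (-n) * (1 - 1 / 2)⁻¹) := by
  refine hs (e := fun i : ℕ => n + i) (fun i j h => by simpa using h) (by norm_num) (by norm_num)
    (fun i => ?_) (fun m hm => ?_)
  · rw [if_pos (by omega), neg_add, zpow_add₀ two_ne_zero, zpow_neg (2 : ℝ) (i : ℤ), zpow_natCast,
      one_div, inv_pow]
  · rw [if_neg]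
    intro h
    exact hm ⟨(m - n).toNat, by simp only []; omega⟩

lemma hs_down (n : ℤ) : HasSum (fun m : ℤ => if m ≤ n then (2 : ℝ) ^ m else 0)
    ((2 : ℝ) ^ n * (1 - 1 / 2)⁻¹) := by
  refine hs (e := fun i : ℕ => n - i) (fun i j h => by simpa using h) (by norm_num) (by norm_num)
    (fun i => ?_) (fun m hm => ?_)
  · rw [if_pos (by omega), sub_eq_add_neg, zpow_add₀ two_ne_zero, zpow_neg (2 : ℝ) (i : ℤ),
      zpow_natCast, one_div, inv_pow]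
  · rw [if_neg]
    intro h
    exact hm ⟨(n - m).toNat, by simp only []; omega⟩

lemma hs_down3 (n : ℤ) : HasSum (fun m : ℤ => if m ≤ n then ((2 : ℝ) ^ m) ^ 3 else 0)
    (((2 : ℝ) ^ n) ^ 3 * (1 - 1 / 8)⁻¹) := by
  refine hs (e := fun i : ℕ => n - i) (fun i j h => by simpa using h) (by norm_num) (by norm_num)
    (fun i => ?_) (fun m hm => ?_)
  · rw [if_pos (by omega), sub_eq_add_neg, zpow_add₀ two_ne_zero, zpow_neg (2 : ℝ) (i : ℤ),
      zpow_natCast, mul_pow]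
    congr 1
    rw [inv_pow, ← pow_mul, mul_comm i 3, pow_mul, one_div, inv_pow]
    norm_num
  · rw [if_neg]
    intro h
    exact hm ⟨(n - m).toNat, by simp only []; omega⟩

lemma min_main (c : ℝ) (hc : 0 ≤ c) :
    Summable (fun m : ℤ => min ((2 : ℝ) ^ (-m)) ((2 : ℝ) ^ m * c)) ∧
    ∑' m : ℤ, min ((2 : ℝ) ^ (-m)) ((2 : ℝ) ^ m * c) ≤ 4 * √c := by
  rcases hc.eq_or_lt with h | h
  · subst h
    have e : (fun m : ℤ => min ((2 : ℝ) ^ (-m)) ((2 : ℝ) ^ m * 0)) = fun _ => 0 := by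
      funext m
      rw [mul_zero, min_eq_right]
      positivity
    rw [e]
    simp [summable_zero]
  · have hs0 : 0 < √c := Real.sqrt_pos.2 h
    obtain ⟨n, hn1, hn2⟩ := exists_mem_Ioc_zpow (x := (√c)⁻¹) (y := (2 : ℝ)) (inv_pos.2 hs0)
      one_lt_two
    have hsum := (hs_up (n + 1)).add ((hs_down n).mul_right c)
    have hfg : ∀ m : ℤ, min ((2 : ℝ) ^ (-m)) ((2 : ℝ) ^ m * c) ≤
        (if n + 1 ≤ m then (2 : ℝ) ^ (-m) else 0) + (if m ≤ n then (2 : ℝ) ^ m else 0) * c := by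
      intro m
      by_cases hm : n + 1 ≤ m
      · rw [if_pos hm, if_neg (by omega), zero_mul, add_zero]
        exact min_le_left _ _
      · rw [if_neg hm, if_pos (by omega), zero_add]
        exact min_le_right _ _
    obtain ⟨h1, h2⟩ := comp (f := fun m : ℤ => min ((2 : ℝ) ^ (-m)) ((2 : ℝ) ^ m * c))
      (fun m => le_min (by positivity) (by positivity)) hfg hsum
    refine ⟨h1, h2.trans ?_⟩
    have e1 : (2 : ℝ) ^ (-(n + 1)) ≤ √c := by
      rw [zpow_neg]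
      exact inv_le_of_inv_le₀ hs0 hn2
    have e2 : (2 : ℝ) ^ n * c ≤ √c := by
      calc (2 : ℝ) ^ n * c ≤ (√c)⁻¹ * c := mul_le_mul_of_nonneg_right hn1.le hc
        _ = (√c)⁻¹ * (√c * √c) := by rw [Real.mul_self_sqrt hc]
        _ = √c := by field_simp
    have e3 : ((1 : ℝ) - 1 / 2)⁻¹ = 2 := by norm_num
    rw [e3]
    linarith

end Geo

open Geo

theorem summable_min (c : ℝ) (hc : 0 ≤ c) :
    Summable (fun m : ℤ => min ((2 : ℝ) ^ (-m)) ((2 : ℝ) ^ m * c)) :=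
  (min_main c hc).1

theorem tsum_min_le (c : ℝ) (hc : 0 ≤ c) :
    ∑' m : ℤ, min ((2 : ℝ) ^ (-m)) ((2 : ℝ) ^ m * c) ≤ 4 * √c :=
  (min_main c hc).2

theorem sum_lt (T : ℝ) (hT : 0 ≤ T) :
    Summable (fun m : ℤ => if (2 : ℝ) ^ m < T then (2 : ℝ) ^ m else 0) ∧
    ∑' m : ℤ, (if (2 : ℝ) ^ m < T then (2 : ℝ) ^ m else 0) ≤ 2 * T := by
  rcases hT.eq_or_lt with h | h
  · subst h
    have e : (fun m : ℤ => if (2 : ℝ) ^ m < 0 then (2 : ℝ) ^ m else 0) = fun _ => 0 := by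
      funext m
      rw [if_neg]
      exact not_lt.2 (by positivity)
    rw [e]
    simp [summable_zero]
  · obtain ⟨n, hn1, hn2⟩ := exists_mem_Ioc_zpow (x := T) (y := (2 : ℝ)) h one_lt_two
    have h0 : ∀ m : ℤ, 0 ≤ (if (2 : ℝ) ^ m < T then (2 : ℝ) ^ m else 0) := by
      intro m
      split_ifs
      · positivity
      · exact le_rfl
    have hfg : ∀ m : ℤ, (if (2 : ℝ) ^ m < T then (2 : ℝ) ^ m else 0) ≤
        (if m ≤ n then (2 : ℝ) ^ m else 0) := by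
      intro m
      by_cases hm : m ≤ n
      · rw [if_pos hm]
        split_ifs
        · exact le_rfl
        · positivity
      · rw [if_neg hm, if_neg]
        rw [not_lt]
        exact hn2.trans (zpow_le_zpow_right₀ one_le_two (by omega))
    obtain ⟨h1, h2⟩ := comp h0 hfg (hs_down n)
    refine ⟨h1, h2.trans ?_⟩
    have e3 : ((1 : ℝ) - 1 / 2)⁻¹ = 2 := by norm_num
    rw [e3]
    linarith

theorem sum_lt_cube (T : ℝ) (hT : 0 ≤ T) :
    Summable (fun m : ℤ => if (2 : ℝ) ^ m < T then ((2 : ℝ) ^ m) ^ 3 else 0) ∧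
    ∑' m : ℤ, (if (2 : ℝ) ^ m < T then ((2 : ℝ) ^ m) ^ 3 else 0) ≤ 2 * T ^ 3 := by
  rcases hT.eq_or_lt with h | h
  · subst h
    have e : (fun m : ℤ => if (2 : ℝ) ^ m < 0 then ((2 : ℝ) ^ m) ^ 3 else 0) = fun _ => 0 := by
      funext m
      rw [if_neg]
      exact not_lt.2 (by positivity)
    rw [e]
    simp [summable_zero]
  · obtain ⟨n, hn1, hn2⟩ := exists_mem_Ioc_zpow (x := T) (y := (2 : ℝ)) h one_lt_two
    have h0 : ∀ m : ℤ, 0 ≤ (if (2 : ℝ) ^ m < T then ((2 : ℝ) ^ m) ^ 3 else 0) := by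
      intro m
      split_ifs
      · positivity
      · exact le_rfl
    have hfg : ∀ m : ℤ, (if (2 : ℝ) ^ m < T then ((2 : ℝ) ^ m) ^ 3 else 0) ≤
        (if m ≤ n then ((2 : ℝ) ^ m) ^ 3 else 0) := by
      intro m
      by_cases hm : m ≤ n
      · rw [if_pos hm]
        split_ifs
        · exact le_rfl
        · positivity
      · rw [if_neg hm, if_neg]
        rw [not_lt]
        exact hn2.trans (zpow_le_zpow_right₀ one_le_two (by omega))
    obtain ⟨h1, h2⟩ := comp h0 hfg (hs_down3 n)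
    refine ⟨h1, h2.trans ?_⟩
    have e3 : ((1 : ℝ) - 1 / 8)⁻¹ ≤ 2 := by norm_num
    have e4 : ((2 : ℝ) ^ n) ^ 3 ≤ T ^ 3 := pow_le_pow_left₀ (by positivity) hn1.le 3
    calc ((2 : ℝ) ^ n) ^ 3 * (1 - 1 / 8)⁻¹ ≤ T ^ 3 * 2 :=
          mul_le_mul e4 e3 (by norm_num) (by positivity)
      _ = 2 * T ^ 3 := by ring

theorem sum_sep (c : ℝ) (hc : 0 ≤ c) (L : ℕ) (hL : 1 ≤ L) (m0 : ℤ) :
    Summable (fun m : ℤ => if (m : ZMod L) = (m0 : ZMod L) ∧ m ≠ m0 then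
      min ((2 : ℝ) ^ (-m)) ((2 : ℝ) ^ m * c) else 0) ∧
    ∑' m : ℤ, (if (m : ZMod L) = (m0 : ZMod L) ∧ m ≠ m0 then
      min ((2 : ℝ) ^ (-m)) ((2 : ℝ) ^ m * c) else 0)
      ≤ 2 * (1 / 2 : ℝ) ^ L * ((2 : ℝ) ^ (-m0) + (2 : ℝ) ^ m0 * c) := by
  have hLz : (1 : ℤ) ≤ (L : ℤ) := by exact_mod_cast hL
  have hr0 : (0 : ℝ) ≤ (1 / 2 : ℝ) ^ L := by positivity
  have hr2 : (1 / 2 : ℝ) ^ L ≤ 1 / 2 := pow_le_of_le_one (by norm_num) (by norm_num) (by omega)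
  have hr1 : (1 / 2 : ℝ) ^ L < 1 := by linarith
  have hup : HasSum (fun m : ℤ => if m0 < m ∧ (L : ℤ) ∣ m - m0 then (2 : ℝ) ^ (-m) else 0)
      (((2 : ℝ) ^ (-m0) * (1 / 2 : ℝ) ^ L) * (1 - (1 / 2 : ℝ) ^ L)⁻¹) := by
    refine hs (e := fun i : ℕ => m0 + L * (i + 1)) (fun i j h => ?_) hr0 hr1
      (fun i => ?_) (fun m hm => ?_)
    · have h1 : (L : ℤ) * (i + 1) = L * (j + 1) := by simpa using h
      have h2 : ((i : ℤ) + 1) = j + 1 := mul_left_cancel₀ (by omega) h1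
      omega
    · rw [if_pos ⟨by nlinarith, ⟨(i : ℤ) + 1, by ring⟩⟩, neg_add, zpow_add₀ two_ne_zero]
      have e1 : (2 : ℝ) ^ (-((L : ℤ) * ((i : ℤ) + 1))) = (1 / 2 : ℝ) ^ L * ((1 / 2 : ℝ) ^ L) ^ i := by
        rw [zpow_neg, ← pow_succ', ← pow_mul, one_div, inv_pow,
          show ((L : ℤ) * ((i : ℤ) + 1)) = ((L * (i + 1) : ℕ) : ℤ) by push_cast; rfl, zpow_natCast]
      rw [e1]
      ring
    · rw [if_neg]
      rintro ⟨h1, k, hk⟩
      have hk0 : 0 < k := by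
        by_contra hneg
        push Not at hneg
        nlinarith
      refine hm ⟨(k - 1).toNat, ?_⟩
      simp only []
      rw [Int.toNat_of_nonneg (by omega)]
      linarith [show (L : ℤ) * (k - 1 + 1) = L * k by ring]
  have hdown : HasSum (fun m : ℤ => if m < m0 ∧ (L : ℤ) ∣ m - m0 then (2 : ℝ) ^ m * c else 0)
      (((2 : ℝ) ^ m0 * c * (1 / 2 : ℝ) ^ L) * (1 - (1 / 2 : ℝ) ^ L)⁻¹) := by
    refine hs (e := fun i : ℕ => m0 - L * (i + 1)) (fun i j h => ?_) hr0 hr1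
      (fun i => ?_) (fun m hm => ?_)
    · have h1 : (L : ℤ) * (i + 1) = L * (j + 1) := by simpa using h
      have h2 : ((i : ℤ) + 1) = j + 1 := mul_left_cancel₀ (by omega) h1
      omega
    · rw [if_pos ⟨by nlinarith, ⟨-((i : ℤ) + 1), by ring⟩⟩, sub_eq_add_neg,
        zpow_add₀ two_ne_zero]
      have e1 : (2 : ℝ) ^ (-((L : ℤ) * ((i : ℤ) + 1))) = (1 / 2 : ℝ) ^ L * ((1 / 2 : ℝ) ^ L) ^ i := by
        rw [zpow_neg, ← pow_succ', ← pow_mul, one_div, inv_pow,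
          show ((L : ℤ) * ((i : ℤ) + 1)) = ((L * (i + 1) : ℕ) : ℤ) by push_cast; rfl, zpow_natCast]
      rw [e1]
      ring
    · rw [if_neg]
      rintro ⟨h1, k, hk⟩
      have hk0 : k < 0 := by
        by_contra hneg
        push Not at hneg
        nlinarith
      refine hm ⟨(-k - 1).toNat, ?_⟩
      simp only []
      rw [Int.toNat_of_nonneg (by omega)]
      linarith [show (L : ℤ) * (-k - 1 + 1) = -(L * k) by ring]
  have h0 : ∀ m : ℤ, 0 ≤ (if (m : ZMod L) = (m0 : ZMod L) ∧ m ≠ m0 then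
      min ((2 : ℝ) ^ (-m)) ((2 : ℝ) ^ m * c) else 0) := by
    intro m
    split_ifs
    · exact le_min (by positivity) (by positivity)
    · exact le_rfl
  have hfg : ∀ m : ℤ, (if (m : ZMod L) = (m0 : ZMod L) ∧ m ≠ m0 then
      min ((2 : ℝ) ^ (-m)) ((2 : ℝ) ^ m * c) else 0) ≤
      (if m0 < m ∧ (L : ℤ) ∣ m - m0 then (2 : ℝ) ^ (-m) else 0) +
      (if m < m0 ∧ (L : ℤ) ∣ m - m0 then (2 : ℝ) ^ m * c else 0) := by
    intro m
    have n1 : 0 ≤ (if m0 < m ∧ (L : ℤ) ∣ m - m0 then (2 : ℝ) ^ (-m) else 0) := by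
      split_ifs
      · positivity
      · exact le_rfl
    have n2 : 0 ≤ (if m < m0 ∧ (L : ℤ) ∣ m - m0 then (2 : ℝ) ^ m * c else 0) := by
      split_ifs
      · positivity
      · exact le_rfl
    by_cases hm : (m : ZMod L) = (m0 : ZMod L) ∧ m ≠ m0
    · rw [if_pos hm]
      obtain ⟨hm1, hm2⟩ := hm
      have hd : (L : ℤ) ∣ m - m0 := (ZMod.intCast_eq_intCast_iff_dvd_sub m0 m L).1 hm1.symm
      rcases lt_or_gt_of_ne hm2 with h | h
      · rw [if_pos (show m < m0 ∧ (L : ℤ) ∣ m - m0 from ⟨h, hd⟩)]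
        exact (min_le_right _ _).trans (le_add_of_nonneg_left n1)
      · rw [if_pos (show m0 < m ∧ (L : ℤ) ∣ m - m0 from ⟨h, hd⟩)]
        exact (min_le_left _ _).trans (le_add_of_nonneg_right n2)
    · rw [if_neg hm]
      exact add_nonneg n1 n2
  obtain ⟨h1, h2⟩ := comp h0 hfg (hup.add hdown)
  refine ⟨h1, h2.trans ?_⟩
  have e3 : (1 - (1 / 2 : ℝ) ^ L)⁻¹ ≤ 2 := by
    rw [inv_le_comm₀ (by linarith) (by norm_num)]
    linarith
  have e4 : 0 ≤ (2 : ℝ) ^ (-m0) * (1 / 2 : ℝ) ^ L := by positivity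
  have e5 : 0 ≤ (2 : ℝ) ^ m0 * c * (1 / 2 : ℝ) ^ L := by positivity
  calc (2 : ℝ) ^ (-m0) * (1 / 2 : ℝ) ^ L * (1 - (1 / 2 : ℝ) ^ L)⁻¹ +
        (2 : ℝ) ^ m0 * c * (1 / 2 : ℝ) ^ L * (1 - (1 / 2 : ℝ) ^ L)⁻¹
      ≤ (2 : ℝ) ^ (-m0) * (1 / 2 : ℝ) ^ L * 2 + (2 : ℝ) ^ m0 * c * (1 / 2 : ℝ) ^ L * 2 :=
        add_le_add (mul_le_mul_of_nonneg_left e3 e4) (mul_le_mul_of_nonneg_left e3 e5)
    _ = 2 * (1 / 2 : ℝ) ^ L * ((2 : ℝ) ^ (-m0) + (2 : ℝ) ^ m0 * c) := by ring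

end Pool.UQC
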