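import Pool.Agent.UQC.Basic

/-!
MODULE Theta (problem MP_7936f4_al).  The gauge th s a.  All elementary.  COMPLETE PAPER PROOF.

Scalar functions, s >= 0, r >= 0:  al s r = r / max s (sqrt r), be s r = r / (max s (r^(1/4)))^3.
(If s = r = 0 both are 0/0 = 0 in Lean.)
* al_nonneg, be_nonneg: clear.
* al s r = r/s if 0 < s and r <= s^2 (then sqrt r <= s);  al s r = sqrt r if s^2 <= r (max = sqrt r, and
  r / sqrt r = sqrt r, Real.div_sqrt).  Same for be: r <= s^4 -> be = r/s^3; s^4 <= r -> be = r/(r^(1/4))^3 = r^(1/4)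
  (because r = (r^(1/4))^4).
* al_le_div: al s r <= r/s for s > 0 since max s _ >= s.  al_le_sqrt: al s r <= r/sqrt r = sqrt r (r = 0 separately).
* anti in s: the denominator increases in s (if the smaller denominator is 0 then s = 0 = r, and both values are 0).
* scale: if s' <= l s, 1 <= l then max s' (sqrt r) <= l max s (sqrt r), so al s r <= l al s' r and be s r <= l^3 be s' r.
* mono in r: al s r = r/s for r <= s^2 and sqrt r for r >= s^2, both increasing and they agree at s^2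
  (cases r <= r' <= s^2; s^2 <= r <= r'; r <= s^2 <= r').  For s = 0 it is sqrt.  Another way for al:
  al s r = min (r/s) (sqrt r) if s > 0.
* add: al s (r+r') <= al s r + al s r': (r+r')/max s (sqrt(r+r')) = r/max.. + r'/max.. and the denominator
  max s (sqrt(r+r')) >= max s (sqrt r), resp. >= max s (sqrt r').  Same for be.
* mul: 1 <= c: al s (c r) = c r/max s (sqrt(c r)) <= c r / max s (sqrt r).  Same for be.
* be s (r^2) <= al s r: (r^2)^(1/4) = sqrt r, so be s (r^2) = r^2/m^3 with m = max s (sqrt r), al s r = r/m and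
  r <= m^2.
* be s (s^2 r) <= al s r: s = 0: trivial (be s 0 = 0).  s > 0.  If r <= s^2: be s (s^2 r) <= s^2 r / s^3 = r/s = al s r.
  If r >= s^2: (s^2 r)^(1/4) <= (r^2)^(1/4) = sqrt r and be s x <= x^(1/4) so be s (s^2 r) <= sqrt r = al s r.

th s a = max (al s |a.1|) (be s |a.2|).
* th_mul_le (quasi triangle): first coordinate |a.1 + b.1| <= |a.1|+|b.1|: al is mono and subadditive.  Second
  coordinate |a.2+b.2+om a.1 b.1| <= |a.2|+|b.2|+K |a.1||b.1|; let r = max |a.1| |b.1|; K|a.1||b.1| <= K r^2 and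
  be s (K r^2) <= K be s (r^2) <= K al s r <= K max (th s a) (th s b) <= K (th s a + th s b).
* th_cj_le: |k.2 + 2 om k.1 z.1| <= |k.2| + 2K |k.1| |z.1| <= |k.2| + 2 K (s^2 |k.1|) because |z.1| <= gau z <= s^2;
  be s (2K (s^2 |k.1|)) <= 2K be s (s^2|k.1|) <= 2K al s |k.1|.
* th_le: th s a <= sqrt (gau a): al s |a.1| <= sqrt |a.1|, be s |a.2| <= |a.2|^(1/4) = sqrt (sqrt |a.2|).
* th_of_large: s^2 <= gau a -> th s a = sqrt (gau a): if gau a = |a.1| then al s |a.1| = sqrt(gau a), if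
  gau a = sqrt |a.2| then s^4 <= |a.2| and be s |a.2| = sqrt (sqrt |a.2|).  Upper bound th_le.
* th_of_small: gau a <= s^2, 0 < s: al = |a.1|/s, be = |a.2|/s^3.
-/

namespace Pool.UQC

variable {ι κ : Type} [Fintype ι] [Fintype κ] (S : Str ι κ)

theorem al_nonneg {s r : ℝ} (hs : 0 ≤ s) (hr : 0 ≤ r) : 0 ≤ al s r := by
  exact div_nonneg hr (le_max_of_le_left hs)

theorem be_nonneg {s r : ℝ} (hs : 0 ≤ s) (hr : 0 ≤ r) : 0 ≤ be s r := by
  exact div_nonneg hr (pow_nonneg (le_max_of_le_left hs) 3)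

theorem theta_al_zero (s : ℝ) : al s 0 = 0 := by rw [al, zero_div]

theorem theta_be_zero (s : ℝ) : be s 0 = 0 := by rw [be, zero_div]

/-- the fourth root to the fourth power -/
theorem theta_sqrt_sqrt_pow {r : ℝ} (hr : 0 ≤ r) : √(√r) ^ 4 = r := by
  have e : √(√r) ^ 4 = (√(√r) ^ 2) ^ 2 := by ring
  rw [e, Real.sq_sqrt (Real.sqrt_nonneg r), Real.sq_sqrt hr]

theorem theta_sqrt_sqrt_le {s r : ℝ} (hs : 0 ≤ s) : √(√r) ≤ s ↔ r ≤ s ^ 4 := by
  rw [Real.sqrt_le_left hs, Real.sqrt_le_left (pow_nonneg hs 2), ← pow_mul]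

theorem theta_le_sqrt_sqrt {s r : ℝ} (hs : 0 ≤ s) (h : s ^ 4 ≤ r) : s ≤ √(√r) := by
  apply Real.le_sqrt_of_sq_le
  apply Real.le_sqrt_of_sq_le
  rw [← pow_mul]
  exact h

theorem al_of_le {s r : ℝ} (hs : 0 < s) (h : r ≤ s ^ 2) : al s r = r / s := by
  rw [al, max_eq_left ((Real.sqrt_le_left hs.le).2 h)]

theorem al_of_ge {s r : ℝ} (hs : 0 ≤ s) (h : s ^ 2 ≤ r) : al s r = √r := by
  rw [al, max_eq_right (Real.le_sqrt_of_sq_le h), Real.div_sqrt]

theorem be_of_le {s r : ℝ} (hs : 0 < s) (h : r ≤ s ^ 4) : be s r = r / s ^ 3 := by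
  rw [be, max_eq_left ((theta_sqrt_sqrt_le hs.le).2 h)]

theorem theta_div_sqrt_sqrt {r : ℝ} (hr : 0 ≤ r) : r / √(√r) ^ 3 = √(√r) := by
  rcases (Real.sqrt_nonneg (√r)).eq_or_lt with h0 | h0
  · rw [← h0]
    have h1 := theta_sqrt_sqrt_pow hr
    rw [← h0] at h1
    simp
  · rw [div_eq_iff (pow_pos h0 3).ne']
    nth_rewrite 1 [← theta_sqrt_sqrt_pow hr]
    ring

theorem be_of_ge {s r : ℝ} (hs : 0 ≤ s) (h : s ^ 4 ≤ r) : be s r = √(√r) := by
  rw [be, max_eq_right (theta_le_sqrt_sqrt hs h), theta_div_sqrt_sqrt ((pow_nonneg hs 4).trans h)]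

theorem al_le_div {s r : ℝ} (hs : 0 < s) (hr : 0 ≤ r) : al s r ≤ r / s := by
  exact div_le_div_of_nonneg_left hr hs (le_max_left _ _)

theorem be_le_div {s r : ℝ} (hs : 0 < s) (hr : 0 ≤ r) : be s r ≤ r / s ^ 3 := by
  exact div_le_div_of_nonneg_left hr (pow_pos hs 3)
    (pow_le_pow_left₀ hs.le (le_max_left _ _) 3)

theorem theta_al_pos_den {s r : ℝ} (hr : 0 < r) : 0 < max s √r :=
  lt_max_of_lt_right (Real.sqrt_pos.2 hr)

theorem theta_be_pos_den {s r : ℝ} (hr : 0 < r) : 0 < max s √(√r) :=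
  lt_max_of_lt_right (Real.sqrt_pos.2 (Real.sqrt_pos.2 hr))

/-- comparison of denominators -/
theorem theta_al_aux {s s' r R : ℝ} (hr : 0 ≤ r) (hs : s ≤ s') (h : r ≤ R) :
    r / max s' √R ≤ al s r := by
  rcases hr.eq_or_lt with h0 | h0
  · rw [← h0, theta_al_zero, zero_div]
  · exact div_le_div_of_nonneg_left hr (theta_al_pos_den h0) (max_le_max hs (Real.sqrt_le_sqrt h))

theorem theta_be_aux {s s' r R : ℝ} (hr : 0 ≤ r) (hs : s ≤ s') (h : r ≤ R) :
    r / (max s' √(√R)) ^ 3 ≤ be s r := by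
  rcases hr.eq_or_lt with h0 | h0
  · rw [← h0, theta_be_zero, zero_div]
  · exact div_le_div_of_nonneg_left hr (pow_pos (theta_be_pos_den h0) 3)
      (pow_le_pow_left₀ (theta_be_pos_den h0).le
        (max_le_max hs (Real.sqrt_le_sqrt (Real.sqrt_le_sqrt h))) 3)

theorem al_le_sqrt {s r : ℝ} (hs : 0 ≤ s) (hr : 0 ≤ r) : al s r ≤ √r := by
  have h := theta_al_aux (s := 0) hr hs le_rfl
  have h1 : al 0 r = √r := al_of_ge le_rfl (by simpa using hr)
  rw [h1] at h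
  exact h

theorem be_le_sqrt {s r : ℝ} (hs : 0 ≤ s) (hr : 0 ≤ r) : be s r ≤ √(√r) := by
  have h := theta_be_aux (s := 0) hr hs le_rfl
  have h1 : be 0 r = √(√r) := be_of_ge le_rfl (by simpa using hr)
  rw [h1] at h
  exact h

theorem al_anti {s s' r : ℝ} (hs : 0 ≤ s) (h : s ≤ s') (hr : 0 ≤ r) : al s' r ≤ al s r := by
  exact theta_al_aux hr h le_rfl

theorem be_anti {s s' r : ℝ} (hs : 0 ≤ s) (h : s ≤ s') (hr : 0 ≤ r) : be s' r ≤ be s r := by
  exact theta_be_aux hr h le_rfl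

/-- the scaling of the maximum -/
theorem theta_max_scale {s s' l x : ℝ} (hl : 1 ≤ l) (h : s' ≤ l * s) (hx : 0 ≤ x) :
    max s' x ≤ l * max s x := by
  apply max_le
  · exact h.trans (mul_le_mul_of_nonneg_left (le_max_left _ _) (by linarith))
  · calc x ≤ l * x := le_mul_of_one_le_left hx hl
      _ ≤ l * max s x := mul_le_mul_of_nonneg_left (le_max_right _ _) (by linarith)

theorem al_scale {s s' r l : ℝ} (hs : 0 ≤ s) (hs' : 0 ≤ s') (hl : 1 ≤ l) (h : s' ≤ l * s)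
    (hr : 0 ≤ r) : al s r ≤ l * al s' r := by
  rcases hr.eq_or_lt with h0 | h0
  · rw [← h0, theta_al_zero, theta_al_zero, mul_zero]
  · have h1 := theta_al_pos_den (s := s) h0
    have h2 := theta_al_pos_den (s := s') h0
    have h3 := theta_max_scale hl h (Real.sqrt_nonneg r)
    rw [al, al, mul_div_assoc', div_le_div_iff₀ h1 h2]
    calc r * max s' √r ≤ r * (l * max s √r) := mul_le_mul_of_nonneg_left h3 hr
      _ = l * r * max s √r := by ring

theorem be_scale {s s' r l : ℝ} (hs : 0 ≤ s) (hs' : 0 ≤ s') (hl : 1 ≤ l) (h : s' ≤ l * s)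
    (hr : 0 ≤ r) : be s r ≤ l ^ 3 * be s' r := by
  rcases hr.eq_or_lt with h0 | h0
  · rw [← h0, theta_be_zero, theta_be_zero, mul_zero]
  · have h1 := theta_be_pos_den (s := s) h0
    have h2 := theta_be_pos_den (s := s') h0
    have h3 := pow_le_pow_left₀ h2.le (theta_max_scale hl h (Real.sqrt_nonneg (√r))) 3
    rw [be, be, mul_div_assoc', div_le_div_iff₀ (pow_pos h1 3) (pow_pos h2 3)]
    calc r * (max s' √(√r)) ^ 3 ≤ r * (l * max s √(√r)) ^ 3 := mul_le_mul_of_nonneg_left h3 hr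
      _ = l ^ 3 * r * (max s √(√r)) ^ 3 := by ring

theorem al_mono {s r r' : ℝ} (hs : 0 ≤ s) (hr : 0 ≤ r) (h : r ≤ r') : al s r ≤ al s r' := by
  rcases le_total r' (s ^ 2) with h1 | h1
  · rcases hs.eq_or_lt with h0 | h0
    · have h2 : r' = 0 := le_antisymm (by rw [← h0] at h1; simpa using h1) (hr.trans h)
      have h3 : r = 0 := le_antisymm (h2 ▸ h) hr
      rw [h2, h3]
    · rw [al_of_le h0 h1, al_of_le h0 (h.trans h1)]
      exact div_le_div_of_nonneg_right h hs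
  · rw [al_of_ge hs h1]
    exact (al_le_sqrt hs hr).trans (Real.sqrt_le_sqrt h)

theorem be_mono {s r r' : ℝ} (hs : 0 ≤ s) (hr : 0 ≤ r) (h : r ≤ r') : be s r ≤ be s r' := by
  rcases le_total r' (s ^ 4) with h1 | h1
  · rcases hs.eq_or_lt with h0 | h0
    · have h2 : r' = 0 := le_antisymm (by rw [← h0] at h1; simpa using h1) (hr.trans h)
      have h3 : r = 0 := le_antisymm (h2 ▸ h) hr
      rw [h2, h3]
    · rw [be_of_le h0 h1, be_of_le h0 (h.trans h1)]
      exact div_le_div_of_nonneg_right h (pow_nonneg hs 3)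
  · rw [be_of_ge hs h1]
    exact (be_le_sqrt hs hr).trans (Real.sqrt_le_sqrt (Real.sqrt_le_sqrt h))

theorem al_add_le {s r r' : ℝ} (hs : 0 ≤ s) (hr : 0 ≤ r) (hr' : 0 ≤ r') :
    al s (r + r') ≤ al s r + al s r' := by
  have e : al s (r + r') = r / max s √(r + r') + r' / max s √(r + r') := by
    rw [al, add_div]
  rw [e]
  exact add_le_add (theta_al_aux hr le_rfl (by linarith)) (theta_al_aux hr' le_rfl (by linarith))

theorem be_add_le {s r r' : ℝ} (hs : 0 ≤ s) (hr : 0 ≤ r) (hr' : 0 ≤ r') :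
    be s (r + r') ≤ be s r + be s r' := by
  have e : be s (r + r') = r / (max s √(√(r + r'))) ^ 3 + r' / (max s √(√(r + r'))) ^ 3 := by
    rw [be, add_div]
  rw [e]
  exact add_le_add (theta_be_aux hr le_rfl (by linarith)) (theta_be_aux hr' le_rfl (by linarith))

theorem al_mul_le {s r c : ℝ} (hs : 0 ≤ s) (hr : 0 ≤ r) (hc : 1 ≤ c) :
    al s (c * r) ≤ c * al s r := by
  have e : al s (c * r) = c * (r / max s √(c * r)) := by
    rw [al, mul_div_assoc]
  rw [e]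
  exact mul_le_mul_of_nonneg_left (theta_al_aux hr le_rfl (le_mul_of_one_le_left hr hc)) (by linarith)

theorem be_mul_le {s r c : ℝ} (hs : 0 ≤ s) (hr : 0 ≤ r) (hc : 1 ≤ c) :
    be s (c * r) ≤ c * be s r := by
  have e : be s (c * r) = c * (r / (max s √(√(c * r))) ^ 3) := by
    rw [be, mul_div_assoc]
  rw [e]
  exact mul_le_mul_of_nonneg_left (theta_be_aux hr le_rfl (le_mul_of_one_le_left hr hc)) (by linarith)

theorem be_sq_le {s r : ℝ} (hs : 0 ≤ s) (hr : 0 ≤ r) : be s (r ^ 2) ≤ al s r := by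
  rcases hr.eq_or_lt with h0 | h0
  · rw [← h0, zero_pow two_ne_zero, theta_be_zero, theta_al_zero]
  · have h1 := theta_al_pos_den (s := s) h0
    rw [be, al, Real.sqrt_sq hr, div_le_div_iff₀ (pow_pos h1 3) h1]
    have h2 : r ≤ (max s √r) ^ 2 := by
      calc r = √r ^ 2 := (Real.sq_sqrt hr).symm
        _ ≤ (max s √r) ^ 2 := pow_le_pow_left₀ (Real.sqrt_nonneg r) (le_max_right _ _) 2
    calc r ^ 2 * max s √r = (r * max s √r) * r := by ring
      _ ≤ (r * max s √r) * (max s √r) ^ 2 :=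
        mul_le_mul_of_nonneg_left h2 (mul_nonneg hr h1.le)
      _ = r * (max s √r) ^ 3 := by ring

theorem be_ssq_le {s r : ℝ} (hs : 0 ≤ s) (hr : 0 ≤ r) : be s (s ^ 2 * r) ≤ al s r := by
  rcases hs.eq_or_lt with h0 | h0
  · rw [← h0, zero_pow two_ne_zero, zero_mul, theta_be_zero]
    exact al_nonneg le_rfl hr
  · rcases le_total r (s ^ 2) with h1 | h1
    · rw [al_of_le h0 h1]
      refine (be_le_div h0 (mul_nonneg (pow_nonneg hs 2) hr)).trans (le_of_eq ?_)
      field_simp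
    · rw [al_of_ge hs h1]
      refine (be_le_sqrt hs (mul_nonneg (pow_nonneg hs 2) hr)).trans ?_
      have h2 : s ^ 2 * r ≤ r ^ 2 := by
        rw [sq r]
        exact mul_le_mul_of_nonneg_right h1 hr
      have h3 := Real.sqrt_le_sqrt (Real.sqrt_le_sqrt h2)
      rwa [Real.sqrt_sq hr] at h3

theorem th_nonneg {s : ℝ} (hs : 0 ≤ s) (a : Hs ι κ) : 0 ≤ th s a := by
  exact le_max_of_le_left (al_nonneg hs (norm_nonneg _))

theorem th_neg (s : ℝ) (a : Hs ι κ) : th s (-a) = th s a := by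
  simp [th]

theorem th_zero {s : ℝ} : th s (0 : Hs ι κ) = 0 := by
  simp [th, theta_al_zero, theta_be_zero]

theorem th_rel_comm (s : ℝ) (p q : Hs ι κ) : th s (S.rel p q) = th s (S.rel q p) := by
  rw [S.rel_anti p q, th_neg]

theorem th_anti {s s' : ℝ} (hs : 0 ≤ s) (h : s ≤ s') (a : Hs ι κ) : th s' a ≤ th s a := by
  exact max_le_max (al_anti hs h (norm_nonneg _)) (be_anti hs h (norm_nonneg _))

theorem th_scale {s s' l : ℝ} (hs : 0 ≤ s) (hs' : 0 ≤ s') (hl : 1 ≤ l) (h : s' ≤ l * s)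
    (a : Hs ι κ) : th s a ≤ l ^ 3 * th s' a := by
  have hl3 : l ≤ l ^ 3 := by
    calc l = l ^ 1 := (pow_one l).symm
      _ ≤ l ^ 3 := pow_le_pow_right₀ hl (by norm_num)
  have hl0 : 0 ≤ l ^ 3 := by positivity
  apply max_le
  · calc al s ‖a.1‖ ≤ l * al s' ‖a.1‖ := al_scale hs hs' hl h (norm_nonneg _)
      _ ≤ l ^ 3 * al s' ‖a.1‖ := mul_le_mul_of_nonneg_right hl3 (al_nonneg hs' (norm_nonneg _))
      _ ≤ l ^ 3 * th s' a := mul_le_mul_of_nonneg_left (le_max_left _ _) hl0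
  · calc be s ‖a.2‖ ≤ l ^ 3 * be s' ‖a.2‖ := be_scale hs hs' hl h (norm_nonneg _)
      _ ≤ l ^ 3 * th s' a := mul_le_mul_of_nonneg_left (le_max_right _ _) hl0

theorem th_mul_le {s : ℝ} (hs : 0 ≤ s) (a b : Hs ι κ) :
    th s (S.mul a b) ≤ (1 + S.K) * (th s a + th s b) := by
  have hK := S.one_le_K
  have ha := th_nonneg hs a
  have hb := th_nonneg hs b
  have a1 : al s ‖a.1‖ ≤ th s a := le_max_left _ _
  have b1 : al s ‖b.1‖ ≤ th s b := le_max_left _ _
  have a2 : be s ‖a.2‖ ≤ th s a := le_max_right _ _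
  have b2 : be s ‖b.2‖ ≤ th s b := le_max_right _ _
  apply max_le
  · have h1 : al s ‖(S.mul a b).1‖ ≤ al s ‖a.1‖ + al s ‖b.1‖ :=
      (al_mono hs (norm_nonneg _) (norm_add_le a.1 b.1)).trans
        (al_add_le hs (norm_nonneg _) (norm_nonneg _))
    nlinarith
  · set r := max ‖a.1‖ ‖b.1‖ with hr
    have hr0 : 0 ≤ r := le_max_of_le_left (norm_nonneg _)
    have h1 : ‖(S.mul a b).2‖ ≤ ‖a.2‖ + ‖b.2‖ + S.K * r ^ 2 := by
      change ‖a.2 + b.2 + S.om a.1 b.1‖ ≤ _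
      have h3 : ‖a.2 + b.2 + S.om a.1 b.1‖ ≤ ‖a.2‖ + ‖b.2‖ + ‖S.om a.1 b.1‖ :=
        (norm_add_le _ _).trans (by gcongr; exact norm_add_le _ _)
      have h4 := S.norm_om_le a.1 b.1
      have h5 : S.K * ‖a.1‖ * ‖b.1‖ ≤ S.K * r ^ 2 := by
        rw [mul_assoc, sq]
        apply mul_le_mul_of_nonneg_left _ (by linarith)
        exact mul_le_mul (le_max_left _ _) (le_max_right _ _) (norm_nonneg _) hr0
      linarith
    have h2 : be s ‖(S.mul a b).2‖ ≤ be s ‖a.2‖ + be s ‖b.2‖ + be s (S.K * r ^ 2) := by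
      refine (be_mono hs (norm_nonneg _) h1).trans ?_
      refine (be_add_le hs (by positivity) (by positivity)).trans ?_
      have := be_add_le hs (norm_nonneg a.2) (norm_nonneg b.2)
      linarith
    have h3 : be s (S.K * r ^ 2) ≤ S.K * al s r :=
      (be_mul_le hs (by positivity) hK).trans
        (mul_le_mul_of_nonneg_left (be_sq_le hs hr0) (by linarith))
    have h4 : al s r ≤ th s a + th s b := by
      rcases le_total ‖a.1‖ ‖b.1‖ with h | h
      · rw [hr, max_eq_right h]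
        linarith
      · rw [hr, max_eq_left h]
        linarith
    have h5 : S.K * al s r ≤ S.K * (th s a + th s b) :=
      mul_le_mul_of_nonneg_left h4 (by linarith)
    linarith

theorem th_cj_le {s : ℝ} (hs : 0 ≤ s) (z k : Hs ι κ) (hz : gau z ≤ s ^ 2) :
    th s (S.cj z k) ≤ (1 + 2 * S.K) * th s k := by
  have hK := S.one_le_K
  have hk := th_nonneg hs k
  have k1 : al s ‖k.1‖ ≤ th s k := le_max_left _ _
  have k2 : be s ‖k.2‖ ≤ th s k := le_max_right _ _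
  apply max_le
  · change al s ‖k.1‖ ≤ _
    nlinarith
  · change be s ‖k.2 + (2 : ℝ) • S.om k.1 z.1‖ ≤ _
    have h1 : ‖k.2 + (2 : ℝ) • S.om k.1 z.1‖ ≤ ‖k.2‖ + (2 * S.K) * (s ^ 2 * ‖k.1‖) := by
      refine (norm_add_le _ _).trans ?_
      rw [norm_smul, Real.norm_eq_abs, abs_of_pos (two_pos : (0 : ℝ) < 2)]
      have h2 := S.norm_om_le k.1 z.1
      have h3 : S.K * ‖k.1‖ * ‖z.1‖ ≤ S.K * ‖k.1‖ * s ^ 2 :=
        mul_le_mul_of_nonneg_left ((norm_fst_le_gau z).trans hz)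
          (mul_nonneg (by linarith) (norm_nonneg _))
      nlinarith
    have hn : 0 ≤ s ^ 2 * ‖k.1‖ := by positivity
    have h2 : be s ‖k.2 + (2 : ℝ) • S.om k.1 z.1‖ ≤
        be s ‖k.2‖ + be s ((2 * S.K) * (s ^ 2 * ‖k.1‖)) :=
      (be_mono hs (norm_nonneg _) h1).trans
        (be_add_le hs (norm_nonneg _) (mul_nonneg (by linarith) hn))
    have h3 : be s ((2 * S.K) * (s ^ 2 * ‖k.1‖)) ≤ (2 * S.K) * al s ‖k.1‖ :=
      (be_mul_le hs hn (by linarith)).trans
        (mul_le_mul_of_nonneg_left (be_ssq_le hs (norm_nonneg _)) (by linarith))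
    have h4 : (2 * S.K) * al s ‖k.1‖ ≤ (2 * S.K) * th s k :=
      mul_le_mul_of_nonneg_left k1 (by linarith)
    linarith

theorem th_le_sqrt_gau {s : ℝ} (hs : 0 ≤ s) (a : Hs ι κ) : th s a ≤ √(gau a) := by
  apply max_le
  · exact (al_le_sqrt hs (norm_nonneg _)).trans (Real.sqrt_le_sqrt (norm_fst_le_gau a))
  · exact (be_le_sqrt hs (norm_nonneg _)).trans (Real.sqrt_le_sqrt (sqrt_norm_snd_le_gau a))

theorem th_of_large {s : ℝ} (hs : 0 ≤ s) (a : Hs ι κ) (h : s ^ 2 ≤ gau a) :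
    th s a = √(gau a) := by
  apply le_antisymm (th_le_sqrt_gau hs a)
  rcases le_total (√‖a.2‖) ‖a.1‖ with h1 | h1
  · have h2 : gau a = ‖a.1‖ := max_eq_left h1
    rw [h2] at h ⊢
    rw [← al_of_ge hs h]
    exact le_max_left _ _
  · have h2 : gau a = √‖a.2‖ := max_eq_right h1
    rw [h2] at h ⊢
    have h3 : s ^ 4 ≤ ‖a.2‖ := by
      have h4 := pow_le_pow_left₀ (pow_nonneg hs 2) h 2
      rw [Real.sq_sqrt (norm_nonneg _), ← pow_mul] at h4
      exact h4
    rw [← be_of_ge hs h3]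
    exact le_max_right _ _

theorem th_of_small {s : ℝ} (hs : 0 < s) (a : Hs ι κ) (h : gau a ≤ s ^ 2) :
    th s a = max (‖a.1‖ / s) (‖a.2‖ / s ^ 3) := by
  rw [th, al_of_le hs ((norm_fst_le_gau a).trans h), be_of_le hs]
  refine (norm_snd_le_gau_sq a).trans ?_
  calc gau a ^ 2 ≤ (s ^ 2) ^ 2 := pow_le_pow_left₀ (gau_nonneg a) h 2
    _ = s ^ 4 := by rw [← pow_mul]

end Pool.UQC
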