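import Pool.Agent.UQC.FDef
import Pool.Agent.UQC.Geo
import Pool.Agent.UQC.Theta

/-!
MODULE FUp (problem MP_7936f4_al).  Upper estimates for the coordinates Fc.  COMPLETE PAPER PROOF.
Uses: Geo (sums over scales), Basic, Theta (statements).

Hypotheses: B takes values in [0,1], |B y j - B y' j| <= C1 ‖rel y y'‖ (Prod sup norm), C1 >= 1, η > 0.
Put r = 4^m > 0, a = rel y y', g = gau a.  rel (dl r y) (dl r y') = dl r a (Str.rel_dl), and
‖dl r a‖ = max (r |a.1|) (r^2 |a.2|) <= max (r g) ((r g)^2).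
(0) |B (dl r y) j - B (dl r y') j| <= min 1 (C1 r g): it is <= 1 since B is in [0,1]; if r g <= 1 then
    ‖dl r a‖ <= r g; if r g > 1 then 1 <= C1 r g.   [lemma B_diff]
    Hence 2^(-m) |B (dl (4^m) y) j - B (dl (4^m) y') j| <= min (2^(-m)) (2^m (C1 g))  (4^m = 2^m 2^m).
(1) 0 <= wt η s m <= 2^(-m) (s >= 0), wt η 0 m = 2^(-m), 2^(-m) - wt η s m = min (2^(-m)) (2^m (η s)^2),
    wt η s m = 0 if 2^m (η s) >= 1 (then 2^m (η s)^2 = 2^(-m) (2^m η s)^2 >= 2^(-m)).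
    dl r 0 = 0, rel 0 y = y: with y' = 0 in (0): |Ft B L η s y lj m| <= min (2^(-m)) (2^m (C1 gau y)); summable by
    summable_min.   [Ft_summable]
(2) Fc_upper: |Fc 0 y - Fc 0 y'| <= sum of |differences| <= sum min (2^(-m)) (2^m (C1 g)) <= 4 sqrt (C1 g)
    = 4 sqrt C1 sqrt g.
(3) Fc_s0: |Fc s y - Fc 0 y| <= sum |wt s m - wt 0 m| * 1 = sum min (2^(-m)) (2^m (η s)^2) <= 4 sqrt((η s)^2) = 4 η s.
(4) Fc_ss: by symmetry s <= s'.  |Fc s y - Fc s' y| <= sum (wt s m - wt s' m) (nonnegative, wt decreases in s).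
    If s' > 2 s: wt s m - wt s' m <= 2^(-m) - wt s' m = min (2^(-m)) (2^m (η s')^2), sum <= 4 η s' <= 8 η (s'-s).
    If s' <= 2 s (so s > 0 or s = s' = 0, trivial): term is 0 unless 2^m η s < 1, and always
    <= 2^m η^2 (s'^2 - s^2) <= 2^m η^2 * 3 s (s'-s)  (max 0 is 1-Lipschitz); by sum_lt with T = 1/(η s) the sum is
    <= 3 s η^2 (s'-s) * 2/(η s) = 6 η (s'-s).
(5) Fc_th: |Fc s y - Fc s y'| <= C1 (4 + 2/η + 2/η^3) th s (rel y y').
    If s^2 <= g (includes s = 0): wt s m <= 2^(-m), so as in (2) <= 4 sqrt C1 sqrt g <= 4 C1 sqrt g = 4 C1 th s a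
    (th_of_large).  If g < s^2 (so s > 0): terms vanish unless 2^m < 1/(η s), and are <= 2^(-m) C1 ‖dl (4^m) a‖
    <= C1 (2^m |a.1| + (2^m)^3 |a.2|).  By sum_lt and sum_lt_cube the sum is <= C1 (2 |a.1|/(η s) + 2 |a.2|/(η s)^3)
    <= C1 (2/η + 2/η^3) max (|a.1|/s) (|a.2|/s^3) = C1 (2/η+2/η^3) th s a (th_of_small).
-/

namespace Pool.UQC

variable {ι κ : Type} [Fintype ι] [Fintype κ] (S : Str ι κ)

/-- |B (dl r y) j - B (dl r y') j| <= min 1 (C1 r g). -/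
theorem B_diff {J : Type} (B : Hs ι κ → J → ℝ) (C1 : ℝ) (hC1 : 1 ≤ C1)
    (h01 : ∀ y j, 0 ≤ B y j ∧ B y j ≤ 1)
    (hB : ∀ y y' j, |B y j - B y' j| ≤ C1 * ‖S.rel y y'‖)
    (r : ℝ) (hr : 0 ≤ r) (y y' : Hs ι κ) (j : J) :
    |B (dl r y) j - B (dl r y') j| ≤ min 1 (C1 * (r * gau (S.rel y y'))) := by
  have h1 : |B (dl r y) j - B (dl r y') j| ≤ 1 := by
    have ha := h01 (dl r y) j
    have hb := h01 (dl r y') j
    rw [abs_le]
    constructor <;> linarith [ha.1, ha.2, hb.1, hb.2]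
  refine le_min h1 ?_
  have hg := gau_nonneg (S.rel y y')
  have hrg : 0 ≤ r * gau (S.rel y y') := mul_nonneg hr hg
  by_cases h2 : r * gau (S.rel y y') ≤ 1
  · refine (hB _ _ j).trans ?_
    rw [S.rel_dl]
    have h3 : ‖dl r (S.rel y y')‖ ≤ r * gau (S.rel y y') := by
      rw [Prod.norm_def]
      apply max_le
      · change ‖r • (S.rel y y').1‖ ≤ _
        rw [norm_smul, Real.norm_eq_abs, abs_of_nonneg hr]
        exact mul_le_mul_of_nonneg_left (norm_fst_le_gau _) hr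
      · change ‖r ^ 2 • (S.rel y y').2‖ ≤ _
        rw [norm_smul, Real.norm_eq_abs, abs_of_nonneg (pow_nonneg hr 2)]
        calc r ^ 2 * ‖(S.rel y y').2‖ ≤ r ^ 2 * gau (S.rel y y') ^ 2 :=
              mul_le_mul_of_nonneg_left (norm_snd_le_gau_sq _) (pow_nonneg hr 2)
          _ = (r * gau (S.rel y y')) * (r * gau (S.rel y y')) := by ring
          _ ≤ (r * gau (S.rel y y')) * 1 := mul_le_mul_of_nonneg_left h2 hrg
          _ = _ := mul_one _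
    exact mul_le_mul_of_nonneg_left h3 (by linarith)
  · have h3 : 1 ≤ r * gau (S.rel y y') := (not_le.1 h2).le
    refine h1.trans ?_
    nlinarith

theorem wt_nonneg (η s : ℝ) (m : ℤ) : 0 ≤ wt η s m := le_max_left _ _

theorem two_zpow_pos (m : ℤ) : (0 : ℝ) < (2 : ℝ) ^ m := zpow_pos (by norm_num) m

theorem wt_le (η s : ℝ) (m : ℤ) : wt η s m ≤ (2 : ℝ) ^ (-m) := by
  rw [wt]
  apply max_le (two_zpow_pos _).le
  have : 0 ≤ (2 : ℝ) ^ m * (η * s) ^ 2 := mul_nonneg (two_zpow_pos m).le (sq_nonneg _)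
  linarith

theorem wt_zero (η : ℝ) (m : ℤ) : wt η 0 m = (2 : ℝ) ^ (-m) := by
  rw [wt, mul_zero, zero_pow (by norm_num), mul_zero, sub_zero]
  exact max_eq_right (two_zpow_pos _).le

theorem sub_wt (η s : ℝ) (m : ℤ) :
    (2 : ℝ) ^ (-m) - wt η s m = min ((2 : ℝ) ^ (-m)) ((2 : ℝ) ^ m * (η * s) ^ 2) := by
  rw [wt]
  rcases le_total 0 ((2 : ℝ) ^ (-m) - (2 : ℝ) ^ m * (η * s) ^ 2) with h | h
  · rw [max_eq_right h, min_eq_right (by linarith)]
    ring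
  · rw [max_eq_left h, min_eq_left (by linarith)]
    ring

theorem wt_eq_zero {η s : ℝ} (hη : 0 < η) (hs : 0 < s) (m : ℤ) (h : 1 / (η * s) ≤ (2 : ℝ) ^ m) :
    wt η s m = 0 := by
  have h2 := two_zpow_pos m
  have h3 : 0 < η * s := mul_pos hη hs
  have h1 : 1 ≤ (2 : ℝ) ^ m * (η * s) := by
    rwa [div_le_iff₀ h3] at h
  rw [wt]
  apply max_eq_left
  have h4 : (2 : ℝ) ^ (-m) * (2 : ℝ) ^ m = 1 := by
    rw [← zpow_add₀ (by norm_num), neg_add_cancel, zpow_zero]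
  have h5 : (2 : ℝ) ^ m * (η * s) ^ 2 = (2 : ℝ) ^ (-m) * ((2 : ℝ) ^ m * (η * s)) ^ 2 := by
    calc (2 : ℝ) ^ m * (η * s) ^ 2 = ((2 : ℝ) ^ (-m) * (2 : ℝ) ^ m) * ((2 : ℝ) ^ m * (η * s) ^ 2) := by
          rw [h4, one_mul]
      _ = _ := by ring
  rw [h5]
  have h6 : 1 ≤ ((2 : ℝ) ^ m * (η * s)) ^ 2 := one_le_pow₀ h1
  have h7 := two_zpow_pos (-m)
  nlinarith

theorem wt_anti {η s s' : ℝ} (hη : 0 < η) (hs : 0 ≤ s) (h : s ≤ s') (m : ℤ) :
    wt η s' m ≤ wt η s m := by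
  rw [wt, wt]
  apply max_le_max le_rfl
  have h1 : (η * s) ^ 2 ≤ (η * s') ^ 2 := by
    apply pow_le_pow_left₀ (by positivity)
    exact mul_le_mul_of_nonneg_left h hη.le
  have h2 := mul_le_mul_of_nonneg_left h1 (two_zpow_pos m).le
  linarith

theorem wt_sub_le {η s s' : ℝ} (m : ℤ) (hη : 0 < η) (hs : 0 ≤ s) (h : s ≤ s') :
    wt η s m - wt η s' m ≤ (2 : ℝ) ^ m * (η ^ 2 * (s' ^ 2 - s ^ 2)) := by
  have h1 : 0 ≤ (2 : ℝ) ^ m * (η ^ 2 * (s' ^ 2 - s ^ 2)) := by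
    have h2 : s ^ 2 ≤ s' ^ 2 := pow_le_pow_left₀ hs h 2
    have := two_zpow_pos m
    have : 0 ≤ s' ^ 2 - s ^ 2 := by linarith
    positivity
  rw [wt, wt]
  have h3 := le_max_left (0 : ℝ) ((2 : ℝ) ^ (-m) - (2 : ℝ) ^ m * (η * s') ^ 2)
  have h4 := le_max_right (0 : ℝ) ((2 : ℝ) ^ (-m) - (2 : ℝ) ^ m * (η * s') ^ 2)
  rw [sub_le_iff_le_add]
  apply max_le
  · linarith
  · have h5 : (2 : ℝ) ^ m * (η * s') ^ 2 - (2 : ℝ) ^ m * (η * s) ^ 2 =
      (2 : ℝ) ^ m * (η ^ 2 * (s' ^ 2 - s ^ 2)) := by ring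
    linarith

theorem two_neg_four (m : ℤ) : (2 : ℝ) ^ (-m) * (4 : ℝ) ^ m = (2 : ℝ) ^ m := by
  have h : (4 : ℝ) ^ m = (2 : ℝ) ^ m * (2 : ℝ) ^ m := by
    rw [← mul_zpow]
    norm_num
  rw [h, ← mul_assoc, ← zpow_add₀ (by norm_num : (2 : ℝ) ≠ 0), neg_add_cancel, zpow_zero, one_mul]

theorem two_neg_four_sq (m : ℤ) : (2 : ℝ) ^ (-m) * ((4 : ℝ) ^ m) ^ 2 = ((2 : ℝ) ^ m) ^ 3 := by
  have h : (4 : ℝ) ^ m = (2 : ℝ) ^ m * (2 : ℝ) ^ m := by
    rw [← mul_zpow]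
    norm_num
  rw [pow_two, ← mul_assoc, two_neg_four, h]
  ring

theorem dl_zero (r : ℝ) : dl r (0 : Hs ι κ) = 0 := by
  ext i <;> simp [dl]

theorem scale_B_diff {J : Type} (B : Hs ι κ → J → ℝ) (C1 : ℝ) (hC1 : 1 ≤ C1)
    (h01 : ∀ y j, 0 ≤ B y j ∧ B y j ≤ 1)
    (hB : ∀ y y' j, |B y j - B y' j| ≤ C1 * ‖S.rel y y'‖)
    (m : ℤ) (y y' : Hs ι κ) (j : J) :
    (2 : ℝ) ^ (-m) * |B (dl ((4 : ℝ) ^ m) y) j - B (dl ((4 : ℝ) ^ m) y') j| ≤
      min ((2 : ℝ) ^ (-m)) ((2 : ℝ) ^ m * (C1 * gau (S.rel y y'))) := by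
  have h1 := B_diff S B C1 hC1 h01 hB ((4 : ℝ) ^ m) (zpow_pos (by norm_num) m).le y y' j
  have h2 := mul_le_mul_of_nonneg_left h1 (two_zpow_pos (-m)).le
  refine h2.trans ?_
  rw [mul_min_of_nonneg _ _ (two_zpow_pos (-m)).le, mul_one]
  apply le_of_eq
  congr 1
  calc (2 : ℝ) ^ (-m) * (C1 * ((4 : ℝ) ^ m * gau (S.rel y y')))
      = ((2 : ℝ) ^ (-m) * (4 : ℝ) ^ m) * (C1 * gau (S.rel y y')) := by ring
    _ = _ := by rw [two_neg_four]

theorem Ft_summable {J : Type} (B : Hs ι κ → J → ℝ) (C1 : ℝ) (hC1 : 1 ≤ C1)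
    (h01 : ∀ y j, 0 ≤ B y j ∧ B y j ≤ 1)
    (hB : ∀ y y' j, |B y j - B y' j| ≤ C1 * ‖S.rel y y'‖)
    (L : ℕ) (η s : ℝ) (y : Hs ι κ) (lj : ZMod L × J) :
    Summable (Ft B L η s y lj) := by
  have hc : 0 ≤ C1 * gau (S.rel y 0) := mul_nonneg (by linarith) (gau_nonneg _)
  refine Summable.of_norm_bounded (summable_min (C1 * gau (S.rel y 0)) hc) ?_
  intro m
  have h0 : 0 ≤ min ((2 : ℝ) ^ (-m)) ((2 : ℝ) ^ m * (C1 * gau (S.rel y 0))) :=
    le_min (two_zpow_pos _).le (mul_nonneg (two_zpow_pos _).le hc)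
  rw [Ft]
  split_ifs with h
  · have h1 := scale_B_diff S B C1 hC1 h01 hB m y 0 lj.2
    rw [dl_zero] at h1
    rw [norm_mul, Real.norm_eq_abs, Real.norm_eq_abs, abs_of_nonneg (wt_nonneg η s m)]
    exact (mul_le_mul_of_nonneg_right (wt_le η s m) (abs_nonneg _)).trans h1
  · rw [norm_zero]
    exact h0

theorem tsum_sub_le {f f' g : ℤ → ℝ} {a : ℝ} (hf : Summable f) (hf' : Summable f')
    (hg : Summable g) (h : ∀ m, |f m - f' m| ≤ g m) (ha : ∑' m, g m ≤ a) :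
    |∑' m, f m - ∑' m, f' m| ≤ a := by
  rw [← hf.tsum_sub hf', ← Real.norm_eq_abs]
  exact (tsum_of_norm_bounded hg.hasSum h).trans ha

theorem Ft_diff_y {J : Type} (B : Hs ι κ → J → ℝ) (C1 : ℝ) (hC1 : 1 ≤ C1)
    (h01 : ∀ y j, 0 ≤ B y j ∧ B y j ≤ 1)
    (hB : ∀ y y' j, |B y j - B y' j| ≤ C1 * ‖S.rel y y'‖)
    (L : ℕ) (η s : ℝ) (y y' : Hs ι κ) (lj : ZMod L × J) (m : ℤ) :
    |Ft B L η s y lj m - Ft B L η s y' lj m| ≤
      min ((2 : ℝ) ^ (-m)) ((2 : ℝ) ^ m * (C1 * gau (S.rel y y'))) := by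
  have hc : 0 ≤ C1 * gau (S.rel y y') := mul_nonneg (by linarith) (gau_nonneg _)
  have h0 : 0 ≤ min ((2 : ℝ) ^ (-m)) ((2 : ℝ) ^ m * (C1 * gau (S.rel y y'))) :=
    le_min (two_zpow_pos _).le (mul_nonneg (two_zpow_pos _).le hc)
  rw [Ft, Ft]
  split_ifs with h
  · rw [← mul_sub, sub_sub_sub_cancel_right, abs_mul, abs_of_nonneg (wt_nonneg η s m)]
    exact (mul_le_mul_of_nonneg_right (wt_le η s m) (abs_nonneg _)).trans
      (scale_B_diff S B C1 hC1 h01 hB m y y' lj.2)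
  · rw [sub_zero, abs_zero]
    exact h0

theorem Ft_diff_s {J : Type} (B : Hs ι κ → J → ℝ) (h01 : ∀ y j, 0 ≤ B y j ∧ B y j ≤ 1)
    (L : ℕ) (η s s' : ℝ) (y : Hs ι κ) (lj : ZMod L × J) (m : ℤ) :
    |Ft B L η s y lj m - Ft B L η s' y lj m| ≤ |wt η s m - wt η s' m| := by
  rw [Ft, Ft]
  split_ifs with h
  · rw [← sub_mul, abs_mul]
    have ha := h01 (dl ((4 : ℝ) ^ m) y) lj.2
    have hb := h01 0 lj.2
    have h1 : |B (dl ((4 : ℝ) ^ m) y) lj.2 - B 0 lj.2| ≤ 1 := by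
      rw [abs_le]
      constructor <;> linarith [ha.1, ha.2, hb.1, hb.2]
    calc _ ≤ |wt η s m - wt η s' m| * 1 := mul_le_mul_of_nonneg_left h1 (abs_nonneg _)
      _ = _ := mul_one _
  · rw [sub_zero, abs_zero]
    exact abs_nonneg _

theorem Fc_large {J : Type} (B : Hs ι κ → J → ℝ) (C1 : ℝ) (hC1 : 1 ≤ C1)
    (h01 : ∀ y j, 0 ≤ B y j ∧ B y j ≤ 1)
    (hB : ∀ y y' j, |B y j - B y' j| ≤ C1 * ‖S.rel y y'‖)
    (L : ℕ) (η s : ℝ) (y y' : Hs ι κ) (lj : ZMod L × J) :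
    |Fc B L η s y lj - Fc B L η s y' lj| ≤ 4 * √C1 * √(gau (S.rel y y')) := by
  have hc : 0 ≤ C1 * gau (S.rel y y') := mul_nonneg (by linarith) (gau_nonneg _)
  rw [Fc, Fc]
  refine tsum_sub_le (Ft_summable S B C1 hC1 h01 hB L η s y lj)
    (Ft_summable S B C1 hC1 h01 hB L η s y' lj) (summable_min _ hc)
    (Ft_diff_y S B C1 hC1 h01 hB L η s y y' lj) ?_
  refine (tsum_min_le _ hc).trans ?_
  rw [Real.sqrt_mul (by linarith), mul_assoc]

theorem Fc_upper {J : Type} (B : Hs ι κ → J → ℝ) (C1 : ℝ) (hC1 : 1 ≤ C1)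
    (h01 : ∀ y j, 0 ≤ B y j ∧ B y j ≤ 1)
    (hB : ∀ y y' j, |B y j - B y' j| ≤ C1 * ‖S.rel y y'‖)
    (L : ℕ) (η : ℝ) (y y' : Hs ι κ) (lj : ZMod L × J) :
    |Fc B L η 0 y lj - Fc B L η 0 y' lj| ≤ 4 * √C1 * √(gau (S.rel y y')) :=
  Fc_large S B C1 hC1 h01 hB L η 0 y y' lj

theorem Fc_s0 {J : Type} (B : Hs ι κ → J → ℝ) (C1 : ℝ) (hC1 : 1 ≤ C1)
    (h01 : ∀ y j, 0 ≤ B y j ∧ B y j ≤ 1)
    (hB : ∀ y y' j, |B y j - B y' j| ≤ C1 * ‖S.rel y y'‖)
    (L : ℕ) (η : ℝ) (hη : 0 < η) (s : ℝ) (hs : 0 ≤ s) (y : Hs ι κ) (lj : ZMod L × J) :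
    |Fc B L η s y lj - Fc B L η 0 y lj| ≤ 4 * η * s := by
  rw [Fc, Fc]
  refine tsum_sub_le (Ft_summable S B C1 hC1 h01 hB L η s y lj)
    (Ft_summable S B C1 hC1 h01 hB L η 0 y lj) (summable_min ((η * s) ^ 2) (sq_nonneg _)) ?_ ?_
  · intro m
    refine (Ft_diff_s B h01 L η s 0 y lj m).trans ?_
    rw [wt_zero, abs_sub_comm, abs_of_nonneg (by linarith [wt_le η s m]), sub_wt]
  · refine (tsum_min_le _ (sq_nonneg _)).trans ?_
    rw [Real.sqrt_sq (mul_nonneg hη.le hs), mul_assoc]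

theorem Fc_ss_aux {J : Type} (B : Hs ι κ → J → ℝ) (C1 : ℝ) (hC1 : 1 ≤ C1)
    (h01 : ∀ y j, 0 ≤ B y j ∧ B y j ≤ 1)
    (hB : ∀ y y' j, |B y j - B y' j| ≤ C1 * ‖S.rel y y'‖)
    (L : ℕ) (η : ℝ) (hη : 0 < η) (s s' : ℝ) (hs : 0 ≤ s) (hss : s ≤ s') (y : Hs ι κ)
    (lj : ZMod L × J) :
    |Fc B L η s y lj - Fc B L η s' y lj| ≤ 8 * η * (s' - s) := by
  have hd : ∀ m, |wt η s m - wt η s' m| = wt η s m - wt η s' m := by
    intro m
    exact abs_of_nonneg (by linarith [wt_anti hη hs hss m])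
  rw [Fc, Fc]
  by_cases h2 : 2 * s < s'
  · refine tsum_sub_le (Ft_summable S B C1 hC1 h01 hB L η s y lj)
      (Ft_summable S B C1 hC1 h01 hB L η s' y lj) (summable_min ((η * s') ^ 2) (sq_nonneg _)) ?_ ?_
    · intro m
      refine (Ft_diff_s B h01 L η s s' y lj m).trans ?_
      rw [hd, ← sub_wt]
      linarith [wt_le η s m]
    · refine (tsum_min_le _ (sq_nonneg _)).trans ?_
      rw [Real.sqrt_sq (mul_nonneg hη.le (hs.trans hss))]
      nlinarith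
  · have h2' : s' ≤ 2 * s := not_lt.1 h2
    rcases hs.eq_or_lt with h0 | h0
    · have h3 : s' = s := by linarith
      rw [h3, sub_self, sub_self, abs_zero, mul_zero]
    · have hηs : 0 < η * s := mul_pos hη h0
      obtain ⟨hS1, hS2⟩ := sum_lt (1 / (η * s)) (by positivity)
      have hK : 0 ≤ 3 * s * η ^ 2 * (s' - s) := by
        have : 0 ≤ s' - s := by linarith
        positivity
      refine tsum_sub_le (Ft_summable S B C1 hC1 h01 hB L η s y lj)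
        (Ft_summable S B C1 hC1 h01 hB L η s' y lj)
        (hS1.mul_right (3 * s * η ^ 2 * (s' - s))) ?_ ?_
      · intro m
        refine (Ft_diff_s B h01 L η s s' y lj m).trans ?_
        rw [hd]
        split_ifs with h4
        · refine (wt_sub_le m hη hs hss).trans ?_
          apply mul_le_mul_of_nonneg_left _ (two_zpow_pos m).le
          have h5 : s' ^ 2 - s ^ 2 = (s' + s) * (s' - s) := by ring
          rw [h5]
          have h6 : (s' + s) * (s' - s) ≤ (3 * s) * (s' - s) :=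
            mul_le_mul_of_nonneg_right (by linarith) (by linarith)
          calc η ^ 2 * ((s' + s) * (s' - s)) ≤ η ^ 2 * ((3 * s) * (s' - s)) :=
                mul_le_mul_of_nonneg_left h6 (sq_nonneg _)
            _ = 3 * s * η ^ 2 * (s' - s) := by ring
        · have h4' := not_lt.1 h4
          rw [wt_eq_zero hη h0 m h4', wt_eq_zero hη (h0.trans_le hss) m, sub_zero, zero_mul]
          refine le_trans ?_ h4'
          apply one_div_le_one_div_of_le hηs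
          exact mul_le_mul_of_nonneg_left hss hη.le
      · rw [tsum_mul_right]
        refine (mul_le_mul_of_nonneg_right hS2 hK).trans ?_
        have h7 : 2 * (1 / (η * s)) * (3 * s * η ^ 2 * (s' - s)) = 6 * η * (s' - s) := by
          field_simp
          ring
        rw [h7]
        have : 0 ≤ s' - s := by linarith
        nlinarith [mul_nonneg hη.le this]

theorem Fc_ss {J : Type} (B : Hs ι κ → J → ℝ) (C1 : ℝ) (hC1 : 1 ≤ C1)
    (h01 : ∀ y j, 0 ≤ B y j ∧ B y j ≤ 1)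
    (hB : ∀ y y' j, |B y j - B y' j| ≤ C1 * ‖S.rel y y'‖)
    (L : ℕ) (η : ℝ) (hη : 0 < η) (s s' : ℝ) (hs : 0 ≤ s) (hs' : 0 ≤ s') (y : Hs ι κ)
    (lj : ZMod L × J) :
    |Fc B L η s y lj - Fc B L η s' y lj| ≤ 8 * η * |s - s'| := by
  rcases le_total s s' with h | h
  · rw [abs_sub_comm s s', abs_of_nonneg (by linarith : 0 ≤ s' - s)]
    exact Fc_ss_aux S B C1 hC1 h01 hB L η hη s s' hs h y lj
  · rw [abs_of_nonneg (by linarith : 0 ≤ s - s'), abs_sub_comm]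
    exact Fc_ss_aux S B C1 hC1 h01 hB L η hη s' s hs' h y lj

theorem Fc_th {J : Type} (B : Hs ι κ → J → ℝ) (C1 : ℝ) (hC1 : 1 ≤ C1)
    (h01 : ∀ y j, 0 ≤ B y j ∧ B y j ≤ 1)
    (hB : ∀ y y' j, |B y j - B y' j| ≤ C1 * ‖S.rel y y'‖)
    (L : ℕ) (η : ℝ) (hη : 0 < η) (s : ℝ) (hs : 0 ≤ s) (y y' : Hs ι κ) (lj : ZMod L × J) :
    |Fc B L η s y lj - Fc B L η s y' lj| ≤
      C1 * (4 + 2 / η + 2 / η ^ 3) * th s (S.rel y y') := by
  have hth := th_nonneg hs (S.rel y y')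
  have h1η : 0 ≤ 2 / η := by positivity
  have h2η : 0 ≤ 2 / η ^ 3 := by positivity
  by_cases hg : s ^ 2 ≤ gau (S.rel y y')
  · refine (Fc_large S B C1 hC1 h01 hB L η s y y' lj).trans ?_
    rw [← th_of_large hs _ hg]
    apply mul_le_mul_of_nonneg_right _ hth
    have h3 : √C1 ≤ C1 := by
      rw [Real.sqrt_le_left (by linarith)]
      nlinarith
    nlinarith
  · have hg' := not_le.1 hg
    have h0 : 0 < s := by
      rcases hs.eq_or_lt with h | h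
      · exfalso
        rw [← h] at hg'
        have := gau_nonneg (S.rel y y')
        norm_num at hg'
        linarith
      · exact h
    have hηs : 0 < η * s := mul_pos hη h0
    obtain ⟨hS1, hS2⟩ := sum_lt (1 / (η * s)) (by positivity)
    obtain ⟨hS3, hS4⟩ := sum_lt_cube (1 / (η * s)) (by positivity)
    have ha1 := norm_nonneg (S.rel y y').1
    have ha2 := norm_nonneg (S.rel y y').2
    have hC0 : 0 ≤ C1 := by linarith
    rw [Fc, Fc]
    refine tsum_sub_le (Ft_summable S B C1 hC1 h01 hB L η s y lj)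
      (Ft_summable S B C1 hC1 h01 hB L η s y' lj)
      ((hS1.mul_right (C1 * ‖(S.rel y y').1‖)).add (hS3.mul_right (C1 * ‖(S.rel y y').2‖))) ?_ ?_
    · intro m
      rw [Ft, Ft]
      by_cases h4 : (2 : ℝ) ^ m < 1 / (η * s)
      · rw [if_pos h4, if_pos h4]
        have hpos : 0 ≤ (2 : ℝ) ^ m * (C1 * ‖(S.rel y y').1‖) +
            ((2 : ℝ) ^ m) ^ 3 * (C1 * ‖(S.rel y y').2‖) := by
          have := two_zpow_pos m
          positivity
        split_ifs with h5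
        · rw [← mul_sub, sub_sub_sub_cancel_right, abs_mul, abs_of_nonneg (wt_nonneg η s m)]
          refine (mul_le_mul (wt_le η s m) (hB _ _ _) (abs_nonneg _) (two_zpow_pos _).le).trans ?_
          rw [S.rel_dl]
          have h4m : (0 : ℝ) ≤ (4 : ℝ) ^ m := (zpow_pos (by norm_num) m).le
          have h6 : ‖dl ((4 : ℝ) ^ m) (S.rel y y')‖ ≤
              (4 : ℝ) ^ m * ‖(S.rel y y').1‖ + ((4 : ℝ) ^ m) ^ 2 * ‖(S.rel y y').2‖ := by
            rw [Prod.norm_def]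
            apply max_le
            · change ‖((4 : ℝ) ^ m) • (S.rel y y').1‖ ≤ _
              rw [norm_smul, Real.norm_eq_abs, abs_of_nonneg h4m]
              have : 0 ≤ ((4 : ℝ) ^ m) ^ 2 * ‖(S.rel y y').2‖ := by positivity
              linarith
            · change ‖((4 : ℝ) ^ m) ^ 2 • (S.rel y y').2‖ ≤ _
              rw [norm_smul, Real.norm_eq_abs, abs_of_nonneg (pow_nonneg h4m 2)]
              have : 0 ≤ (4 : ℝ) ^ m * ‖(S.rel y y').1‖ := by positivity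
              linarith
          calc (2 : ℝ) ^ (-m) * (C1 * ‖dl ((4 : ℝ) ^ m) (S.rel y y')‖)
              ≤ (2 : ℝ) ^ (-m) * (C1 * ((4 : ℝ) ^ m * ‖(S.rel y y').1‖ +
                ((4 : ℝ) ^ m) ^ 2 * ‖(S.rel y y').2‖)) :=
                mul_le_mul_of_nonneg_left (mul_le_mul_of_nonneg_left h6 hC0) (two_zpow_pos _).le
            _ = ((2 : ℝ) ^ (-m) * (4 : ℝ) ^ m) * (C1 * ‖(S.rel y y').1‖) +
                ((2 : ℝ) ^ (-m) * ((4 : ℝ) ^ m) ^ 2) * (C1 * ‖(S.rel y y').2‖) := by ring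
            _ = _ := by rw [two_neg_four, two_neg_four_sq]
        · rw [sub_zero, abs_zero]
          exact hpos
      · have h4' := not_lt.1 h4
        rw [if_neg h4, if_neg h4, wt_eq_zero hη h0 m h4', zero_mul, zero_mul, zero_mul, zero_mul,
          ite_self, sub_zero, abs_zero, add_zero]
    · rw [(hS1.mul_right _).tsum_add (hS3.mul_right _), tsum_mul_right, tsum_mul_right]
      have h7 := mul_le_mul_of_nonneg_right hS2 (mul_nonneg hC0 ha1)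
      have h8 := mul_le_mul_of_nonneg_right hS4 (mul_nonneg hC0 ha2)
      rw [th_of_small h0 _ hg'.le]
      set u := ‖(S.rel y y').1‖ with hu
      set v := ‖(S.rel y y').2‖ with hv
      have h9 : 2 * (1 / (η * s)) * (C1 * u) = C1 * (2 / η) * (u / s) := by
        field_simp
      have h10 : 2 * (1 / (η * s)) ^ 3 * (C1 * v) = C1 * (2 / η ^ 3) * (v / s ^ 3) := by
        field_simp
      have h11 : u / s ≤ max (u / s) (v / s ^ 3) := le_max_left _ _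
      have h12 : v / s ^ 3 ≤ max (u / s) (v / s ^ 3) := le_max_right _ _
      have h13 : 0 ≤ max (u / s) (v / s ^ 3) := le_trans (by positivity) h11
      have h14 := mul_le_mul_of_nonneg_left h11 (mul_nonneg hC0 h1η)
      have h15 := mul_le_mul_of_nonneg_left h12 (mul_nonneg hC0 h2η)
      have h16 : 0 ≤ C1 * 4 * max (u / s) (v / s ^ 3) := by positivity
      calc _ ≤ 2 * (1 / (η * s)) * (C1 * u) + 2 * (1 / (η * s)) ^ 3 * (C1 * v) := add_le_add h7 h8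
        _ ≤ C1 * (2 / η) * max (u / s) (v / s ^ 3) + C1 * (2 / η ^ 3) * max (u / s) (v / s ^ 3) := by
            rw [h9, h10]
            exact add_le_add h14 h15
        _ ≤ C1 * (4 + 2 / η + 2 / η ^ 3) * max (u / s) (v / s ^ 3) := by
            have : C1 * (4 + 2 / η + 2 / η ^ 3) * max (u / s) (v / s ^ 3) =
              C1 * 4 * max (u / s) (v / s ^ 3) + (C1 * (2 / η) * max (u / s) (v / s ^ 3) +
                C1 * (2 / η ^ 3) * max (u / s) (v / s ^ 3)) := by ring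
            linarith

end Pool.UQC
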