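import Pool.Agent.UQC.RDef
import Pool.Agent.UQC.Theta

/-!
MODULE Rho (problem MP_7936f4_al).  Local comparison of De0 with the kernel rh.  COMPLETE PAPER PROOF.
Uses Theta (statements).

Notation: p = (x,V), q = (x2,V2), a = rel x x2 = (xi, tau), X = nsq xi, T = nsq tau, b = |V|^2+|V2|^2,
I = card ι + 1, J = card κ + 1.  |xi|^2 <= X <= I |xi|^2, |tau|^2 <= T <= J |tau|^2 (sup norms).
sq V = V/sqrt|V|, |sq V| = sqrt |V|, inverse map w -> |w| w (so sq is a bijection).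

sq_sub_le: |sq V - sq V2| <= 2 |V-V2|/sqrt|V| for V ≠ 0: if V2 = 0, it is sqrt|V| = |V|/sqrt|V|.  Otherwise
  sq V - sq V2 = (V-V2)/sqrt|V| + V2 (1/sqrt|V| - 1/sqrt|V2|), and |V2| |sqrt|V2| - sqrt|V|| / (sqrt|V| sqrt|V2|)
  = sqrt|V2| ||V2|-|V|| / ((sqrt|V|+sqrt|V2|) sqrt|V|) <= |V-V2|/sqrt|V|.
le_sq_sub: |V-V2| <= (sqrt|V| + sqrt|V2|) |sq V - sq V2|: V = w|w|, V2 = w2|w2|, w = sq V, w2 = sq V2,
  |w|w| - w2|w2|| <= |w-w2||w| + |w2|||w|-|w2||.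

IDENTITY (I): rh p q = |V-V2|^2 + X + T/(sqrt((X+b)^2+T) + X + b) (if the denominator is 0 then V = V2 = 0, X = T = 0
  and all is 0): b - 2<V,V2> = |V-V2|^2 and sqrt((X+b)^2+T) - (X+b) = T/(sqrt(..)+X+b).

rho0: V = 0.  rh = sqrt((X+|V2|^2)^2+T).  Let m = max (gau a) |V2|, m^2 = max |xi|^2 |tau| |V2|^2.
  Lower: rh >= X + |V2|^2 >= max(|xi|^2,|V2|^2), rh >= sqrt T >= |tau|: so m^2 <= rh.
  Upper: X + |V2|^2 <= (I+1) m^2, T <= J m^4: rh <= (I+1+J) m^2   (sqrt(A^2+T) <= A + sqrt T, sqrt J <= J).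
  So sqrt m <= sqrt(sqrt rh) <= (I+1+J) sqrt m.
  De0 (x,0) (x2, sq V2) = s + th s a, s = sqrt|V2| (max 0 s = s, |sq V2| = s).  th s a <= sqrt(gau a) <= sqrt m, so
  De0 <= 2 sqrt m.  And De0 >= sqrt m: if m = |V2| clear; if m = gau a > |V2| = s^2 then th s a = sqrt(gau a)
  (th_of_large).
rho1: V ≠ 0, |V2 - V| <= |V|/2, gau a <= |V|.  Let v = |V|; |V2| <= 3v/2, v^2 <= b <= 4 v^2, X <= I v^2, T <= J v^4.
  Denominator in (I): between 2 v^2 and (2(I+4) + J) v^2 =: c1 v^2.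
  So with Q := |V-V2|^2 + X + T/v^2:   Q/c1 <= rh <= Q  (c1 >= 1), and Q is comparable with
  (|V-V2| + |xi| + |tau|/v)^2: Q <= (I+J)(..)^2, (..)^2 <= 3 Q.
  s = max (sqrt v) (sqrt|V2|): v <= s^2 <= 3v/2 <= 4 v; gau a <= v <= s^2: th s a = max (|xi|/s) (|tau|/s^3)
  (th_of_small).  sqrt v th s a is between (1/8) and 1 times max (|xi|) (|tau|/v)  (sqrt v/s in [1/2,1],
  sqrt v/s^3 = (1/v)(sqrt v/s)^3).
  sqrt v |sq V - sq V2| <= 2|V-V2| and >= |V-V2|/3  (sqrt v + sqrt|V2| <= 3 sqrt v).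
  So sqrt v De0 is comparable with |V-V2| + |xi| + |tau|/v.
-/

namespace Pool.UQC

variable {ι κ : Type} [Fintype ι] [Fintype κ] (S : Str ι κ)
  {E : Type} [NormedAddCommGroup E] [InnerProductSpace ℝ E]

private lemma urho_smul_sq (v : E) : √‖v‖ • sq v = v := by
  unfold sq
  by_cases hv : v = 0
  · subst hv
    simp
  · have h1 : 0 < √‖v‖ := Real.sqrt_pos.2 (norm_pos_iff.2 hv)
    rw [smul_smul, mul_inv_cancel₀ h1.ne', one_smul]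

theorem nsq_nonneg {ι : Type} [Fintype ι] (x : ι → ℝ) : 0 ≤ nsq x := by
  exact Finset.sum_nonneg fun i _ => sq_nonneg (x i)

theorem norm_sq_le_nsq {ι : Type} [Fintype ι] (x : ι → ℝ) : ‖x‖ ^ 2 ≤ nsq x := by
  have h0 := nsq_nonneg x
  have h1 : ‖x‖ ≤ √(nsq x) := by
    rw [pi_norm_le_iff_of_nonneg (Real.sqrt_nonneg _)]
    intro i
    rw [Real.norm_eq_abs]
    apply Real.abs_le_sqrt
    exact Finset.single_le_sum (f := fun i => x i ^ 2) (fun i _ => sq_nonneg (x i))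
      (Finset.mem_univ i)
  calc ‖x‖ ^ 2 ≤ √(nsq x) ^ 2 := pow_le_pow_left₀ (norm_nonneg _) h1 2
    _ = nsq x := Real.sq_sqrt h0

theorem nsq_le {ι : Type} [Fintype ι] (x : ι → ℝ) : nsq x ≤ (Fintype.card ι + 1) * ‖x‖ ^ 2 := by
  have h1 : nsq x ≤ ∑ _i : ι, ‖x‖ ^ 2 := by
    refine Finset.sum_le_sum fun i _ => ?_
    have h2 : |x i| ≤ ‖x‖ := by
      have := norm_le_pi_norm x i
      rwa [Real.norm_eq_abs] at this
    rw [← sq_abs (x i)]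
    exact pow_le_pow_left₀ (abs_nonneg _) h2 2
  rw [Finset.sum_const, Finset.card_univ, nsmul_eq_mul] at h1
  nlinarith [sq_nonneg ‖x‖]

theorem norm_sq_map (v : E) : ‖sq v‖ = √‖v‖ := by
  unfold sq
  rw [norm_smul, norm_inv, Real.norm_of_nonneg (Real.sqrt_nonneg _), inv_mul_eq_div,
    Real.div_sqrt]

omit [InnerProductSpace ℝ E] in
private lemma urho_sqrt_sub (v w : E) : |√‖v‖ - √‖w‖| * √‖w‖ ≤ ‖v - w‖ := by
  have a0 := Real.sqrt_nonneg ‖v‖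
  have b0 := Real.sqrt_nonneg ‖w‖
  have a2 := Real.mul_self_sqrt (norm_nonneg v)
  have b2 := Real.mul_self_sqrt (norm_nonneg w)
  calc |√‖v‖ - √‖w‖| * √‖w‖ ≤ |√‖v‖ - √‖w‖| * (√‖v‖ + √‖w‖) :=
        mul_le_mul_of_nonneg_left (by linarith) (abs_nonneg _)
    _ = |√‖v‖ - √‖w‖| * |√‖v‖ + √‖w‖| := by rw [abs_of_nonneg (add_nonneg a0 b0)]
    _ = |(√‖v‖ - √‖w‖) * (√‖v‖ + √‖w‖)| := (abs_mul _ _).symm
    _ = |‖v‖ - ‖w‖| := by
        congr 1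
        linear_combination a2 - b2
    _ ≤ ‖v - w‖ := abs_norm_sub_norm_le v w

theorem sq_sub_le (v w : E) (hv : v ≠ 0) : ‖sq v - sq w‖ ≤ 2 * ‖v - w‖ / √‖v‖ := by
  have h1 : 0 < √‖v‖ := Real.sqrt_pos.2 (norm_pos_iff.2 hv)
  rw [le_div_iff₀ h1]
  have e : √‖v‖ • (sq v - sq w) = (v - w) - (√‖v‖ - √‖w‖) • sq w := by
    have e1 := urho_smul_sq v
    have e2 := urho_smul_sq w
    rw [smul_sub, sub_smul, e1, e2]
    abel
  have e3 : ‖√‖v‖ • (sq v - sq w)‖ = ‖sq v - sq w‖ * √‖v‖ := by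
    rw [norm_smul, Real.norm_of_nonneg h1.le, mul_comm]
  rw [← e3, e]
  have e4 : ‖(√‖v‖ - √‖w‖) • sq w‖ ≤ ‖v - w‖ := by
    rw [norm_smul, Real.norm_eq_abs, norm_sq_map]
    exact urho_sqrt_sub v w
  linarith [norm_sub_le (v - w) ((√‖v‖ - √‖w‖) • sq w)]

theorem le_sq_sub (v w : E) : ‖v - w‖ ≤ (√‖v‖ + √‖w‖) * ‖sq v - sq w‖ := by
  have e : v - w = √‖v‖ • (sq v - sq w) + (√‖v‖ - √‖w‖) • sq w := by
    have e1 := urho_smul_sq v
    have e2 := urho_smul_sq w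
    rw [smul_sub, sub_smul, e1, e2]
    abel
  have h1 : |√‖v‖ - √‖w‖| ≤ ‖sq v - sq w‖ := by
    rw [← norm_sq_map v, ← norm_sq_map w]
    exact abs_norm_sub_norm_le _ _
  have h2 := norm_add_le (√‖v‖ • (sq v - sq w)) ((√‖v‖ - √‖w‖) • sq w)
  rw [← e, norm_smul, norm_smul, Real.norm_of_nonneg (Real.sqrt_nonneg _), Real.norm_eq_abs,
    norm_sq_map] at h2
  have h3 : |√‖v‖ - √‖w‖| * √‖w‖ ≤ ‖sq v - sq w‖ * √‖w‖ :=
    mul_le_mul_of_nonneg_right h1 (Real.sqrt_nonneg _)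
  calc ‖v - w‖ ≤ √‖v‖ * ‖sq v - sq w‖ + |√‖v‖ - √‖w‖| * √‖w‖ := h2
    _ ≤ √‖v‖ * ‖sq v - sq w‖ + ‖sq v - sq w‖ * √‖w‖ := by linarith
    _ = _ := by ring

/-- sq is a bijection, with inverse w -> |w| w. -/
theorem sq_left (v : E) : ‖sq v‖ • sq v = v := by
  rw [norm_sq_map]
  exact urho_smul_sq v

theorem sq_right (w : E) : sq (‖w‖ • w) = w := by
  unfold sq
  rw [norm_smul, norm_norm, Real.sqrt_mul_self (norm_nonneg _), smul_smul]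
  by_cases hw : w = 0
  · subst hw
    simp
  · rw [inv_mul_cancel₀ (norm_pos_iff.2 hw).ne', one_smul]

private lemma urho_R (A T : ℝ) (hA : 0 ≤ A) (hT : 0 ≤ T) :
    A ≤ √(A ^ 2 + T) ∧ √T ≤ √(A ^ 2 + T) ∧ √(A ^ 2 + T) ≤ A + √T ∧
      (√(A ^ 2 + T) - A) * (√(A ^ 2 + T) + A) = T := by
  have hT0 := Real.sqrt_nonneg T
  have hTs := Real.sq_sqrt hT
  refine ⟨Real.le_sqrt_of_sq_le (by linarith), Real.sqrt_le_sqrt (by nlinarith), ?_, ?_⟩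
  · rw [Real.sqrt_le_left (by positivity)]
    nlinarith
  · have h := Real.sq_sqrt (show 0 ≤ A ^ 2 + T by positivity)
    linear_combination h

theorem rh_nonneg (p q : Hs ι κ × E) : 0 ≤ rh S p q := by
  unfold rh
  have hX := nsq_nonneg (S.rel p.1 q.1).1
  have hT := nsq_nonneg (S.rel p.1 q.1).2
  have hA : 0 ≤ nsq (S.rel p.1 q.1).1 + ‖p.2‖ ^ 2 + ‖q.2‖ ^ 2 := by positivity
  have h1 := (urho_R _ _ hA hT).1
  have h2 := norm_sub_sq_real p.2 q.2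
  have h3 := sq_nonneg ‖p.2 - q.2‖
  linarith

private lemma urho_up {ι : Type} [Fintype ι] (x : ι → ℝ) {r : ℝ} (h : ‖x‖ ≤ r) :
    nsq x ≤ (Fintype.card ι + 1) * r ^ 2 := by
  refine (nsq_le x).trans ?_
  gcongr

theorem rho0 : ∃ C : ℝ, 1 ≤ C ∧ ∀ p q : Hs ι κ × E, p.2 = 0 →
    √(√(rh S p q)) ≤ C * De0 S (p.1, sq p.2) (q.1, sq q.2) ∧
    De0 S (p.1, sq p.2) (q.1, sq q.2) ≤ C * √(√(rh S p q)) := by
  have hI : (0 : ℝ) ≤ Fintype.card ι := Nat.cast_nonneg _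
  have hJ : (0 : ℝ) ≤ Fintype.card κ := Nat.cast_nonneg _
  set c : ℝ := (Fintype.card ι + 1) + 1 + (Fintype.card κ + 1) with hc
  have hc1 : 1 ≤ c := by linarith
  refine ⟨c + 2, by linarith, ?_⟩
  intro p q hp
  set a := S.rel p.1 q.1 with ha
  set v := ‖q.2‖ with hv
  have hv0 : 0 ≤ v := norm_nonneg _
  have hg0 := gau_nonneg a
  set m := max (gau a) v with hm
  have hgm : gau a ≤ m := le_max_left _ _
  have hvm : v ≤ m := le_max_right _ _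
  have hm0 : 0 ≤ m := hv0.trans hvm
  -- the formula
  have hD : De0 S (p.1, sq p.2) (q.1, sq q.2) = √v + th (√v) a := by
    have e0 : sq p.2 = 0 := by
      rw [hp]
      simp [sq]
    unfold De0
    simp only [e0, zero_sub, norm_neg, norm_zero, norm_sq_map]
    rw [max_eq_right (Real.sqrt_nonneg _)]
  have hX := nsq_nonneg a.1
  have hT := nsq_nonneg a.2
  have hr : rh S p q = √((nsq a.1 + v ^ 2) ^ 2 + nsq a.2) := by
    unfold rh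
    rw [hp]
    simp [← ha, ← hv]
  have hA : 0 ≤ nsq a.1 + v ^ 2 := by positivity
  obtain ⟨r1, r2, r3, r4⟩ := urho_R _ _ hA hT
  rw [← hr] at r1 r2 r3 r4
  have hR0 : 0 ≤ rh S p q := hA.trans r1
  have hRs := Real.sq_sqrt hR0
  have hxX := norm_sq_le_nsq a.1
  have htT := norm_sq_le_nsq a.2
  -- lower bound
  have hlow : m ≤ √(rh S p q) := by
    apply max_le
    · rw [gau_le_iff (Real.sqrt_nonneg _)]
      constructor
      · apply Real.le_sqrt_of_sq_le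
        nlinarith
      · rw [hRs]
        refine le_trans ?_ r2
        exact Real.le_sqrt_of_sq_le htT
    · apply Real.le_sqrt_of_sq_le
      nlinarith
  have hlow2 : √m ≤ √(√(rh S p q)) := Real.sqrt_le_sqrt hlow
  -- upper bound
  have hxm : ‖a.1‖ ≤ m := (norm_fst_le_gau a).trans hgm
  have htm : ‖a.2‖ ≤ m ^ 2 := (norm_snd_le_gau_sq a).trans (pow_le_pow_left₀ hg0 hgm 2)
  have hXu := urho_up a.1 hxm
  have hTu := urho_up a.2 htm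
  have hv2 : v ^ 2 ≤ m ^ 2 := pow_le_pow_left₀ hv0 hvm 2
  have hTs : √(nsq a.2) ≤ (Fintype.card κ + 1) * m ^ 2 := by
    rw [Real.sqrt_le_left (by positivity)]
    refine hTu.trans ?_
    have h1 : (0 : ℝ) ≤ (m ^ 2) ^ 2 := by positivity
    nlinarith [mul_nonneg (mul_nonneg hJ hJ) h1, mul_nonneg hJ h1]
  have hup : rh S p q ≤ c * m ^ 2 := by
    rw [hc]
    nlinarith
  have hup1 : √(rh S p q) ≤ c * m := by
    rw [Real.sqrt_le_left (by positivity)]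
    have h1 : 0 ≤ m ^ 2 := by positivity
    nlinarith [mul_nonneg (mul_nonneg (sub_nonneg.2 hc1) (by linarith : 0 ≤ c)) h1]
  have hup2 : √(√(rh S p q)) ≤ c * √m := by
    rw [Real.sqrt_le_left (by positivity), mul_pow, Real.sq_sqrt hm0]
    nlinarith [mul_nonneg (mul_nonneg (sub_nonneg.2 hc1) (by linarith : 0 ≤ c)) hm0]
  have hsm0 := Real.sqrt_nonneg m
  -- De0
  have hvs := Real.sqrt_nonneg v
  have hth0 := th_nonneg hvs a
  have hD1 : √v + th (√v) a ≤ 2 * √m := by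
    have h1 : √v ≤ √m := Real.sqrt_le_sqrt hvm
    have h2 := th_le_sqrt_gau hvs a
    have h3 : √(gau a) ≤ √m := Real.sqrt_le_sqrt hgm
    linarith
  have hD2 : √m ≤ √v + th (√v) a := by
    rcases le_total (gau a) v with h | h
    · rw [hm, max_eq_right h]
      linarith
    · rw [hm, max_eq_left h]
      have h1 : (√v) ^ 2 ≤ gau a := by rwa [Real.sq_sqrt hv0]
      rw [th_of_large hvs a h1]
      linarith
  rw [hD]
  constructor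
  · nlinarith [mul_nonneg (by linarith : 0 ≤ c) (sub_nonneg.2 hD2)]
  · nlinarith [mul_nonneg (by linarith : 0 ≤ c) (Real.sqrt_nonneg (√(rh S p q)))]

private lemma urho_scalar {I J v D x t X T b R F : ℝ} (hI : 0 ≤ I) (hJ : 0 ≤ J)
    (hv : 0 < v) (hD : 0 ≤ D) (hx : 0 ≤ x) (ht : 0 ≤ t) (hxv : x ≤ v) (htv : t ≤ v ^ 2)
    (hX1 : x ^ 2 ≤ X) (hX2 : X ≤ (I + 1) * x ^ 2) (hT1 : t ^ 2 ≤ T) (hT2 : T ≤ (J + 1) * t ^ 2)
    (hb1 : v ^ 2 ≤ b) (hb2 : b ≤ 4 * v ^ 2)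
    (hR1 : X + b ≤ R) (hR2 : R ≤ X + b + √T) (hR3 : (R - (X + b)) * (R + (X + b)) = T)
    (hrh : F = D ^ 2 + X + (R - (X + b))) :
    √F ≤ (I + J + 2) * (D + x + t / v) ∧
      D + x + t / v ≤ 3 * (2 * (I + 5) + (J + 1)) * √F := by
  have hv2 : 0 < v ^ 2 := by positivity
  have hX0 : 0 ≤ X := (sq_nonneg x).trans hX1
  have hT0 : 0 ≤ T := (sq_nonneg t).trans hT1
  have hb0 : 0 ≤ b := hv2.le.trans hb1
  set y := t / v with hy
  have hyt : y * v = t := div_mul_cancel₀ t hv.ne'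
  have hy0 : 0 ≤ y := div_nonneg ht hv.le
  set c := 2 * (I + 5) + (J + 1) with hc
  have hc1 : 1 ≤ c := by linarith
  have hc0 : 0 ≤ c := by linarith
  set U := R - (X + b) with hU
  have hU0 : 0 ≤ U := by linarith
  -- sqrt T
  have hTs : √T ≤ (J + 1) * v ^ 2 := by
    rw [Real.sqrt_le_left (by positivity)]
    have h1 : t ^ 2 ≤ (v ^ 2) ^ 2 := pow_le_pow_left₀ ht htv 2
    have h2 : (0 : ℝ) ≤ (v ^ 2) ^ 2 := by positivity
    calc T ≤ (J + 1) * t ^ 2 := hT2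
      _ ≤ (J + 1) * (v ^ 2) ^ 2 := mul_le_mul_of_nonneg_left h1 (by linarith)
      _ ≤ ((J + 1) * v ^ 2) ^ 2 := by
          nlinarith [mul_nonneg (mul_nonneg hJ hJ) h2, mul_nonneg hJ h2]
  have hXv : X ≤ (I + 1) * v ^ 2 := by
    have h1 : x ^ 2 ≤ v ^ 2 := pow_le_pow_left₀ hx hxv 2
    exact hX2.trans (mul_le_mul_of_nonneg_left h1 (by linarith))
  have hden1 : v ^ 2 ≤ R + (X + b) := by linarith
  have hden2 : R + (X + b) ≤ c * v ^ 2 := by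
    rw [hc]
    nlinarith
  have hUT : U * v ^ 2 ≤ T := by
    rw [← hR3]
    exact mul_le_mul_of_nonneg_left hden1 hU0
  have hTU : T ≤ c * U * v ^ 2 := by
    calc T = U * (R + (X + b)) := hR3.symm
      _ ≤ U * (c * v ^ 2) := mul_le_mul_of_nonneg_left hden2 hU0
      _ = c * U * v ^ 2 := by ring
  -- U and y
  have hUy : U ≤ (J + 1) * y ^ 2 := by
    have h1 : U * v ^ 2 ≤ ((J + 1) * y ^ 2) * v ^ 2 := by
      calc U * v ^ 2 ≤ T := hUT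
        _ ≤ (J + 1) * t ^ 2 := hT2
        _ = ((J + 1) * y ^ 2) * v ^ 2 := by rw [← hyt]; ring
    exact le_of_mul_le_mul_right h1 hv2
  have hyU : y ^ 2 ≤ c * U := by
    have h1 : y ^ 2 * v ^ 2 ≤ (c * U) * v ^ 2 := by
      calc y ^ 2 * v ^ 2 = t ^ 2 := by rw [← hyt]; ring
        _ ≤ T := hT1
        _ ≤ _ := hTU
    exact le_of_mul_le_mul_right h1 hv2
  have hF0 : 0 ≤ F := by
    rw [hrh]
    positivity
  have hM0 : 0 ≤ D + x + y := by positivity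
  constructor
  · rw [Real.sqrt_le_left (by positivity)]
    have h1 : F ≤ (I + J + 2) * (D ^ 2 + x ^ 2 + y ^ 2) := by
      rw [hrh]
      nlinarith [mul_nonneg hI (sq_nonneg D), mul_nonneg hJ (sq_nonneg D), sq_nonneg D,
        mul_nonneg hJ (sq_nonneg x), sq_nonneg x, mul_nonneg hI (sq_nonneg y), sq_nonneg y]
    have h2 : D ^ 2 + x ^ 2 + y ^ 2 ≤ (D + x + y) ^ 2 := by
      nlinarith [mul_nonneg hD hx, mul_nonneg hD hy0, mul_nonneg hx hy0]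
    have h3 : 0 ≤ (D + x + y) ^ 2 := sq_nonneg _
    calc F ≤ (I + J + 2) * (D ^ 2 + x ^ 2 + y ^ 2) := h1
      _ ≤ (I + J + 2) * (D + x + y) ^ 2 := mul_le_mul_of_nonneg_left h2 (by linarith)
      _ ≤ (I + J + 2) ^ 2 * (D + x + y) ^ 2 := by
          apply mul_le_mul_of_nonneg_right _ h3
          nlinarith
      _ = _ := by ring
  · have h1 : (D + x + y) ^ 2 ≤ 3 * (D ^ 2 + x ^ 2 + y ^ 2) := by
      nlinarith [sq_nonneg (D - x), sq_nonneg (D - y), sq_nonneg (x - y)]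
    have h2 : D ^ 2 + x ^ 2 + y ^ 2 ≤ c * F := by
      rw [hrh]
      nlinarith [mul_nonneg (sub_nonneg.2 hc1) (sq_nonneg D), mul_nonneg (sub_nonneg.2 hc1) hX0]
    have h3 : (D + x + y) ^ 2 ≤ (3 * c) ^ 2 * F := by
      calc (D + x + y) ^ 2 ≤ 3 * (c * F) := by linarith
        _ ≤ (3 * c) ^ 2 * F := by
            nlinarith [mul_nonneg (mul_nonneg (sub_nonneg.2 hc1) hc0) hF0, mul_nonneg hc0 hF0]
    have h4 := Real.le_sqrt_of_sq_le h3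
    rwa [Real.sqrt_mul (by positivity), Real.sqrt_sq (by positivity)] at h4

theorem rho1 : ∃ C : ℝ, 1 ≤ C ∧ ∀ p q : Hs ι κ × E, p.2 ≠ 0 → ‖q.2 - p.2‖ ≤ ‖p.2‖ / 2 →
    gau (S.rel p.1 q.1) ≤ ‖p.2‖ →
    √(rh S p q) ≤ C * (√‖p.2‖ * De0 S (p.1, sq p.2) (q.1, sq q.2)) ∧
    √‖p.2‖ * De0 S (p.1, sq p.2) (q.1, sq q.2) ≤ C * √(rh S p q) := by
  set I : ℝ := (Fintype.card ι : ℝ) with hIdef
  set J : ℝ := (Fintype.card κ : ℝ) with hJdef
  have hI : (0 : ℝ) ≤ I := Nat.cast_nonneg _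
  have hJ : (0 : ℝ) ≤ J := Nat.cast_nonneg _
  set c := 3 * (2 * (I + 5) + (J + 1)) with hc
  refine ⟨16 * (I + J + 2) + 2 * c, by linarith, ?_⟩
  intro p q hp hpq hg
  set a := S.rel p.1 q.1 with ha
  have hv : 0 < ‖p.2‖ := norm_pos_iff.2 hp
  have hD : 0 ≤ ‖p.2 - q.2‖ := norm_nonneg _
  have hx : 0 ≤ ‖a.1‖ := norm_nonneg _
  have ht : 0 ≤ ‖a.2‖ := norm_nonneg _
  have hxv : ‖a.1‖ ≤ ‖p.2‖ := (norm_fst_le_gau a).trans hg
  have htv : ‖a.2‖ ≤ ‖p.2‖ ^ 2 :=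
    (norm_snd_le_gau_sq a).trans (pow_le_pow_left₀ (gau_nonneg a) hg 2)
  have hw0 : 0 ≤ ‖q.2‖ := norm_nonneg _
  have hw : ‖q.2‖ ≤ 3 / 2 * ‖p.2‖ := by
    have h1 : ‖q.2‖ ≤ ‖p.2‖ + ‖q.2 - p.2‖ := norm_le_norm_add_norm_sub' q.2 p.2
    linarith
  have hX := nsq_nonneg a.1
  have hT := nsq_nonneg a.2
  have hb2 : ‖p.2‖ ^ 2 + ‖q.2‖ ^ 2 ≤ 4 * ‖p.2‖ ^ 2 := by nlinarith
  have hA : 0 ≤ nsq a.1 + (‖p.2‖ ^ 2 + ‖q.2‖ ^ 2) := by positivity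
  obtain ⟨r1, r2, r3, r4⟩ := urho_R _ _ hA hT
  have hrh : rh S p q = ‖p.2 - q.2‖ ^ 2 + nsq a.1 +
      (√((nsq a.1 + (‖p.2‖ ^ 2 + ‖q.2‖ ^ 2)) ^ 2 + nsq a.2) -
        (nsq a.1 + (‖p.2‖ ^ 2 + ‖q.2‖ ^ 2))) := by
    unfold rh
    rw [← ha, norm_sub_sq_real, ← add_assoc]
    ring
  obtain ⟨m1, m2⟩ := urho_scalar hI hJ hv hD hx ht hxv htv (norm_sq_le_nsq a.1) (nsq_le a.1)
    (norm_sq_le_nsq a.2) (nsq_le a.2) (by nlinarith) hb2 r1 r3 r4 hrh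
  rw [← hc] at m2
  -- the scale
  set σ := √‖p.2‖ with hσ
  have hσ0 : 0 < σ := Real.sqrt_pos.2 hv
  have hσ2 : σ ^ 2 = ‖p.2‖ := Real.sq_sqrt hv.le
  set s := max σ (√‖q.2‖) with hs
  have hs1 : σ ≤ s := le_max_left _ _
  have hq2 : √‖q.2‖ ≤ 2 * σ := by
    rw [Real.sqrt_le_left (by positivity), mul_pow, hσ2]
    linarith
  have hs2 : s ≤ 2 * σ := max_le (by linarith) hq2
  have hs0 : 0 < s := hσ0.trans_le hs1
  have hgs : gau a ≤ s ^ 2 := by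
    calc gau a ≤ ‖p.2‖ := hg
      _ = σ ^ 2 := hσ2.symm
      _ ≤ s ^ 2 := pow_le_pow_left₀ hσ0.le hs1 2
  have hth : th s a = max (‖a.1‖ / s) (‖a.2‖ / s ^ 3) := th_of_small hs0 a hgs
  have hth0 := th_nonneg hs0.le a
  have hDe : De0 S (p.1, sq p.2) (q.1, sq q.2) = ‖sq p.2 - sq q.2‖ + th s a := by
    unfold De0
    simp only [norm_sq_map]
    rfl
  have hy0 : 0 ≤ ‖a.2‖ / ‖p.2‖ := div_nonneg ht hv.le
  -- upper bound of σ th
  have hu : σ * th s a ≤ ‖a.1‖ + ‖a.2‖ / ‖p.2‖ := by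
    rw [hth, mul_max_of_nonneg _ _ hσ0.le]
    apply max_le
    · have h1 : σ * (‖a.1‖ / s) ≤ ‖a.1‖ := by
        rw [← mul_div_assoc, div_le_iff₀ hs0, mul_comm]
        exact mul_le_mul_of_nonneg_left hs1 hx
      linarith
    · have h1 : σ * (‖a.2‖ / s ^ 3) ≤ ‖a.2‖ / ‖p.2‖ := by
        rw [← mul_div_assoc, div_le_div_iff₀ (by positivity) hv, ← hσ2]
        have h3 : σ ^ 3 ≤ s ^ 3 := pow_le_pow_left₀ hσ0.le hs1 3
        calc σ * ‖a.2‖ * σ ^ 2 = ‖a.2‖ * σ ^ 3 := by ring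
          _ ≤ ‖a.2‖ * s ^ 3 := mul_le_mul_of_nonneg_left h3 ht
      linarith
  have hl1 : ‖a.1‖ ≤ 2 * (σ * th s a) := by
    have h1 : ‖a.1‖ / s ≤ th s a := by
      rw [hth]
      exact le_max_left _ _
    rw [div_le_iff₀ hs0] at h1
    calc ‖a.1‖ ≤ th s a * s := h1
      _ ≤ th s a * (2 * σ) := mul_le_mul_of_nonneg_left hs2 hth0
      _ = _ := by ring
  have hl2 : ‖a.2‖ / ‖p.2‖ ≤ 8 * (σ * th s a) := by
    have h1 : ‖a.2‖ / s ^ 3 ≤ th s a := by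
      rw [hth]
      exact le_max_right _ _
    rw [div_le_iff₀ (by positivity)] at h1
    rw [div_le_iff₀ hv, ← hσ2]
    have h3 : s ^ 3 ≤ (2 * σ) ^ 3 := pow_le_pow_left₀ hs0.le hs2 3
    calc ‖a.2‖ ≤ th s a * s ^ 3 := h1
      _ ≤ th s a * (2 * σ) ^ 3 := mul_le_mul_of_nonneg_left h3 hth0
      _ = _ := by ring
  -- the vertical part
  have hd0 : 0 ≤ ‖sq p.2 - sq q.2‖ := norm_nonneg _
  have hd1 : σ * ‖sq p.2 - sq q.2‖ ≤ 2 * ‖p.2 - q.2‖ := by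
    have h1 := sq_sub_le p.2 q.2 hp
    rw [le_div_iff₀ hσ0] at h1
    linarith
  have hd2 : ‖p.2 - q.2‖ ≤ 3 * (σ * ‖sq p.2 - sq q.2‖) := by
    have h1 := le_sq_sub p.2 q.2
    calc ‖p.2 - q.2‖ ≤ (σ + √‖q.2‖) * ‖sq p.2 - sq q.2‖ := h1
      _ ≤ (3 * σ) * ‖sq p.2 - sq q.2‖ := mul_le_mul_of_nonneg_right (by linarith) hd0
      _ = _ := by ring
  rw [hDe]
  set M := ‖p.2 - q.2‖ + ‖a.1‖ + ‖a.2‖ / ‖p.2‖ with hM
  have hM0 : 0 ≤ M := by positivity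
  have hW0 : 0 ≤ σ * (‖sq p.2 - sq q.2‖ + th s a) := by positivity
  have hM1 : M ≤ 16 * (σ * (‖sq p.2 - sq q.2‖ + th s a)) := by
    have e0 : σ * (‖sq p.2 - sq q.2‖ + th s a) = σ * ‖sq p.2 - sq q.2‖ + σ * th s a := by ring
    have e1 : 0 ≤ σ * ‖sq p.2 - sq q.2‖ := by positivity
    have e2 : 0 ≤ σ * th s a := by positivity
    rw [e0]
    linarith
  have hM2 : σ * (‖sq p.2 - sq q.2‖ + th s a) ≤ 2 * M := by
    have e0 : σ * (‖sq p.2 - sq q.2‖ + th s a) = σ * ‖sq p.2 - sq q.2‖ + σ * th s a := by ring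
    rw [e0]
    linarith
  have hF0 := Real.sqrt_nonneg (rh S p q)
  have hIJ : 0 ≤ I + J + 2 := by linarith
  have hc0 : 0 ≤ c := by linarith
  constructor
  · calc √(rh S p q) ≤ (I + J + 2) * M := m1
      _ ≤ (I + J + 2) * (16 * (σ * (‖sq p.2 - sq q.2‖ + th s a))) :=
          mul_le_mul_of_nonneg_left hM1 hIJ
      _ ≤ (16 * (I + J + 2) + 2 * c) * (σ * (‖sq p.2 - sq q.2‖ + th s a)) := by
          nlinarith [mul_nonneg hc0 hW0]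
  · calc σ * (‖sq p.2 - sq q.2‖ + th s a) ≤ 2 * M := hM2
      _ ≤ 2 * (c * √(rh S p q)) := by linarith
      _ ≤ (16 * (I + J + 2) + 2 * c) * √(rh S p q) := by
          nlinarith [mul_nonneg hIJ hF0]

end Pool.UQC
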