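import Pool.Agent.UQC.Core
import Pool.Agent.UQC.Rho
import Pool.Agent.UQC.CayDef

/-!
MODULE Phi (problem MP_7936f4_al).  Assembly: the global chart Phi of N x E.  COMPLETE PAPER PROOF.
Uses core (Core), rho0, rho1, sq_left, sq_right (Rho).

S = Sq m, (J, Ψ, C) from core S, E = EuclideanSpace ℝ J.  Φ a := L (Ψ (a.1, sq a.2)), where L is a continuous linear
equivalence Hs × E ≃ EuclideanSpace ℝ (Fin N), N = finrank (Hs × E) = 4 m + 3 + card J >= 2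
(ContinuousLinearEquiv.ofFinrankEq), bilipschitz; a ↦ (a.1, sq a.2) is a bijection (sq_left, sq_right).
So ‖Φ a - Φ b‖ is comparable with De0 (a.1, sq a.2) (b.1, sq b.2) for all a, b.  Combine with rho0, rho1.
For the second one: gau (rel a.1 b.1) -> 0 as b -> a (|b.1.1-a.1.1| -> 0 and rel_2 = b.1.2 - a.1.2 - om a.1.1 (b.1.1 - a.1.1),
of norm <= ‖b-a‖ (1 + K ‖a‖)), so for ‖b - a‖ < ε small both hypotheses of rho1 hold.
-/

open scoped Quaternion Matrix RealInnerProductSpace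

namespace Pool.UQC

namespace PhiAux

lemma continuous_om {ι κ : Type} [Fintype ι] [Fintype κ] (S : Str ι κ) (x : ι → ℝ) :
    Continuous (fun y => S.om x y) := by
  unfold Str.om
  fun_prop

lemma continuous_gau_rel {ι κ : Type} [Fintype ι] [Fintype κ] (S : Str ι κ) (p : Hs ι κ) :
    Continuous (fun q => gau (S.rel p q)) := by
  have h := continuous_om S p.1
  unfold gau Str.rel
  fun_prop

/-- the squeeze map as a bijection -/
noncomputable def sqe (E : Type) [NormedAddCommGroup E] [InnerProductSpace ℝ E] : E ≃ E where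
  toFun := sq
  invFun := fun w => ‖w‖ • w
  left_inv := fun v => sq_left v
  right_inv := fun w => sq_right w

lemma sqe_apply (E : Type) [NormedAddCommGroup E] [InnerProductSpace ℝ E] (v : E) :
    sqe E v = sq v := rfl

end PhiAux

open PhiAux

theorem exists_Phi (m : ℕ) :
    ∃ (J : Type) (_ : Fintype J) (_ : Nonempty J) (N : ℕ)
      (Φ : (Hs (Fin m × Fin 4) (Fin 3) × EuclideanSpace ℝ J) ≃ EuclideanSpace ℝ (Fin N)) (C : ℝ),
      2 ≤ N ∧ 1 ≤ C ∧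
      (∀ a b, a.2 = 0 → √(√(rh (Sq m) a b)) ≤ C * ‖Φ a - Φ b‖ ∧
        ‖Φ a - Φ b‖ ≤ C * √(√(rh (Sq m) a b))) ∧
      (∀ a, a.2 ≠ 0 → ∃ ε > 0, ∀ b, ‖b - a‖ < ε →
        √(rh (Sq m) a b) ≤ C * (√‖a.2‖ * ‖Φ a - Φ b‖) ∧
        √‖a.2‖ * ‖Φ a - Φ b‖ ≤ C * √(rh (Sq m) a b)) := by
  obtain ⟨J, hJ, hJn, Ψ, C0, hC0, hΨ⟩ := core (Sq m)
  obtain ⟨C1, hC1, h1⟩ := rho0 (Sq m) (E := EuclideanSpace ℝ J)
  obtain ⟨C2, hC2, h2⟩ := rho1 (Sq m) (E := EuclideanSpace ℝ J)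
  have hfin : Module.finrank ℝ (Hs (Fin m × Fin 4) (Fin 3) × EuclideanSpace ℝ J) =
      m * 4 + 3 + Fintype.card J := by
    simp [Module.finrank_prod]
  let N : ℕ := m * 4 + 3 + Fintype.card J
  let L : (Hs (Fin m × Fin 4) (Fin 3) × EuclideanSpace ℝ J) ≃L[ℝ] EuclideanSpace ℝ (Fin N) :=
    ContinuousLinearEquiv.ofFinrankEq (by rw [hfin, finrank_euclideanSpace_fin])
  let CL : ℝ := max 1 (max ‖(L : (Hs (Fin m × Fin 4) (Fin 3) × EuclideanSpace ℝ J) →L[ℝ]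
      EuclideanSpace ℝ (Fin N))‖ ‖(L.symm : EuclideanSpace ℝ (Fin N) →L[ℝ]
      (Hs (Fin m × Fin 4) (Fin 3) × EuclideanSpace ℝ J))‖)
  have hCL : 1 ≤ CL := le_max_left _ _
  have hL : ∀ v, ‖L v‖ ≤ CL * ‖v‖ := by
    intro v
    have h := (L : (Hs (Fin m × Fin 4) (Fin 3) × EuclideanSpace ℝ J) →L[ℝ]
      EuclideanSpace ℝ (Fin N)).le_opNorm v
    refine h.trans (mul_le_mul_of_nonneg_right ?_ (norm_nonneg _))
    exact (le_max_left _ _).trans (le_max_right _ _)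
  have hL' : ∀ v, ‖v‖ ≤ CL * ‖L v‖ := by
    intro v
    have h := (L.symm : EuclideanSpace ℝ (Fin N) →L[ℝ]
      (Hs (Fin m × Fin 4) (Fin 3) × EuclideanSpace ℝ J)).le_opNorm (L v)
    have h' : (L.symm : EuclideanSpace ℝ (Fin N) →L[ℝ]
      (Hs (Fin m × Fin 4) (Fin 3) × EuclideanSpace ℝ J)) (L v) = v := L.symm_apply_apply v
    rw [h'] at h
    refine h.trans (mul_le_mul_of_nonneg_right ?_ (norm_nonneg _))
    exact (le_max_right _ _).trans (le_max_right _ _)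
  let Φ : (Hs (Fin m × Fin 4) (Fin 3) × EuclideanSpace ℝ J) ≃ EuclideanSpace ℝ (Fin N) :=
    ((Equiv.prodCongr (Equiv.refl _) (sqe (EuclideanSpace ℝ J))).trans Ψ).trans L.toEquiv
  have hΦ : ∀ a, Φ a = L (Ψ (a.1, sq a.2)) := fun a => rfl
  have hD : ∀ a b, De0 (Sq m) (a.1, sq a.2) (b.1, sq b.2) ≤ C0 * CL * ‖Φ a - Φ b‖ ∧
      ‖Φ a - Φ b‖ ≤ C0 * CL * De0 (Sq m) (a.1, sq a.2) (b.1, sq b.2) := by
    intro a b
    obtain ⟨hu, hl⟩ := hΨ (a.1, sq a.2) (b.1, sq b.2)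
    have e1 : Φ a - Φ b = L (Ψ (a.1, sq a.2) - Ψ (b.1, sq b.2)) := by
      rw [hΦ, hΦ, map_sub]
    have h3 := hL (Ψ (a.1, sq a.2) - Ψ (b.1, sq b.2))
    have h4 := hL' (Ψ (a.1, sq a.2) - Ψ (b.1, sq b.2))
    rw [← e1] at h3 h4
    constructor
    · calc De0 (Sq m) (a.1, sq a.2) (b.1, sq b.2)
          ≤ C0 * ‖Ψ (a.1, sq a.2) - Ψ (b.1, sq b.2)‖ := hu
        _ ≤ C0 * (CL * ‖Φ a - Φ b‖) := mul_le_mul_of_nonneg_left h4 (by linarith)
        _ = C0 * CL * ‖Φ a - Φ b‖ := by ring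
    · calc ‖Φ a - Φ b‖ ≤ CL * ‖Ψ (a.1, sq a.2) - Ψ (b.1, sq b.2)‖ := h3
        _ ≤ CL * (C0 * De0 (Sq m) (a.1, sq a.2) (b.1, sq b.2)) :=
          mul_le_mul_of_nonneg_left hl (by linarith)
        _ = C0 * CL * De0 (Sq m) (a.1, sq a.2) (b.1, sq b.2) := by ring
  have hK : 1 ≤ C0 * CL := one_le_mul_of_one_le_of_one_le hC0 hCL
  have hK0 : 0 ≤ C0 * CL := by linarith
  have hC12 : 1 ≤ C1 * C2 := one_le_mul_of_one_le_of_one_le hC1 hC2
  have hC1' : C1 ≤ C1 * C2 := le_mul_of_one_le_right (by linarith) hC2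
  have hC2' : C2 ≤ C1 * C2 := le_mul_of_one_le_left (by linarith) hC1
  refine ⟨J, hJ, hJn, N, Φ, C0 * CL * (C1 * C2), ?_,
    one_le_mul_of_one_le_of_one_le hK hC12, ?_, ?_⟩
  · show 2 ≤ m * 4 + 3 + Fintype.card J
    omega
  · intro a b ha
    obtain ⟨h3, h4⟩ := h1 a b ha
    obtain ⟨h5, h6⟩ := hD a b
    have hn := norm_nonneg (Φ a - Φ b)
    have hs := Real.sqrt_nonneg (√(rh (Sq m) a b))
    constructor
    · calc √(√(rh (Sq m) a b)) ≤ C1 * De0 (Sq m) (a.1, sq a.2) (b.1, sq b.2) := h3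
        _ ≤ C1 * (C0 * CL * ‖Φ a - Φ b‖) := mul_le_mul_of_nonneg_left h5 (by linarith)
        _ ≤ (C1 * C2) * (C0 * CL * ‖Φ a - Φ b‖) :=
          mul_le_mul_of_nonneg_right hC1' (mul_nonneg hK0 hn)
        _ = C0 * CL * (C1 * C2) * ‖Φ a - Φ b‖ := by ring
    · calc ‖Φ a - Φ b‖ ≤ C0 * CL * De0 (Sq m) (a.1, sq a.2) (b.1, sq b.2) := h6
        _ ≤ C0 * CL * (C1 * √(√(rh (Sq m) a b))) := mul_le_mul_of_nonneg_left h4 hK0
        _ ≤ C0 * CL * ((C1 * C2) * √(√(rh (Sq m) a b))) :=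
          mul_le_mul_of_nonneg_left (mul_le_mul_of_nonneg_right hC1' hs) hK0
        _ = C0 * CL * (C1 * C2) * √(√(rh (Sq m) a b)) := by ring
  · intro a ha
    have ha0 : 0 < ‖a.2‖ := norm_pos_iff.2 ha
    have hcont := (continuous_gau_rel (Sq m) a.1).tendsto a.1
    have hg0 : gau ((Sq m).rel a.1 a.1) = 0 := by
      rw [(Sq m).rel_self]
      simp [gau]
    rw [hg0] at hcont
    obtain ⟨δ, hδ, hδ2⟩ := Metric.tendsto_nhds_nhds.1 hcont ‖a.2‖ ha0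
    refine ⟨min δ (‖a.2‖ / 2), lt_min hδ (by linarith), ?_⟩
    intro b hb
    have hb1 : ‖b.1 - a.1‖ ≤ ‖b - a‖ := by
      rw [← Prod.fst_sub]
      exact norm_fst_le _
    have hb2 : ‖b.2 - a.2‖ ≤ ‖b - a‖ := by
      rw [← Prod.snd_sub]
      exact norm_snd_le _
    have hc1 : gau ((Sq m).rel a.1 b.1) ≤ ‖a.2‖ := by
      have h3 := hδ2 (x := b.1) (by
        rw [dist_eq_norm]
        exact lt_of_le_of_lt hb1 (lt_of_lt_of_le hb (min_le_left _ _)))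
      rw [Real.dist_eq, sub_zero] at h3
      exact (le_abs_self _).trans h3.le
    have hc2 : ‖b.2 - a.2‖ ≤ ‖a.2‖ / 2 := hb2.trans (hb.le.trans (min_le_right _ _))
    obtain ⟨h3, h4⟩ := h2 a b ha hc2 hc1
    obtain ⟨h5, h6⟩ := hD a b
    have hn := norm_nonneg (Φ a - Φ b)
    have hs := Real.sqrt_nonneg (rh (Sq m) a b)
    have hq := Real.sqrt_nonneg ‖a.2‖
    constructor
    · calc √(rh (Sq m) a b) ≤ C2 * (√‖a.2‖ * De0 (Sq m) (a.1, sq a.2) (b.1, sq b.2)) := h3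
        _ ≤ C2 * (√‖a.2‖ * (C0 * CL * ‖Φ a - Φ b‖)) :=
          mul_le_mul_of_nonneg_left (mul_le_mul_of_nonneg_left h5 hq) (by linarith)
        _ ≤ (C1 * C2) * (√‖a.2‖ * (C0 * CL * ‖Φ a - Φ b‖)) :=
          mul_le_mul_of_nonneg_right hC2' (mul_nonneg hq (mul_nonneg hK0 hn))
        _ = C0 * CL * (C1 * C2) * (√‖a.2‖ * ‖Φ a - Φ b‖) := by ring
    · calc √‖a.2‖ * ‖Φ a - Φ b‖
          ≤ √‖a.2‖ * (C0 * CL * De0 (Sq m) (a.1, sq a.2) (b.1, sq b.2)) :=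
            mul_le_mul_of_nonneg_left h6 hq
        _ = C0 * CL * (√‖a.2‖ * De0 (Sq m) (a.1, sq a.2) (b.1, sq b.2)) := by ring
        _ ≤ C0 * CL * (C2 * √(rh (Sq m) a b)) := mul_le_mul_of_nonneg_left h4 hK0
        _ ≤ C0 * CL * ((C1 * C2) * √(rh (Sq m) a b)) :=
          mul_le_mul_of_nonneg_left (mul_le_mul_of_nonneg_right hC2' hs) hK0
        _ = C0 * CL * (C1 * C2) * √(rh (Sq m) a b) := by ring

end Pool.UQC
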