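import Pool.Agent.UQC.Basic

/-!
Definitions: the square of the distance kernel rh, the squeeze map sq.
-/

namespace Pool.UQC

/-- Euclidean norm squared of a coordinate vector. -/
def nsq {ι : Type} [Fintype ι] (x : ι → ℝ) : ℝ := ∑ i, x i ^ 2

variable {ι κ : Type} [Fintype ι] [Fintype κ]

open scoped RealInnerProductSpace

/-- squared kernel distance between (x,v) and (x2,v2). -/
noncomputable def rh (S : Str ι κ) {E : Type} [NormedAddCommGroup E] [InnerProductSpace ℝ E]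
    (p q : Hs ι κ × E) : ℝ :=
  √((nsq (S.rel p.1 q.1).1 + ‖p.2‖ ^ 2 + ‖q.2‖ ^ 2) ^ 2 + nsq (S.rel p.1 q.1).2)
    - 2 * ⟪p.2, q.2⟫

/-- v / sqrt |v|. -/
noncomputable def sq {E : Type} [NormedAddCommGroup E] [NormedSpace ℝ E] (v : E) : E :=
  (√‖v‖)⁻¹ • v

end Pool.UQC
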