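import Pool.Agent.UQC.SpDef

/-!
Short forms of the objects of the final statement.
-/

open scoped Quaternion Matrix RealInnerProductSpace

namespace Pool.UQC

/-- Square quaternionic matrices of size n. -/
def QMat (n : ℕ) : Type := Matrix (Fin n) (Fin n) ℍ[ℝ]

noncomputable instance (n : ℕ) : Ring (QMat n) :=
  inferInstanceAs (Ring (Matrix (Fin n) (Fin n) ℍ[ℝ]))

noncomputable instance (n : ℕ) : TopologicalSpace (QMat n) :=
  inferInstanceAs (TopologicalSpace (Matrix (Fin n) (Fin n) ℍ[ℝ]))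

/-- Conjugate transpose. -/
def QMat.ct {n : ℕ} (g : QMat n) : QMat n :=
  fun i j => star ((g : Matrix (Fin n) (Fin n) ℍ[ℝ]) j i)

/-- The matrix diag(1,...,1,-1) of size n+1. -/
noncomputable def QMat.J (n : ℕ) : QMat (n + 1) := Jm n

/-- g* J g = J. -/
def IsSp {n : ℕ} (g : QMat (n + 1)) : Prop := g.ct * QMat.J n * g = QMat.J n

theorem isSp_iff {n : ℕ} (g : (Matrix (Fin (n + 1)) (Fin (n + 1)) ℍ[ℝ])ˣ) :
    IsSp (n := n) g.1 ↔ g ∈ Spn n := Iff.rfl

theorem isSp_mul (n : ℕ) {a b : (QMat (n + 1))ˣ} (ha : IsSp a.1) (hb : IsSp b.1) :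
    IsSp (a * b).1 := (Spn n).mul_mem (x := a) (y := b) ha hb

theorem isSp_one (n : ℕ) : IsSp (1 : (QMat (n + 1))ˣ).1 := (Spn n).one_mem

theorem isSp_inv (n : ℕ) {a : (QMat (n + 1))ˣ} (ha : IsSp a.1) : IsSp (a⁻¹).1 :=
  (Spn n).inv_mem (x := a) ha

/-- The group Sp(n,1), with the topology of invertible quaternionic matrices. -/
def SpG (n : ℕ) : Subgroup (QMat (n + 1))ˣ where
  carrier := {g | IsSp g.1}
  mul_mem' := isSp_mul n
  one_mem' := isSp_one n
  inv_mem' := isSp_inv n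

/-- The type of elements of Sp(n,1). -/
def SpT (n : ℕ) : Type := SpG n

noncomputable instance (n : ℕ) : Group (SpT n) := inferInstanceAs (Group (SpG n))

noncomputable instance (n : ℕ) : TopologicalSpace (SpT n) :=
  inferInstanceAs (TopologicalSpace (SpG n))

/-- The matrix of an element of Sp(n,1). -/
def SpT.mat {n : ℕ} (g : SpT n) : QMat (n + 1) := Units.val (Subtype.val (p := fun g => g ∈ SpG n) g)

/-- The unit sphere of Euclidean R^(N+1). -/
def Sph (N : ℕ) : Type := Metric.sphere (0 : EuclideanSpace ℝ (Fin (N + 1))) 1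

noncomputable instance (N : ℕ) : MetricSpace (Sph N) :=
  inferInstanceAs (MetricSpace (Metric.sphere (0 : EuclideanSpace ℝ (Fin (N + 1))) 1))

/-- The group of homeomorphisms of S^N. -/
def HomeoS (N : ℕ) : Type := Sph N ≃ₜ Sph N

noncomputable instance (N : ℕ) : Group (HomeoS N) := inferInstanceAs (Group (Sph N ≃ₜ Sph N))

/-- The value f x. -/
def HomeoS.app {N : ℕ} (f : HomeoS N) (x : Sph N) : Sph N := Homeomorph.toEquiv f x

/-- Homomorphisms from Sp(n,1) to the homeomorphism group of S^N. -/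
abbrev Act (n N : ℕ) : Type := SpT n →* HomeoS N

/-- The matrix g is 1 or -1. -/
def PM {n : ℕ} (g : SpT n) : Prop := g.mat = 1 ∨ g.mat = -1

/-- The action is jointly continuous. -/
def ContAct {n N : ℕ} (ρ : Act n N) : Prop :=
  Continuous fun a : SpT n × Sph N => (ρ a.1).app a.2

/-- All rho(g) are H-quasiconformal. -/
def UnifQC {n N : ℕ} (ρ : Act n N) (H : ℝ) : Prop := ∀ g, MetricQC H (ρ g).app

/-- The kernel is {1,-1}. -/
def KerPM {n N : ℕ} (ρ : Act n N) : Prop := ∀ g, ρ g = 1 ↔ PM g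

/-- Discrete subgroups act discretely (modulo {1,-1}). -/
def DiscAct {n N : ℕ} (ρ : Act n N) : Prop :=
  ∀ G : Subgroup (SpT n), DiscreteTopology G →
    ∃ ε > 0, ∀ g ∈ G, (∀ x, dist ((ρ g).app x) x < ε) → PM g

end Pool.UQC
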